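import Pool.Agent.Lib_helper82.KZ.Defs
set_option autoImplicit false
open Filter Topology Metric Set
open scoped Manifold ContDiff
namespace Pool.Agent.KZ
open Pool.Agent.BR Pool.Agent.MBS Pool.Agent.SL Pool.Agent.IS

/-- SCH: the Schwarz lemma of order `M` on the closed unit disc -/
theorem schwarz_disc_pr {f : ℂ → ℂ} {B : ℝ} {M : ℕ}
    (hf : ∀ ζ ∈ closedBall (0 : ℂ) 1, AnalyticAt ℂ f ζ)
    (hB : ∀ ζ ∈ closedBall (0 : ℂ) 1, ‖f ζ‖ ≤ B) (h0 : ∀ k < M, iteratedDeriv k f 0 = 0) :
    ∀ ζ ∈ closedBall (0 : ℂ) 1, ‖f ζ‖ ≤ B * ‖ζ‖ ^ M := by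
  have hf0 : AnalyticAt ℂ f 0 := hf 0 (mem_closedBall_self zero_le_one)
  obtain ⟨g, hg, hfg⟩ := (natCast_le_analyticOrderAt hf0).mp
    ((natCast_le_analyticOrderAt_iff_iteratedDeriv_eq_zero hf0).mpr h0)
  set G : ℂ → ℂ := fun z => if z = 0 then g 0 else f z / z ^ M with hG
  have hG0 : G =ᶠ[𝓝 0] g := by
    filter_upwards [hfg] with z hz
    by_cases h : z = 0
    · simp [hG, h]
    · simp only [hG, if_neg h, hz, sub_zero, smul_eq_mul]
      field_simp
  have hGa : ∀ ζ ∈ closedBall (0 : ℂ) 1, AnalyticAt ℂ G ζ := by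
    intro ζ hζ
    by_cases h : ζ = 0
    · subst h
      exact hg.congr hG0.symm
    · have h1 : (fun z => f z / z ^ M) =ᶠ[𝓝 ζ] G := by
        filter_upwards [isOpen_ne.mem_nhds h] with z hz
        simp [hG, if_neg (show z ≠ 0 from hz)]
      exact ((hf ζ hζ).div (analyticAt_id.pow M) (by simpa using pow_ne_zero M h)).congr h1
  have hd : DiffContOnCl ℂ G (ball (0 : ℂ) 1) := by
    refine ⟨fun z hz => (hGa z (ball_subset_closedBall hz)).differentiableAt.differentiableWithinAt,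
      ?_⟩
    rw [closure_ball _ one_ne_zero]
    exact fun z hz => (hGa z hz).continuousAt.continuousWithinAt
  have hbd : ∀ ζ ∈ closedBall (0 : ℂ) 1, ‖G ζ‖ ≤ B := by
    intro ζ hζ
    refine Complex.norm_le_of_forall_mem_frontier_norm_le isBounded_ball hd (fun z hz => ?_)
      (by rwa [closure_ball _ one_ne_zero])
    rw [frontier_ball _ one_ne_zero] at hz
    have hz1 : ‖z‖ = 1 := by simpa using hz
    have hz0 : z ≠ 0 := by
      intro h
      simp [h] at hz1
    simp only [hG, if_neg hz0, norm_div, norm_pow, hz1, one_pow, div_one]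
    exact hB z (sphere_subset_closedBall hz)
  intro ζ hζ
  by_cases h : ζ = 0
  · subst h
    rcases Nat.eq_zero_or_pos M with hM | hM
    · subst hM
      simpa using hB 0 hζ
    · have : f 0 = 0 := by simpa using h0 0 hM
      simp [this, hM.ne']
  · have h1 := hbd ζ hζ
    simp only [hG, if_neg h, norm_div, norm_pow] at h1
    rw [div_le_iff₀ (pow_pos (norm_pos_iff.mpr h) M)] at h1
    exact h1

end Pool.Agent.KZ

namespace Pool.Agent.KZ

alias schwarz_disc := schwarz_disc_pr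

end Pool.Agent.KZ
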