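import Pool.Agent.Lib_helper82.KZ.Defs
import Pool.Agent.Lib_helper82.KZ.P.SCH

set_option autoImplicit false
set_option linter.unusedVariables false
set_option linter.unusedSectionVars false

open Filter Topology Metric Set
open scoped Manifold ContDiff BoundedContinuousFunction

namespace Pool.Agent.KZ

/-- the second order remainder of a bounded function on a disc -/
theorem cv1_disc {g : ℂ → ℂ} {C : ℝ} (hg : ∀ t ∈ closedBall (0 : ℂ) 1, AnalyticAt ℂ g t)
    (hC : ∀ t ∈ closedBall (0 : ℂ) 1, ‖g t‖ ≤ C) (t : ℂ) (ht : t ∈ closedBall (0 : ℂ) 1) :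
    ‖deriv g 0‖ ≤ C ∧ ‖g t - g 0 - t * deriv g 0‖ ≤ 3 * C * ‖t‖ ^ 2 := by
  have h0 : (0 : ℂ) ∈ closedBall (0 : ℂ) 1 := by simp
  have hC0 : 0 ≤ C := (norm_nonneg _).trans (hC 0 h0)
  have hd : ‖deriv g 0‖ ≤ C := by
    have h1 := Complex.norm_deriv_le_of_forall_mem_sphere_norm_le (c := (0 : ℂ)) (R := 1) (C := C)
      (f := g) one_pos (by
        refine DifferentiableOn.diffContOnCl ?_
        rw [closure_ball _ one_ne_zero]
        exact fun z hz => (hg z hz).differentiableAt.differentiableWithinAt)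
      (fun z hz => hC z (sphere_subset_closedBall hz))
    simpa using h1
  refine ⟨hd, ?_⟩
  obtain ⟨G, hG⟩ : ∃ G : ℂ → ℂ, G = fun t => g t - g 0 - t * deriv g 0 := ⟨_, rfl⟩
  have hGa : ∀ t ∈ closedBall (0 : ℂ) 1, AnalyticAt ℂ G t := by
    intro t ht
    rw [hG]
    exact ((hg t ht).sub analyticAt_const).sub (analyticAt_id.mul analyticAt_const)
  have h1 := schwarz_disc_pr (f := G) (B := 3 * C) (M := 2) hGa (fun s hs => by
      rw [hG]
      have h2 := hC s hs
      have h3 := hC 0 h0
      have h4 : ‖s * deriv g 0‖ ≤ C := by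
        rw [norm_mul]
        have : ‖s‖ ≤ 1 := by simpa using hs
        nlinarith [norm_nonneg s, norm_nonneg (deriv g 0)]
      calc ‖g s - g 0 - s * deriv g 0‖ ≤ ‖g s - g 0‖ + ‖s * deriv g 0‖ := norm_sub_le _ _
        _ ≤ ‖g s‖ + ‖g 0‖ + ‖s * deriv g 0‖ := by gcongr; exact norm_sub_le _ _
        _ ≤ 3 * C := by linarith) (by
      intro k hk
      interval_cases k
      · rw [iteratedDeriv_zero, hG]
        simp
      · rw [iteratedDeriv_one, hG]
        have h5 : HasDerivAt (fun t => g t - g 0 - t * deriv g 0) (deriv g 0 - 1 * deriv g 0) 0 :=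
          ((hg 0 h0).differentiableAt.hasDerivAt.sub_const _).sub
            ((hasDerivAt_id (0 : ℂ)).mul_const _)
        rw [h5.deriv]
        ring) t ht
  rw [hG] at h1
  exact h1

section

variable {E : Type} [NormedAddCommGroup E] [NormedSpace ℂ E] [FiniteDimensional ℂ E]

theorem bdd_hol_pr {I : Type} [TopologicalSpace I] [DiscreteTopology I] {U : Set E} (hU : IsOpen U)
    {f : I → E → ℂ} (hf : ∀ i, ∀ ξ ∈ U, DifferentiableAt ℂ (f i) ξ) {C : ℝ}
    (hC : ∀ i, ∀ ξ ∈ U, ‖f i ξ‖ ≤ C) :
    ∃ F : E → (I →ᵇ ℂ), (∀ ξ ∈ U, ∀ i, F ξ i = f i ξ) ∧ ∀ ξ ∈ U, DifferentiableAt ℂ F ξ := by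
  classical
  have hC' : ∀ ξ ∈ U, ∀ i, ‖f i ξ‖ ≤ C := fun ξ hξ i => hC i ξ hξ
  refine ⟨fun ξ => if h : ξ ∈ U then
    BoundedContinuousFunction.ofNormedAddCommGroupDiscrete (fun i => f i ξ) C (hC' ξ h) else 0,
    ?_, ?_⟩
  · intro ξ hξ i
    simp [hξ]
  · intro ξ hξ
    obtain ⟨r, hr, hrU⟩ := Metric.nhds_basis_closedBall.mem_iff.1 (hU.mem_nhds hξ)
    -- along the line through `ξ` in the direction `v`
    have key : ∀ i, ∀ v : E, ‖v‖ ≤ r → ∀ t ∈ closedBall (0 : ℂ) 1,
        ‖fderiv ℂ (f i) ξ v‖ ≤ C ∧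
          ‖f i (ξ + t • v) - f i ξ - t * fderiv ℂ (f i) ξ v‖ ≤ 3 * C * ‖t‖ ^ 2 := by
      intro i v hv t ht
      have hmem : ∀ t ∈ closedBall (0 : ℂ) 1, ξ + t • v ∈ U := by
        intro t ht
        refine hrU ?_
        rw [mem_closedBall, dist_eq_norm, add_sub_cancel_left, norm_smul]
        have : ‖t‖ ≤ 1 := by simpa using ht
        nlinarith [norm_nonneg t, norm_nonneg v]
      have hder : HasDerivAt (fun t : ℂ => f i (ξ + t • v)) (fderiv ℂ (f i) ξ v) 0 := by
        have h1 : HasDerivAt (fun t : ℂ => ξ + t • v) v 0 := by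
          have := (hasDerivAt_id (0 : ℂ)).smul_const v
          simpa using this.const_add ξ
        have h2 : HasFDerivAt (f i) (fderiv ℂ (f i) ξ) (ξ + (0 : ℂ) • v) := by
          rw [zero_smul, add_zero]
          exact (hf i ξ hξ).hasFDerivAt
        exact h2.comp_hasDerivAt (0 : ℂ) h1
      have hop : IsOpen ((fun t : ℂ => ξ + t • v) ⁻¹' U) := hU.preimage (by fun_prop)
      have h3 := cv1_disc (g := fun t : ℂ => f i (ξ + t • v)) (C := C) (fun t ht => by
        refine DifferentiableOn.analyticAt (s := (fun t : ℂ => ξ + t • v) ⁻¹' U) ?_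
          (hop.mem_nhds (hmem t ht))
        intro s hs
        have : DifferentiableAt ℂ (fun t : ℂ => f i (ξ + t • v)) s :=
          DifferentiableAt.comp s (hf i _ hs) (by fun_prop)
        exact this.differentiableWithinAt)
        (fun t ht => hC i _ (hmem t ht)) t ht
      rw [hder.deriv] at h3
      simpa using h3
    have hC0 : ∀ i : I, 0 ≤ C := fun i => (norm_nonneg _).trans (hC i ξ hξ)
    -- bound of the derivatives
    have hL : ∀ i, ∀ v : E, ‖fderiv ℂ (f i) ξ v‖ ≤ C / r * ‖v‖ := by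
      intro i v
      rcases eq_or_ne v 0 with rfl | hv
      · simp
      have hv' : 0 < ‖v‖ := norm_pos_iff.2 hv
      have h1 := (key i (((r / ‖v‖ : ℝ) : ℂ) • v) (by
        rw [norm_smul, Complex.norm_real, Real.norm_of_nonneg (by positivity)]
        rw [div_mul_cancel₀ _ hv'.ne']) 0 (by simp)).1
      rw [map_smul, norm_smul, Complex.norm_real, Real.norm_of_nonneg (by positivity)] at h1
      rw [div_mul_eq_mul_div, le_div_iff₀ hr]
      rw [div_mul_eq_mul_div, div_le_iff₀ hv'] at h1
      linarith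
    let L : E →L[ℂ] (I →ᵇ ℂ) := LinearMap.mkContinuousOfExistsBound
      { toFun := fun v => BoundedContinuousFunction.ofNormedAddCommGroupDiscrete
          (fun i => fderiv ℂ (f i) ξ v) (C / r * ‖v‖) (fun i => hL i v)
        map_add' := by
          intro u v
          ext i
          simp
        map_smul' := by
          intro c v
          ext i
          simp }
      ⟨|C / r|, by
        intro v
        rw [BoundedContinuousFunction.norm_le (by positivity)]
        intro i
        refine (hL i v).trans ?_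
        gcongr
        exact le_abs_self _⟩
    refine (HasFDerivAt.differentiableAt (f' := L) ?_)
    rw [hasFDerivAt_iff_isLittleO_nhds_zero]
    refine (Asymptotics.IsBigO.of_bound (3 * |C| / r ^ 2) (g := fun v : E => ‖v‖ ^ 2) ?_).trans_isLittleO ?_
    · filter_upwards [Metric.closedBall_mem_nhds (0 : E) hr] with v hv
      have hvr : ‖v‖ ≤ r := by simpa using hv
      have hmem : ξ + v ∈ U := hrU (by
        rw [mem_closedBall, dist_eq_norm, add_sub_cancel_left]; exact hvr)
      rw [Real.norm_of_nonneg (by positivity), BoundedContinuousFunction.norm_le (by positivity)]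
      intro i
      have h1 : ‖f i (ξ + v) - f i ξ - fderiv ℂ (f i) ξ v‖ ≤ 3 * |C| / r ^ 2 * ‖v‖ ^ 2 := by
        rcases eq_or_ne v 0 with rfl | hv0
        · simp
        have hv' : 0 < ‖v‖ := norm_pos_iff.2 hv0
        have h2 := (key i (((r / ‖v‖ : ℝ) : ℂ) • v) (by
          rw [norm_smul, Complex.norm_real, Real.norm_of_nonneg (by positivity)]
          rw [div_mul_cancel₀ _ hv'.ne']) ((‖v‖ / r : ℝ) : ℂ) (by
            rw [mem_closedBall_zero_iff, Complex.norm_real, Real.norm_of_nonneg (by positivity)]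
            rw [div_le_one hr]
            exact hvr)).2
        have h3 : ((‖v‖ / r : ℝ) : ℂ) • (((r / ‖v‖ : ℝ) : ℂ) • v) = v := by
          rw [smul_smul, ← Complex.ofReal_mul, div_mul_div_cancel₀ hr.ne', div_self hv'.ne',
            Complex.ofReal_one, one_smul]
        have h4 : ((‖v‖ / r : ℝ) : ℂ) * fderiv ℂ (f i) ξ (((r / ‖v‖ : ℝ) : ℂ) • v) =
            fderiv ℂ (f i) ξ v := by
          rw [← smul_eq_mul, ← map_smul, h3]
        rw [h3, h4, Complex.norm_real, Real.norm_of_nonneg (by positivity)] at h2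
        refine h2.trans ?_
        have h5 : C ≤ |C| := le_abs_self C
        have h6 : 3 * C * (‖v‖ / r) ^ 2 ≤ 3 * |C| * (‖v‖ / r) ^ 2 := by gcongr
        refine h6.trans (le_of_eq ?_)
        rw [div_pow]
        ring
      simpa [hmem, hξ, L] using h1
    · exact Asymptotics.isLittleO_norm_pow_id one_lt_two

end

end Pool.Agent.KZ

namespace Pool.Agent.KZ

alias bdd_hol := bdd_hol_pr

end Pool.Agent.KZ
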