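import Pool.Agent.Lib_helper82.KZ.Defs

/-! # Flat distances on surfaces (MP_45e720_ag): block CV2 -/

set_option autoImplicit false
set_option linter.unusedVariables false
set_option linter.unusedSectionVars false

open Filter Topology Metric Set
open scoped Manifold ContDiff BoundedContinuousFunction

namespace Pool.Agent.KZ

open Pool.Agent.NullCurves

section

variable {E : Type} [NormedAddCommGroup E] [NormedSpace ℂ E] [FiniteDimensional ℂ E]

variable {X : Type} [TopologicalSpace X] [ChartedSpace E X] [IsManifold 𝓘(ℂ, E) ω X]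

/-- CV2 -/
theorem flat_of_fam_pr [CompactSpace X] [T2Space X] {V : X → Type}
    [∀ x, NormedAddCommGroup (V x)] [∀ x, NormedSpace ℂ (V x)] [∀ x, CompleteSpace (V x)]
    {F : ∀ x, X → V x} (han : ∀ x, ∀ᶠ y in 𝓝 x, MDifferentiableAt 𝓘(ℂ, E) 𝓘(ℂ, V x) (F x) y)
    (hc : ∀ x, ∀ᶠ y in 𝓝 x, ∀ᶠ p : X × X in 𝓝 (y, y),
      ‖F y p.1 - F y p.2‖ = ‖F x p.1 - F x p.2‖) :
    ∃ ρ : X → X → ℝ, IsFlatDist E ρ ∧
      ∀ x, ∀ᶠ p : X × X in 𝓝 (x, x), ρ p.1 p.2 = ‖F x p.1 - F x p.2‖ := by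
  have hO : ∀ x, ∃ O : Set X, IsOpen O ∧ x ∈ O ∧ ∀ y ∈ closure O, ∀ᶠ p : X × X in 𝓝 (y, y),
      ‖F y p.1 - F y p.2‖ = ‖F x p.1 - F x p.2‖ := by
    intro x
    obtain ⟨t, h1, h2, h3⟩ := exists_mem_nhds_isClosed_subset (hc x)
    refine ⟨interior t, isOpen_interior, mem_interior_iff_mem_nhds.2 h1, fun y hy => ?_⟩
    exact h3 (h2.closure_subset_iff.2 interior_subset hy)
  choose O hOo hxO hOc using hO
  obtain ⟨t, ht⟩ := isCompact_univ.elim_finite_subcover O hOo
    (fun x _ => mem_iUnion.2 ⟨x, hxO x⟩)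
  have hex : ∀ u : X, ∃ k, k ∈ t ∧ u ∈ O k := by
    intro u
    have h1 := ht (mem_univ u)
    simp only [mem_iUnion, exists_prop] at h1
    exact h1
  choose c hct hcO using hex
  have key : ∀ x, ∀ᶠ p : X × X in 𝓝 (x, x),
      ‖F (c p.1) p.1 - F (c p.1) p.2‖ = ‖F x p.1 - F x p.2‖ := by
    intro x
    have h1 : ∀ᶠ p : X × X in 𝓝 (x, x), ∀ k ∈ t, p.1 ∈ O k →
        ‖F k p.1 - F k p.2‖ = ‖F x p.1 - F x p.2‖ := by
      rw [Filter.eventually_all_finset]
      intro k _
      by_cases hk : x ∈ closure (O k)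
      · filter_upwards [hOc k x hk] with p hp _
        exact hp.symm
      · have h2 : ∀ᶠ y in 𝓝 x, y ∉ O k := by
          filter_upwards [isClosed_closure.isOpen_compl.mem_nhds hk] with y hy hy'
          exact hy (subset_closure hy')
        have h3 : Tendsto (fun p : X × X => p.1) (𝓝 (x, x)) (𝓝 x) := continuous_fst.tendsto (x, x)
        filter_upwards [h3.eventually h2] with p hp hp'
        exact absurd hp' hp
    filter_upwards [h1] with p hp
    exact hp _ (hct p.1) (hcO p.1)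
  exact ⟨fun u u' => ‖F (c u) u - F (c u) u'‖,
    fun x => ⟨V x, inferInstance, inferInstance, inferInstance, F x, han x, key x⟩, key⟩

end

end Pool.Agent.KZ

namespace Pool.Agent.KZ

alias flat_of_fam := flat_of_fam_pr

end Pool.Agent.KZ
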