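import Pool.Agent.Lib_helper82.KZ.Defs
import Pool.Agent.Lib_helper82.KZ.P.CV1
import Pool.Agent.Lib_helper82.KZ.P.CV2

/-! # Flat distances on surfaces (MP_45e720_ag): block CV3 -/

set_option autoImplicit false
set_option linter.unusedVariables false
set_option linter.unusedSectionVars false

open Filter Topology Metric Set
open scoped Manifold ContDiff BoundedContinuousFunction

namespace Pool.Agent.KZ

open Pool.Agent.NullCurves

section

variable {E : Type} [NormedAddCommGroup E] [NormedSpace ℂ E] [FiniteDimensional ℂ E]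

/-- local sections of a covering map -/
theorem cv3_sec {X Y I : Type} [TopologicalSpace X] [TopologicalSpace Y] [TopologicalSpace I]
    {π : Y → X} {x : X} (hx : IsEvenlyCovered π x I) :
    ∃ (U : Set X) (s : I → X → Y), IsOpen U ∧ x ∈ U ∧ (∀ i, ContinuousOn (s i) U) ∧
      (∀ i, ∀ u ∈ U, π (s i u) = u) ∧
      ∀ y, π y ∈ U → ∃ i, ∀ᶠ y' in 𝓝 y, s i (π y') = y' := by
  classical
  obtain ⟨hI, U, hxU, hU, hfU, H, hH⟩ := hx
  have hg : ∀ (i : I) (u : X) (hu : u ∈ U), π (H.symm (⟨u, hu⟩, i)).1 = u := by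
    intro i u hu
    rw [← hH]
    simp
  refine ⟨U, fun i u => if hu : u ∈ U then (H.symm (⟨u, hu⟩, i)).1 else
    (H.symm (⟨x, hxU⟩, i)).1, hU, hxU, ?_, ?_, ?_⟩
  · intro i
    rw [continuousOn_iff_continuous_domRestrict]
    have h1 : Continuous fun u : U => (H.symm (u, i)).1 := by fun_prop
    refine h1.congr fun u => ?_
    simp only [domRestrict_apply]
    rw [dif_pos u.2]
  · intro i u hu
    simp only
    rw [dif_pos hu]
    exact hg i u hu
  · intro y hy
    refine ⟨(H ⟨y, hy⟩).2, ?_⟩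
    have h1 : IsOpen {w : π ⁻¹' U | (H w).2 = (H ⟨y, hy⟩).2} :=
      (isOpen_discrete ({(H ⟨y, hy⟩).2} : Set I)).preimage (by fun_prop :
        Continuous fun w : π ⁻¹' U => (H w).2)
    have h2 : Subtype.val '' {w : π ⁻¹' U | (H w).2 = (H ⟨y, hy⟩).2} ∈ 𝓝 y :=
      (hfU.isOpenMap_subtype_val _ h1).mem_nhds ⟨⟨y, hy⟩, rfl, rfl⟩
    filter_upwards [h2] with y' hy'
    obtain ⟨w, hw, rfl⟩ := hy'
    rw [dif_pos (show π w.1 ∈ U from w.2)]
    have h3 : ((⟨π w.1, w.2⟩, (H ⟨y, hy⟩).2) : U × I) = H w := by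
      refine Prod.ext (Subtype.ext (hH w).symm) hw.symm
    rw [h3, H.symm_apply_apply]

variable {X Y : Type} [TopologicalSpace X] [ChartedSpace E X] [IsManifold 𝓘(ℂ, E) ω X]
  [TopologicalSpace Y] [ChartedSpace E Y] [IsManifold 𝓘(ℂ, E) ω Y]

/-- continuous local inverses of a holomorphic map with injective derivatives are holomorphic -/
theorem cv3_inv {π : Y → X} (hπ : MDifferentiable 𝓘(ℂ, E) 𝓘(ℂ, E) π)
    (hi : ∀ (y : Y) (v : E), (SS.dirDeriv π y v : E) = 0 → v = 0) {s : X → Y} {u : X}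
    (hs : ContinuousAt s u) (hsu : ∀ᶠ u' in 𝓝 u, π (s u') = u') :
    MDifferentiableAt 𝓘(ℂ, E) 𝓘(ℂ, E) s u := by
  have hu : π (s u) = u := hsu.self_of_nhds
  set c := chartAt E u with hc
  set c' := chartAt E (s u) with hc'
  have hus : u ∈ c.source := mem_chart_source E u
  have hss : s u ∈ c'.source := mem_chart_source E (s u)
  have hd : DifferentiableAt ℂ (IS.e1_phi (E := E) π (s u) u) (c' (s u)) := by
    refine IS.e1_diff hπ (s u) u (c'.map_source hss) ?_
    rw [← hc', c'.left_inv hss, hu]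
    exact hus
  set D : E →L[ℂ] E := fderiv ℂ (IS.e1_phi (E := E) π (s u) u) (c' (s u)) with hD
  have hinj : Function.Injective (D : E →ₗ[ℂ] E) := by
    rw [injective_iff_map_eq_zero]
    intro v hv
    refine hi (s u) v ?_
    rw [IS.e1_deriv hπ]
    have h1 : IS.e1_D (E := E) π (s u) = D := by
      rw [IS.e1_D, hu]
    rw [h1]
    exact hv
  let L : E ≃L[ℂ] E := (LinearEquiv.ofInjectiveEndo (D : E →ₗ[ℂ] E) hinj).toContinuousLinearEquiv
  have hL : (L : E →L[ℂ] E) = D := by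
    ext v
    rfl
  let G : E → E := fun ξ => c' (s (c.symm ξ))
  have hcu : c.symm (c u) = u := c.left_inv hus
  have hG0 : G (c u) = c' (s u) := by
    show c' (s (c.symm (c u))) = _
    rw [hcu]
  have hcs : ContinuousAt c.symm (c u) := c.continuousAt_symm (c.map_source hus)
  have hs1 : ContinuousAt (fun ξ => s (c.symm ξ)) (c u) := by
    refine ContinuousAt.comp (g := s) ?_ hcs
    rw [hcu]
    exact hs
  have hGc : ContinuousAt G (c u) := by
    refine ContinuousAt.comp (g := c') ?_ hs1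
    simp only [hcu]
    exact c'.continuousAt hss
  have hev : ∀ᶠ ξ in 𝓝 (c u), IS.e1_phi (E := E) π (s u) u (G ξ) = ξ := by
    have h1 : ∀ᶠ ξ in 𝓝 (c u), s (c.symm ξ) ∈ c'.source := by
      refine hs1.eventually_mem (c'.open_source.mem_nhds ?_)
      simp only [hcu]
      exact hss
    have h2 : ∀ᶠ ξ in 𝓝 (c u), π (s (c.symm ξ)) = c.symm ξ := by
      refine hcs.eventually (p := fun u' => π (s u') = u') ?_
      rw [hcu]
      exact hsu
    filter_upwards [h1, h2, c.open_target.mem_nhds (c.map_source hus)] with ξ a1 a2 a3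
    show c (π (c'.symm (c' (s (c.symm ξ))))) = ξ
    rw [c'.left_inv a1, a2, c.right_inv a3]
  have hdG : DifferentiableAt ℂ G (c u) := by
    refine (HasFDerivAt.of_local_left_inverse (f := IS.e1_phi (E := E) π (s u) u) (f' := L)
      hGc ?_ hev).differentiableAt
    rw [hL, hG0]
    exact hd.hasFDerivAt
  rw [mdifferentiableAt_iff]
  refine ⟨hs, ?_⟩
  simp only [writtenInExtChartAt, extChartAt, mfld_simps]
  exact hdG.differentiableWithinAt

/-- CV3 -/
theorem cover_flat_pr [CompactSpace X] [T2Space X] [ConnectedSpace X]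
    (h : HasLipschitzFunction E X) : HasFlatDist E X := by
  obtain ⟨Y, i1, i2, i3, i4, π, f, hcov, hπ, hi, hf, hne, hosc⟩ := h
  have hlc : LocallyConnectedSpace X := ChartedSpace.locallyConnectedSpace E X
  have hdisc : ∀ x, DiscreteTopology (π ⁻¹' {x} : Set Y) := fun x => (hcov x).1
  have hsec : ∀ x, ∃ (U : Set X) (s : (π ⁻¹' {x} : Set Y) → X → Y) (C : ℝ), IsOpen U ∧ x ∈ U ∧
      (∀ i, ContinuousOn (s i) U) ∧ (∀ i, ∀ u ∈ U, π (s i u) = u) ∧
      (∀ y, π y ∈ U → ∃ i, ∀ᶠ y' in 𝓝 y, s i (π y') = y') ∧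
      ∀ i, ∀ u ∈ U, ‖f (s i u) - f (s i x)‖ ≤ C := by
    intro x
    obtain ⟨U, s, a1, a2, a3, a4, a5⟩ := cv3_sec (hcov x)
    obtain ⟨W, hW, C, hC⟩ := hosc x
    obtain ⟨N, hN1, hN2, hN3, hN4⟩ := locallyConnectedSpace_iff_subsets_isOpen_isConnected.1 hlc x
      (U ∩ W) (inter_mem (a1.mem_nhds a2) hW)
    refine ⟨N, s, C, hN2, hN3, fun i => (a3 i).mono fun w hw => (hN1 hw).1,
      fun i u hu => a4 i u (hN1 hu).1, fun y hy => a5 y (hN1 hy).1, fun i u hu => ?_⟩
    refine hC (s i '' N) ?_ (hN4.isPreconnected.image _ ((a3 i).mono fun w hw => (hN1 hw).1))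
      _ ⟨u, hu, rfl⟩ _ ⟨x, hN3, rfl⟩
    rintro _ ⟨w, hw, rfl⟩
    show π (s i w) ∈ W
    rw [a4 i w (hN1 hw).1]
    exact (hN1 hw).2
  choose U s C hU hxU hsc hsπ hloc hC using hsec
  -- the good neighbourhoods
  set O : X → Set X := fun x => (chartAt E x).source ∩ U x with hO
  have hOo : ∀ x, IsOpen (O x) := fun x => (chartAt E x).open_source.inter (hU x)
  have hxO : ∀ x, x ∈ O x := fun x => ⟨mem_chart_source E x, hxU x⟩
  set Ω : X → Set E := fun x => (chartAt E x).target ∩ (chartAt E x).symm ⁻¹' U x with hΩ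
  have hΩo : ∀ x, IsOpen (Ω x) := fun x =>
    (chartAt E x).continuousOn_symm.isOpen_inter_preimage (chartAt E x).open_target (hU x)
  have hsd : ∀ x i, ∀ u ∈ U x, MDifferentiableAt 𝓘(ℂ, E) 𝓘(ℂ, E) (s x i) u := by
    intro x i u hu
    refine cv3_inv hπ hi ((hsc x i).continuousAt ((hU x).mem_nhds hu)) ?_
    filter_upwards [(hU x).mem_nhds hu] with u' hu'
    exact hsπ x i u' hu'
  have hG : ∀ x, ∃ G : E → ((π ⁻¹' {x} : Set Y) →ᵇ ℂ),
      (∀ ξ ∈ Ω x, ∀ i, G ξ i = f (s x i ((chartAt E x).symm ξ)) - f (s x i x)) ∧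
      ∀ ξ ∈ Ω x, DifferentiableAt ℂ G ξ := by
    intro x
    refine bdd_hol (hΩo x) (f := fun i ξ => f (s x i ((chartAt E x).symm ξ)) - f (s x i x)) ?_
      (C := C x) (fun i ξ hξ => hC x i _ hξ.2)
    intro i ξ hξ
    have h1 : MDifferentiableAt 𝓘(ℂ, E) 𝓘(ℂ, E) (chartAt E x).symm ξ :=
      mdifferentiableAt_atlas_symm (chart_mem_atlas _ _) hξ.1
    have h2 : MDifferentiableAt 𝓘(ℂ, E) 𝓘(ℂ, ℂ) (fun ξ => f (s x i ((chartAt E x).symm ξ))) ξ :=
      (hf _).comp ξ ((hsd x i _ hξ.2).comp ξ h1)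
    exact h2.differentiableAt.sub_const _
  choose G hGv hGd using hG
  let F : ∀ x, X → ((π ⁻¹' {x} : Set Y) →ᵇ ℂ) := fun x u => G x (chartAt E x u)
  have hmem : ∀ x, ∀ u ∈ O x, chartAt E x u ∈ Ω x := by
    intro x u hu
    refine ⟨(chartAt E x).map_source hu.1, ?_⟩
    show (chartAt E x).symm (chartAt E x u) ∈ U x
    rw [(chartAt E x).left_inv hu.1]
    exact hu.2
  have hFv : ∀ x, ∀ u ∈ O x, ∀ i, F x u i = f (s x i u) - f (s x i x) := by
    intro x u hu i
    show G x (chartAt E x u) i = _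
    rw [hGv x _ (hmem x u hu) i, (chartAt E x).left_inv hu.1]
  have han : ∀ x, ∀ᶠ y in 𝓝 x, MDifferentiableAt 𝓘(ℂ, E)
      𝓘(ℂ, ((π ⁻¹' {x} : Set Y) →ᵇ ℂ)) (F x) y := by
    intro x
    filter_upwards [(hOo x).mem_nhds (hxO x)] with y hy
    have h1 : MDifferentiableAt 𝓘(ℂ, E) 𝓘(ℂ, E) (chartAt E x) y :=
      mdifferentiableAt_atlas (chart_mem_atlas _ _) hy.1
    have h2 : MDifferentiableAt 𝓘(ℂ, E) 𝓘(ℂ, ((π ⁻¹' {x} : Set Y) →ᵇ ℂ)) (G x)
        (chartAt E x y) := (hGd x _ (hmem x y hy)).mdifferentiableAt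
    exact h2.comp y h1
  -- comparison
  have key : ∀ x y, ∀ N : Set X, IsPreconnected N → ∀ a ∈ N, N ⊆ O x → N ⊆ O y →
      ∀ u ∈ N, ∀ u' ∈ N, ‖F y u - F y u'‖ ≤ ‖F x u - F x u'‖ := by
    intro x y N hN a haN hNx hNy u hu u' hu'
    rw [BoundedContinuousFunction.norm_le (norm_nonneg _)]
    intro j
    obtain ⟨i, hi'⟩ := hloc x (s y j a) (by
      rw [hsπ y j a (hNy haN).2]
      exact (hNx haN).2)
    have h1 : s x i a = s y j a := by
      have := hi'.self_of_nhds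
      rwa [hsπ y j a (hNy haN).2] at this
    have h2 : N.EqOn (s x i) (s y j) := by
      refine hcov.eqOn_of_comp_eqOn hN ((hsc x i).mono fun w hw => (hNx hw).2)
        ((hsc y j).mono fun w hw => (hNy hw).2) ?_ haN h1
      intro w hw
      show π (s x i w) = π (s y j w)
      rw [hsπ x i w (hNx hw).2, hsπ y j w (hNy hw).2]
    have h3 : (F y u - F y u') j = (F x u - F x u') i := by
      rw [BoundedContinuousFunction.sub_apply, BoundedContinuousFunction.sub_apply,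
        hFv y u (hNy hu), hFv y u' (hNy hu'), hFv x u (hNx hu), hFv x u' (hNx hu'),
        h2 hu, h2 hu', sub_sub_sub_cancel_right, sub_sub_sub_cancel_right]
    rw [h3]
    exact (F x u - F x u').norm_coe_le_norm i
  have hc : ∀ x, ∀ᶠ y in 𝓝 x, ∀ᶠ p : X × X in 𝓝 (y, y),
      ‖F y p.1 - F y p.2‖ = ‖F x p.1 - F x p.2‖ := by
    intro x
    filter_upwards [(hOo x).mem_nhds (hxO x)] with y hy
    have h1 : O x ∩ O y ∈ 𝓝 y := inter_mem ((hOo x).mem_nhds hy) ((hOo y).mem_nhds (hxO y))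
    obtain ⟨N, hN1, hN2, hN3, hN4⟩ :=
      (locallyConnectedSpace_iff_subsets_isOpen_isConnected.1 hlc y (O x ∩ O y) h1)
    have h2 : N ×ˢ N ∈ 𝓝 ((y, y) : X × X) :=
      prod_mem_nhds (hN2.mem_nhds hN3) (hN2.mem_nhds hN3)
    filter_upwards [h2] with p hp
    have hx : N ⊆ O x := fun w hw => (hN1 hw).1
    have hy' : N ⊆ O y := fun w hw => (hN1 hw).2
    exact le_antisymm (key x y N hN4.isPreconnected y hN3 hx hy' _ hp.1 _ hp.2)
      (key y x N hN4.isPreconnected y hN3 hy' hx _ hp.1 _ hp.2)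
  obtain ⟨ρ, hρ, hρF⟩ := flat_of_fam han hc
  refine ⟨ρ, hρ, ?_⟩
  by_contra hno
  simp only [IsNontrivial, not_exists, not_not] at hno
  have hlf : IsLocallyConstant f := by
    rw [IsLocallyConstant.iff_eventually_eq]
    intro y
    obtain ⟨i, hi'⟩ := hloc (π y) y (hxU (π y))
    have h1 : s (π y) i (π y) = y := hi'.self_of_nhds
    have hπc : ContinuousAt π y := hcov.continuous.continuousAt
    have h2 : ∀ᶠ u in 𝓝 (π y), ρ (π y) u = ‖F (π y) (π y) - F (π y) u‖ := by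
      have h3 : Tendsto (fun u : X => ((π y, u) : X × X)) (𝓝 (π y)) (𝓝 (π y, π y)) := by
        have : Continuous fun u : X => ((π y, u) : X × X) := by fun_prop
        exact this.tendsto _
      exact h3.eventually (hρF (π y))
    have h4 : ∀ᶠ u in 𝓝 (π y), f (s (π y) i u) = f y := by
      filter_upwards [h2, hno (π y), (hOo (π y)).mem_nhds (hxO (π y))] with u a1 a2 a3
      rw [a2] at a1
      have a4 : F (π y) (π y) = F (π y) u := by
        rw [← sub_eq_zero, ← norm_eq_zero]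
        exact a1.symm
      have a5 := hFv (π y) u a3 i
      rw [← a4, hFv (π y) (π y) (hxO _) i, h1, sub_self] at a5
      exact (sub_eq_zero.1 a5.symm)
    filter_upwards [hi', hπc.eventually h4] with y' b1 b2
    rw [← b2, b1]
  obtain ⟨y, y', hyy⟩ := hne
  exact hyy (hlf.apply_eq_of_preconnectedSpace y y')

end

end Pool.Agent.KZ

namespace Pool.Agent.KZ

alias cover_flat := cover_flat_pr

end Pool.Agent.KZ
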