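import Pool.Agent.Lib_helper82.KZ.Defs
import Pool.Agent.Lib_helper82.KZ.P.CV3

/-! # Functions with bounded derivative on covering spaces (MP_45e720_ag): block CV4

The literal form of the bound (for every compact set `K` of tangent vectors of `X` there is a bound
of `df` on the tangent vectors of the covering space over `K`) implies the form used in CV3. -/

set_option autoImplicit false
set_option linter.unusedVariables false
set_option linter.unusedSectionVars false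

open Filter Topology Metric Set
open scoped Manifold ContDiff BoundedContinuousFunction

namespace Pool.Agent.KZ

open Pool.Agent.NullCurves

section

variable {E : Type} [NormedAddCommGroup E] [NormedSpace ℂ E] [FiniteDimensional ℂ E]

variable {X Y : Type} [TopologicalSpace X] [ChartedSpace E X] [IsManifold 𝓘(ℂ, E) ω X]
  [TopologicalSpace Y] [ChartedSpace E Y] [IsManifold 𝓘(ℂ, E) ω Y]

/-- the fibre coordinate of the velocity in the trivialization over a chart -/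
theorem cv4_coord (γ : ℂ → X) (y : X) (z : ℂ) (hf : MDifferentiableAt 𝓘(ℂ, ℂ) 𝓘(ℂ, E) γ z)
    (hz : γ z ∈ (chartAt E y).source) :
    trivializationAt E (TangentSpace 𝓘(ℂ, E)) y
        (⟨γ z, (mfderiv 𝓘(ℂ, ℂ) 𝓘(ℂ, E) γ z (1 : ℂ) : E)⟩ : TangentBundle 𝓘(ℂ, E) X) =
      (γ z, deriv (fun w => chartAt E y (γ w)) z) := by
  have : IsManifold 𝓘(ℂ, E) 1 X := IsManifold.of_le (n := ω) le_top
  have hb : γ z ∈ (trivializationAt E (TangentSpace 𝓘(ℂ, E)) y).baseSet := hz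
  have h1 := TangentBundle.continuousLinearMapAt_trivializationAt (I := 𝓘(ℂ, E)) hz
  have h2 : mfderiv 𝓘(ℂ, ℂ) 𝓘(ℂ, E) (extChartAt 𝓘(ℂ, E) y ∘ γ) z =
      (mfderiv 𝓘(ℂ, E) 𝓘(ℂ, E) (extChartAt 𝓘(ℂ, E) y) (γ z)).comp
        (mfderiv 𝓘(ℂ, ℂ) 𝓘(ℂ, E) γ z) :=
    mfderiv_comp z (mdifferentiableAt_extChartAt hz) hf
  have h3 : deriv (fun w => chartAt E y (γ w)) z =
      mfderiv 𝓘(ℂ, ℂ) 𝓘(ℂ, E) (extChartAt 𝓘(ℂ, E) y ∘ γ) z (1 : ℂ) := by
    rw [mfderiv_eq_fderiv]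
    rfl
  have h4 := (trivializationAt E (TangentSpace 𝓘(ℂ, E)) y).continuousLinearMapAt_apply_of_mem
    ℂ hb (mfderiv 𝓘(ℂ, ℂ) 𝓘(ℂ, E) γ z (1 : ℂ))
  refine Prod.ext ((trivializationAt E (TangentSpace 𝓘(ℂ, E)) y).coe_fst' hb) ?_
  rw [h3, h2]
  rw [h1] at h4
  exact h4.symm

/-- CV4 -/
theorem osc_of_deriv {π : Y → X} {f : Y → ℂ} (hcov : IsCoveringMap π)
    (hπ : MDifferentiable 𝓘(ℂ, E) 𝓘(ℂ, E) π)
    (hi : ∀ (y : Y) (v : E), (SS.dirDeriv π y v : E) = 0 → v = 0)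
    (hf : MDifferentiable 𝓘(ℂ, E) 𝓘(ℂ, ℂ) f)
    (hK : ∀ K : Set (TangentBundle 𝓘(ℂ, E) X), IsCompact K → ∃ C : ℝ, ∀ (y : Y) (v : E),
      (⟨π y, (SS.dirDeriv π y v : E)⟩ : TangentBundle 𝓘(ℂ, E) X) ∈ K →
        ‖(SS.dirDeriv f y v : ℂ)‖ ≤ C) (x : X) :
    ∃ U ∈ 𝓝 x, ∃ C : ℝ, ∀ T ⊆ π ⁻¹' U, IsPreconnected T →
      ∀ y ∈ T, ∀ y' ∈ T, ‖f y - f y'‖ ≤ C := by
  have hE : CompleteSpace E := FiniteDimensional.complete ℂ E
  have hP : ProperSpace E := FiniteDimensional.proper ℂ E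
  have h1X : IsManifold 𝓘(ℂ, E) 1 X := IsManifold.of_le (n := ω) le_top
  have hdisc : DiscreteTopology (π ⁻¹' {x} : Set Y) := (hcov x).1
  obtain ⟨U₀, s, hU₀, hxU₀, hsc, hsπ, hloc⟩ := cv3_sec (hcov x)
  set c := chartAt E x with hc
  have hxs : x ∈ c.source := mem_chart_source E x
  have hΩ : IsOpen (c.target ∩ c.symm ⁻¹' U₀) :=
    c.continuousOn_symm.isOpen_inter_preimage c.open_target hU₀
  have hcx : c x ∈ c.target ∩ c.symm ⁻¹' U₀ := by
    refine ⟨c.map_source hxs, ?_⟩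
    show c.symm (c x) ∈ U₀
    rw [c.left_inv hxs]
    exact hxU₀
  obtain ⟨r, hr, hrB⟩ := Metric.nhds_basis_closedBall.mem_iff.1 (hΩ.mem_nhds hcx)
  -- the compact set of tangent vectors
  let e : Bundle.Trivialization E (Bundle.TotalSpace.proj : TangentBundle 𝓘(ℂ, E) X → X) :=
    trivializationAt E (TangentSpace 𝓘(ℂ, E)) x
  have hcc : IsCompact (c.symm '' closedBall (c x) r) :=
    (isCompact_closedBall (c x) r).image_of_continuousOn
      (c.continuousOn_symm.mono fun ξ hξ => (hrB hξ).1)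
  have hKc : IsCompact (e.toOpenPartialHomeomorph.symm ''
      ((c.symm '' closedBall (c x) r) ×ˢ closedBall (0 : E) 1)) := by
    refine IsCompact.image_of_continuousOn (hcc.prod (isCompact_closedBall (0 : E) 1)) ?_
    refine e.toOpenPartialHomeomorph.continuousOn_symm.mono ?_
    rintro ⟨p, v⟩ ⟨⟨ξ, hξ, hp⟩, -⟩
    refine (e.mem_target).2 ?_
    have h1 : p ∈ c.source := by
      have hp' : c.symm ξ = p := hp
      rw [← hp']
      exact c.map_target (hrB hξ).1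
    exact h1
  obtain ⟨C, hC⟩ := hK _ hKc
  have hsd : ∀ i, ∀ u ∈ U₀, MDifferentiableAt 𝓘(ℂ, E) 𝓘(ℂ, E) (s i) u := by
    intro i u hu
    refine cv3_inv hπ hi ((hsc i).continuousAt (hU₀.mem_nhds hu)) ?_
    filter_upwards [hU₀.mem_nhds hu] with u' hu'
    exact hsπ i u' hu'
  have hgd : ∀ i, ∀ ξ ∈ closedBall (c x) r,
      DifferentiableAt ℂ (fun ξ => f (s i (c.symm ξ))) ξ := by
    intro i ξ hξ
    have h1 : MDifferentiableAt 𝓘(ℂ, E) 𝓘(ℂ, E) c.symm ξ :=
      mdifferentiableAt_atlas_symm (chart_mem_atlas _ _) (hrB hξ).1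
    have h2 : MDifferentiableAt 𝓘(ℂ, E) 𝓘(ℂ, ℂ) (fun ξ => f (s i (c.symm ξ))) ξ :=
      (hf _).comp ξ ((hsd i _ (hrB hξ).2).comp ξ h1)
    exact h2.differentiableAt
  have hder : ∀ i, ∀ ξ ∈ closedBall (c x) r, ∀ v : E, ‖v‖ ≤ 1 →
      ‖fderiv ℂ (fun ξ => f (s i (c.symm ξ))) ξ v‖ ≤ C := by
    intro i ξ hξ v hv
    obtain ⟨hξt, hξU⟩ := hrB hξ
    have hl0 : HasDerivAt (fun t : ℂ => ξ + t • v) v 0 := by
      have := (hasDerivAt_id (0 : ℂ)).smul_const v
      simpa using this.const_add ξ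
    have hl : MDifferentiableAt 𝓘(ℂ, ℂ) 𝓘(ℂ, E) (fun t : ℂ => ξ + t • v) 0 :=
      hl0.differentiableAt.mdifferentiableAt
    have hl1 : (fun t : ℂ => ξ + t • v) 0 = ξ := by simp
    have h1 : MDifferentiableAt 𝓘(ℂ, E) 𝓘(ℂ, E) c.symm ((fun t : ℂ => ξ + t • v) 0) := by
      rw [hl1]
      exact mdifferentiableAt_atlas_symm (chart_mem_atlas _ _) hξt
    have hγ : MDifferentiableAt 𝓘(ℂ, ℂ) 𝓘(ℂ, E) (fun t : ℂ => c.symm (ξ + t • v)) 0 :=
      h1.comp 0 hl
    have hγ0 : (fun t : ℂ => c.symm (ξ + t • v)) 0 = c.symm ξ := by simp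
    have h2 : MDifferentiableAt 𝓘(ℂ, E) 𝓘(ℂ, E) (s i)
        ((fun t : ℂ => c.symm (ξ + t • v)) 0) := by
      rw [hγ0]
      exact hsd i _ hξU
    have hγ' : MDifferentiableAt 𝓘(ℂ, ℂ) 𝓘(ℂ, E) (fun t : ℂ => s i (c.symm (ξ + t • v))) 0 :=
      h2.comp 0 hγ
    set γ' : ℂ → Y := fun t : ℂ => s i (c.symm (ξ + t • v)) with hγ'def
    set y : Y := γ' 0 with hy
    set w : E := mfderiv 𝓘(ℂ, ℂ) 𝓘(ℂ, E) γ' 0 (1 : ℂ) with hw
    have hev : ∀ᶠ t in 𝓝 (0 : ℂ), π (γ' t) = c.symm (ξ + t • v) := by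
      have h3 : Tendsto (fun t : ℂ => ξ + t • v) (𝓝 0) (𝓝 ξ) := by
        have := hl0.continuousAt.tendsto
        simpa using this
      filter_upwards [h3.eventually (hΩ.mem_nhds ⟨hξt, hξU⟩)] with t ht
      exact hsπ i _ ht.2
    have hπy : π y = c.symm ξ := by
      have := hev.self_of_nhds
      simpa using this
    have hmem : (⟨π y, (SS.dirDeriv π y w : E)⟩ : TangentBundle 𝓘(ℂ, E) X) ∈
        e.toOpenPartialHomeomorph.symm ''
          ((c.symm '' closedBall (c x) r) ×ˢ closedBall (0 : E) 1) := by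
      have h4 : MDifferentiableAt 𝓘(ℂ, ℂ) 𝓘(ℂ, E) (fun t => π (γ' t)) 0 :=
        (hπ _).comp 0 hγ'
      have h5 : (mfderiv 𝓘(ℂ, ℂ) 𝓘(ℂ, E) (fun t => π (γ' t)) 0 (1 : ℂ) : E) =
          (SS.dirDeriv π y w : E) := by
        have h6 := mfderiv_comp (0 : ℂ) (hπ (γ' 0)) hγ'
        have h7 := DFunLike.congr_fun h6 (1 : ℂ)
        exact h7
      have hsrc : π (γ' 0) ∈ (chartAt E x).source := by
        rw [← hc, ← hy, hπy]
        exact c.map_target hξt
      have h8 := cv4_coord (fun t => π (γ' t)) x 0 h4 hsrc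
      have h9 : deriv (fun t => chartAt E x (π (γ' t))) 0 = v := by
        have h10 : (fun t => chartAt E x (π (γ' t))) =ᶠ[𝓝 0] fun t : ℂ => ξ + t • v := by
          have h3 : Tendsto (fun t : ℂ => ξ + t • v) (𝓝 0) (𝓝 ξ) := by
            have := hl0.continuousAt.tendsto
            simpa using this
          filter_upwards [hev, h3.eventually (c.open_target.mem_nhds hξt)] with t ht1 ht2
          rw [ht1, ← hc]
          exact c.right_inv ht2
        rw [h10.deriv_eq]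
        exact hl0.deriv
      rw [h9, h5] at h8
      refine ⟨(π y, v), ⟨⟨ξ, hξ, hπy.symm⟩, mem_closedBall_zero_iff.2 hv⟩, ?_⟩
      have h11 : e (⟨π y, (SS.dirDeriv π y w : E)⟩ : TangentBundle 𝓘(ℂ, E) X) = (π y, v) := h8
      rw [← h11]
      exact e.toOpenPartialHomeomorph.left_inv ((e.mem_source).2 hsrc)
    have h12 := hC y w hmem
    have h13 : fderiv ℂ (fun ξ => f (s i (c.symm ξ))) ξ v = (SS.dirDeriv f y w : ℂ) := by
      have h14 : HasDerivAt (fun t : ℂ => f (γ' t))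
          (fderiv ℂ (fun ξ => f (s i (c.symm ξ))) ξ v) 0 := by
        have h15 : HasFDerivAt (fun ξ => f (s i (c.symm ξ)))
            (fderiv ℂ (fun ξ => f (s i (c.symm ξ))) ξ) ((fun t : ℂ => ξ + t • v) 0) := by
          rw [hl1]
          exact (hgd i ξ hξ).hasFDerivAt
        exact h15.comp_hasDerivAt 0 hl0
      rw [← h14.deriv]
      have h16 := mfderiv_comp (0 : ℂ) (hf (γ' 0)) hγ'
      have h17 := DFunLike.congr_fun h16 (1 : ℂ)
      rw [mfderiv_eq_fderiv] at h17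
      exact h17
    rw [h13]
    exact h12
  have hC0 : 0 ≤ C ∨ IsEmpty (π ⁻¹' {x} : Set Y) := by
    rcases isEmpty_or_nonempty (π ⁻¹' {x} : Set Y) with h | ⟨⟨i⟩⟩
    · exact Or.inr h
    · left
      have := hder i (c x) (mem_closedBall_self hr.le) 0 (by simp)
      simpa using this
  refine ⟨c.source ∩ c ⁻¹' ball (c x) r, ?_, C * (2 * r), ?_⟩
  · exact (c.isOpen_inter_preimage isOpen_ball).mem_nhds ⟨hxs, mem_ball_self hr⟩
  intro T hT hTc y hy y' hy'
  have hTU : ∀ w ∈ T, π w ∈ U₀ := by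
    intro w hw
    have h1 := (hrB (ball_subset_closedBall (hT hw).2)).2
    rw [mem_preimage, c.left_inv (hT hw).1] at h1
    exact h1
  obtain ⟨i, hi'⟩ := hloc y (hTU y hy)
  have heq : T.EqOn (fun w => s i (π w)) id := by
    refine hcov.eqOn_of_comp_eqOn hTc ?_ continuousOn_id ?_ hy hi'.self_of_nhds
    · exact (hsc i).comp hcov.continuous.continuousOn fun w hw => hTU w hw
    · intro w hw
      exact hsπ i _ (hTU w hw)
  have hfy : ∀ w ∈ T, f w = f (s i (c.symm (c (π w)))) := by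
    intro w hw
    rw [c.left_inv (hT hw).1]
    exact congrArg f (heq hw).symm
  have hC1 : 0 ≤ C := by
    rcases hC0 with h | h
    · exact h
    · exact (h.false i).elim
  have hbd : ∀ ξ ∈ ball (c x) r, ‖fderiv ℂ (fun ξ => f (s i (c.symm ξ))) ξ‖ ≤ C := by
    intro ξ hξ
    refine ContinuousLinearMap.opNorm_le_of_unit_norm hC1 ?_
    intro v hv
    exact hder i ξ (ball_subset_closedBall hξ) v hv.le
  rw [hfy y hy, hfy y' hy']
  have h1 := (convex_ball (c x) r).norm_image_sub_le_of_norm_fderiv_le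
    (f := fun ξ => f (s i (c.symm ξ))) (𝕜 := ℂ)
    (fun ξ hξ => hgd i ξ (ball_subset_closedBall hξ)) hbd (hT hy').2 (hT hy).2
  refine h1.trans ?_
  refine mul_le_mul_of_nonneg_left ?_ hC1
  have h2 : dist (c (π y)) (c x) < r := (hT hy).2
  have h3 : dist (c (π y')) (c x) < r := (hT hy').2
  rw [← dist_eq_norm]
  linarith [dist_triangle_right (c (π y)) (c (π y')) (c x)]

end

section

variable {E : Type} [NormedAddCommGroup E] [NormedSpace ℂ E] [FiniteDimensional ℂ E]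
  {X : Type} [TopologicalSpace X] [ChartedSpace E X] [IsManifold 𝓘(ℂ, E) ω X]

/-- BLOCK CV4 -/
theorem lip_of_bdd_pr {X : Type} [TopologicalSpace X] [ChartedSpace E X] [IsManifold 𝓘(ℂ, E) ω X]
    (h : HasBoundedDerivative E X) : HasLipschitzFunction E X := by
  obtain ⟨Y, i1, i2, i3, i4, π, f, h1, h2, h3, h4, h5, h6⟩ := h
  exact ⟨Y, i1, i2, i3, i4, π, f, h1, h2, h3, h4, h5, fun x => osc_of_deriv h1 h2 h3 h4 h6 x⟩

end

end Pool.Agent.KZ

namespace Pool.Agent.KZ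

alias lip_of_bdd := lip_of_bdd_pr

end Pool.Agent.KZ
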