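import Pool.Agent.Lib_helper82.KZ.Defs

set_option autoImplicit false
set_option linter.unusedVariables false
set_option linter.unusedSectionVars false

open Filter Topology Metric Set
open scoped Manifold ContDiff

namespace Pool.Agent.KZ

open Pool.Agent.BR Pool.Agent.MBS Pool.Agent.SL Pool.Agent.IS
open Pool.Agent.NullCurves
open MinBrody (IsGerm chartJet)

variable {E X : Type} [NormedAddCommGroup E] [NormedSpace ℂ E] [FiniteDimensional ℂ E]

/-- a local model with an open set -/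
theorem mf1_loc [TopologicalSpace X] [ChartedSpace E X] {ρ : X → X → ℝ}
    (hρ : IsFlatDist E ρ) (x : X) :
    ∃ (V : Type) (_ : NormedAddCommGroup V) (_ : NormedSpace ℂ V) (_ : CompleteSpace V)
      (F : X → V) (O : Set X), IsOpen O ∧ x ∈ O ∧
      (∀ y ∈ O, MDifferentiableAt 𝓘(ℂ, E) 𝓘(ℂ, V) F y) ∧
      ∀ u ∈ O, ∀ u' ∈ O, ρ u u' = ‖F u - F u'‖ := by
  obtain ⟨V, i1, i2, i3, F, hF, hρF⟩ := hρ x
  rw [nhds_prod_eq] at hρF
  obtain ⟨s, hs, hsF⟩ := (Filter.eventually_prod_self_iff' (la := 𝓝 x)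
    (r := fun p : X × X => ρ p.1 p.2 = ‖F p.1 - F p.2‖)).1 hρF
  obtain ⟨O, hO, hOo, hxO⟩ := mem_nhds_iff.1 (Filter.inter_mem hF hs)
  exact ⟨V, i1, i2, i3, F, O, hOo, hxO, fun y hy => (hO hy).1,
    fun u hu u' hu' => hsF u (hO hu).2 u' (hO hu').2⟩

/-- a holomorphic map in a chart is analytic (values in a Banach space) -/
theorem mf1_an [TopologicalSpace X] [ChartedSpace E X] [IsManifold 𝓘(ℂ, E) ω X] {V : Type}
    [NormedAddCommGroup V] [NormedSpace ℂ V] [CompleteSpace V]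
    {G : X → V} {O : Set X} (hO : IsOpen O)
    (hG : ∀ y ∈ O, MDifferentiableAt 𝓘(ℂ, E) 𝓘(ℂ, V) G y) {y : X} {ξ : E}
    (hξ : ξ ∈ (chartAt E y).target) (hξO : (chartAt E y).symm ξ ∈ O) :
    AnalyticAt ℂ (fun ξ => G ((chartAt E y).symm ξ)) ξ := by
  have hc : ContinuousAt (chartAt E y).symm ξ := (chartAt E y).continuousAt_symm hξ
  have h1 : ∀ᶠ ξ' in 𝓝 ξ, DifferentiableAt ℂ (fun ξ => G ((chartAt E y).symm ξ)) ξ' := by
    filter_upwards [hc.eventually (hO.mem_nhds hξO), (chartAt E y).open_target.mem_nhds hξ]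
      with ξ' h1 h2
    exact SL.z2_chart h2 (hG _ h1)
  obtain ⟨U, hU, hUo, hξU⟩ := _root_.eventually_nhds_iff.1 h1
  exact SS.hol_analytic hUo hU hξU

/-- MF1: flat distances in charts -/
theorem fd_of_flat_pr [MetricSpace X] [ChartedSpace E X] [IsManifold 𝓘(ℂ, E) ω X] {A : Cha E X}
    (hA : ∀ i, ∃ y, A.ch i = chartAt E y) {ρ : X → X → ℝ} (hρ : IsFlatDist E ρ) : FD A ρ := by
  intro x
  obtain ⟨V, i1, i2, i3, F, O, hO, hx, hF, he⟩ := mf1_loc hρ x
  refine ⟨V, i1, i2, i3, F, O, hx, hO, ?_, he⟩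
  intro y hy i hi
  obtain ⟨z, hz⟩ := hA i
  rw [hz] at hi ⊢
  refine mf1_an hO hF ((chartAt E z).map_source hi) ?_
  rw [(chartAt E z).left_inv hi]
  exact hy

end Pool.Agent.KZ

namespace Pool.Agent.KZ

alias fd_of_flat := fd_of_flat_pr

end Pool.Agent.KZ
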