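import Pool.Agent.Lib_helper82.KZ.Defs

set_option autoImplicit false

open Filter Topology Metric Set
open scoped Manifold ContDiff

namespace Pool.Agent.KZ

open Pool.Agent.BR Pool.Agent.MBS Pool.Agent.SL Pool.Agent.IS

theorem ls_norm_pr {V : Type} [NormedAddCommGroup V] [NormedSpace ℂ V] [CompleteSpace V]
    {u : ℂ → ℝ} {f : ℂ → V} {z₀ : ℂ} (hf : AnalyticAt ℂ f z₀)
    (hu : ∀ᶠ z in 𝓝 z₀, u z = ‖f z‖) :
    LS u z₀ := by
  refine ⟨hf.continuousAt.norm.congr (hu.mono fun z hz => hz.symm), ?_⟩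
  have h1 : ∀ᶠ z in 𝓝 z₀, u z = ‖f z‖ ∧ AnalyticAt ℂ f z :=
    hu.and hf.eventually_analyticAt
  obtain ⟨R, hR, hball⟩ := Metric.eventually_nhds_iff_ball.1 h1
  filter_upwards [Ioo_mem_nhdsGT hR] with r hr
  have hr0 : |r| = r := abs_of_pos hr.1
  have hsub : closedBall z₀ |r| ⊆ ball z₀ R := by
    rw [hr0]; exact closedBall_subset_ball hr.2
  have hd : DiffContOnCl ℂ f (ball z₀ |r|) := by
    apply DifferentiableOn.diffContOnCl
    intro z hz
    exact (hball z (hsub
      (closure_ball_subset_closedBall hz))).2.differentiableAt.differentiableWithinAt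
  have h2 : Real.circleAverage f z₀ r = f z₀ := hd.circleAverage
  have h3 : Real.circleAverage u z₀ r = Real.circleAverage (fun z => ‖f z‖) z₀ r := by
    apply Real.circleAverage_congr_sphere
    intro z hz
    exact (hball z (hsub (sphere_subset_closedBall hz))).1
  rw [h3, (hball z₀ (mem_ball_self hR)).1, ← h2, Real.circleAverage_def, Real.circleAverage_def,
    norm_smul, smul_eq_mul, Real.norm_eq_abs,
    abs_of_nonneg (by positivity : (0 : ℝ) ≤ (2 * Real.pi)⁻¹)]
  gcongr
  exact intervalIntegral.norm_integral_le_integral_norm (by positivity)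

end Pool.Agent.KZ

namespace Pool.Agent.KZ

alias ls_norm := ls_norm_pr

end Pool.Agent.KZ
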