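import Pool.Agent.Lib_helper82.KZ.Defs
import Pool.Agent.Lib_helper82.BR.GLiou

set_option autoImplicit false

open Filter Topology Metric Set
open scoped Manifold ContDiff

namespace Pool.Agent.KZ

open Pool.Agent.BR Pool.Agent.MBS Pool.Agent.SL Pool.Agent.IS

/-- the maximum principle -/
theorem ls2_max {v : ℂ → ℝ} {c : ℂ} {r β : ℝ} (hv : ContinuousOn v (closedBall c r))
    (hs : ∀ z ∈ ball c r, ∀ᶠ ρ in 𝓝[>] (0 : ℝ), v z ≤ Real.circleAverage v z ρ)
    (hβ : ∀ z ∈ sphere c r, v z ≤ β) : ∀ z ∈ closedBall c r, v z ≤ β := by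
  by_contra hcon
  push Not at hcon
  obtain ⟨z₂, h21, h22⟩ := hcon
  have hc : IsCompact (closedBall c r) := isCompact_closedBall c r
  obtain ⟨z₃, hz₃, hmax⟩ := hc.exists_isMaxOn ⟨z₂, h21⟩ hv
  obtain ⟨m, hm⟩ : ∃ m, m = v z₃ := ⟨_, rfl⟩
  have hmle : ∀ z ∈ closedBall c r, v z ≤ m := fun z hz => by rw [hm]; exact hmax hz
  have hmβ : β < m := h22.trans_le (hmle z₂ h21)
  have hK : IsCompact (closedBall c r ∩ v ⁻¹' Ici m) := by
    obtain ⟨t, ht, h⟩ := (continuousOn_iff_isClosed.1 hv) (Ici m) isClosed_Ici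
    have : closedBall c r ∩ v ⁻¹' Ici m = closedBall c r ∩ t := by
      rw [inter_comm, h, inter_comm]
    rw [this]
    exact hc.inter_right ht
  obtain ⟨z₀, ⟨hz₀, hz₀m⟩, hfar⟩ := hK.exists_isMaxOn ⟨z₃, hz₃, hm.le⟩
    (continuous_norm.comp (continuous_id.sub continuous_const) : Continuous
      fun z : ℂ => ‖z - c‖).continuousOn
  have hvz₀ : v z₀ = m := le_antisymm (hmle z₀ hz₀) hz₀m
  have h1 : ‖z₀ - c‖ < r := by
    rw [mem_closedBall_iff_norm] at hz₀
    refine lt_of_le_of_ne hz₀ fun h => ?_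
    have h2 := hβ z₀ (by rw [mem_sphere_iff_norm]; exact h)
    linarith
  have h2 := hs z₀ (by rw [mem_ball_iff_norm]; exact h1)
  have h3 : ∀ᶠ ρ in 𝓝[>] (0 : ℝ), ρ < r - ‖z₀ - c‖ ∧ 0 < ρ := by
    refine (eventually_nhdsWithin_of_eventually_nhds
      (eventually_lt_nhds (by linarith))).and ?_
    exact eventually_mem_nhdsWithin
  obtain ⟨ρ, h4, h5, h6⟩ := (h2.and h3).exists
  have hsA : sphere z₀ ρ ⊆ closedBall c r := by
    intro z hz
    rw [mem_sphere_iff_norm] at hz
    rw [mem_closedBall_iff_norm]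
    have : z - c = (z - z₀) + (z₀ - c) := by ring
    rw [this]
    refine (norm_add_le _ _).trans ?_
    linarith
  have heq := Pool.Agent.BrodyRigid.gl_max h6 (hv.mono hsA).upperSemicontinuousOn
    ((hv.mono hsA).circleIntegrable h6.le) (fun z hz => hmle z (hsA hz)) (by rw [← hvz₀]; exact h4)
  -- a point which is farther from the centre
  obtain ⟨w, hw, hwn⟩ : ∃ w ∈ sphere z₀ ρ, ‖w - c‖ = ‖z₀ - c‖ + ρ := by
    rcases eq_or_ne z₀ c with h | h
    · refine ⟨z₀ + ρ, ?_, ?_⟩
      · rw [mem_sphere_iff_norm, add_sub_cancel_left, Complex.norm_real, Real.norm_of_nonneg h6.le]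
      · rw [h, add_sub_cancel_left, Complex.norm_real, Real.norm_of_nonneg h6.le, sub_self,
          norm_zero, zero_add]
    · have h0 : 0 < ‖z₀ - c‖ := norm_pos_iff.2 (sub_ne_zero.2 h)
      refine ⟨z₀ + ((ρ / ‖z₀ - c‖ : ℝ) : ℂ) * (z₀ - c), ?_, ?_⟩
      · rw [mem_sphere_iff_norm, add_sub_cancel_left, norm_mul, Complex.norm_real,
          Real.norm_of_nonneg (by positivity), div_mul_cancel₀ _ h0.ne']
      · have e1 : z₀ + ((ρ / ‖z₀ - c‖ : ℝ) : ℂ) * (z₀ - c) - c =
            ((1 + ρ / ‖z₀ - c‖ : ℝ) : ℂ) * (z₀ - c) := by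
          push_cast; ring
        rw [e1, norm_mul, Complex.norm_real, Real.norm_of_nonneg (by positivity), add_mul, one_mul,
          div_mul_cancel₀ _ h0.ne']
  have h7 := hfar (a := w) ⟨hsA hw, (heq w hw).ge⟩
  have h8 : ‖w - c‖ ≤ ‖z₀ - c‖ := h7
  rw [hwn] at h8
  linarith

/-- `H` is continuous with the mean value property -/
def ls2_MV (H : ℂ → ℂ) : Prop :=
  Continuous H ∧ ∀ (z : ℂ) (ρ : ℝ), Real.circleAverage H z ρ = H z

theorem ls2_pow (n : ℕ) : ls2_MV (fun z => z ^ n) := by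
  refine ⟨continuous_pow n, fun z ρ => ?_⟩
  exact DiffContOnCl.circleAverage
    ((differentiable_pow n : Differentiable ℂ fun z : ℂ => z ^ n).diffContOnCl)

theorem ls2_conj {H : ℂ → ℂ} (h : ls2_MV H) : ls2_MV (fun z => (starRingEnd ℂ) (H z)) := by
  refine ⟨Complex.continuous_conj.comp h.1, fun z ρ => ?_⟩
  have h1 := ContinuousLinearMap.circleAverage_comp_comm
    ((Complex.conjCLE : ℂ ≃L[ℝ] ℂ) : ℂ →L[ℝ] ℂ) (f := H) (c := z) (R := ρ)
    (h.1.continuousOn.circleIntegrable')
  rw [h.2 z ρ] at h1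
  exact h1

theorem ls2_add {H K : ℂ → ℂ} (h : ls2_MV H) (k : ls2_MV K) : ls2_MV (fun z => H z + K z) := by
  refine ⟨h.1.add k.1, fun z ρ => ?_⟩
  rw [Real.circleAverage_fun_add (h.1.continuousOn.circleIntegrable')
    (k.1.continuousOn.circleIntegrable'), h.2, k.2]

theorem ls2_smul {H : ℂ → ℂ} (a : ℂ) (h : ls2_MV H) : ls2_MV (fun z => a • H z) := by
  refine ⟨h.1.const_smul a, fun z ρ => ?_⟩
  rw [Real.circleAverage_fun_smul, h.2]

theorem ls2_zero : ls2_MV (fun _ => 0) :=
  ⟨continuous_const, fun z ρ => Real.circleAverage_const 0 z ρ⟩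

theorem ls2_fourier (n : ℤ) : ∃ H : ℂ → ℂ, ls2_MV H ∧
    ∀ x : AddCircle (2 * Real.pi), H (AddCircle.toCircle x : ℂ) = fourier n x := by
  obtain ⟨m, rfl | rfl⟩ := Int.eq_nat_or_neg n
  · refine ⟨_, ls2_pow m, fun x => ?_⟩
    rw [fourier_apply, AddCircle.toCircle_zsmul, zpow_natCast, Circle.coe_pow]
  · refine ⟨_, ls2_conj (ls2_pow m), fun x => ?_⟩
    rw [fourier_apply, AddCircle.toCircle_zsmul, zpow_neg, zpow_natCast, Circle.coe_inv,
      Circle.coe_pow, map_pow, ← Circle.coe_inv_eq_conj, Circle.coe_inv, inv_pow]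

theorem ls2_span (p : C(AddCircle (2 * Real.pi), ℂ))
    (hp : p ∈ Submodule.span ℂ (range (@fourier (2 * Real.pi)))) : ∃ H : ℂ → ℂ, ls2_MV H ∧
    ∀ x : AddCircle (2 * Real.pi), H (AddCircle.toCircle x : ℂ) = p x := by
  induction hp using Submodule.span_induction with
  | mem p hp =>
    obtain ⟨n, rfl⟩ := hp
    exact ls2_fourier n
  | zero => exact ⟨_, ls2_zero, fun x => rfl⟩
  | add p q _ _ h1 h2 =>
    obtain ⟨H, h3, h4⟩ := h1
    obtain ⟨K, h5, h6⟩ := h2
    exact ⟨_, ls2_add h3 h5, fun x => by simp only [h4, h6]; rfl⟩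
  | smul a p _ h1 =>
    obtain ⟨H, h3, h4⟩ := h1
    exact ⟨_, ls2_smul a h3, fun x => by simp only [h4]; rfl⟩

theorem ls2_scale {H : ℂ → ℂ} (h : ls2_MV H) (c : ℂ) {r : ℝ} (hr : 0 < r) :
    ls2_MV (fun z => H ((z - c) / r)) := by
  refine ⟨h.1.comp ((continuous_id.sub continuous_const).div_const _), fun z ρ => ?_⟩
  have h1 := h.2 ((z - c) / r) (ρ / r)
  have hr' : (r : ℂ) ≠ 0 := by exact_mod_cast hr.ne'
  show Real.circleAverage (fun z => H ((z - c) / r)) z ρ = H ((z - c) / r)
  rw [← h1]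
  unfold Real.circleAverage
  congr 2
  funext θ
  refine congrArg H ?_
  unfold circleMap
  push_cast
  field_simp
  ring

/-- harmonic functions approximate continuous functions on the circle -/
theorem ls2_approx {u : ℂ → ℝ} {c : ℂ} {r : ℝ} (hr : 0 < r) (hu : ContinuousOn u (sphere c r))
    {ε : ℝ} (hε : 0 < ε) : ∃ H : ℂ → ℂ, ls2_MV H ∧ ∀ z ∈ sphere c r, |u z - (H z).re| ≤ ε := by
  have hr' : (r : ℂ) ≠ 0 := by exact_mod_cast hr.ne'
  have : Fact (0 < 2 * Real.pi) := ⟨Real.two_pi_pos⟩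
  have hmem : ∀ x : AddCircle (2 * Real.pi), c + r * (AddCircle.toCircle x : ℂ) ∈ sphere c r := by
    intro x
    rw [mem_sphere_iff_norm, add_sub_cancel_left, norm_mul, Circle.norm_coe, mul_one,
      Complex.norm_real, Real.norm_of_nonneg hr.le]
  have hcont : Continuous fun x : AddCircle (2 * Real.pi) =>
      ((u (c + r * (AddCircle.toCircle x : ℂ)) : ℝ) : ℂ) := by
    refine Complex.continuous_ofReal.comp (hu.comp_continuous ?_ hmem)
    exact continuous_const.add (continuous_const.mul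
      (continuous_induced_dom.comp AddCircle.continuous_toCircle))
  obtain ⟨g, hg⟩ : ∃ g : C(AddCircle (2 * Real.pi), ℂ), g = ⟨_, hcont⟩ := ⟨_, rfl⟩
  have h1 : g ∈ closure ((Submodule.span ℂ (range (@fourier (2 * Real.pi))) :
      Submodule ℂ C(AddCircle (2 * Real.pi), ℂ)) : Set C(AddCircle (2 * Real.pi), ℂ)) := by
    have := span_fourier_closure_eq_top (T := 2 * Real.pi)
    rw [← Submodule.topologicalClosure_coe, this]
    exact Submodule.mem_top
  obtain ⟨p, hp, hd⟩ := Metric.mem_closure_iff.1 h1 ε hε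
  obtain ⟨H, h2, h3⟩ := ls2_span p hp
  refine ⟨_, ls2_scale h2 c hr, fun z hz => ?_⟩
  have hz1 : ‖(z - c) / r‖ = 1 := by
    rw [mem_sphere_iff_norm] at hz
    rw [norm_div, hz, Complex.norm_real, Real.norm_of_nonneg hr.le, div_self hr.ne']
  obtain ⟨x, hx⟩ : ∃ x : AddCircle (2 * Real.pi), (AddCircle.toCircle x : ℂ) = (z - c) / r := by
    refine ⟨((Complex.arg ((z - c) / r) : ℝ) : AddCircle (2 * Real.pi)), ?_⟩
    rw [AddCircle.toCircle_apply_mk, div_self (Real.two_pi_pos.ne'), one_mul, Circle.coe_exp]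
    have := Complex.norm_mul_exp_arg_mul_I ((z - c) / r)
    rw [hz1, Complex.ofReal_one, one_mul] at this
    exact this
  have h4 : dist (g x) (p x) < ε := lt_of_le_of_lt (ContinuousMap.dist_apply_le_dist x) hd
  have h5 : g x = ((u z : ℝ) : ℂ) := by
    rw [hg]
    show ((u (c + r * (AddCircle.toCircle x : ℂ)) : ℝ) : ℂ) = _
    rw [hx]
    congr 2
    field_simp
    ring
  rw [h5, ← h3 x, hx, dist_eq_norm] at h4
  have h6 := Complex.abs_re_le_norm (((u z : ℝ) : ℂ) - H ((z - c) / r))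
  rw [Complex.sub_re, Complex.ofReal_re] at h6
  exact h6.trans h4.le

theorem ls2_re {H : ℂ → ℂ} (h : ls2_MV H) (z : ℂ) (ρ : ℝ) :
    Real.circleAverage (fun z => (H z).re) z ρ = (H z).re := by
  have h1 := ContinuousLinearMap.circleAverage_comp_comm Complex.reCLM (f := H) (c := z) (R := ρ)
    (h.1.continuousOn.circleIntegrable')
  rw [h.2 z ρ] at h1
  exact h1

/-- LS2: local submean property implies the submean inequality on all circles -/
theorem ls_glob_pr {u : ℂ → ℝ} {c : ℂ} {R r : ℝ} (hr : 0 < r) (hrR : r < R)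
    (hu : ∀ z ∈ ball c R, LS u z) : u c ≤ Real.circleAverage u c r := by
  have hcb : closedBall c r ⊆ ball c R := closedBall_subset_ball hrR
  have hcu : ContinuousOn u (closedBall c r) := fun z hz => (hu z (hcb hz)).1.continuousWithinAt
  have hcs : ContinuousOn u (sphere c r) := hcu.mono sphere_subset_closedBall
  refine le_of_forall_pos_le_add fun δ hδ => ?_
  obtain ⟨H, hH, hap⟩ := ls2_approx hr hcs (half_pos hδ)
  have hHc : Continuous fun z => (H z).re := Complex.continuous_re.comp hH.1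
  have hmax := ls2_max (v := fun z => u z - (H z).re) (β := δ / 2)
    (hcu.sub hHc.continuousOn) (fun z hz => by
      have hz' : z ∈ ball c R := hcb (ball_subset_closedBall hz)
      have h1 := (hu z hz').2
      rw [mem_ball_iff_norm] at hz
      have h3 : ∀ᶠ ρ in 𝓝[>] (0 : ℝ), ρ < r - ‖z - c‖ ∧ 0 < ρ := by
        refine (eventually_nhdsWithin_of_eventually_nhds
          (eventually_lt_nhds (by linarith))).and ?_
        exact eventually_mem_nhdsWithin
      filter_upwards [h1, h3] with ρ h4 h5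
      have hsA : sphere z ρ ⊆ closedBall c r := by
        intro w hw
        rw [mem_sphere_iff_norm] at hw
        rw [mem_closedBall_iff_norm]
        have : w - c = (w - z) + (z - c) := by ring
        rw [this]
        refine (norm_add_le _ _).trans ?_
        linarith [h5.1]
      have h6 := Real.circleAverage_fun_sub ((hcu.mono hsA).circleIntegrable h5.2.le)
        (hHc.continuousOn.circleIntegrable h5.2.le : CircleIntegrable (fun z => (H z).re) z ρ)
      rw [h6, ls2_re hH]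
      linarith) (fun z hz => by
      have := hap z hz
      rw [abs_le] at this
      linarith [this.2]) c (mem_closedBall_self hr.le)
  have h7 : (H c).re - δ / 2 ≤ Real.circleAverage u c r := by
    have h8 : Real.circleAverage (fun z => (H z).re - δ / 2) c r = (H c).re - δ / 2 := by
      rw [Real.circleAverage_fun_sub (hHc.continuousOn.circleIntegrable hr.le)
        (continuous_const.continuousOn.circleIntegrable hr.le), ls2_re hH,
        Real.circleAverage_const]
    rw [← h8]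
    refine Real.circleAverage_mono ((hHc.sub continuous_const).continuousOn.circleIntegrable hr.le)
      (hcs.circleIntegrable hr.le) fun z hz => ?_
    rw [abs_of_pos hr] at hz
    have := hap z hz
    rw [abs_le] at this
    linarith [this.1]
  linarith

end Pool.Agent.KZ

namespace Pool.Agent.KZ

alias ls_glob := ls_glob_pr

end Pool.Agent.KZ
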