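import Pool.Agent.Lib_helper82.KZ.Defs
import Pool.Agent.Lib_helper82.KZ.P.MF1
import Pool.Agent.Lib_helper82.KZ.P.LS1
import Pool.Agent.Lib_helper82.KZ.P.LS2

set_option autoImplicit false
set_option linter.unusedVariables false
set_option linter.unusedSectionVars false

open Filter Topology Metric Set
open scoped Manifold ContDiff

namespace Pool.Agent.KZ

open Pool.Agent.BR Pool.Agent.MBS Pool.Agent.SL Pool.Agent.IS
open Pool.Agent.NullCurves
open MinBrody (IsGerm chartJet)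

/-- the limit of the difference quotients -/
theorem mf2_lim {V : Type} [NormedAddCommGroup V] [NormedSpace ℂ V] {g : ℂ → V} {g' : V}
    (hg : HasDerivAt g g' 0) {r : ℝ → ℝ}
    (hr : ∀ᶠ t : ℝ in 𝓝[>] 0, r t = ‖g 0 - g (t : ℂ)‖) :
    limsup (fun t : ℝ => r t / t) (𝓝[>] 0) = ‖g'‖ := by
  have h1 : Tendsto (fun t : ℝ => (t : ℂ)) (𝓝[>] 0) (𝓝[≠] 0) := by
    refine tendsto_nhdsWithin_iff.2 ⟨?_, ?_⟩
    · have : ContinuousAt (fun t : ℝ => (t : ℂ)) 0 := Complex.continuous_ofReal.continuousAt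
      have h := this.tendsto
      rw [Complex.ofReal_zero] at h
      exact h.mono_left nhdsWithin_le_nhds
    · filter_upwards [self_mem_nhdsWithin] with t ht
      have ht : (0 : ℝ) < t := ht
      show (t : ℂ) ≠ 0
      exact_mod_cast ht.ne'
  have h2 := ((hasDerivAt_iff_tendsto_slope.1 hg).comp h1).norm
  have h3 : Tendsto (fun t : ℝ => r t / t) (𝓝[>] 0) (𝓝 ‖g'‖) := by
    refine h2.congr' ?_
    filter_upwards [hr, self_mem_nhdsWithin] with t h4 ht
    have ht : (0 : ℝ) < t := ht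
    show ‖slope g 0 (t : ℂ)‖ = r t / t
    rw [slope_def_module, norm_smul, norm_inv, sub_zero, Complex.norm_real, Real.norm_eq_abs,
      abs_of_pos ht, norm_sub_rev, h4, div_eq_inv_mul]
  exact h3.limsup_eq

/-- along a straight line in a chart -/
theorem mf2_lin {E X : Type} [NormedAddCommGroup E] [NormedSpace ℂ E]
    [TopologicalSpace X] [ChartedSpace E X] {ρ : X → X → ℝ} {V : Type}
    [NormedAddCommGroup V] [NormedSpace ℂ V] {F : X → V} {O : Set X} (hO : IsOpen O)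
    (he : ∀ u ∈ O, ∀ u' ∈ O, ρ u u' = ‖F u - F u'‖) {y : X} {ξ v : E}
    (hξ : ξ ∈ (chartAt E y).target) (hξO : (chartAt E y).symm ξ ∈ O)
    (hG : DifferentiableAt ℂ (fun ξ => F ((chartAt E y).symm ξ)) ξ) :
    limsup (fun t : ℝ => ρ ((chartAt E y).symm ξ) ((chartAt E y).symm (ξ + (t : ℂ) • v)) / t)
      (𝓝[>] 0) = ‖fderiv ℂ (fun ξ => F ((chartAt E y).symm ξ)) ξ v‖ := by
  have h0 : ξ + (0 : ℂ) • v = ξ := by rw [zero_smul, add_zero]
  have hl : HasDerivAt (fun w : ℂ => ξ + w • v) v 0 := by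
    have := ((hasDerivAt_id (0 : ℂ)).smul_const v).const_add ξ
    simpa using this
  have hG' : HasFDerivAt (fun ξ => F ((chartAt E y).symm ξ))
      (fderiv ℂ (fun ξ => F ((chartAt E y).symm ξ)) ξ) (ξ + (0 : ℂ) • v) := by
    rw [h0]
    exact hG.hasFDerivAt
  have h1 := hG'.comp_hasDerivAt (0 : ℂ) hl
  refine mf2_lim h1 ?_
  have hc : ContinuousAt (fun t : ℝ => (chartAt E y).symm (ξ + (t : ℂ) • v)) 0 := by
    have h2 : ContinuousAt (fun t : ℝ => ξ + (t : ℂ) • v) 0 := by fun_prop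
    have h3 : ContinuousAt (chartAt E y).symm (ξ + ((0 : ℝ) : ℂ) • v) := by
      rw [Complex.ofReal_zero, h0]
      exact (chartAt E y).continuousAt_symm hξ
    exact ContinuousAt.comp (f := fun t : ℝ => ξ + (t : ℂ) • v) h3 h2
  have h4 : ∀ᶠ t : ℝ in 𝓝 0, (chartAt E y).symm (ξ + (t : ℂ) • v) ∈ O := by
    refine hc.eventually_mem ?_
    rw [Complex.ofReal_zero, h0]
    exact hO.mem_nhds hξO
  filter_upwards [h4.filter_mono nhdsWithin_le_nhds] with t ht
  show ρ ((chartAt E y).symm ξ) ((chartAt E y).symm (ξ + (t : ℂ) • v)) =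
    ‖F ((chartAt E y).symm (ξ + (0 : ℂ) • v)) - F ((chartAt E y).symm (ξ + (t : ℂ) • v))‖
  rw [h0]
  exact he _ hξO _ ht

variable {E X : Type} [NormedAddCommGroup E] [NormedSpace ℂ E] [FiniteDimensional ℂ E]

/-- along a curve, at the origin -/
theorem mf2_cur [TopologicalSpace X] [ChartedSpace E X] {ρ : X → X → ℝ} {V : Type}
    [NormedAddCommGroup V] [NormedSpace ℂ V] {F : X → V} {O : Set X} (hO : IsOpen O)
    (hF : ∀ y ∈ O, MDifferentiableAt 𝓘(ℂ, E) 𝓘(ℂ, V) F y)
    (he : ∀ u ∈ O, ∀ u' ∈ O, ρ u u' = ‖F u - F u'‖) {c : ℂ → X} {z : ℂ} (hz : c z ∈ O)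
    (hc : MDifferentiableAt 𝓘(ℂ, ℂ) 𝓘(ℂ, E) c z) :
    limsup (fun t : ℝ => ρ (c (z + 0)) (c (z + t)) / t) (𝓝[>] 0) =
      ‖deriv (fun w => F (c w)) z‖ := by
  have h1 : MDifferentiableAt 𝓘(ℂ, ℂ) 𝓘(ℂ, V) (F ∘ c) z := (hF _ hz).comp z hc
  have h2 : HasDerivAt (fun w => F (c w)) (deriv (fun w => F (c w)) z) (z + 0) := by
    rw [add_zero]
    exact (mdifferentiableAt_iff_differentiableAt.1 h1).hasDerivAt
  have hl : HasDerivAt (fun w : ℂ => z + w) 1 0 := by
    simpa using (hasDerivAt_id (0 : ℂ)).const_add z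
  have h3 := HasDerivAt.scomp (0 : ℂ) h2 hl
  rw [one_smul] at h3
  refine mf2_lim h3 ?_
  have h4 : ContinuousAt (fun t : ℝ => c (z + t)) 0 := by
    have h5 : ContinuousAt (fun t : ℝ => z + (t : ℂ)) 0 := by fun_prop
    have h6 : ContinuousAt c (z + ((0 : ℝ) : ℂ)) := by
      rw [Complex.ofReal_zero, add_zero]
      exact hc.continuousAt
    exact ContinuousAt.comp (f := fun t : ℝ => z + (t : ℂ)) h6 h5
  have h5 : ∀ᶠ t : ℝ in 𝓝 0, c (z + t) ∈ O := by
    refine h4.eventually_mem ?_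
    rw [Complex.ofReal_zero, add_zero]
    exact hO.mem_nhds hz
  filter_upwards [h5.filter_mono nhdsWithin_le_nhds] with t ht
  show ρ (c (z + 0)) (c (z + t)) = ‖F (c (z + 0)) - F (c (z + t))‖
  exact he _ (by rw [add_zero]; exact hz) _ ht

/-- MF2: a flat distance defines a jet gauge -/
theorem flat_gauge_pr [TopologicalSpace X] [ChartedSpace E X] [IsManifold 𝓘(ℂ, E) ω X]
    {ρ : X → X → ℝ} (hρ : IsFlatDist E ρ) :
    IsJetGauge E 1 (fun c : ℂ → X => limsup (fun t : ℝ => ρ (c 0) (c t) / t) (𝓝[>] 0)) := by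
  -- the value on a germ
  have hval : ∀ (c : ℂ → X), IsGerm E c → ∀ y : X, c 0 ∈ (chartAt E y).source →
      ∀ (V : Type) (_ : NormedAddCommGroup V) (_ : NormedSpace ℂ V) (F : X → V)
      (O : Set X), IsOpen O → c 0 ∈ O → (∀ y ∈ O, MDifferentiableAt 𝓘(ℂ, E) 𝓘(ℂ, V) F y) →
      (∀ u ∈ O, ∀ u' ∈ O, ρ u u' = ‖F u - F u'‖) →
      limsup (fun t : ℝ => ρ (c 0) (c t) / t) (𝓝[>] 0) =
        ‖fderiv ℂ (fun ξ => F ((chartAt E y).symm ξ)) (chartAt E y (c 0))
          (deriv (fun w => chartAt E y (c w)) 0)‖ := by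
    intro c hc y hy V i1 i2 F O hO h0 hF he
    have h1 := mf2_cur (z := 0) hO hF he h0 hc.self_of_nhds
    simp only [zero_add] at h1
    rw [h1]
    rw [(SL.z2_curve (G := F) hc.self_of_nhds (hF _ h0) hy).deriv]
  refine ⟨?_, ?_, ?_, ?_⟩
  · intro y
    refine ⟨fun J => limsup (fun t : ℝ => ρ ((chartAt E y).symm (J 0))
      ((chartAt E y).symm (J 0 + (t : ℂ) • J 1)) / t) (𝓝[>] 0), ?_, ?_⟩
    · intro J hJ
      have hJ : J 0 ∈ (chartAt E y).target := hJ
      obtain ⟨V, i1, i2, i3, F, O, hO, hx, hF, he⟩ := mf1_loc hρ ((chartAt E y).symm (J 0))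
      have h1 : ∀ᶠ J' : Fin 2 → E in 𝓝 J, J' 0 ∈ (chartAt E y).target ∧
          (chartAt E y).symm (J' 0) ∈ O := by
        have hc : Tendsto (fun J' : Fin 2 → E => J' 0) (𝓝 J) (𝓝 (J 0)) :=
          (continuous_apply 0).continuousAt
        have hc' : ContinuousAt (chartAt E y).symm (J 0) := (chartAt E y).continuousAt_symm hJ
        filter_upwards [hc.eventually ((chartAt E y).open_target.mem_nhds hJ),
          hc.eventually (hc'.eventually_mem (hO.mem_nhds hx))] with J' h2 h3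
        exact ⟨h2, h3⟩
      have hc : ContinuousAt (fun J' : Fin 2 → E =>
          ‖fderiv ℂ (fun ξ => F ((chartAt E y).symm ξ)) (J' 0) (J' 1)‖) J := by
        have han := mf1_an (E := E) hO hF hJ hx
        have h2 : ContinuousAt (fun J' : Fin 2 → E =>
            fderiv ℂ (fun ξ => F ((chartAt E y).symm ξ)) (J' 0)) J :=
          ContinuousAt.comp (f := fun J' : Fin 2 → E => J' 0) han.fderiv.continuousAt
            (continuous_apply 0).continuousAt
        exact (h2.clm_apply (continuous_apply 1).continuousAt).norm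
      refine ContinuousWithinAt.upperSemicontinuousWithinAt ?_
      refine ContinuousAt.continuousWithinAt ?_
      refine hc.congr ?_
      filter_upwards [h1] with J' hJ'
      exact (mf2_lin hO he hJ'.1 hJ'.2 (mf1_an hO hF hJ'.1 hJ'.2).differentiableAt).symm
    · intro c hc hy
      have hJ0 : chartJet E 1 y c 0 = chartAt E y (c 0) := by simp [MinBrody.chartJet]
      have hJ1 : chartJet E 1 y c 1 = deriv (fun w => chartAt E y (c w)) 0 := by
        simp [MinBrody.chartJet, iteratedDeriv_one]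
      obtain ⟨V, i1, i2, i3, F, O, hO, hx, hF, he⟩ := mf1_loc hρ (c 0)
      show limsup (fun t : ℝ => ρ (c 0) (c t) / t) (𝓝[>] 0) =
        limsup (fun t : ℝ => ρ ((chartAt E y).symm (chartJet E 1 y c 0))
          ((chartAt E y).symm (chartJet E 1 y c 0 + (t : ℂ) • chartJet E 1 y c 1)) / t) (𝓝[>] 0)
      rw [hJ0, hJ1]
      have hx' : (chartAt E y).symm (chartAt E y (c 0)) ∈ O := by
        rw [(chartAt E y).left_inv hy]
        exact hx
      rw [hval c hc y hy V i1 i2 F O hO hx hF he]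
      exact (mf2_lin hO he ((chartAt E y).map_source hy) hx'
        (mf1_an hO hF ((chartAt E y).map_source hy) hx').differentiableAt).symm
  · intro c hc
    obtain ⟨V, i1, i2, i3, F, O, hO, hx, hF, he⟩ := mf1_loc hρ (c 0)
    show 0 ≤ limsup (fun t : ℝ => ρ (c 0) (c t) / t) (𝓝[>] 0)
    rw [hval c hc (c 0) (mem_chart_source E (c 0)) V i1 i2 F O hO hx hF he]
    exact norm_nonneg _
  · intro c hc y hy hd
    obtain ⟨V, i1, i2, i3, F, O, hO, hx, hF, he⟩ := mf1_loc hρ (c 0)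
    show limsup (fun t : ℝ => ρ (c 0) (c t) / t) (𝓝[>] 0) = 0
    rw [hval c hc y hy V i1 i2 F O hO hx hF he, hd, map_zero, norm_zero]
  · intro f r R hr hrR hf
    have hLS : ∀ z ∈ ball (0 : ℂ) R,
        LS (fun z => limsup (fun t : ℝ => ρ (f (z + 0)) (f (z + t)) / t) (𝓝[>] 0)) z := by
      intro z hz
      obtain ⟨V, i1, i2, i3, F, O, hO, hx, hF, he⟩ := mf1_loc hρ (f z)
      have h1 : ∀ᶠ z' in 𝓝 z, f z' ∈ O ∧ MDifferentiableAt 𝓘(ℂ, ℂ) 𝓘(ℂ, E) f z' := by
        filter_upwards [(hf z hz).continuousAt.eventually_mem (hO.mem_nhds hx),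
          isOpen_ball.mem_nhds hz] with z' h2 h3
        exact ⟨h2, hf z' h3⟩
      have h2 : AnalyticAt ℂ (fun w => F (f w)) z := by
        refine Complex.analyticAt_iff_eventually_differentiableAt.2 ?_
        filter_upwards [h1] with z' h3
        have h4 : MDifferentiableAt 𝓘(ℂ, ℂ) 𝓘(ℂ, V) (F ∘ f) z' := (hF _ h3.1).comp z' h3.2
        exact mdifferentiableAt_iff_differentiableAt.1 h4
      refine ls_norm h2.deriv ?_
      filter_upwards [h1] with z' h3
      exact mf2_cur hO hF he h3.1 h3.2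
    have h2 := ls_glob hr hrR hLS
    simp only [zero_add] at h2
    exact h2

end Pool.Agent.KZ

namespace Pool.Agent.KZ

alias flat_gauge := flat_gauge_pr

end Pool.Agent.KZ
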