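import Pool.Agent.Lib_helper82.KZ.Defs
import Pool.Agent.Lib_helper82.KZ.P.MF2

set_option autoImplicit false
set_option linter.unusedVariables false
set_option linter.unusedSectionVars false

open Filter Topology Metric Set
open scoped Manifold ContDiff

namespace Pool.Agent.KZ

open Pool.Agent.BR Pool.Agent.MBS Pool.Agent.SL Pool.Agent.IS
open Pool.Agent.NullCurves
open MinBrody (IsGerm chartJet)

variable {E X : Type} [NormedAddCommGroup E] [NormedSpace ℂ E] [FiniteDimensional ℂ E]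

/-- MF3: flat distances vanish along null germs -/
theorem flat_null_pr [TopologicalSpace X] [CompactSpace X] [T2Space X] [ChartedSpace E X]
    [IsManifold 𝓘(ℂ, E) ω X] {ρ : X → X → ℝ} (hρ : IsFlatDist E ρ) {c : ℂ → X}
    (hc : IsGerm E c) (hn : IsNullGerm E c) : ∀ᶠ z in 𝓝 (0 : ℂ), ρ (c 0) (c z) = 0 := by
  obtain ⟨V, i1, i2, i3, F, O, hO, hx, hF, he⟩ := mf1_loc hρ (c 0)
  have h1 : ∀ᶠ z in 𝓝 (0 : ℂ), c z ∈ O ∧ MDifferentiableAt 𝓘(ℂ, ℂ) 𝓘(ℂ, E) c z ∧
      deriv (fun w => F (c w)) z = 0 := by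
    filter_upwards [hc.self_of_nhds.continuousAt.eventually_mem (hO.mem_nhds hx), hc, hn]
      with z h2 h3 h4
    refine ⟨h2, h3, ?_⟩
    have h5 := h4 1 _ (flat_gauge hρ)
    have h6 := mf2_cur hO hF he h2 h3
    have h7 : ‖deriv (fun w => F (c w)) z‖ = 0 := h6.symm.trans h5
    exact norm_eq_zero.1 h7
  obtain ⟨r, hr, hball⟩ := Metric.eventually_nhds_iff_ball.1 h1
  have hd : ∀ z ∈ ball (0 : ℂ) r, DifferentiableAt ℂ (fun w => F (c w)) z := by
    intro z hz
    obtain ⟨h2, h3, -⟩ := hball z hz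
    have h4 : MDifferentiableAt 𝓘(ℂ, ℂ) 𝓘(ℂ, V) (F ∘ c) z := (hF _ h2).comp z h3
    exact mdifferentiableAt_iff_differentiableAt.1 h4
  filter_upwards [ball_mem_nhds (0 : ℂ) hr] with z hz
  have h3 : F (c z) = F (c 0) :=
    isOpen_ball.is_const_of_deriv_eq_zero (f := fun w => F (c w))
      (convex_ball 0 r).isPreconnected
      (fun w hw => (hd w hw).differentiableWithinAt)
      (fun w hw => (hball w hw).2.2) hz (mem_ball_self hr)
  rw [he _ hx _ (hball z hz).1, h3, sub_self, norm_zero]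

end Pool.Agent.KZ

namespace Pool.Agent.KZ

alias flat_null := flat_null_pr

end Pool.Agent.KZ
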