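import Pool.Agent.Lib_helper82.KZ.Defs
import Pool.Agent.Lib_helper82.KZ.P.MF1

set_option autoImplicit false
set_option linter.unusedVariables false
set_option linter.unusedSectionVars false

open Filter Topology Metric Set
open scoped Manifold ContDiff

namespace Pool.Agent.KZ

open Pool.Agent.BR Pool.Agent.MBS Pool.Agent.SL Pool.Agent.IS
open Pool.Agent.NullCurves
open MinBrody (IsGerm chartJet)

variable {E X : Type} [NormedAddCommGroup E] [NormedSpace ℂ E] [FiniteDimensional ℂ E]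

/-- MF4: identity theorem for flat distances along an entire curve -/
theorem flat_ident_pr [TopologicalSpace X] [ChartedSpace E X] [IsManifold 𝓘(ℂ, E) ω X]
    {ρ : X → X → ℝ} (hρ : IsFlatDist E ρ) {h : ℂ → X} (hh : MDifferentiable 𝓘(ℂ, ℂ) 𝓘(ℂ, E) h)
    {z₀ : ℂ} (h0 : ∀ᶠ z in 𝓝 z₀, ρ (h z₀) (h z) = 0) :
    ∀ z, ∀ᶠ z' in 𝓝 z, ρ (h z) (h z') = 0 := by
  obtain ⟨S, hS⟩ : ∃ S : Set ℂ, S = {z | ∀ᶠ z' in 𝓝 z, ρ (h z) (h z') = 0} := ⟨_, rfl⟩
  -- near every point the function is constant or nowhere locally constant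
  have key : ∀ z₁ : ℂ, ∃ r : ℝ, 0 < r ∧ ∀ z ∈ ball z₁ r, z ∈ S → ball z₁ r ⊆ S := by
    intro z₁
    obtain ⟨V, i1, i2, i3, F, O, hO, hx, hF, he⟩ := mf1_loc hρ (h z₁)
    obtain ⟨r, hr, hball⟩ := Metric.eventually_nhds_iff_ball.1
      ((hh z₁).continuousAt.eventually_mem (hO.mem_nhds hx))
    refine ⟨r, hr, ?_⟩
    intro z hz hzS
    have hd : DifferentiableOn ℂ (fun w => F (h w)) (ball z₁ r) := by
      intro w hw
      have h4 : MDifferentiableAt 𝓘(ℂ, ℂ) 𝓘(ℂ, V) (F ∘ h) w := (hF _ (hball w hw)).comp w (hh w)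
      exact (mdifferentiableAt_iff_differentiableAt.1 h4).differentiableWithinAt
    have han : AnalyticOnNhd ℂ (fun w => F (h w)) (ball z₁ r) := hd.analyticOnNhd isOpen_ball
    rw [hS] at hzS
    have hzS : ∀ᶠ z' in 𝓝 z, ρ (h z) (h z') = 0 := hzS
    have heq := han.eqOn_of_preconnected_of_eventuallyEq (g := fun _ => F (h z))
      (fun w _ => analyticAt_const) (convex_ball z₁ r).isPreconnected hz (by
        filter_upwards [hzS, isOpen_ball.mem_nhds hz] with w hw hwb
        rw [he _ (hball z hz) _ (hball w hwb), norm_eq_zero, sub_eq_zero] at hw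
        exact hw.symm)
    intro w hw
    rw [hS]
    show ∀ᶠ z' in 𝓝 w, ρ (h w) (h z') = 0
    filter_upwards [isOpen_ball.mem_nhds hw] with w' hw'
    have h5 : F (h w) = F (h z) := heq hw
    have h6 : F (h w') = F (h z) := heq hw'
    rw [he _ (hball w hw) _ (hball w' hw'), h5, h6, sub_self, norm_zero]
  have hSo : IsOpen S := by
    rw [isOpen_iff_mem_nhds]
    intro z hz
    obtain ⟨r, hr, hb⟩ := key z
    exact Filter.mem_of_superset (ball_mem_nhds z hr) (hb z (mem_ball_self hr) hz)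
  have hSc : IsClosed S := by
    rw [← closure_subset_iff_isClosed]
    intro z₁ hz₁
    obtain ⟨r, hr, hb⟩ := key z₁
    obtain ⟨z, h3, h4⟩ := mem_closure_iff.1 hz₁ (ball z₁ r) isOpen_ball (mem_ball_self hr)
    exact hb z h3 h4 (mem_ball_self hr)
  have hSu : S = univ := IsClopen.eq_univ ⟨hSc, hSo⟩ ⟨z₀, by rw [hS]; exact h0⟩
  intro z
  have h1 : z ∈ S := by rw [hSu]; trivial
  rw [hS] at h1
  exact h1

end Pool.Agent.KZ

namespace Pool.Agent.KZ

alias flat_ident := flat_ident_pr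

end Pool.Agent.KZ
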