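import Pool.Agent.Lib_helper82.KZ.Defs

/-! # Project KZ, block MF5 (helper42): maps to tori define flat distances (uses nothing) -/

set_option autoImplicit false
set_option linter.unusedVariables false
set_option linter.unusedSectionVars false

open Filter Topology Metric Set
open scoped Manifold ContDiff

namespace Pool.Agent.KZ

open Pool.Agent.BR Pool.Agent.MBS Pool.Agent.SL Pool.Agent.IS

section manifold

open Pool.Agent.NullCurves
open MinBrody (IsGerm chartJet)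

/-- the size of an element of `W ⧸ Γ` -/
noncomputable def mf5_N {W : Type} [NormedAddCommGroup W] [NormedSpace ℂ W] (Γ : Submodule ℤ W)
    (q : W ⧸ Γ) : ℝ :=
  sInf {r | ∃ w : W, (Submodule.Quotient.mk w : W ⧸ Γ) = q ∧ ‖w‖ = r}

/-- the elements of a discrete subgroup are not small -/
theorem mf5_disc {W : Type} [NormedAddCommGroup W] [NormedSpace ℂ W] (Γ : Submodule ℤ W)
    [DiscreteTopology Γ] : ∃ δ : ℝ, 0 < δ ∧ ∀ γ ∈ Γ, ‖γ‖ < δ → γ = 0 := by
  have h1 : IsOpen ({0} : Set Γ) := isOpen_discrete _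
  obtain ⟨δ, hδ, hb⟩ := Metric.isOpen_iff.1 h1 0 rfl
  refine ⟨δ, hδ, fun γ hγ hn => ?_⟩
  have h2 : (⟨γ, hγ⟩ : Γ) ∈ ball (0 : Γ) δ := by
    show dist γ (0 : W) < δ
    rwa [dist_zero_right]
  have h3 : (⟨γ, hγ⟩ : Γ) = 0 := hb h2
  exact congrArg Subtype.val h3

/-- the size of the class of a small vector -/
theorem mf5_small {W : Type} [NormedAddCommGroup W] [NormedSpace ℂ W] {Γ : Submodule ℤ W}
    {δ : ℝ} (hΓ : ∀ γ ∈ Γ, ‖γ‖ < δ → γ = 0) {w : W} (hw : ‖w‖ < δ / 2) :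
    mf5_N Γ (Submodule.Quotient.mk w) = ‖w‖ := by
  refine IsLeast.csInf_eq ⟨⟨w, rfl, rfl⟩, ?_⟩
  rintro r ⟨w', h1, rfl⟩
  by_contra hlt
  push Not at hlt
  have h2 : w' - w ∈ Γ := (Submodule.Quotient.eq Γ).1 h1
  have h3 : ‖w' - w‖ < δ := by
    have := norm_sub_le w' w
    linarith
  have h4 := sub_eq_zero.1 (hΓ _ h2 h3)
  rw [h4] at hlt
  exact lt_irrefl _ hlt

variable {E X : Type} [NormedAddCommGroup E] [NormedSpace ℂ E] [FiniteDimensional ℂ E]

theorem torus_flat_pr [TopologicalSpace X] [ConnectedSpace X] [ChartedSpace E X]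
    [IsManifold 𝓘(ℂ, E) ω X] {W : Type} [NormedAddCommGroup W] [NormedSpace ℂ W]
    [FiniteDimensional ℂ W] {Γ : Submodule ℤ W} [DiscreteTopology Γ] {φ : X → W ⧸ Γ}
    (hφ : StrongLang.IsTorusValued E Γ φ) (hne : ∃ x y, φ x ≠ φ y) :
    ∃ ρ : X → X → ℝ, IsFlatDist E ρ ∧ IsNontrivial ρ ∧ ∀ x y, φ x = φ y → ρ x y = 0 := by
  have hWc : CompleteSpace W := FiniteDimensional.complete ℂ W
  obtain ⟨δ, hδ, hΓ⟩ := mf5_disc Γ
  -- the local formula
  have key : ∀ (x : X) (F : X → W), (∀ᶠ y in 𝓝 x, MDifferentiableAt 𝓘(ℂ, E) 𝓘(ℂ, W) F y ∧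
      φ y = Submodule.Quotient.mk (F y)) →
      ∀ᶠ p : X × X in 𝓝 (x, x), mf5_N Γ (φ p.1 - φ p.2) = ‖F p.1 - F p.2‖ := by
    intro x F hF
    have hc : ContinuousAt F x := hF.self_of_nhds.1.continuousAt
    have h1 : ∀ᶠ y in 𝓝 x, ‖F y - F x‖ < δ / 4 ∧ φ y = Submodule.Quotient.mk (F y) := by
      have h2 : ∀ᶠ y in 𝓝 x, ‖F y - F x‖ < δ / 4 := by
        have h3 : ContinuousAt (fun y => ‖F y - F x‖) x :=
          (hc.sub continuousAt_const).norm
        refine h3.eventually_lt continuousAt_const ?_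
        simp only [sub_self, norm_zero]
        linarith
      exact h2.and (hF.mono fun _ h => h.2)
    have h2 : ∀ᶠ p : X × X in 𝓝 (x, x), (‖F p.1 - F x‖ < δ / 4 ∧
        φ p.1 = Submodule.Quotient.mk (F p.1)) ∧ (‖F p.2 - F x‖ < δ / 4 ∧
        φ p.2 = Submodule.Quotient.mk (F p.2)) := by
      rw [nhds_prod_eq]
      exact h1.prod_mk h1
    filter_upwards [h2] with p hp
    rw [hp.1.2, hp.2.2, ← Submodule.Quotient.mk_sub]
    refine mf5_small hΓ ?_
    have h3 : F p.1 - F p.2 = (F p.1 - F x) - (F p.2 - F x) := by abel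
    have h4 := norm_sub_le (F p.1 - F x) (F p.2 - F x)
    rw [h3]
    linarith [hp.1.1, hp.2.1]
  refine ⟨fun x y => mf5_N Γ (φ x - φ y), ?_, ?_, ?_⟩
  · intro x
    obtain ⟨F, hF⟩ := hφ x
    exact ⟨W, inferInstance, inferInstance, hWc, F, hF.mono fun _ h => h.1, key x F hF⟩
  · by_contra hno
    unfold IsNontrivial at hno
    push Not at hno
    have hloc : ∀ x, ∀ᶠ y in 𝓝 x, φ y = φ x := by
      intro x
      obtain ⟨F, hF⟩ := hφ x
      have h1 : ∀ᶠ y in 𝓝 x, mf5_N Γ (φ x - φ y) = ‖F x - F y‖ := by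
        have h2 : Tendsto (fun y : X => (x, y)) (𝓝 x) (𝓝 (x, x)) :=
          (continuous_const.prodMk continuous_id).tendsto x
        exact h2.eventually (key x F hF)
      filter_upwards [h1, hno x, hF] with y h2 h3 h4
      rw [h2] at h3
      have h5 : F x = F y := sub_eq_zero.1 (norm_eq_zero.1 h3)
      rw [h4.2, hF.self_of_nhds.2, h5]
    have hlc : IsLocallyConstant φ :=
      (IsLocallyConstant.iff_eventually_eq φ).2 hloc
    obtain ⟨x, y, hxy⟩ := hne
    exact hxy (hlc.apply_eq_of_preconnectedSpace x y)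
  · intro x y hxy
    have h1 : φ x - φ y = Submodule.Quotient.mk (0 : W) := by
      rw [hxy, sub_self, Submodule.Quotient.mk_zero]
    show mf5_N Γ (φ x - φ y) = 0
    rw [h1, mf5_small hΓ (by rw [norm_zero]; linarith), norm_zero]

end manifold

end Pool.Agent.KZ

namespace Pool.Agent.KZ

alias torus_flat := torus_flat_pr

end Pool.Agent.KZ
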