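import Pool.Agent.Lib_helper82.KZ.Defs

set_option autoImplicit false

open Filter Topology Metric Set
open scoped Manifold ContDiff

namespace Pool.Agent.KZ

open Pool.Agent.BR Pool.Agent.MBS Pool.Agent.SL Pool.Agent.IS

/-- the zeros of an analytic function on a compact set are finite in number -/
theorem pu1_finite {K : Set ℂ} (hK : IsCompact K) {f : ℂ → ℂ} (hf : AnalyticOnNhd ℂ f K)
    (hne : ∀ w ∈ K, ¬ ∀ᶠ w' in 𝓝 w, f w' = 0) : {w | w ∈ K ∧ f w = 0}.Finite := by
  by_contra hinf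
  have hinf' : {w | w ∈ K ∧ f w = 0}.Infinite := hinf
  obtain ⟨a, haK, hacc⟩ := hinf'.exists_accPt_of_subset_isCompact hK (fun w hw => hw.1)
  rcases (hf a haK).eventually_eq_zero_or_eventually_ne_zero with h | h
  · exact hne a haK h
  · rw [accPt_iff_frequently] at hacc
    rw [eventually_nhdsWithin_iff] at h
    obtain ⟨w, h1, h2⟩ := (hacc.and_eventually h).exists
    exact h2 h1.1 h1.2.2

/-- the factorisation of an analytic function of one variable -/
theorem pu1_factor {K : Set ℂ} (Z : Finset ℂ) : ∀ f : ℂ → ℂ, AnalyticOnNhd ℂ f K →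
    (∀ w ∈ K, f w = 0 → w ∈ Z) → (∀ w ∈ K, ¬ ∀ᶠ w' in 𝓝 w, f w' = 0) →
    ∃ (L : Multiset ℂ) (g : ℂ → ℂ), AnalyticOnNhd ℂ g K ∧ (∀ w ∈ K, g w ≠ 0) ∧
      (∀ z ∈ L, z ∈ K ∧ f z = 0) ∧ ∀ w, f w = (L.map (fun z => w - z)).prod * g w := by
  induction Z using Finset.induction_on with
  | empty =>
    intro f hf hZ _
    refine ⟨0, f, hf, fun w hw h => ?_, fun z hz => absurd hz (Multiset.notMem_zero z), fun w => ?_⟩
    · exact absurd (hZ w hw h) (Finset.notMem_empty w)
    · simp
  | insert z Z' hz ih =>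
    intro f hf hZ hne
    by_cases hzf : z ∈ K ∧ f z = 0
    · obtain ⟨hzK, hfz⟩ := hzf
      obtain ⟨n, g, hg, hgz, hfg⟩ :=
        (hf z hzK).exists_eventuallyEq_pow_smul_nonzero_iff.2 (hne z hzK)
      have hn : n ≠ 0 := by
        rintro rfl
        have := hfg.self_of_nhds
        rw [hfz] at this
        simp at this
        exact hgz this.symm
      obtain ⟨f₁, hf₁⟩ : ∃ f₁ : ℂ → ℂ, f₁ = Function.update (fun w => f w / (w - z) ^ n) z (g z) :=
        ⟨_, rfl⟩
      have h1 : f₁ z = g z := by rw [hf₁, Function.update_self]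
      have h2 : ∀ w, w ≠ z → f₁ w = f w / (w - z) ^ n := fun w hw => by
        rw [hf₁, Function.update_of_ne hw]
      have h3 : ∀ w, f w = (w - z) ^ n * f₁ w := by
        intro w
        by_cases hw : w = z
        · rw [hw, hfz, sub_self, zero_pow hn, zero_mul]
        · rw [h2 w hw, mul_div_cancel₀]
          exact pow_ne_zero _ (sub_ne_zero.2 hw)
      have h4 : AnalyticOnNhd ℂ f₁ K := by
        intro w hw
        by_cases hwz : w = z
        · subst hwz
          refine hg.congr ?_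
          filter_upwards [hfg] with w' hw'
          by_cases hww : w' = w
          · rw [hww, h1]
          · rw [h2 w' hww, hw', smul_eq_mul, mul_div_cancel_left₀]
            exact pow_ne_zero _ (sub_ne_zero.2 hww)
        · have h5 : AnalyticAt ℂ (fun w => f w / (w - z) ^ n) w :=
            (hf w hw).div ((analyticAt_id.sub analyticAt_const).pow n)
              (pow_ne_zero _ (sub_ne_zero.2 hwz))
          refine h5.congr ?_
          filter_upwards [isOpen_ne.mem_nhds hwz] with w' hw'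
          rw [h2 w' hw']
      have h5 : ∀ w ∈ K, f₁ w = 0 → w ∈ Z' := by
        intro w hw h0
        have h6 : w ≠ z := by
          rintro rfl
          rw [h1] at h0
          exact hgz h0
        have h7 : f w = 0 := by rw [h3, h0, mul_zero]
        exact (Finset.mem_insert.1 (hZ w hw h7)).resolve_left h6
      have h6 : ∀ w ∈ K, ¬ ∀ᶠ w' in 𝓝 w, f₁ w' = 0 := by
        intro w hw h0
        refine hne w hw ?_
        filter_upwards [h0] with w' hw'
        rw [h3, hw', mul_zero]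
      obtain ⟨L, g', g1, g2, g3, g4⟩ := ih f₁ h4 h5 h6
      refine ⟨Multiset.replicate n z + L, g', g1, g2, ?_, fun w => ?_⟩
      · intro u hu
        rcases Multiset.mem_add.1 hu with hu | hu
        · rw [Multiset.eq_of_mem_replicate hu]
          exact ⟨hzK, hfz⟩
        · exact ⟨(g3 u hu).1, by rw [h3, (g3 u hu).2, mul_zero]⟩
      · rw [h3, g4, Multiset.map_add, Multiset.prod_add, Multiset.map_replicate,
          Multiset.prod_replicate, mul_assoc]
    · refine ih f hf (fun w hw h => ?_) hne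
      refine (Finset.mem_insert.1 (hZ w hw h)).resolve_left ?_
      rintro rfl
      exact hzf ⟨hw, h⟩

/-- the power sums of the zeros as contour integrals -/
theorem pu1_psum {s : ℝ} (hs : 0 < s) (n : ℕ) {g : ℂ → ℂ} (hg : AnalyticOnNhd ℂ g (closedBall 0 s))
    (hg0 : ∀ w ∈ closedBall (0 : ℂ) s, g w ≠ 0) (L : Multiset ℂ) (hL : ∀ z ∈ L, z ∈ ball (0 : ℂ) s) :
    ∀ f : ℂ → ℂ, (∀ w, f w = (L.map (fun z => w - z)).prod * g w) →
    (∮ w in C(0, s), w ^ n * (deriv f w / f w)) = 2 * Real.pi * Complex.I * (L.map (· ^ n)).sum := by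
  induction L using Multiset.induction_on with
  | empty =>
    intro f hf
    have h1 : f = g := by
      funext w
      rw [hf w]
      simp
    subst h1
    rw [Multiset.map_zero, Multiset.sum_zero, mul_zero]
    have h2 : ∀ w ∈ closedBall (0 : ℂ) s, DifferentiableAt ℂ (fun w => w ^ n * (deriv f w / f w)) w :=
      fun w hw => (differentiableAt_id.pow n).mul
        ((hg w hw).deriv.differentiableAt.div (hg w hw).differentiableAt (hg0 w hw))
    refine Complex.circleIntegral_eq_zero_of_differentiable_on_off_countable hs.le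
      Set.countable_empty (fun w hw => (h2 w hw).continuousAt.continuousWithinAt)
      (fun w hw => h2 w (ball_subset_closedBall hw.1))
  | cons a L ih =>
    intro f hf
    have haL : ∀ z ∈ L, z ∈ ball (0 : ℂ) s := fun z hz => hL z (Multiset.mem_cons_of_mem hz)
    have ha : a ∈ ball (0 : ℂ) s := hL a (Multiset.mem_cons_self a L)
    obtain ⟨f', hf'⟩ : ∃ f' : ℂ → ℂ, ∀ w, f' w = (L.map (fun z => w - z)).prod * g w := ⟨_, fun _ => rfl⟩
    have ih' := ih haL f' hf'
    have h1 : ∀ w, f w = (w - a) * f' w := by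
      intro w
      rw [hf, hf', Multiset.map_cons, Multiset.prod_cons, mul_assoc]
    have hprod : ∀ (L : Multiset ℂ) (w : ℂ), AnalyticAt ℂ (fun w => (L.map (fun z => w - z)).prod) w := by
      intro L
      induction L using Multiset.induction_on with
      | empty => intro w; simpa using analyticAt_const
      | cons b L ihL =>
        intro w
        simp only [Multiset.map_cons, Multiset.prod_cons]
        exact (analyticAt_id.sub analyticAt_const).mul (ihL w)
    have h2 : ∀ w ∈ closedBall (0 : ℂ) s, AnalyticAt ℂ f' w := by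
      intro w hw
      have h3 : f' = fun w => (L.map (fun z => w - z)).prod * g w := funext hf'
      rw [h3]
      exact (hprod L w).mul (hg w hw)
    have h3 : ∀ w ∈ sphere (0 : ℂ) s, f' w ≠ 0 ∧ w - a ≠ 0 := by
      intro w hw
      have hw1 : ∀ z ∈ ball (0 : ℂ) s, w - z ≠ 0 := by
        intro z hz h0
        rw [sub_eq_zero.1 h0, mem_sphere_zero_iff_norm] at hw
        rw [mem_ball_zero_iff, hw] at hz
        exact lt_irrefl _ hz
      refine ⟨?_, hw1 a ha⟩
      rw [hf']
      refine mul_ne_zero ?_ (hg0 w (sphere_subset_closedBall hw))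
      refine Multiset.prod_ne_zero ?_
      intro h0
      obtain ⟨z, hz, hz0⟩ := Multiset.mem_map.1 h0
      exact hw1 z (haL z hz) hz0
    have h4 : ∀ w ∈ sphere (0 : ℂ) s, w ^ n * (deriv f w / f w) =
        (w - a)⁻¹ * w ^ n + w ^ n * (deriv f' w / f' w) := by
      intro w hw
      have h5 : HasDerivAt f (1 * f' w + (w - a) * deriv f' w) w := by
        have h6 : f = fun w => (w - a) * f' w := funext h1
        rw [h6]
        exact ((hasDerivAt_id w).sub_const a).mul
          (h2 w (sphere_subset_closedBall hw)).differentiableAt.hasDerivAt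
      obtain ⟨h6, h7⟩ := h3 w hw
      rw [h5.deriv, h1]
      field_simp
    have h5 : (∮ w in C(0, s), w ^ n * (deriv f w / f w)) =
        ∮ w in C(0, s), ((w - a)⁻¹ * w ^ n + w ^ n * (deriv f' w / f' w)) :=
      circleIntegral.integral_congr hs.le h4
    have h6 : CircleIntegrable (fun w => (w - a)⁻¹ * w ^ n) 0 s := by
      refine ContinuousOn.circleIntegrable hs.le fun w hw => ?_
      exact (((continuousAt_id.sub continuousAt_const).inv₀ (h3 w hw).2).mul
        (continuousAt_id.pow n)).continuousWithinAt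
    have h7 : CircleIntegrable (fun w => w ^ n * (deriv f' w / f' w)) 0 s := by
      refine ContinuousOn.circleIntegrable hs.le fun w hw => ?_
      have h8 := h2 w (sphere_subset_closedBall hw)
      exact ((continuousAt_id.pow n).mul (h8.deriv.continuousAt.div h8.continuousAt
        (h3 w hw).1)).continuousWithinAt
    rw [h5, circleIntegral.integral_add h6 h7, ih']
    have h8 : (∮ w in C(0, s), (w - a)⁻¹ * w ^ n) = 2 * Real.pi * Complex.I * a ^ n := by
      have h9 : DiffContOnCl ℂ (fun w : ℂ => w ^ n) (ball 0 s) :=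
        (differentiable_id.pow n).diffContOnCl
      have h10 := h9.circleIntegral_sub_inv_smul ha
      simpa [smul_eq_mul] using h10
    rw [h8, Multiset.map_cons, Multiset.sum_cons]
    ring

/-- a contour integral depending on a parameter -/
theorem pu1_param {r s : ℝ} (hs : 0 < s) {H : ℂ × ℂ → ℂ}
    (hH : ∀ x ∈ ball (0 : ℂ) r, ∀ w ∈ sphere (0 : ℂ) s, AnalyticAt ℂ H (x, w)) :
    DifferentiableOn ℂ (fun x => ∮ w in C(0, s), H (x, w)) (ball 0 r) := by
  intro x₀ hx₀
  obtain ⟨δ, hδ, hδr⟩ := Metric.isOpen_iff.1 (isOpen_ball : IsOpen (ball (0 : ℂ) r)) x₀ hx₀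
  have hsub : closedBall x₀ (δ / 2) ⊆ ball (0 : ℂ) r :=
    (closedBall_subset_ball (by linarith)).trans hδr
  have hcir : ∀ θ : ℝ, circleMap 0 s θ ∈ sphere (0 : ℂ) s := fun θ => circleMap_mem_sphere 0 hs.le θ
  obtain ⟨F', hF'⟩ : ∃ F' : ℂ → ℝ → ℂ, ∀ x θ, F' x θ =
      deriv (circleMap 0 s) θ * fderiv ℂ H (x, circleMap 0 s θ) (1, 0) := ⟨_, fun _ _ => rfl⟩
  have hcont : ContinuousOn (fun p : ℂ × ℂ => fderiv ℂ H p (1, 0))
      (closedBall x₀ (δ / 2) ×ˢ sphere (0 : ℂ) s) := by
    rintro ⟨x, w⟩ ⟨hx, hw⟩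
    exact ((hH x (hsub hx) w hw).fderiv.continuousAt.clm_apply continuousAt_const).continuousWithinAt
  obtain ⟨B, hB⟩ := ((isCompact_closedBall x₀ (δ / 2)).prod
    (isCompact_sphere (0 : ℂ) s)).exists_bound_of_continuousOn hcont
  have hderiv : Continuous (fun θ : ℝ => deriv (circleMap 0 s) θ) := by
    simp only [deriv_circleMap]
    fun_prop
  have hFc : ∀ x ∈ ball (0 : ℂ) r, Continuous
      (fun θ : ℝ => deriv (circleMap 0 s) θ * H (x, circleMap 0 s θ)) := by
    intro x hx
    refine hderiv.mul (continuous_iff_continuousAt.2 fun θ => ?_)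
    have h1 : ContinuousAt H (x, circleMap 0 s θ) := (hH x hx _ (hcir θ)).continuousAt
    exact ContinuousAt.comp (f := fun θ : ℝ => (x, circleMap 0 s θ)) h1
      (by fun_prop)
  have hF'c : Continuous (F' x₀) := by
    have e : F' x₀ = fun θ => deriv (circleMap 0 s) θ * fderiv ℂ H (x₀, circleMap 0 s θ) (1, 0) :=
      funext (hF' x₀)
    rw [e]
    refine hderiv.mul (continuous_iff_continuousAt.2 fun θ => ?_)
    have h1 : ContinuousAt (fun p => fderiv ℂ H p (1, 0)) (x₀, circleMap 0 s θ) :=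
      (hH x₀ hx₀ _ (hcir θ)).fderiv.continuousAt.clm_apply continuousAt_const
    exact ContinuousAt.comp (f := fun θ : ℝ => (x₀, circleMap 0 s θ)) h1 (by fun_prop)
  have key := intervalIntegral.hasDerivAt_integral_of_dominated_loc_of_deriv_le
    (μ := MeasureTheory.volume) (a := 0) (b := 2 * Real.pi)
    (F := fun x (θ : ℝ) => deriv (circleMap 0 s) θ * H (x, circleMap 0 s θ)) (F' := F')
    (bound := fun _ => s * B) (x₀ := x₀) (s := closedBall x₀ (δ / 2))
    (closedBall_mem_nhds x₀ (by positivity))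
    (by
      filter_upwards [isOpen_ball.mem_nhds hx₀] with x hx
      exact (hFc x hx).aestronglyMeasurable)
    ((hFc x₀ hx₀).intervalIntegrable _ _)
    hF'c.aestronglyMeasurable
    (by
      refine Eventually.of_forall fun θ _ x hx => ?_
      rw [hF', norm_mul]
      have h1 := hB (x, circleMap 0 s θ) ⟨hx, hcir θ⟩
      have h2 : ‖deriv (circleMap 0 s) θ‖ = s := by
        rw [deriv_circleMap, norm_mul, Complex.norm_I, mul_one, ← dist_zero_right]
        exact hcir θ
      rw [h2]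
      exact mul_le_mul_of_nonneg_left h1 hs.le)
    (intervalIntegrable_const)
    (by
      refine Eventually.of_forall fun θ _ x hx => ?_
      rw [hF']
      refine HasDerivAt.const_mul _ ?_
      have h1 : HasFDerivAt H (fderiv ℂ H (x, circleMap 0 s θ)) (x, circleMap 0 s θ) :=
        (hH x (hsub hx) _ (hcir θ)).differentiableAt.hasFDerivAt
      have h2 : HasDerivAt (fun x : ℂ => (x, circleMap 0 s θ)) ((1 : ℂ), (0 : ℂ)) x :=
        (hasDerivAt_id x).prodMk (hasDerivAt_const x _)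
      exact h1.comp_hasDerivAt x h2)
  have e : (fun x => ∮ w in C(0, s), H (x, w)) = fun x => ∫ θ in (0 : ℝ)..2 * Real.pi,
      deriv (circleMap 0 s) θ * H (x, circleMap 0 s θ) := by
    funext x
    simp only [circleIntegral, smul_eq_mul]
  rw [e]
  exact key.2.differentiableAt.differentiableWithinAt

theorem pu1_enum {b : ℕ} (L : Multiset ℂ) (h : Multiset.card L = b) :
    ∃ v : Fin b → ℂ, (∀ w, w ∈ L ↔ ∃ i, v i = w) ∧ ∀ n : ℕ, (L.map (· ^ n)).sum = ∑ i, v i ^ n := by
  subst h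
  induction L using Quotient.inductionOn with
  | h l =>
    refine ⟨fun i => l.get (i.cast (by simp)), fun w => ?_, fun n => ?_⟩
    · simp only [Multiset.quot_mk_to_coe, Multiset.mem_coe]
      rw [List.mem_iff_get]
      constructor
      · rintro ⟨i, hi⟩
        exact ⟨i.cast (by simp), hi⟩
      · rintro ⟨i, hi⟩
        exact ⟨i.cast (by simp), hi⟩
    · simp only [Multiset.quot_mk_to_coe, Multiset.map_coe, Multiset.sum_coe]
      rw [← Fin.sum_univ_fun_getElem]
      rfl

/-- PU1 -/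
theorem pu_zeros_pr {G : ℂ × ℂ → ℂ} (hG : AnalyticAt ℂ G 0) (h0 : ¬ ∀ᶠ y in 𝓝 (0 : ℂ), G (0, y) = 0)
    {ε : ℝ} (hε : 0 < ε) :
    ∃ (r s : ℝ) (b : ℕ) (y : Fin b → ℂ → ℂ), 0 < r ∧ 0 < s ∧ s < ε ∧
      (∀ x ∈ ball (0 : ℂ) r, ∀ w ∈ ball (0 : ℂ) s, (G (x, w) = 0 ↔ ∃ i, y i x = w)) ∧
      (∀ x ∈ ball (0 : ℂ) r, ∀ i, y i x ∈ ball (0 : ℂ) s) ∧
      ∀ n : ℕ, ∀ x ∈ ball (0 : ℂ) r, AnalyticAt ℂ (fun x => ∑ i, y i x ^ n) x := by
  obtain ⟨δ, hδ, hGδ⟩ := Metric.eventually_nhds_iff_ball.1 hG.eventually_analyticAt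
  have hGa : ∀ x w : ℂ, ‖x‖ < δ → ‖w‖ < δ → AnalyticAt ℂ G (x, w) := by
    intro x w hx hw
    refine hGδ _ ?_
    rw [mem_ball_zero_iff, Prod.norm_def]
    exact max_lt hx hw
  have hslice : ∀ x w : ℂ, ‖x‖ < δ → ‖w‖ < δ → AnalyticAt ℂ (fun w => G (x, w)) w := by
    intro x w hx hw
    exact (hGa x w hx hw).comp (f := fun w : ℂ => (x, w)) (analyticAt_const.prod analyticAt_id)
  have hf0 : ∀ᶠ w in 𝓝[≠] (0 : ℂ), G (0, w) ≠ 0 :=
    ((hslice 0 0 (by simpa using hδ) (by simpa using hδ)).eventually_eq_zero_or_eventually_ne_zero).resolve_left h0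
  rw [eventually_nhdsWithin_iff, Metric.eventually_nhds_iff_ball] at hf0
  obtain ⟨σ, hσ, hfσ⟩ := hf0
  obtain ⟨s, hs, hsm⟩ : ∃ s, 0 < s ∧ s < min (min δ σ) ε :=
    exists_between (lt_min (lt_min hδ hσ) hε)
  have hsδ : s < δ := hsm.trans_le ((min_le_left _ _).trans (min_le_left _ _))
  have hsσ : s < σ := hsm.trans_le ((min_le_left _ _).trans (min_le_right _ _))
  have hsε : s < ε := hsm.trans_le (min_le_right _ _)
  have hsph : ∀ w ∈ sphere (0 : ℂ) s, ∀ᶠ z : ℂ × ℂ in 𝓝 ((0 : ℂ), w), G (z.1, z.2) ≠ 0 := by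
    intro w hw
    have hw' : ‖w‖ = s := mem_sphere_zero_iff_norm.1 hw
    have h1 : G (0, w) ≠ 0 := by
      refine hfσ w (by rw [mem_ball_zero_iff, hw']; exact hsσ) ?_
      rintro (rfl : w = 0)
      rw [norm_zero] at hw'
      exact hs.ne hw'
    exact (hGa 0 w (by simpa using hδ) (by rw [hw']; exact hsδ)).continuousAt.eventually_ne h1
  have htube := (isCompact_sphere (0 : ℂ) s).eventually_forall_of_forall_eventually
    (P := fun x w => G (x, w) ≠ 0) hsph
  rw [Metric.eventually_nhds_iff_ball] at htube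
  obtain ⟨r₀, hr₀, htube⟩ := htube
  obtain ⟨r, hr, hrm⟩ : ∃ r, 0 < r ∧ r < min δ r₀ := exists_between (lt_min hδ hr₀)
  have hxδ : ∀ x ∈ ball (0 : ℂ) r, ‖x‖ < δ := fun x hx =>
    (mem_ball_zero_iff.1 hx).trans (hrm.trans_le (min_le_left _ _))
  have hne : ∀ x ∈ ball (0 : ℂ) r, ∀ w ∈ sphere (0 : ℂ) s, G (x, w) ≠ 0 := fun x hx w hw =>
    htube x (ball_subset_ball (hrm.le.trans (min_le_right _ _)) hx) w hw
  have hcb : ∀ w ∈ closedBall (0 : ℂ) s, ‖w‖ < δ := fun w hw =>
    (mem_closedBall_zero_iff.1 hw).trans_lt hsδ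
  -- factorisation for every x
  have hfac : ∀ x, ∃ (L : Multiset ℂ) (g : ℂ → ℂ), x ∈ ball (0 : ℂ) r →
      AnalyticOnNhd ℂ g (closedBall 0 s) ∧ (∀ w ∈ closedBall (0 : ℂ) s, g w ≠ 0) ∧
      (∀ z ∈ L, z ∈ ball (0 : ℂ) s) ∧ ∀ w, G (x, w) = (L.map (fun z => w - z)).prod * g w := by
    intro x
    by_cases hx : x ∈ ball (0 : ℂ) r
    · have hfx : AnalyticOnNhd ℂ (fun w => G (x, w)) (closedBall 0 s) :=
        fun w hw => hslice x w (hxδ x hx) (hcb w hw)
      have hnl : ∀ w ∈ closedBall (0 : ℂ) s, ¬ ∀ᶠ w' in 𝓝 w, G (x, w') = 0 := by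
        intro w hw h
        have h1 := hfx.eqOn_zero_of_preconnected_of_eventuallyEq_zero
          (convex_closedBall (0 : ℂ) s).isPreconnected hw h
        have h2 : (s : ℂ) ∈ sphere (0 : ℂ) s := by
          rw [mem_sphere_zero_iff_norm, Complex.norm_real, Real.norm_of_nonneg hs.le]
        exact hne x hx _ h2 (h1 (sphere_subset_closedBall h2))
      have hfin := pu1_finite (isCompact_closedBall (0 : ℂ) s) hfx hnl
      obtain ⟨L, g, g1, g2, g3, g4⟩ := pu1_factor (K := closedBall (0 : ℂ) s) hfin.toFinset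
        (fun w => G (x, w)) hfx (fun w hw h => by
          rw [Set.Finite.mem_toFinset]
          exact ⟨hw, h⟩) hnl
      refine ⟨L, g, fun _ => ⟨g1, g2, fun z hz => ?_, g4⟩⟩
      obtain ⟨h1, h2⟩ := g3 z hz
      rw [mem_ball_zero_iff]
      refine lt_of_le_of_ne (mem_closedBall_zero_iff.1 h1) fun h3 => ?_
      exact hne x hx z (mem_sphere_zero_iff_norm.2 h3) h2
    · exact ⟨0, 0, fun h => absurd h hx⟩
  choose L g hLg using hfac
  -- the integrals
  obtain ⟨H, hH⟩ : ∃ H : ℕ → ℂ × ℂ → ℂ, ∀ n p, H n p = p.2 ^ n * (fderiv ℂ G p (0, 1) / G p) :=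
    ⟨_, fun _ _ => rfl⟩
  have hHan : ∀ n, ∀ x ∈ ball (0 : ℂ) r, ∀ w ∈ sphere (0 : ℂ) s, AnalyticAt ℂ (H n) (x, w) := by
    intro n x hx w hw
    have h1 := hGa x w (hxδ x hx) (hcb w (sphere_subset_closedBall hw))
    have e : H n = fun p => p.2 ^ n * (fderiv ℂ G p (0, 1) / G p) := funext (hH n)
    rw [e]
    refine (analyticAt_snd.pow n).mul (AnalyticAt.div ?_ h1 (hne x hx w hw))
    exact ((ContinuousLinearMap.apply ℂ ℂ ((0 : ℂ), (1 : ℂ))).analyticAt _).comp h1.fderiv
  have hP : ∀ n, ∀ x ∈ ball (0 : ℂ) r, (∮ w in C(0, s), H n (x, w)) =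
      2 * Real.pi * Complex.I * ((L x).map (· ^ n)).sum := by
    intro n x hx
    obtain ⟨g1, g2, g3, g4⟩ := hLg x hx
    rw [← pu1_psum hs n g1 g2 (L x) g3 (fun w => G (x, w)) g4]
    refine circleIntegral.integral_congr hs.le fun w hw => ?_
    show H n (x, w) = _
    rw [hH]
    have h1 := (hGa x w (hxδ x hx) (hcb w (sphere_subset_closedBall hw))).differentiableAt.hasFDerivAt
    have h2 : HasDerivAt (fun w : ℂ => (x, w)) ((0 : ℂ), (1 : ℂ)) w :=
      (hasDerivAt_const w x).prodMk (hasDerivAt_id w)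
    have h3 : HasDerivAt (fun w => G (x, w)) (fderiv ℂ G (x, w) (0, 1)) w := h1.comp_hasDerivAt w h2
    rw [h3.deriv]
  have h2pi : (2 * Real.pi * Complex.I : ℂ) ≠ 0 := Complex.two_pi_I_ne_zero
  -- the number of zeros is constant
  have hcard : ∀ x ∈ ball (0 : ℂ) r, Multiset.card (L x) = Multiset.card (L 0) := by
    have hc : ContinuousOn (fun x => Multiset.card (L x)) (ball (0 : ℂ) r) := by
      rw [Nat.isClosedEmbedding_coe_real.isInducing.continuousOn_iff]
      have h1 : ContinuousOn (fun x => ((2 * Real.pi * Complex.I : ℂ)⁻¹ *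
          ∮ w in C(0, s), H 0 (x, w)).re) (ball (0 : ℂ) r) :=
        Complex.continuous_re.comp_continuousOn
          (continuousOn_const.mul (pu1_param hs (hHan 0)).continuousOn)
      refine h1.congr fun x hx => ?_
      show ((Multiset.card (L x) : ℕ) : ℝ) = ((2 * Real.pi * Complex.I : ℂ)⁻¹ *
          ∮ w in C(0, s), H 0 (x, w)).re
      rw [hP 0 x hx, inv_mul_cancel_left₀ h2pi]
      simp
    intro x hx
    exact (convex_ball (0 : ℂ) r).isPreconnected.constant hc hx (mem_ball_self hr)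
  -- the zeros
  have hen : ∀ x, ∃ v : Fin (Multiset.card (L 0)) → ℂ, x ∈ ball (0 : ℂ) r →
      (∀ w, w ∈ L x ↔ ∃ i, v i = w) ∧ ∀ n : ℕ, ((L x).map (· ^ n)).sum = ∑ i, v i ^ n := by
    intro x
    by_cases hx : x ∈ ball (0 : ℂ) r
    · obtain ⟨v, hv⟩ := pu1_enum (L x) (hcard x hx)
      exact ⟨v, fun _ => hv⟩
    · exact ⟨fun _ => 0, fun h => absurd h hx⟩
  choose v hv using hen
  refine ⟨r, s, Multiset.card (L 0), fun i x => v x i, hr, hs, hsε, ?_, ?_, ?_⟩
  · intro x hx w hw
    obtain ⟨g1, g2, g3, g4⟩ := hLg x hx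
    rw [← (hv x hx).1 w, g4 w, mul_eq_zero, or_iff_left (g2 w (ball_subset_closedBall hw)),
      Multiset.prod_eq_zero_iff, Multiset.mem_map]
    constructor
    · rintro ⟨z, hz, hz0⟩
      rw [sub_eq_zero.1 hz0]
      exact hz
    · intro h
      exact ⟨w, h, sub_self w⟩
  · intro x hx i
    exact (hLg x hx).2.2.1 _ (((hv x hx).1 _).2 ⟨i, rfl⟩)
  · intro n x hx
    have h1 : AnalyticAt ℂ (fun x => (2 * Real.pi * Complex.I : ℂ)⁻¹ *
        ∮ w in C(0, s), H n (x, w)) x :=
      analyticAt_const.mul ((pu1_param hs (hHan n)).analyticAt (isOpen_ball.mem_nhds hx))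
    refine h1.congr ?_
    filter_upwards [isOpen_ball.mem_nhds hx] with x' hx'
    rw [hP n x' hx', inv_mul_cancel_left₀ h2pi, (hv x' hx').2 n]

end Pool.Agent.KZ

namespace Pool.Agent.KZ

alias pu_zeros := pu_zeros_pr

end Pool.Agent.KZ
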