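import Pool.Agent.Lib_helper82.KZ.Defs
import Pool.Agent.Lib_helper82.KZ.P.PU1

set_option autoImplicit false

open Filter Topology Metric Set
open scoped Manifold ContDiff

namespace Pool.Agent.KZ

open Pool.Agent.BR Pool.Agent.MBS Pool.Agent.SL Pool.Agent.IS

/-- the elementary symmetric functions are analytic if the power sums are (Newton) -/
theorem pu2_esymm {b : ℕ} {y : Fin b → ℂ → ℂ} (h : ∀ n : ℕ, AnalyticAt ℂ (fun x => ∑ i, y i x ^ n) 0)
    (k : ℕ) : AnalyticAt ℂ (fun x => MvPolynomial.aeval (fun i => y i x)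
      (MvPolynomial.esymm (Fin b) ℂ k)) 0 := by
  induction k using Nat.strong_induction_on with
  | _ k ih =>
    rcases Nat.eq_zero_or_pos k with rfl | hk
    · simp only [MvPolynomial.esymm_zero, map_one]
      exact analyticAt_const
    · have hk0 : (k : ℂ) ≠ 0 := by exact_mod_cast hk.ne'
      have e : (fun x => MvPolynomial.aeval (fun i => y i x) (MvPolynomial.esymm (Fin b) ℂ k)) =
          fun x => (k : ℂ)⁻¹ * ((-1) ^ (k + 1) *
            ∑ a ∈ (Finset.HasAntidiagonal.antidiagonal k).filter (fun a : ℕ × ℕ => a.1 < k), (-1) ^ a.1 *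
              MvPolynomial.aeval (fun i => y i x) (MvPolynomial.esymm (Fin b) ℂ a.1) *
                ∑ i, y i x ^ a.2) := by
        funext x
        have h1 := congrArg (MvPolynomial.aeval (fun i => y i x))
          (MvPolynomial.mul_esymm_eq_sum (Fin b) ℂ k)
        simp only [map_mul, map_natCast, map_pow, map_neg, map_one, map_sum, MvPolynomial.psum,
          MvPolynomial.aeval_X] at h1
        rw [eq_inv_mul_iff_mul_eq₀ hk0, h1]
      rw [e]
      refine analyticAt_const.mul (analyticAt_const.mul ?_)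
      refine Finset.analyticAt_fun_sum _ fun a ha => ?_
      rw [Finset.mem_filter] at ha
      exact (analyticAt_const.mul (ih a.1 ha.2)).mul (h a.2)

/-- PU2 -/
theorem pu_prep_pr {G : ℂ × ℂ → ℂ} (hG : AnalyticAt ℂ G 0)
    (h0 : ¬ ∀ᶠ y in 𝓝 (0 : ℂ), G (0, y) = 0) :
    ∃ (b : ℕ) (F : ℂ → Polynomial ℂ), PAn b F ∧
      ∀ᶠ p : ℂ × ℂ in 𝓝 0, (G p = 0 ↔ (F p.1).eval p.2 = 0) := by
  obtain ⟨r, s, b, y, hr, hs, -, hy, -, hn⟩ := pu_zeros hG h0 one_pos
  refine ⟨b, fun x => ∏ i, (Polynomial.X - Polynomial.C (y i x)), ⟨fun x => ⟨?_, ?_⟩, fun k => ?_⟩, ?_⟩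
  · exact Polynomial.monic_prod_of_monic _ _ fun i _ => Polynomial.monic_X_sub_C _
  · rw [Polynomial.natDegree_prod_of_monic _ _ fun i _ => Polynomial.monic_X_sub_C _]
    simp
  · have e : ∀ x, (∏ i, (Polynomial.X - Polynomial.C (y i x))) =
        ((Finset.univ.val.map (fun i => y i x)).map (fun t => Polynomial.X - Polynomial.C t)).prod := by
      intro x
      rw [Multiset.map_map]
      rfl
    by_cases hk : k ≤ b
    · have h1 : ∀ x, (∏ i, (Polynomial.X - Polynomial.C (y i x))).coeff k =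
          (-1) ^ (b - k) * MvPolynomial.aeval (fun i => y i x) (MvPolynomial.esymm (Fin b) ℂ (b - k)) := by
        intro x
        rw [e, Multiset.prod_X_sub_C_coeff _ (by simpa using hk),
          MvPolynomial.aeval_esymm_eq_multiset_esymm]
        simp
      simp only [h1]
      exact analyticAt_const.mul (pu2_esymm (fun n => hn n 0 (mem_ball_self hr)) (b - k))
    · have h1 : ∀ x, (∏ i, (Polynomial.X - Polynomial.C (y i x))).coeff k = 0 := by
        intro x
        refine Polynomial.coeff_eq_zero_of_natDegree_lt ?_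
        rw [Polynomial.natDegree_prod_of_monic _ _ fun i _ => Polynomial.monic_X_sub_C _]
        simp
        omega
      simp only [h1]
      exact analyticAt_const
  · have h1 : ∀ᶠ p : ℂ × ℂ in 𝓝 0, p.1 ∈ ball (0 : ℂ) r ∧ p.2 ∈ ball (0 : ℂ) s := by
      have := (isOpen_ball (x := (0 : ℂ)) (ε := r)).prod (isOpen_ball (x := (0 : ℂ)) (ε := s))
      exact this.mem_nhds ⟨mem_ball_self hr, mem_ball_self hs⟩
    filter_upwards [h1] with p hp
    rw [show G p = G (p.1, p.2) from rfl, hy p.1 hp.1 p.2 hp.2, Polynomial.eval_prod,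
      Finset.prod_eq_zero_iff]
    constructor
    · rintro ⟨i, hi⟩
      exact ⟨i, Finset.mem_univ _, by simp [hi]⟩
    · rintro ⟨i, -, hi⟩
      exact ⟨i, by
        simp only [Polynomial.eval_sub, Polynomial.eval_X, Polynomial.eval_C] at hi
        exact (sub_eq_zero.1 hi).symm⟩

end Pool.Agent.KZ

namespace Pool.Agent.KZ

alias pu_prep := pu_prep_pr

end Pool.Agent.KZ
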