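import Pool.Agent.Lib_helper82.KZ.Defs

set_option autoImplicit false

open Filter Topology Metric Set
open scoped Manifold ContDiff

namespace Pool.Agent.KZ

open Pool.Agent.BR Pool.Agent.MBS Pool.Agent.SL Pool.Agent.IS

/-- the polynomial with coefficients `a`, of degree `< m` -/
noncomputable def pu3T (m : ℕ) (a : Fin m → ℂ) : Polynomial ℂ :=
  ∑ i : Fin m, Polynomial.C (a i) * Polynomial.X ^ (i : ℕ)

theorem pu3T_coeff {m : ℕ} (a : Fin m → ℂ) (k : ℕ) :
    (pu3T m a).coeff k = if h : k < m then a ⟨k, h⟩ else 0 := by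
  unfold pu3T
  simp only [Polynomial.finsetSum_coeff, Polynomial.coeff_C_mul, Polynomial.coeff_X_pow]
  split_ifs with h
  · rw [Finset.sum_eq_single (⟨k, h⟩ : Fin m)]
    · simp
    · intro b _ hb
      rw [if_neg, mul_zero]
      intro hk
      exact hb (Fin.ext hk.symm)
    · simp
  · refine Finset.sum_eq_zero fun b _ => ?_
    rw [if_neg, mul_zero]
    intro hk
    exact h (hk ▸ b.2)

theorem pu3T_deg {m : ℕ} (a : Fin m → ℂ) : (pu3T m a).degree < m := by
  rw [Polynomial.degree_lt_iff_coeff_zero]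
  intro k hk
  rw [pu3T_coeff, dif_neg (by omega)]

theorem pu3T_add {m : ℕ} (a b : Fin m → ℂ) : pu3T m (a + b) = pu3T m a + pu3T m b := by
  ext k
  simp only [Polynomial.coeff_add, pu3T_coeff]
  split_ifs <;> simp

theorem pu3T_smul {m : ℕ} (t : ℂ) (b : Fin m → ℂ) : pu3T m (t • b) = Polynomial.C t * pu3T m b := by
  ext k
  simp only [Polynomial.coeff_C_mul, pu3T_coeff]
  split_ifs <;> simp

theorem pu3T_eq_zero {m : ℕ} {a : Fin m → ℂ} (h : pu3T m a = 0) : a = 0 := by
  funext i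
  have := congrArg (fun p => p.coeff i) h
  simp only [pu3T_coeff, i.2, dite_true, Polynomial.coeff_zero] at this
  simpa using this

/-- the monic polynomial with lower coefficients `a` -/
noncomputable def pu3P (m : ℕ) (a : Fin m → ℂ) : Polynomial ℂ := Polynomial.X ^ m + pu3T m a

theorem pu3P_monic {m : ℕ} (a : Fin m → ℂ) : (pu3P m a).Monic :=
  Polynomial.monic_X_pow_add (pu3T_deg a)

theorem pu3P_natDegree {m : ℕ} (a : Fin m → ℂ) : (pu3P m a).natDegree = m := by
  refine Polynomial.natDegree_eq_of_degree_eq_some ?_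
  rw [pu3P, Polynomial.degree_add_eq_left_of_degree_lt, Polynomial.degree_X_pow]
  rw [Polynomial.degree_X_pow]
  exact pu3T_deg a

theorem pu3P_coeff {m : ℕ} (a : Fin m → ℂ) (k : ℕ) :
    (pu3P m a).coeff k = (if k = m then 1 else 0) + (if h : k < m then a ⟨k, h⟩ else 0) := by
  rw [pu3P, Polynomial.coeff_add, Polynomial.coeff_X_pow, pu3T_coeff]

theorem pu3P_of {m : ℕ} {P : Polynomial ℂ} (hP : P.Monic) (hm : P.natDegree = m) :
    P = pu3P m (fun i => P.coeff i) := by
  ext k
  rw [pu3P_coeff]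
  rcases lt_trichotomy k m with h | h | h
  · simp [h, h.ne]
  · subst h
    simp [← hm, hP.coeff_natDegree]
  · rw [Polynomial.coeff_eq_zero_of_natDegree_lt (by omega), if_neg (by omega), dif_neg (by omega)]
    simp

/-- the product map -/
noncomputable def pu3F (m n : ℕ) (p : (Fin m → ℂ) × (Fin n → ℂ)) : Fin (m + n) → ℂ :=
  fun k => (pu3P m p.1 * pu3P n p.2).coeff k

theorem pu3F_contDiff (m n : ℕ) : ContDiff ℂ ω (pu3F m n) := by
  rw [contDiff_pi]
  intro k
  simp only [pu3F, Polynomial.coeff_mul, pu3P_coeff]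
  refine ContDiff.sum fun i _ => ContDiff.mul ?_ ?_
  · refine contDiff_const.add ?_
    split_ifs with h
    · exact (contDiff_apply ℂ ℂ (⟨i.1, h⟩ : Fin m)).comp contDiff_fst
    · exact contDiff_const
  · refine contDiff_const.add ?_
    split_ifs with h
    · exact (contDiff_apply ℂ ℂ (⟨i.2, h⟩ : Fin n)).comp contDiff_snd
    · exact contDiff_const

theorem pu3F_deriv {m n : ℕ} (p v : (Fin m → ℂ) × (Fin n → ℂ)) (k : Fin (m + n)) :
    fderiv ℂ (pu3F m n) p v k = (pu3T m v.1 * pu3P n p.2 + pu3P m p.1 * pu3T n v.2).coeff k := by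
  have h1 : HasFDerivAt (pu3F m n) (fderiv ℂ (pu3F m n) p) p :=
    ((pu3F_contDiff m n).differentiable (by simp)).differentiableAt.hasFDerivAt
  have h2 : HasDerivAt (fun t : ℂ => p + t • v) v 0 := by
    simpa using ((hasDerivAt_id (0 : ℂ)).smul_const v).const_add p
  have h3 : HasDerivAt (fun t : ℂ => pu3F m n (p + t • v)) (fderiv ℂ (pu3F m n) p v) 0 := by
    have := h1
    rw [show p = p + (0 : ℂ) • v by simp] at this
    have h4 := HasFDerivAt.comp_hasDerivAt (0 : ℂ) this h2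
    rw [← show p = p + (0 : ℂ) • v by simp] at h4
    exact h4
  have h4 := (hasDerivAt_pi.1 h3) k
  have h5 : (fun t : ℂ => pu3F m n (p + t • v) k) = fun t =>
      (pu3P m p.1 * pu3P n p.2).coeff k +
        t * (pu3T m v.1 * pu3P n p.2 + pu3P m p.1 * pu3T n v.2).coeff k +
        t ^ 2 * (pu3T m v.1 * pu3T n v.2).coeff k := by
    funext t
    simp only [pu3F, Prod.fst_add, Prod.snd_add, Prod.smul_fst, Prod.smul_snd]
    have e : pu3P m (p.1 + t • v.1) * pu3P n (p.2 + t • v.2) =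
        pu3P m p.1 * pu3P n p.2 +
          Polynomial.C t * (pu3T m v.1 * pu3P n p.2 + pu3P m p.1 * pu3T n v.2) +
          Polynomial.C (t ^ 2) * (pu3T m v.1 * pu3T n v.2) := by
      simp only [pu3P, pu3T_add, pu3T_smul, map_pow]
      ring
    rw [e]
    simp only [Polynomial.coeff_add, Polynomial.coeff_C_mul]
  rw [h5] at h4
  have h6 : HasDerivAt (fun t : ℂ =>
      (pu3P m p.1 * pu3P n p.2).coeff k +
        t * (pu3T m v.1 * pu3P n p.2 + pu3P m p.1 * pu3T n v.2).coeff k +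
        t ^ 2 * (pu3T m v.1 * pu3T n v.2).coeff k)
      ((pu3T m v.1 * pu3P n p.2 + pu3P m p.1 * pu3T n v.2).coeff k) 0 := by
    have := (((hasDerivAt_id (0 : ℂ)).mul_const
      ((pu3T m v.1 * pu3P n p.2 + pu3P m p.1 * pu3T n v.2).coeff k)).const_add
      ((pu3P m p.1 * pu3P n p.2).coeff k)).add
      (((hasDerivAt_id (0 : ℂ)).pow 2).mul_const ((pu3T m v.1 * pu3T n v.2).coeff k))
    refine (this.congr_deriv ?_)
    simp
  exact h4.unique h6

theorem pu3F_inj {m n : ℕ} {p : (Fin m → ℂ) × (Fin n → ℂ)}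
    (hc : IsCoprime (pu3P m p.1) (pu3P n p.2)) :
    Function.Injective (fderiv ℂ (pu3F m n) p) := by
  rw [injective_iff_map_eq_zero]
  intro v hv
  have h1 : pu3T m v.1 * pu3P n p.2 + pu3P m p.1 * pu3T n v.2 = 0 := by
    ext k
    by_cases hk : k < m + n
    · have := congrFun hv ⟨k, hk⟩
      rw [pu3F_deriv] at this
      simpa using this
    · rw [Polynomial.coeff_zero]
      refine Polynomial.coeff_eq_zero_of_degree_lt ?_
      refine lt_of_lt_of_le (lt_of_le_of_lt (Polynomial.degree_add_le _ _) (max_lt ?_ ?_))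
        (show ((m + n : ℕ) : WithBot ℕ) ≤ k by exact_mod_cast not_lt.1 hk)
      · rw [Polynomial.degree_mul, Polynomial.degree_eq_natDegree (pu3P_monic p.2).ne_zero,
          pu3P_natDegree]
        rcases eq_or_ne (pu3T m v.1) 0 with h | h
        · rw [h, Polynomial.degree_zero, WithBot.bot_add]
          exact WithBot.bot_lt_coe _
        · have := pu3T_deg v.1
          rw [Polynomial.degree_eq_natDegree h] at this ⊢
          norm_cast at this ⊢
          omega
      · rw [Polynomial.degree_mul, Polynomial.degree_eq_natDegree (pu3P_monic p.1).ne_zero,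
          pu3P_natDegree]
        rcases eq_or_ne (pu3T n v.2) 0 with h | h
        · rw [h, Polynomial.degree_zero, WithBot.add_bot]
          exact WithBot.bot_lt_coe _
        · have := pu3T_deg v.2
          rw [Polynomial.degree_eq_natDegree h] at this ⊢
          norm_cast at this ⊢
          omega
  have h2 : pu3P m p.1 ∣ pu3T m v.1 * pu3P n p.2 := by
    refine ⟨- pu3T n v.2, ?_⟩
    linear_combination h1
  have h3 : pu3P m p.1 ∣ pu3T m v.1 := hc.dvd_of_dvd_mul_right h2
  have h4 : pu3T m v.1 = 0 := by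
    refine Polynomial.eq_zero_of_dvd_of_degree_lt h3 ?_
    rw [Polynomial.degree_eq_natDegree (pu3P_monic p.1).ne_zero, pu3P_natDegree]
    exact pu3T_deg v.1
  have h5 : pu3T n v.2 = 0 := by
    rw [h4, zero_mul, zero_add] at h1
    rcases mul_eq_zero.1 h1 with h | h
    · exact absurd h (pu3P_monic p.1).ne_zero
    · exact h
  exact Prod.ext (pu3T_eq_zero h4) (pu3T_eq_zero h5)

/-- PU3 -/
theorem pu_hensel_pr {m n : ℕ} {F : ℂ → Polynomial ℂ} (hF : PAn (m + n) F) {P Q : Polynomial ℂ}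
    (hP : P.Monic) (hQ : Q.Monic) (hm : P.natDegree = m) (hn : Q.natDegree = n)
    (hc : IsCoprime P Q) (h0 : F 0 = P * Q) :
    ∃ P' Q' : ℂ → Polynomial ℂ, PAn m P' ∧ PAn n Q' ∧ ∀ᶠ x in 𝓝 (0 : ℂ), F x = P' x * Q' x := by
  set p : (Fin m → ℂ) × (Fin n → ℂ) := (fun i => P.coeff i, fun i => Q.coeff i) with hp
  have eP : P = pu3P m p.1 := pu3P_of hP hm
  have eQ : Q = pu3P n p.2 := pu3P_of hQ hn
  have hinj : Function.Injective (fderiv ℂ (pu3F m n) p) := pu3F_inj (by rw [← eP, ← eQ]; exact hc)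
  have hfr : Module.finrank ℂ ((Fin m → ℂ) × (Fin n → ℂ)) = Module.finrank ℂ (Fin (m + n) → ℂ) := by
    simp
  set e : ((Fin m → ℂ) × (Fin n → ℂ)) ≃L[ℂ] (Fin (m + n) → ℂ) :=
    (LinearMap.linearEquivOfInjective (fderiv ℂ (pu3F m n) p : _ →ₗ[ℂ] _) hinj hfr).toContinuousLinearEquiv
    with he
  have hee : (e : ((Fin m → ℂ) × (Fin n → ℂ)) →L[ℂ] (Fin (m + n) → ℂ)) = fderiv ℂ (pu3F m n) p := by
    refine ContinuousLinearMap.ext fun v => ?_
    rfl
  have hcd : ContDiffAt ℂ ω (pu3F m n) p := (pu3F_contDiff m n).contDiffAt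
  have hd : HasFDerivAt (pu3F m n) (e : ((Fin m → ℂ) × (Fin n → ℂ)) →L[ℂ] (Fin (m + n) → ℂ)) p := by
    rw [hee]
    exact (hcd.differentiableAt (by simp)).hasFDerivAt
  have hω : (ω : WithTop ℕ∞) ≠ 0 := by simp
  set G := hcd.localInverse hd hω with hG
  have hGa : AnalyticAt ℂ G (pu3F m n p) := (hcd.to_localInverse hd hω).analyticAt
  have hGr : ∀ᶠ y in 𝓝 (pu3F m n p), pu3F m n (G y) = y :=
    (hcd.hasStrictFDerivAt' hd hω).eventually_right_inverse
  set y : ℂ → (Fin (m + n) → ℂ) := fun x k => (F x).coeff k with hy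
  have hya : AnalyticAt ℂ y 0 := by
    rw [analyticAt_pi_iff]
    exact fun k => hF.2 k
  have hy0 : y 0 = pu3F m n p := by
    funext k
    simp only [hy, pu3F, h0]
    rw [← eP, ← eQ]
  rw [← hy0] at hGa hGr
  have hga : AnalyticAt ℂ (fun x => G (y x)) 0 := hGa.comp hya
  refine ⟨fun x => pu3P m (G (y x)).1, fun x => pu3P n (G (y x)).2,
    ⟨fun x => ⟨pu3P_monic _, pu3P_natDegree _⟩, fun k => ?_⟩,
    ⟨fun x => ⟨pu3P_monic _, pu3P_natDegree _⟩, fun k => ?_⟩, ?_⟩
  · simp only [pu3P_coeff]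
    refine analyticAt_const.add ?_
    split_ifs with h
    · have h1 : AnalyticAt ℂ (fun x => (G (y x)).1) 0 := analyticAt_fst.comp hga
      exact (analyticAt_pi_iff.1 h1) ⟨k, h⟩
    · exact analyticAt_const
  · simp only [pu3P_coeff]
    refine analyticAt_const.add ?_
    split_ifs with h
    · have h1 : AnalyticAt ℂ (fun x => (G (y x)).2) 0 := analyticAt_snd.comp hga
      exact (analyticAt_pi_iff.1 h1) ⟨k, h⟩
    · exact analyticAt_const
  · filter_upwards [hya.continuousAt.eventually hGr] with x hx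
    have hmon := (pu3P_monic (G (y x)).1).mul (pu3P_monic (G (y x)).2)
    have hdeg : (pu3P m (G (y x)).1 * pu3P n (G (y x)).2).natDegree = m + n := by
      rw [(pu3P_monic (G (y x)).1).natDegree_mul (pu3P_monic (G (y x)).2), pu3P_natDegree,
        pu3P_natDegree]
    rw [pu3P_of (hF.1 x).1 (hF.1 x).2, pu3P_of hmon hdeg]
    congr 1
    exact hx.symm

end Pool.Agent.KZ

namespace Pool.Agent.KZ

alias pu_hensel := pu_hensel_pr

end Pool.Agent.KZ
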