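import Pool.Agent.Lib_helper82.KZ.Defs

set_option autoImplicit false

open Filter Topology Metric Set
open scoped Manifold ContDiff

namespace Pool.Agent.KZ

open Pool.Agent.BR Pool.Agent.MBS Pool.Agent.SL Pool.Agent.IS

/-- the monic polynomial of degree `b` with the coefficients `a k`, `k < b` -/
noncomputable def pu4_mk (b : ℕ) (a : ℕ → ℂ) : Polynomial ℂ :=
  Polynomial.X ^ b + ∑ k ∈ Finset.range b, Polynomial.C (a k) * Polynomial.X ^ k

theorem pu4_deg (b : ℕ) (a : ℕ → ℂ) :
    (∑ k ∈ Finset.range b, Polynomial.C (a k) * Polynomial.X ^ k).degree < (b : WithBot ℕ) := by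
  rw [Polynomial.degree_lt_iff_coeff_zero]
  intro m hm
  rw [Polynomial.finsetSum_coeff]
  apply Finset.sum_eq_zero
  intro k hk
  rw [Polynomial.coeff_C_mul, Polynomial.coeff_X_pow, if_neg, mul_zero]
  have := Finset.mem_range.mp hk
  omega

theorem pu4_coeff (b : ℕ) (a : ℕ → ℂ) (k : ℕ) :
    (pu4_mk b a).coeff k = if k < b then a k else if k = b then 1 else 0 := by
  unfold pu4_mk
  rw [Polynomial.coeff_add, Polynomial.coeff_X_pow, Polynomial.finsetSum_coeff]
  have h : ∀ i ∈ Finset.range b, (Polynomial.C (a i) * Polynomial.X ^ i).coeff k =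
      if k = i then a i else 0 := by
    intro i _
    rw [Polynomial.coeff_C_mul, Polynomial.coeff_X_pow]
    split_ifs <;> simp
  rw [Finset.sum_congr rfl h, Finset.sum_ite_eq]
  simp only [Finset.mem_range]
  by_cases h1 : k < b
  · rw [if_neg (by omega), if_pos h1, zero_add]
  · rw [if_neg h1, if_neg h1, add_zero]

theorem pu4_monic (b : ℕ) (a : ℕ → ℂ) : (pu4_mk b a).Monic ∧ (pu4_mk b a).natDegree = b := by
  have hd : (pu4_mk b a).natDegree = b := by
    unfold pu4_mk
    rw [Polynomial.natDegree_add_eq_left_of_degree_lt, Polynomial.natDegree_X_pow]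
    rw [Polynomial.degree_X_pow]
    exact pu4_deg b a
  refine ⟨?_, hd⟩
  unfold Polynomial.Monic Polynomial.leadingCoeff
  rw [hd, pu4_coeff]
  simp

/-- a monic polynomial of degree `b` is determined by the coefficients `< b` -/
theorem pu4_ext {b : ℕ} {P Q : Polynomial ℂ} (hP : P.Monic) (hQ : Q.Monic)
    (hp : P.natDegree = b) (hq : Q.natDegree = b) (h : ∀ k < b, P.coeff k = Q.coeff k) :
    P = Q := by
  ext k
  rcases lt_trichotomy k b with h1 | h1 | h1
  · exact h k h1
  · subst h1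
    have e1 : P.coeff P.natDegree = 1 := hP
    have e2 : Q.coeff Q.natDegree = 1 := hQ
    rw [hp] at e1
    rw [hq] at e2
    rw [e1, e2]
  · rw [Polynomial.coeff_eq_zero_of_natDegree_lt (by omega),
      Polynomial.coeff_eq_zero_of_natDegree_lt (by omega)]

/-- PU4: rescaling (Newton polygon), for a polynomial with sum of the roots zero -/
theorem pu_scale_pr {b : ℕ} {F : ℂ → Polynomial ℂ} (hF : PAn b F) (hb : 0 < b)
    (h1 : ∀ x, (F x).coeff (b - 1) = 0) (h0 : ¬ ∀ᶠ x in 𝓝 (0 : ℂ), F x = Polynomial.X ^ b) :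
    ∃ (v u : ℕ) (F' : ℂ → Polynomial ℂ), 0 < v ∧ PAn b F' ∧ (F' 0).coeff (b - 1) = 0 ∧
      F' 0 ≠ Polynomial.X ^ b ∧ ∀ᶠ ζ in 𝓝 (0 : ℂ), F (ζ ^ v) = (F' ζ).scaleRoots (ζ ^ u) := by
  classical
  -- orders of the coefficients
  have hord : ∀ k, (∀ᶠ x in 𝓝 (0 : ℂ), (F x).coeff k = 0) ∨ ∃ (n : ℕ) (g : ℂ → ℂ),
      AnalyticAt ℂ g 0 ∧ g 0 ≠ 0 ∧ ∀ᶠ x in 𝓝 (0 : ℂ), (F x).coeff k = x ^ n * g x := by
    intro k
    by_cases h : ∀ᶠ x in 𝓝 (0 : ℂ), (F x).coeff k = 0
    · exact Or.inl h
    · right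
      obtain ⟨n, g, hg, hg0, he⟩ := (hF.2 k).exists_eventuallyEq_pow_smul_nonzero_iff.mpr h
      refine ⟨n, g, hg, hg0, ?_⟩
      filter_upwards [he] with x hx
      rw [hx, sub_zero, smul_eq_mul]
  choose! n g hg hg0 he using fun (k : ℕ) (h : ¬ ∀ᶠ x in 𝓝 (0 : ℂ), (F x).coeff k = 0) =>
    (hord k).resolve_left h
  set S : Finset ℕ := (Finset.range b).filter (fun k => ¬ ∀ᶠ x in 𝓝 (0 : ℂ), (F x).coeff k = 0)
    with hS
  have hSne : S.Nonempty := by
    by_contra hne
    rw [Finset.not_nonempty_iff_eq_empty] at hne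
    apply h0
    have hall : ∀ k ∈ Finset.range b, ∀ᶠ x in 𝓝 (0 : ℂ), (F x).coeff k = 0 := by
      intro k hk
      by_contra hk2
      have : k ∈ S := Finset.mem_filter.mpr ⟨hk, hk2⟩
      rw [hne] at this
      simp at this
    have hall2 : ∀ᶠ x in 𝓝 (0 : ℂ), ∀ k ∈ Finset.range b, (F x).coeff k = 0 := by
      rw [Filter.eventually_all_finset]
      exact hall
    filter_upwards [hall2] with x hx
    apply pu4_ext (b := b) (hF.1 x).1 (Polynomial.monic_X_pow b) (hF.1 x).2
      (Polynomial.natDegree_X_pow b)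
    intro k hk
    rw [hx k (Finset.mem_range.mpr hk), Polynomial.coeff_X_pow, if_neg (by omega)]
  obtain ⟨k₀, hk₀, hmin⟩ := S.exists_min_image (fun k => (n k : ℚ) / ((b - k : ℕ) : ℚ)) hSne
  have hk₀' := Finset.mem_filter.mp hk₀
  have hk₀b : k₀ < b := Finset.mem_range.mp hk₀'.1
  have hk₀1 : k₀ ≠ b - 1 := by
    intro h
    apply hk₀'.2
    rw [h]
    exact Filter.Eventually.of_forall h1
  -- the slope
  set v : ℕ := b - k₀ with hv
  set u : ℕ := n k₀ with hu
  have hvpos : 0 < v := by omega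
  have hcross : ∀ k ∈ S, u * (b - k) ≤ v * n k := by
    intro k hk
    have h := hmin k hk
    have hk' := Finset.mem_filter.mp hk
    have hkb : k < b := Finset.mem_range.mp hk'.1
    have p1 : (0 : ℚ) < ((b - k₀ : ℕ) : ℚ) := by exact_mod_cast hvpos
    have p2 : (0 : ℚ) < ((b - k : ℕ) : ℚ) := by exact_mod_cast (by omega : 0 < b - k)
    rw [div_le_div_iff₀ p1 p2] at h
    have h' : n k₀ * (b - k) ≤ n k * (b - k₀) := by exact_mod_cast h
    rw [hu, hv, mul_comm (b - k₀)]
    exact h'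
  -- the new coefficients
  let a : ℕ → ℂ → ℂ := fun k ζ => if k ∈ S then ζ ^ (v * n k - u * (b - k)) * g k (ζ ^ v) else 0
  have han : ∀ k, AnalyticAt ℂ (a k) 0 := by
    intro k
    by_cases hk : k ∈ S
    · have e : a k = fun ζ => ζ ^ (v * n k - u * (b - k)) * g k (ζ ^ v) := by
        funext ζ
        simp only [a, if_pos hk]
      rw [e]
      have hk' := Finset.mem_filter.mp hk
      have h2 : AnalyticAt ℂ (fun ζ : ℂ => ζ ^ v) 0 := analyticAt_id.pow v
      have h3 : AnalyticAt ℂ (g k) ((fun ζ : ℂ => ζ ^ v) 0) := by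
        simp only [zero_pow hvpos.ne']
        exact hg k hk'.2
      exact (analyticAt_id.pow _).mul (AnalyticAt.comp (g := g k) (f := fun ζ : ℂ => ζ ^ v) h3 h2)
    · have e : a k = fun _ => 0 := by
        funext ζ
        simp only [a, if_neg hk]
      rw [e]
      exact analyticAt_const
  have hb1S : b - 1 ∉ S := by
    intro h
    exact (Finset.mem_filter.mp h).2 (Filter.Eventually.of_forall h1)
  refine ⟨v, u, fun ζ => pu4_mk b (fun k => a k ζ), hvpos, ⟨fun ζ => pu4_monic b _, ?_⟩, ?_, ?_,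
    ?_⟩
  · intro k
    by_cases hk : k < b
    · have : (fun ζ => (pu4_mk b (fun k => a k ζ)).coeff k) = a k := by
        funext ζ
        rw [pu4_coeff, if_pos hk]
      rw [this]
      exact han k
    · have : (fun ζ => (pu4_mk b (fun k => a k ζ)).coeff k) = fun _ => if k = b then 1 else 0 := by
        funext ζ
        rw [pu4_coeff, if_neg hk]
      rw [this]
      exact analyticAt_const
  · show (pu4_mk b (fun k => a k 0)).coeff (b - 1) = 0
    rw [pu4_coeff, if_pos (by omega)]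
    simp only [a, if_neg hb1S]
  · intro h
    have h2 := congrArg (fun P => Polynomial.coeff P k₀) h
    simp only [pu4_coeff, if_pos hk₀b, Polynomial.coeff_X_pow, if_neg (by omega : ¬ k₀ = b)] at h2
    have e : v * n k₀ - u * (b - k₀) = 0 := by
      rw [hu, hv, mul_comm]
      omega
    simp only [a, if_pos hk₀, e, pow_zero, one_mul, zero_pow hvpos.ne'] at h2
    exact hg0 k₀ hk₀'.2 h2
  · have htend : Tendsto (fun ζ : ℂ => ζ ^ v) (𝓝 0) (𝓝 0) :=
      (continuous_pow v).tendsto' 0 0 (zero_pow hvpos.ne')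
    have hev : ∀ᶠ ζ in 𝓝 (0 : ℂ), ∀ k ∈ Finset.range b, (F (ζ ^ v)).coeff k =
        a k ζ * ζ ^ (u * (b - k)) := by
      rw [Filter.eventually_all_finset]
      intro k hk
      by_cases hkS : k ∈ S
      · have hk' := Finset.mem_filter.mp hkS
        filter_upwards [htend.eventually (he k hk'.2)] with ζ hζ
        rw [hζ]
        simp only [a, if_pos hkS]
        have := hcross k hkS
        have e : (ζ ^ v) ^ n k = ζ ^ (v * n k - u * (b - k)) * ζ ^ (u * (b - k)) := by
          rw [← pow_mul, ← pow_add]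
          congr 1
          omega
        rw [e]
        ring
      · have hz : ∀ᶠ x in 𝓝 (0 : ℂ), (F x).coeff k = 0 := by
          by_contra h
          exact hkS (Finset.mem_filter.mpr ⟨hk, h⟩)
        filter_upwards [htend.eventually hz] with ζ hζ
        rw [hζ]
        simp only [a, if_neg hkS, zero_mul]
    filter_upwards [hev] with ζ hζ
    apply pu4_ext (b := b) (hF.1 _).1 ((Polynomial.monic_scaleRoots_iff _).mpr (pu4_monic b _).1)
      (hF.1 _).2 (by rw [Polynomial.natDegree_scaleRoots, (pu4_monic b _).2])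
    intro k hk
    rw [hζ k (Finset.mem_range.mpr hk), Polynomial.coeff_scaleRoots, pu4_coeff, if_pos hk,
      (pu4_monic b _).2, ← pow_mul]

end Pool.Agent.KZ

namespace Pool.Agent.KZ

alias pu_scale := pu_scale_pr

end Pool.Agent.KZ
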