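import Pool.Agent.Lib_helper82.KZ.Defs
import Pool.Agent.Lib_helper82.KZ.P.PU4
import Pool.Agent.Lib_helper82.KZ.P.PU3

set_option autoImplicit false

open Filter Topology Metric Set
open scoped Manifold ContDiff

namespace Pool.Agent.KZ

open Pool.Agent.BR Pool.Agent.MBS Pool.Agent.SL Pool.Agent.IS

/-- coefficients of a translated polynomial -/
theorem pu5_taylor_coeff {b : ℕ} (P : Polynomial ℂ) (hP : P.natDegree = b) (r : ℂ) (k : ℕ) :
    (P.comp (Polynomial.X + Polynomial.C r)).coeff k =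
      ∑ i ∈ Finset.range (b + 1), (((i + k).choose k : ℕ) : ℂ) * P.coeff (i + k) * r ^ i := by
  have h : P.comp (Polynomial.X + Polynomial.C r) = Polynomial.taylor r P := rfl
  rw [h, Polynomial.taylor_coeff]
  rw [Polynomial.eval_eq_sum_range' (n := b + 1)]
  · apply Finset.sum_congr rfl
    intro i _
    rw [Polynomial.hasseDeriv_coeff]
  · have := Polynomial.natDegree_hasseDeriv_le P k
    omega

/-- translation of the roots -/
theorem pu5_shift {b : ℕ} {F : ℂ → Polynomial ℂ} (hF : PAn b F) {c : ℂ → ℂ}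
    (hc : AnalyticAt ℂ c 0) :
    PAn b (fun x => (F x).comp (Polynomial.X + Polynomial.C (c x))) := by
  refine ⟨?_, ?_⟩
  · intro x
    refine ⟨(hF.1 x).1.comp_X_add_C _, ?_⟩
    rw [Polynomial.natDegree_comp, Polynomial.natDegree_X_add_C, mul_one, (hF.1 x).2]
  · intro k
    have : (fun x => ((F x).comp (Polynomial.X + Polynomial.C (c x))).coeff k) = fun x =>
        ∑ i ∈ Finset.range (b + 1), (((i + k).choose k : ℕ) : ℂ) * (F x).coeff (i + k) * c x ^ i := by
      funext x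
      exact pu5_taylor_coeff _ (hF.1 x).2 _ _
    rw [this]
    apply Finset.analyticAt_fun_sum
    intro i _
    exact (analyticAt_const.mul (hF.2 (i + k))).mul (hc.pow i)

/-- the factorisation at `0` -/
theorem pu5_factor {b : ℕ} (hb : 0 < b) {P : Polynomial ℂ} (hP : P.Monic) (hd : P.natDegree = b)
    (h1 : P.coeff (b - 1) = 0) (h0 : P ≠ Polynomial.X ^ b) :
    ∃ (m n : ℕ) (A B : Polynomial ℂ), 0 < m ∧ 0 < n ∧ m + n = b ∧ A.Monic ∧ B.Monic ∧
      A.natDegree = m ∧ B.natDegree = n ∧ IsCoprime A B ∧ P = A * B := by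
  obtain ⟨r, hr⟩ := IsAlgClosed.exists_root P (by
    rw [Polynomial.degree_eq_natDegree hP.ne_zero, hd]
    exact_mod_cast hb.ne')
  obtain ⟨Q, hQ, hnd⟩ := Polynomial.exists_eq_pow_rootMultiplicity_mul_and_not_dvd P hP.ne_zero r
  set m := Polynomial.rootMultiplicity r P with hm
  have hm0 : 0 < m := (Polynomial.rootMultiplicity_pos hP.ne_zero).mpr hr
  have hA : ((Polynomial.X - Polynomial.C r) ^ m).Monic := (Polynomial.monic_X_sub_C r).pow m
  have hAd : ((Polynomial.X - Polynomial.C r) ^ m).natDegree = m := by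
    rw [Polynomial.natDegree_pow, Polynomial.natDegree_X_sub_C, mul_one]
  have hB : Q.Monic := hA.of_mul_monic_left (hQ ▸ hP)
  have hdeg : m + Q.natDegree = b := by
    rw [← hd]
    conv_rhs => rw [hQ]
    rw [hA.natDegree_mul hB, hAd]
  have hn0 : 0 < Q.natDegree := by
    by_contra hn
    have hn' : Q.natDegree = 0 := by omega
    have hQ1 : Q = 1 := hB.natDegree_eq_zero.mp hn'
    have hmb : m = b := by omega
    rw [hQ1, mul_one, hmb] at hQ
    have hr0 : r = 0 := by
      have h2 := h1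
      rw [hQ] at h2
      have h3 : (Polynomial.X - Polynomial.C r) ^ b = (Polynomial.X + Polynomial.C (-r)) ^ b := by
        rw [Polynomial.C_neg, sub_eq_add_neg]
      rw [h3, Polynomial.coeff_X_add_C_pow] at h2
      have hsub : b - (b - 1) = 1 := by omega
      rw [hsub, pow_one] at h2
      rcases mul_eq_zero.mp h2 with h | h
      · exact neg_eq_zero.mp h
      · exfalso
        have : (b.choose (b - 1)) = 0 := by exact_mod_cast h
        have h5 : 0 < b.choose (b - 1) := Nat.choose_pos (by omega)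
        omega
    rw [hr0, Polynomial.C_0, sub_zero] at hQ
    exact h0 hQ
  refine ⟨m, Q.natDegree, (Polynomial.X - Polynomial.C r) ^ m, Q, hm0, hn0, hdeg, hA, hB, hAd, rfl,
    ?_, hQ⟩
  apply IsCoprime.pow_left
  exact (Polynomial.irreducible_X_sub_C r).coprime_iff_not_dvd.mpr hnd

theorem pu5_scale_prod {b : ℕ} (φ : Fin b → ℂ) (r : ℂ) :
    (∏ i, (Polynomial.X - Polynomial.C (φ i))).scaleRoots r =
      ∏ i, (Polynomial.X - Polynomial.C (r * φ i)) := by
  classical
  have : ∀ s : Finset (Fin b), (∏ i ∈ s, (Polynomial.X - Polynomial.C (φ i))).scaleRoots r =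
      ∏ i ∈ s, (Polynomial.X - Polynomial.C (r * φ i)) := by
    intro s
    induction s using Finset.induction_on with
    | empty =>
      rw [Finset.prod_empty, Finset.prod_empty, Polynomial.one_scaleRoots]
    | insert i s hi ih =>
      rw [Finset.prod_insert hi, Finset.prod_insert hi,
        Polynomial.mul_scaleRoots_of_noZeroDivisors, ih, Polynomial.X_sub_C_scaleRoots]
      congr 3
      ring
  exact this Finset.univ

theorem pu5_comp_prod {b : ℕ} (φ : Fin b → ℂ) (r : ℂ) :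
    (∏ i, (Polynomial.X - Polynomial.C (φ i))).comp (Polynomial.X + Polynomial.C r) =
      ∏ i, (Polynomial.X - Polynomial.C (φ i - r)) := by
  rw [Polynomial.prod_comp]
  apply Finset.prod_congr rfl
  intro i _
  rw [Polynomial.sub_comp, Polynomial.X_comp, Polynomial.C_comp, Polynomial.C_sub]
  ring

/-- PU5: Newton - Puiseux (uses PU3, PU4; induction on `b`, substitution `y - c / b`) -/
theorem pu_newton_pr {b : ℕ} {F : ℂ → Polynomial ℂ} (hF : PAn b F) :
    ∃ (q : ℕ) (φ : Fin b → ℂ → ℂ), 0 < q ∧ (∀ i, AnalyticAt ℂ (φ i) 0) ∧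
      ∀ᶠ ζ in 𝓝 (0 : ℂ), F (ζ ^ q) = ∏ i, (Polynomial.X - Polynomial.C (φ i ζ)) := by
  induction b using Nat.strong_induction_on generalizing F with
  | _ b ih =>
  rcases Nat.eq_zero_or_pos b with hb | hb
  · subst hb
    refine ⟨1, fun i => i.elim0, one_pos, fun i => i.elim0, Filter.Eventually.of_forall ?_⟩
    intro ζ
    rw [Finset.univ_eq_empty, Finset.prod_empty]
    exact (hF.1 _).1.natDegree_eq_zero.mp (hF.1 _).2
  -- translation
  set c : ℂ → ℂ := fun x => -(F x).coeff (b - 1) / b with hc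
  have hcan : AnalyticAt ℂ c 0 := (hF.2 (b - 1)).neg.div_const
  have hb0 : (b : ℂ) ≠ 0 := by exact_mod_cast hb.ne'
  set F₁ : ℂ → Polynomial ℂ := fun x => (F x).comp (Polynomial.X + Polynomial.C (c x)) with hF₁
  have hF₁an : PAn b F₁ := pu5_shift hF hcan
  have hF₁0 : ∀ x, (F₁ x).coeff (b - 1) = 0 := by
    intro x
    show ((F x).comp (Polynomial.X + Polynomial.C (c x))).coeff (b - 1) = 0
    rw [pu5_taylor_coeff _ (hF.1 x).2, Finset.sum_eq_add_of_mem 0 1 (by simp) (by simp; omega)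
      (by norm_num)]
    · have e1 : (F x).coeff (1 + (b - 1)) = 1 := by
        have h := (hF.1 x).1
        unfold Polynomial.Monic Polynomial.leadingCoeff at h
        rw [(hF.1 x).2] at h
        rw [← h]
        congr 1
        omega
      rw [e1, zero_add, Nat.choose_self]
      have e2 : (1 + (b - 1)).choose (b - 1) = b := by
        obtain ⟨b', rfl⟩ : ∃ b', b = b' + 1 := ⟨b - 1, by omega⟩
        rw [Nat.add_sub_cancel, add_comm 1 b', Nat.choose_succ_self_right]
      rw [e2]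
      simp only [hc]
      field_simp
      push_cast
      ring
    · intro i _ hi
      have : (F x).coeff (i + (b - 1)) = 0 := by
        apply Polynomial.coeff_eq_zero_of_natDegree_lt
        rw [(hF.1 x).2]
        omega
      rw [this]
      ring
  have hback : ∀ x, F x = (F₁ x).comp (Polynomial.X + Polynomial.C (-c x)) := by
    intro x
    show F x = ((F x).comp (Polynomial.X + Polynomial.C (c x))).comp
      (Polynomial.X + Polynomial.C (-c x))
    rw [Polynomial.comp_assoc]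
    have : (Polynomial.X + Polynomial.C (c x)).comp (Polynomial.X + Polynomial.C (-c x)) =
        (Polynomial.X : Polynomial ℂ) := by
      rw [Polynomial.add_comp, Polynomial.X_comp, Polynomial.C_comp, Polynomial.C_neg]
      ring
    rw [this, Polynomial.comp_X]
  -- it is enough to treat `F₁`
  suffices h : ∃ (q : ℕ) (φ : Fin b → ℂ → ℂ), 0 < q ∧ (∀ i, AnalyticAt ℂ (φ i) 0) ∧
      ∀ᶠ ζ in 𝓝 (0 : ℂ), F₁ (ζ ^ q) = ∏ i, (Polynomial.X - Polynomial.C (φ i ζ)) by
    obtain ⟨q, φ, hq, hφ, he⟩ := h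
    have hcq : AnalyticAt ℂ (fun ζ : ℂ => c (ζ ^ q)) 0 := by
      have h2 : AnalyticAt ℂ (fun ζ : ℂ => ζ ^ q) 0 := analyticAt_id.pow q
      have h3 : AnalyticAt ℂ c ((fun ζ : ℂ => ζ ^ q) 0) := by
        simp only [zero_pow hq.ne']
        exact hcan
      exact AnalyticAt.comp (g := c) (f := fun ζ : ℂ => ζ ^ q) h3 h2
    refine ⟨q, fun i ζ => φ i ζ - -c (ζ ^ q), hq, fun i => (hφ i).sub hcq.neg, ?_⟩
    filter_upwards [he] with ζ hζ
    rw [hback, hζ, pu5_comp_prod]
  by_cases hX : ∀ᶠ x in 𝓝 (0 : ℂ), F₁ x = Polynomial.X ^ b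
  · refine ⟨1, fun _ _ => 0, one_pos, fun _ => analyticAt_const, ?_⟩
    filter_upwards [hX] with ζ hζ
    rw [pow_one, hζ, Polynomial.C_0, sub_zero, Finset.prod_const, Finset.card_univ,
      Fintype.card_fin]
  obtain ⟨v, u, F', hv, hF', h1', h0', hsc⟩ := pu_scale hF₁an hb hF₁0 hX
  obtain ⟨m, n, A, B, hm, hn, hmn, hA, hB, hAd, hBd, hco, hAB⟩ :=
    pu5_factor hb (hF'.1 0).1 (hF'.1 0).2 h1' h0'
  subst hmn
  obtain ⟨P', Q', hP', hQ', hPQ⟩ := pu_hensel hF' hA hB hAd hBd hco hAB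
  obtain ⟨q₁, φ₁, hq₁, hφ₁, he₁⟩ := ih m (by omega) hP'
  obtain ⟨q₂, φ₂, hq₂, hφ₂, he₂⟩ := ih n (by omega) hQ'
  have htend : ∀ k : ℕ, 0 < k → Tendsto (fun ζ : ℂ => ζ ^ k) (𝓝 0) (𝓝 0) := by
    intro k hk
    exact (continuous_pow k).tendsto' 0 0 (zero_pow hk.ne')
  have hcomp : ∀ (k : ℕ) (f : ℂ → ℂ), 0 < k → AnalyticAt ℂ f 0 →
      AnalyticAt ℂ (fun ζ : ℂ => f (ζ ^ k)) 0 := by
    intro k f hk hf
    have h2 : AnalyticAt ℂ (fun ζ : ℂ => ζ ^ k) 0 := analyticAt_id.pow k
    have h3 : AnalyticAt ℂ f ((fun ζ : ℂ => ζ ^ k) 0) := by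
      simp only [zero_pow hk.ne']
      exact hf
    exact AnalyticAt.comp (g := f) (f := fun ζ : ℂ => ζ ^ k) h3 h2
  refine ⟨v * (q₁ * q₂), Fin.append (fun i ζ => (ζ ^ (q₁ * q₂)) ^ u * φ₁ i (ζ ^ q₂))
    (fun i ζ => (ζ ^ (q₁ * q₂)) ^ u * φ₂ i (ζ ^ q₁)), by positivity, ?_, ?_⟩
  · intro i
    refine Fin.addCases (fun j => ?_) (fun j => ?_) i
    · rw [Fin.append_left]
      exact ((analyticAt_id.pow _).pow u).mul (hcomp q₂ _ hq₂ (hφ₁ j))
    · rw [Fin.append_right]
      exact ((analyticAt_id.pow _).pow u).mul (hcomp q₁ _ hq₁ (hφ₂ j))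
  · have t0 := htend (q₁ * q₂) (by positivity)
    filter_upwards [t0.eventually hsc, t0.eventually hPQ, (htend q₂ hq₂).eventually he₁,
      (htend q₁ hq₁).eventually he₂] with ζ a1 a2 a3 a4
    have e1 : ζ ^ (v * (q₁ * q₂)) = (ζ ^ (q₁ * q₂)) ^ v := by
      rw [← pow_mul, mul_comm]
    have e2 : (ζ ^ q₂) ^ q₁ = ζ ^ (q₁ * q₂) := by
      rw [← pow_mul, mul_comm]
    have e3 : (ζ ^ q₁) ^ q₂ = ζ ^ (q₁ * q₂) := by
      rw [← pow_mul]
    rw [e2] at a3
    rw [e3] at a4
    rw [e1, a1, a2, a3, a4, Polynomial.mul_scaleRoots_of_noZeroDivisors, pu5_scale_prod,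
      pu5_scale_prod, Fin.prod_univ_add]
    simp only [Fin.append_left, Fin.append_right]

end Pool.Agent.KZ

namespace Pool.Agent.KZ

alias pu_newton := pu_newton_pr

end Pool.Agent.KZ
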