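import Pool.Agent.Lib_helper82.KZ.Defs
import Pool.Agent.Lib_helper82.KZ.P.PU5
import Pool.Agent.Lib_helper82.KZ.P.PU2

set_option autoImplicit false
set_option linter.unusedSectionVars false

open Filter Topology Metric Set
open scoped Manifold ContDiff

namespace Pool.Agent.KZ

open Pool.Agent.BR Pool.Agent.MBS Pool.Agent.SL Pool.Agent.IS

/-! PU6: discs in the zero set of a function of two variables (helper33) -/

theorem pu_discs_pr {G : ℂ × ℂ → ℂ} (hG : AnalyticAt ℂ G 0) (h0 : ¬ ∀ᶠ y in 𝓝 (0 : ℂ), G (0, y) = 0)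
    {ε : ℝ} (hε : 0 < ε) :
    ∃ (n : ℕ) (d : Fin n → ℂ → ℂ × ℂ), (∀ i, ∀ ζ ∈ closedBall (0 : ℂ) 1,
      AnalyticAt ℂ (d i) ζ ∧ ‖d i ζ‖ < ε ∧ G (d i ζ) = 0 ∧ (d i ζ = 0 ↔ ζ = 0)) ∧
      ∀ᶠ p in 𝓝 (0 : ℂ × ℂ), G p = 0 → ∃ i, ∃ ζ ∈ ball (0 : ℂ) (1 / 4), d i ζ = p := by
  classical
  obtain ⟨b, F, hF, hGF⟩ := pu_prep hG h0
  obtain ⟨q, φ, hq, hφ, hprod⟩ := pu_newton hF
  -- the discs before scaling
  set D : Fin b → ℂ → ℂ × ℂ := fun i ζ => (ζ ^ q, φ i ζ) with hD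
  have hDan : ∀ i, AnalyticAt ℂ (D i) 0 := fun i =>
    (analyticAt_id.pow q).prod (hφ i)
  -- all good properties near `0`
  have hgood : ∀ i : Fin b, φ i 0 = 0 → ∀ᶠ ζ in 𝓝 (0 : ℂ),
      AnalyticAt ℂ (D i) ζ ∧ ‖D i ζ‖ < ε ∧ G (D i ζ) = 0 := by
    intro i hi
    have hD0 : D i 0 = 0 := by
      simp [hD, hi, hq.ne']
    have h1 := (hDan i).eventually_analyticAt
    have hcont : Tendsto (D i) (𝓝 0) (𝓝 0) := by
      have := (hDan i).continuousAt.tendsto
      rwa [hD0] at this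
    have h2 : ∀ᶠ ζ in 𝓝 (0 : ℂ), ‖D i ζ‖ < ε := by
      have := hcont.norm
      rw [norm_zero] at this
      exact this.eventually (eventually_lt_nhds hε)
    have h3 := hcont.eventually hGF
    filter_upwards [h1, h2, h3, hprod] with ζ a1 a2 a3 a4
    refine ⟨a1, a2, a3.2 ?_⟩
    show (F (ζ ^ q)).eval (φ i ζ) = 0
    rw [a4, Polynomial.eval_prod]
    exact Finset.prod_eq_zero (Finset.mem_univ i) (by simp)
  -- a common radius
  have hall : ∀ᶠ ζ in 𝓝 (0 : ℂ), ∀ i : Fin b, φ i 0 = 0 →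
      AnalyticAt ℂ (D i) ζ ∧ ‖D i ζ‖ < ε ∧ G (D i ζ) = 0 := by
    rw [eventually_all]
    intro i
    by_cases hi : φ i 0 = 0
    · filter_upwards [hgood i hi] with ζ hζ _ using hζ
    · exact Eventually.of_forall fun ζ h => absurd h hi
  obtain ⟨R, hR, hRall⟩ := Metric.eventually_nhds_iff_ball.1 hall
  set c : ℝ := R / 2 with hc
  have hc0 : 0 < c := by positivity
  have hcR : c < R := by rw [hc]; linarith
  have hcc : (c : ℂ) ≠ 0 := by exact_mod_cast hc0.ne'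
  have hmem : ∀ ζ ∈ closedBall (0 : ℂ) 1, (c : ℂ) * ζ ∈ ball (0 : ℂ) R := by
    intro ζ hζ
    rw [mem_closedBall_zero_iff] at hζ
    rw [mem_ball_zero_iff, norm_mul, Complex.norm_real, Real.norm_of_nonneg hc0.le]
    nlinarith
  set T := {i : Fin b // φ i 0 = 0} with hT
  set e := Fintype.equivFin T with he
  refine ⟨Fintype.card T, fun i ζ => D (e.symm i).1 ((c : ℂ) * ζ), ?_, ?_⟩
  · intro i ζ hζ
    obtain ⟨a1, a2, a3⟩ := hRall _ (hmem ζ hζ) (e.symm i).1 (e.symm i).2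
    refine ⟨?_, a2, a3, ?_⟩
    · exact AnalyticAt.fun_comp (f := fun ζ : ℂ => (c : ℂ) * ζ) a1 (analyticAt_const.mul analyticAt_id)
    · constructor
      · intro h
        have h' : ((c : ℂ) * ζ) ^ q = 0 := congrArg Prod.fst h
        have := pow_eq_zero_iff (hq.ne') |>.1 h'
        exact (mul_eq_zero.1 this).resolve_left hcc
      · rintro rfl
        simp [hD, (e.symm i).2, hq.ne']
  · -- covering
    -- the other branches stay away
    have hoff : ∀ᶠ ζ in 𝓝 (0 : ℂ), ∀ i : Fin b, φ i 0 ≠ 0 → ‖φ i 0‖ / 2 < ‖φ i ζ‖ := by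
      rw [eventually_all]
      intro i
      by_cases hi : φ i 0 = 0
      · exact Eventually.of_forall fun ζ h => absurd hi h
      · have := (hφ i).continuousAt.norm.tendsto
        have h2 : ‖φ i 0‖ / 2 < ‖φ i 0‖ := by
          have : 0 < ‖φ i 0‖ := norm_pos_iff.2 hi
          linarith
        filter_upwards [this.eventually (lt_mem_nhds h2)] with ζ hζ _ using hζ
    have hoff2 : ∀ᶠ y in 𝓝 (0 : ℂ), ∀ i : Fin b, φ i 0 ≠ 0 → ‖y‖ < ‖φ i 0‖ / 2 := by
      rw [eventually_all]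
      intro i
      by_cases hi : φ i 0 = 0
      · exact Eventually.of_forall fun ζ h => absurd hi h
      · have h2 : 0 < ‖φ i 0‖ / 2 := by
          have : 0 < ‖φ i 0‖ := norm_pos_iff.2 hi
          linarith
        have h3 : Tendsto (fun y : ℂ => ‖y‖) (𝓝 0) (𝓝 0) := by
          simpa using (continuous_norm (E := ℂ)).tendsto 0
        filter_upwards [h3.eventually (gt_mem_nhds h2)] with ζ hζ _ using hζ
    obtain ⟨r1, hr1, hb1⟩ := Metric.eventually_nhds_iff_ball.1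
      ((hoff.and hprod))
    set r : ℝ := min r1 (c / 4) with hr
    have hr0 : 0 < r := lt_min hr1 (by positivity)
    have hx : ∀ᶠ p : ℂ × ℂ in 𝓝 0, ‖p.1‖ < r ^ q := by
      have h3 : Tendsto (fun p : ℂ × ℂ => ‖p.1‖) (𝓝 0) (𝓝 0) := by
        have : Continuous (fun p : ℂ × ℂ => ‖p.1‖) := continuous_fst.norm
        simpa using this.tendsto 0
      exact h3.eventually (gt_mem_nhds (pow_pos hr0 q))
    have hy : ∀ᶠ p : ℂ × ℂ in 𝓝 0, ∀ i : Fin b, φ i 0 ≠ 0 → ‖p.2‖ < ‖φ i 0‖ / 2 := by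
      have : Tendsto (fun p : ℂ × ℂ => p.2) (𝓝 0) (𝓝 0) := by
        simpa using (continuous_snd (X := ℂ) (Y := ℂ)).tendsto 0
      exact this.eventually hoff2
    filter_upwards [hGF, hx, hy] with p h1 h2 h3 hGp
    obtain ⟨z, hz⟩ := IsAlgClosed.exists_pow_nat_eq p.1 hq
    have hzr : ‖z‖ < r := by
      rw [← hz, norm_pow] at h2
      exact lt_of_pow_lt_pow_left₀ q hr0.le h2
    have hz1 : z ∈ ball (0 : ℂ) r1 := by
      rw [mem_ball_zero_iff]; exact hzr.trans_le (min_le_left _ _)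
    obtain ⟨k1, k2⟩ := hb1 z hz1
    have hev := h1.1 hGp
    rw [← hz, k2, Polynomial.eval_prod, Finset.prod_eq_zero_iff] at hev
    obtain ⟨j, -, hj⟩ := hev
    have hj' : φ j z = p.2 := by
      have : p.2 - φ j z = 0 := by simpa using hj
      exact (sub_eq_zero.1 this).symm
    have hj0 : φ j 0 = 0 := by
      by_contra hne
      have a := k1 j hne
      have b := h3 j hne
      rw [hj'] at a
      exact absurd b (not_lt.2 a.le)
    refine ⟨e ⟨j, hj0⟩, z / c, ?_, ?_⟩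
    · rw [mem_ball_zero_iff, norm_div, Complex.norm_real, Real.norm_of_nonneg hc0.le,
        div_lt_iff₀ hc0]
      have := hzr.trans_le (min_le_right r1 (c / 4))
      linarith
    · show D (e.symm (e ⟨j, hj0⟩)).1 ((c : ℂ) * (z / c)) = p
      rw [Equiv.symm_apply_apply, mul_div_cancel₀ _ hcc]
      exact Prod.ext hz hj'
end Pool.Agent.KZ

namespace Pool.Agent.KZ

alias pu_discs := pu_discs_pr

end Pool.Agent.KZ
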