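import Pool.Agent.Lib_helper82.KZ.Defs
import Pool.Agent.Lib_helper82.KZ.P.PU6

set_option autoImplicit false
set_option linter.unusedSectionVars false

open Filter Topology Metric Set
open scoped Manifold ContDiff

namespace Pool.Agent.KZ

open Pool.Agent.BR Pool.Agent.MBS Pool.Agent.SL Pool.Agent.IS

/-! PUI: the zero set of an analytic function on a 2-dimensional space is covered by discs (helper33) -/

section pure

variable {E V : Type} [NormedAddCommGroup E] [NormedSpace ℂ E] [FiniteDimensional ℂ E]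
  [NormedAddCommGroup V] [NormedSpace ℂ V] [CompleteSpace V]

/-- if `g` is locally zero at `0` on all lines, then it is locally zero -/
theorem pui_lines {g : E → ℂ} {ξ₀ : E} (hg : AnalyticAt ℂ g ξ₀)
    (h : ∀ v : E, ∀ᶠ y in 𝓝 (0 : ℂ), g (ξ₀ + y • v) = 0) : ∀ᶠ ξ in 𝓝 ξ₀, g ξ = 0 := by
  obtain ⟨r, hr, hb⟩ := Metric.eventually_nhds_iff_ball.1 hg.eventually_analyticAt
  refine Metric.eventually_nhds_iff_ball.2 ⟨r, hr, fun ξ hξ => ?_⟩
  set v : E := ξ - ξ₀ with hv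
  have hvr : ‖v‖ < r := by rwa [mem_ball_iff_norm] at hξ
  set U : Set ℂ := {y : ℂ | ‖y‖ * ‖v‖ < r} with hU
  have hUconv : Convex ℝ U := by
    rcases (norm_nonneg v).eq_or_lt with h0 | h0
    · have : U = univ := by
        ext y; simp [hU, ← h0, hr]
      rw [this]; exact convex_univ
    · have : U = ball (0 : ℂ) (r / ‖v‖) := by
        ext y; simp [hU, lt_div_iff₀ h0]
      rw [this]; exact convex_ball _ _
  have han : AnalyticOnNhd ℂ (fun y : ℂ => g (ξ₀ + y • v)) U := by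
    intro y hy
    have hy' : ξ₀ + y • v ∈ ball ξ₀ r := by
      rw [mem_ball_iff_norm, add_sub_cancel_left, norm_smul]; exact hy
    have := hb _ hy'
    exact AnalyticAt.fun_comp (f := fun y : ℂ => ξ₀ + y • v) this
      (analyticAt_const.add (analyticAt_id.smul analyticAt_const))
  have h0U : (0 : ℂ) ∈ U := by simp [hU, hr]
  have h1U : (1 : ℂ) ∈ U := by simpa [hU] using hvr
  have := han.eqOn_zero_of_preconnected_of_eventuallyEq_zero hUconv.isPreconnected h0U (h v) h1U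
  simpa [hv] using this

/-- linear coordinates -/
theorem pui_coord (e : Module.Basis (Fin 2) ℂ E) {g : E → ℂ} {ξ₀ : E} (hg : AnalyticAt ℂ g ξ₀)
    (hne : ¬ ∀ᶠ ξ in 𝓝 ξ₀, g ξ = 0) :
    ∃ L : (ℂ × ℂ) ≃L[ℂ] E, ¬ ∀ᶠ y in 𝓝 (0 : ℂ), g (ξ₀ + L (0, y)) = 0 := by
  classical
  have hex : ∃ v : E, ¬ ∀ᶠ y in 𝓝 (0 : ℂ), g (ξ₀ + y • v) = 0 := by
    by_contra hall
    push Not at hall
    exact hne (pui_lines hg hall)
  obtain ⟨v, hv0, hv⟩ : ∃ v : E, v ≠ 0 ∧ ¬ ∀ᶠ y in 𝓝 (0 : ℂ), g (ξ₀ + y • v) = 0 := by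
    obtain ⟨v, hv⟩ := hex
    by_cases h0 : v = 0
    · subst h0
      refine ⟨e 0, e.ne_zero 0, fun h => ?_⟩
      apply hv
      have := h.self_of_nhds
      simp only [zero_smul, add_zero] at this
      simp [this]
    · exact ⟨v, h0, hv⟩
  have hfr : Module.finrank ℂ E = 2 := by
    rw [Module.finrank_eq_card_basis e]; simp
  -- a vector off the line of `v`
  have hw : ∃ w : E, w ∉ Submodule.span ℂ {v} := by
    by_contra hall
    push Not at hall
    have htop : Submodule.span ℂ {v} = ⊤ := by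
      rw [eq_top_iff]; intro x _; exact hall x
    have h1 : Module.finrank ℂ (Submodule.span ℂ {v}) ≤ 1 := by
      simpa using finrank_span_le_card (R := ℂ) ({v} : Set E)
    rw [htop, finrank_top, hfr] at h1
    omega
  obtain ⟨w, hw⟩ := hw
  let f : (ℂ × ℂ) →ₗ[ℂ] E :=
    (LinearMap.toSpanSingleton ℂ E w).coprod (LinearMap.toSpanSingleton ℂ E v)
  have hf : ∀ p : ℂ × ℂ, f p = p.1 • w + p.2 • v := fun p => by simp [f]
  have hinj : Function.Injective f := by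
    rw [← LinearMap.ker_eq_bot, LinearMap.ker_eq_bot']
    rintro ⟨a, b⟩ hab
    rw [hf] at hab
    simp only at hab
    have ha : a = 0 := by
      by_contra ha
      apply hw
      rw [Submodule.mem_span_singleton]
      refine ⟨-(a⁻¹ * b), ?_⟩
      have h1 : a • w = -(b • v) := eq_neg_of_add_eq_zero_left hab
      have h2 : w = a⁻¹ • (a • w) := by rw [smul_smul, inv_mul_cancel₀ ha, one_smul]
      rw [h2, h1, smul_neg, smul_smul, neg_smul]
    subst ha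
    rw [zero_smul, zero_add, smul_eq_zero] at hab
    rw [hab.resolve_right hv0]
    rfl
  let L0 : (ℂ × ℂ) ≃ₗ[ℂ] E := LinearEquiv.ofInjectiveOfFinrankEq f hinj (by
    rw [hfr]; simp)
  refine ⟨L0.toContinuousLinearEquiv, fun h => hv ?_⟩
  filter_upwards [h] with y hy
  have : L0.toContinuousLinearEquiv ((0 : ℂ), y) = y • v := by
    show f (0, y) = y • v
    rw [hf]; simp
  rwa [this] at hy

theorem puis_pr (e : Module.Basis (Fin 2) ℂ E) {g : E → ℂ} {ξ₀ : E} (hg : AnalyticAt ℂ g ξ₀)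
    (hne : ¬ ∀ᶠ ξ in 𝓝 ξ₀, g ξ = 0) {ε : ℝ} (hε : 0 < ε) :
    ∃ (n : ℕ) (d : Fin n → ℂ → E), (∀ i, ∀ ζ ∈ closedBall (0 : ℂ) 1, AnalyticAt ℂ (d i) ζ ∧
      dist (d i ζ) ξ₀ < ε ∧ g (d i ζ) = 0 ∧ (d i ζ = ξ₀ ↔ ζ = 0)) ∧
      ∀ᶠ ξ in 𝓝 ξ₀, g ξ = 0 → ∃ i, ∃ ζ ∈ ball (0 : ℂ) (1 / 4), d i ζ = ξ := by
  obtain ⟨L, hL⟩ := pui_coord e hg hne
  have hGan : AnalyticAt ℂ (fun p : ℂ × ℂ => g (ξ₀ + L p)) 0 := by
    have h1 : AnalyticAt ℂ (fun p : ℂ × ℂ => ξ₀ + L p) 0 :=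
      analyticAt_const.add ((L : (ℂ × ℂ) →L[ℂ] E).analyticAt 0)
    have h2 : AnalyticAt ℂ g (ξ₀ + L 0) := by simpa using hg
    exact AnalyticAt.fun_comp (f := fun p : ℂ × ℂ => ξ₀ + L p) h2 h1
  set N : ℝ := ‖(L : (ℂ × ℂ) →L[ℂ] E)‖ + 1 with hN
  have hN0 : 0 < N := by positivity
  obtain ⟨n, d, hd, hcov⟩ := pu_discs hGan hL (div_pos hε hN0)
  refine ⟨n, fun i ζ => ξ₀ + L (d i ζ), fun i ζ hζ => ?_, ?_⟩
  · obtain ⟨a1, a2, a3, a4⟩ := hd i ζ hζ
    refine ⟨?_, ?_, a3, ?_⟩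
    · exact analyticAt_const.add (AnalyticAt.fun_comp
        ((L : (ℂ × ℂ) →L[ℂ] E).analyticAt _) a1)
    · rw [dist_eq_norm, add_sub_cancel_left]
      have h1 : ‖L (d i ζ)‖ ≤ ‖(L : (ℂ × ℂ) →L[ℂ] E)‖ * ‖d i ζ‖ :=
        (L : (ℂ × ℂ) →L[ℂ] E).le_opNorm _
      have h2 : ‖(L : (ℂ × ℂ) →L[ℂ] E)‖ * ‖d i ζ‖ ≤ N * ‖d i ζ‖ := by
        apply mul_le_mul_of_nonneg_right _ (norm_nonneg _)
        rw [hN]; linarith
      have h3 : N * ‖d i ζ‖ < ε := by
        rw [lt_div_iff₀ hN0] at a2; linarith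
      exact (h1.trans h2).trans_lt h3
    · rw [← a4]
      constructor
      · intro h
        have : L (d i ζ) = 0 := by simpa using h
        simpa using this
      · intro h
        show ξ₀ + L (d i ζ) = ξ₀
        rw [h]; simp
  · have hT : Tendsto (fun ξ : E => L.symm (ξ - ξ₀)) (𝓝 ξ₀) (𝓝 0) := by
      have hc : Continuous (fun ξ : E => L.symm (ξ - ξ₀)) :=
        L.symm.continuous.comp (continuous_id.sub continuous_const)
      have := hc.tendsto ξ₀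
      simpa using this
    filter_upwards [hT.eventually hcov] with ξ hξ hgξ
    have h1 : ξ₀ + L (L.symm (ξ - ξ₀)) = ξ := by simp
    obtain ⟨i, ζ, hζ, hζ'⟩ := hξ (by rw [h1]; exact hgξ)
    exact ⟨i, ζ, hζ, by rw [hζ', h1]⟩

end pure
end Pool.Agent.KZ

namespace Pool.Agent.KZ

alias puis := puis_pr

end Pool.Agent.KZ
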