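import Pool.Agent.Lib_helper82.KZ.Defs
import Pool.Agent.Lib_helper82.KZ.P.PUI

/-! Block AD1 of project KZ (helper80): local discs in an analytic set. -/

set_option autoImplicit false
set_option linter.unusedSectionVars false

open Filter Topology Metric Set
open scoped Manifold ContDiff

namespace Pool.Agent.KZ

open Pool.Agent.BR Pool.Agent.MBS Pool.Agent.SL Pool.Agent.IS

section

variable {E X : Type} [NormedAddCommGroup E] [NormedSpace ℂ E] [FiniteDimensional ℂ E]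
  [MetricSpace X] {A : Cha E X} {ρ : X → X → ℝ}

theorem as_loc_pr (e : Module.Basis (Fin 2) ℂ E) {D : Set X} (hD : AS A D) {p : X} (hp : p ∈ D)
    {i : A.ι} (hi : p ∈ A.W i) {O : Set X} (hO : IsOpen O) (hpO : p ∈ O) :
    ∃ (n : ℕ) (d : Fin n → ℂ → E), (∀ j, Dsc A i (d j) ∧ d j 0 = A.ch i p ∧
      ∀ ζ ∈ closedBall (0 : ℂ) 1, (A.ch i).symm (d j ζ) ∈ D ∩ O) ∧
      ∀ᶠ y in 𝓝 p, y ∈ D → ∃ j, ∃ ζ ∈ ball (0 : ℂ) (1 / 4), (A.ch i).symm (d j ζ) = y := by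
  classical
  obtain ⟨κ, S, O', hO', hpO', hSD, hSan, s₀, hs₀⟩ := hD p
  have hps : p ∈ (A.ch i).source := A.W_sub i (subset_closure hi)
  have hpt : A.ch i p ∈ (A.ch i).target := (A.ch i).map_source hps
  set ξ₀ : E := A.ch i p with hξ₀
  have hsymm : Tendsto (A.ch i).symm (𝓝 ξ₀) (𝓝 p) := by
    have := (A.ch i).continuousAt_symm hpt
    rw [ContinuousAt, (A.ch i).left_inv hps] at this
    exact this
  have hch : Tendsto (A.ch i) (𝓝 p) (𝓝 ξ₀) := ((A.ch i).continuousAt hps).tendsto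
  -- a ball
  have hev : ∀ᶠ ξ in 𝓝 ξ₀, ξ ∈ (A.ch i).target ∧ (A.ch i).symm ξ ∈ A.W i ∩ O ∩ O' := by
    have h1 : ∀ᶠ ξ in 𝓝 ξ₀, ξ ∈ (A.ch i).target := (A.ch i).open_target.mem_nhds hpt
    have h2 : ∀ᶠ y in 𝓝 p, y ∈ A.W i ∩ O ∩ O' :=
      (((A.W_open i).inter hO).inter hO').mem_nhds ⟨⟨hi, hpO⟩, hpO'⟩
    exact h1.and (hsymm.eventually h2)
  obtain ⟨ε, hε, hball⟩ := Metric.eventually_nhds_iff.1 hev
  have hSan' : ∀ s ξ, dist ξ ξ₀ < ε → AnalyticAt ℂ (fun ξ => S s ((A.ch i).symm ξ)) ξ := by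
    intro s ξ hξ
    obtain ⟨h1, h2⟩ := hball hξ
    have h3 := hSan s _ h2.2 i ((A.ch i).map_target h1)
    rwa [(A.ch i).right_inv h1] at h3
  have hne : ¬ ∀ᶠ ξ in 𝓝 ξ₀, S s₀ ((A.ch i).symm ξ) = 0 := by
    intro h
    apply hs₀
    filter_upwards [hch.eventually h, (A.ch i).open_source.mem_nhds hps] with y hy hys
    rwa [(A.ch i).left_inv hys] at hy
  obtain ⟨n, d, hd, hcov⟩ := puis e (hSan' s₀ ξ₀ (by rwa [dist_self])) hne hε
  -- the disc `j` is contained in `D` or meets `D` only at the centre, near the centre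
  have hmemD : ∀ j, ∀ ζ ∈ closedBall (0 : ℂ) 1,
      ((A.ch i).symm (d j ζ) ∈ D ↔ ∀ s, S s ((A.ch i).symm (d j ζ)) = 0) := fun j ζ hζ =>
    hSD _ (hball (hd j ζ hζ).2.1).2.2
  have han : ∀ j s, ∀ ζ ∈ closedBall (0 : ℂ) 1,
      AnalyticAt ℂ (fun ζ => S s ((A.ch i).symm (d j ζ))) ζ := fun j s ζ hζ =>
    AnalyticAt.comp (g := fun ξ => S s ((A.ch i).symm ξ)) (f := d j)
      (hSan' s _ (hd j ζ hζ).2.1) (hd j ζ hζ).1
  have h0m : (0 : ℂ) ∈ closedBall (0 : ℂ) 1 := by simp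
  let good : Fin n → Prop := fun j => ∀ ζ ∈ closedBall (0 : ℂ) 1, (A.ch i).symm (d j ζ) ∈ D
  have hbad : ∀ j, ¬ good j → ∀ᶠ ξ in 𝓝 ξ₀, ∀ ζ ∈ ball (0 : ℂ) (1 / 4), d j ζ = ξ →
      (A.ch i).symm ξ ∈ D → ξ = ξ₀ := by
    intro j hj
    -- some equation is not zero along the disc
    obtain ⟨s, hs⟩ : ∃ s, ¬ ∀ᶠ ζ in 𝓝 (0 : ℂ), S s ((A.ch i).symm (d j ζ)) = 0 := by
      by_contra hcon
      push Not at hcon
      apply hj
      intro ζ hζ
      rw [hmemD j ζ hζ]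
      intro s
      have h1 : AnalyticOnNhd ℂ (fun ζ => S s ((A.ch i).symm (d j ζ))) (closedBall (0 : ℂ) 1) :=
        fun ζ hζ => han j s ζ hζ
      exact h1.eqOn_zero_of_preconnected_of_eventuallyEq_zero
        (convex_closedBall (0 : ℂ) 1).isPreconnected h0m (hcon s) hζ
    have h1 : ∀ᶠ ζ in 𝓝[≠] (0 : ℂ), S s ((A.ch i).symm (d j ζ)) ≠ 0 :=
      (han j s 0 h0m).eventually_eq_zero_or_eventually_ne_zero.resolve_left hs
    rw [eventually_nhdsWithin_iff] at h1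
    obtain ⟨δ, hδ, hδ'⟩ := Metric.eventually_nhds_iff.1 h1
    -- the annulus
    have hK : IsCompact (closedBall (0 : ℂ) (1 / 4) \ ball 0 δ) :=
      (isCompact_closedBall _ _).diff isOpen_ball
    have hsub : closedBall (0 : ℂ) (1 / 4) ⊆ closedBall (0 : ℂ) 1 :=
      closedBall_subset_closedBall (by norm_num)
    have himg : IsCompact (d j '' (closedBall (0 : ℂ) (1 / 4) \ ball 0 δ)) :=
      hK.image_of_continuousOn fun ζ hζ => (hd j ζ (hsub hζ.1)).1.continuousAt.continuousWithinAt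
    have hnot : ξ₀ ∉ d j '' (closedBall (0 : ℂ) (1 / 4) \ ball 0 δ) := by
      rintro ⟨ζ, hζ, hζ'⟩
      have h2 : ζ = 0 := (hd j ζ (hsub hζ.1)).2.2.2.1 hζ'
      apply hζ.2
      rw [h2]
      exact mem_ball_self hδ
    filter_upwards [himg.isClosed.isOpen_compl.mem_nhds hnot] with ξ hξ ζ hζ hζξ hξD
    have h2 : ζ ∈ ball (0 : ℂ) δ := by
      by_contra h3
      exact hξ ⟨ζ, ⟨ball_subset_closedBall hζ, h3⟩, hζξ⟩
    by_contra h3
    have h4 : ζ ≠ 0 := by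
      intro h5
      apply h3
      rw [← hζξ]
      exact (hd j ζ (hsub (ball_subset_closedBall hζ))).2.2.2.2 h5
    apply hδ' h2 h4
    rw [← hζξ] at hξD
    exact (hmemD j ζ (hsub (ball_subset_closedBall hζ))).1 hξD s
  refine ⟨n, fun j => if good j then d j else fun _ => ξ₀, fun j => ?_, ?_⟩
  · by_cases hj : good j
    · simp only [if_pos hj]
      refine ⟨⟨fun ζ hζ => (hd j ζ hζ).1, fun ζ hζ => ?_⟩, (hd j 0 h0m).2.2.2.2 rfl,
        fun ζ hζ => ⟨hj ζ hζ, ?_⟩⟩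
      · obtain ⟨h1, h2⟩ := hball (hd j ζ hζ).2.1
        exact ⟨h1, h2.1.1⟩
      · exact (hball (hd j ζ hζ).2.1).2.1.2
    · simp only [if_neg hj]
      have h1 : (A.ch i).symm ξ₀ = p := (A.ch i).left_inv hps
      refine ⟨⟨fun ζ _ => analyticAt_const, fun ζ _ => ⟨hpt, ?_⟩⟩, trivial, fun ζ _ => ?_⟩
      · rw [h1]; exact hi
      · rw [h1]; exact ⟨hp, hpO⟩
  · have hbad' : ∀ᶠ ξ in 𝓝 ξ₀, ∀ j, ¬ good j → ∀ ζ ∈ ball (0 : ℂ) (1 / 4), d j ζ = ξ →
        (A.ch i).symm ξ ∈ D → ξ = ξ₀ := by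
      rw [eventually_all]
      intro j
      by_cases hj : good j
      · exact Eventually.of_forall fun ξ h => absurd hj h
      · filter_upwards [hbad j hj] with ξ h1 _
        exact h1
    filter_upwards [hch.eventually hbad', hch.eventually hcov,
      (A.ch i).open_source.mem_nhds hps, (hO'.mem_nhds hpO')] with y hy1 hy2 hys hyO hyD
    have hyl := (A.ch i).left_inv hys
    have h2 : S s₀ ((A.ch i).symm (A.ch i y)) = 0 := by
      rw [hyl]
      exact (hSD y hyO).1 hyD s₀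
    obtain ⟨j, ζ, hζ, hζy⟩ := hy2 h2
    refine ⟨j, ζ, hζ, ?_⟩
    by_cases hj : good j
    · simp only [if_pos hj]
      rw [hζy, hyl]
    · simp only [if_neg hj]
      have h3 := hy1 j hj ζ hζ hζy (by rw [hyl]; exact hyD)
      rw [← h3, hyl]

end

end Pool.Agent.KZ

namespace Pool.Agent.KZ

alias as_loc := as_loc_pr

end Pool.Agent.KZ
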