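import Pool.Agent.Lib_helper82.KZ.Defs
import Pool.Agent.Lib_helper82.KZ.P.AD1
set_option autoImplicit false
set_option linter.unusedSectionVars false
open Filter Topology Metric Set
open scoped Manifold ContDiff
namespace Pool.Agent.KZ
open Pool.Agent.BR Pool.Agent.MBS Pool.Agent.SL Pool.Agent.IS

section

variable {E X : Type} [NormedAddCommGroup E] [NormedSpace ℂ E] [FiniteDimensional ℂ E]
  [MetricSpace X] {A : Cha E X} {ρ : X → X → ℝ}

/-- an analytic set is closed -/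
theorem ad2_closed {D : Set X} (hD : AS A D) : IsClosed D := by
  rw [← isOpen_compl_iff, isOpen_iff_mem_nhds]
  intro x hx
  obtain ⟨κ, S, O, hO, hxO, h1, h2, -⟩ := hD x
  have h3 : ¬ ∀ s, S s x = 0 := fun h => hx ((h1 x hxO).2 h)
  push Not at h3
  obtain ⟨s, hs⟩ := h3
  obtain ⟨i, hi⟩ := A.cover x
  have hi' : x ∈ (A.ch i).source := A.W_sub i (subset_closure hi)
  have hc : ContinuousAt (S s) x := by
    have ha := (h2 s x hxO i hi').continuousAt
    have hb : ContinuousAt (fun y => (fun ξ => S s ((A.ch i).symm ξ)) (A.ch i y)) x :=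
      ContinuousAt.comp (g := fun ξ => S s ((A.ch i).symm ξ)) ha
        ((A.ch i).continuousAt hi')
    refine hb.congr ?_
    filter_upwards [(A.ch i).open_source.mem_nhds hi'] with y hy
    show S s ((A.ch i).symm (A.ch i y)) = S s y
    rw [(A.ch i).left_inv hy]
  filter_upwards [hc.eventually_ne hs, hO.mem_nhds hxO] with y hy hyO hyD
  exact hy ((h1 y hyO).1 hyD s)

/-- AD2: finitely many discs (uses AD1, compactness) -/
theorem dc_of_as_pr [CompactSpace X] (e : Module.Basis (Fin 2) ℂ E) {D : Set X} (hD : AS A D) :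
    DC A D := by
  classical
  have hK : IsCompact D := (ad2_closed hD).isCompact
  have hloc : ∀ p, ∃ (n : ℕ) (i : A.ι) (d : Fin n → ℂ → E), (∀ j, Dsc A i (d j) ∧
      ∀ ζ ∈ closedBall (0 : ℂ) 1, (A.ch i).symm (d j ζ) ∈ D) ∧
      ∀ᶠ y in 𝓝 p, y ∈ D → ∃ j, ∃ ζ ∈ ball (0 : ℂ) (1 / 4), (A.ch i).symm (d j ζ) = y := by
    intro p
    obtain ⟨i, hi⟩ := A.cover p
    by_cases hp : p ∈ D
    swap
    · refine ⟨0, i, fun j => j.elim0, fun j => j.elim0, ?_⟩
      filter_upwards [(ad2_closed hD).isOpen_compl.mem_nhds hp] with y hy hyD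
      exact absurd hyD hy
    obtain ⟨n, d, h1, h2⟩ := as_loc e hD hp hi isOpen_univ (mem_univ p)
    exact ⟨n, i, d, fun j => ⟨(h1 j).1, fun ζ hζ => ((h1 j).2.2 ζ hζ).1⟩, h2⟩
  choose n i d h1 h2 using hloc
  obtain ⟨t, htD, ht⟩ := hK.elim_nhds_subcover
    (fun p => {y | y ∈ D → ∃ j, ∃ ζ ∈ ball (0 : ℂ) (1 / 4), (A.ch (i p)).symm (d p j ζ) = y})
    (fun p _ => h2 p)
  let T : Type := Σ p : t, Fin (n p.1)
  let f : T ≃ Fin (Fintype.card T) := Fintype.equivFin T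
  refine ⟨Fintype.card T, fun j => i (f.symm j).1.1, fun j => d (f.symm j).1.1 (f.symm j).2,
    ?_, ?_, ?_⟩
  · intro j
    exact (h1 (f.symm j).1.1 (f.symm j).2).1
  · intro j
    exact (h1 (f.symm j).1.1 (f.symm j).2).2
  · intro x hx
    obtain ⟨p, hp, hxp⟩ := mem_iUnion₂.1 (ht hx)
    obtain ⟨j, ζ, hζ, hj⟩ := hxp hx
    refine ⟨f ⟨⟨p, hp⟩, j⟩, ζ, ball_subset_closedBall hζ, ?_⟩
    show (A.ch (i (f.symm (f ⟨⟨p, hp⟩, j⟩)).1.1)).symm
      (d (f.symm (f ⟨⟨p, hp⟩, j⟩)).1.1 (f.symm (f ⟨⟨p, hp⟩, j⟩)).2 ζ) = x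
    rw [f.symm_apply_apply]
    exact hj

end

end Pool.Agent.KZ

namespace Pool.Agent.KZ

alias dc_of_as := dc_of_as_pr

end Pool.Agent.KZ
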