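import Pool.Agent.Lib_helper82.KZ.Defs

/-! Block LA of project KZ (helper80): two independent polynomials with prescribed vanishing. -/

set_option autoImplicit false

open Filter Topology Metric Set
open scoped Manifold ContDiff

namespace Pool.Agent.KZ

open Pool.Agent.BR Pool.Agent.MBS Pool.Agent.SL Pool.Agent.IS

/-- linear algebra: two independent solutions -/
theorem la_kernel {ι κ : Type} [Fintype ι] [Fintype κ] (M : κ → ι → ℂ)
    (h : Fintype.card κ + 2 ≤ Fintype.card ι) :
    ∃ c c' : ι → ℂ, LinearIndependent ℂ ![c, c'] ∧ (∀ k, ∑ a, c a * M k a = 0) ∧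
      ∀ k, ∑ a, c' a * M k a = 0 := by
  classical
  set L : (ι → ℂ) →ₗ[ℂ] (κ → ℂ) := Matrix.mulVecLin (Matrix.of M) with hL
  have hL' : ∀ c : ι → ℂ, L c = 0 → ∀ k, ∑ a, c a * M k a = 0 := by
    intro c hc k
    have h1 : L c k = 0 := by rw [hc]; rfl
    rw [hL, Matrix.mulVecLin_apply] at h1
    rw [← h1]
    simp only [Matrix.mulVec, dotProduct, Matrix.of_apply]
    exact Finset.sum_congr rfl fun a _ => mul_comm _ _
  have h1 := L.finrank_range_add_finrank_ker
  have h2 : Module.finrank ℂ (LinearMap.range L) ≤ Fintype.card κ := by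
    refine (Submodule.finrank_le _).trans ?_
    rw [Module.finrank_fintype_fun_eq_card]
  rw [Module.finrank_fintype_fun_eq_card] at h1
  have h3 : 1 < Module.finrank ℂ (LinearMap.ker L) := by omega
  obtain ⟨x, hx⟩ : ∃ x : LinearMap.ker L, x ≠ 0 := by
    have : Nontrivial (LinearMap.ker L) := Module.nontrivial_of_finrank_pos (R := ℂ) (by omega)
    exact exists_ne 0
  obtain ⟨y, hy⟩ := exists_linearIndependent_pair_of_one_lt_finrank h3 hx
  refine ⟨x, y, ?_, hL' x x.2, hL' y y.2⟩
  have h4 := hy.map' (Submodule.subtype _) (Submodule.ker_subtype _)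
  have h5 : (⇑(LinearMap.ker L).subtype ∘ ![x, y]) = ![(x : ι → ℂ), (y : ι → ℂ)] := by
    funext i
    fin_cases i <;> rfl
  rw [h5] at h4
  exact h4

/-- the indices of the monomials of degree `d` in three variables -/
abbrev la_I (d : ℕ) : Type := Σ a : Fin (d + 1), Fin (d + 1 - a)

theorem la_card (d : ℕ) : 2 * Fintype.card (la_I d) = (d + 1) * (d + 2) := by
  rw [Fintype.card_sigma]
  simp only [Fintype.card_fin]
  rw [Fin.sum_univ_eq_sum_range (fun a => d + 1 - a) (d + 1)]
  have h1 : ∀ n : ℕ, 2 * ∑ a ∈ Finset.range n, (n - a) = n * (n + 1) := by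
    intro n
    induction n with
    | zero => simp
    | succ n ih =>
      rw [Finset.sum_range_succ]
      have h2 : ∑ a ∈ Finset.range n, (n + 1 - a) = ∑ a ∈ Finset.range n, ((n - a) + 1) := by
        refine Finset.sum_congr rfl fun a ha => ?_
        have := Finset.mem_range.1 ha
        omega
      rw [h2, Finset.sum_add_distrib, Finset.sum_const, Finset.card_range, smul_eq_mul, mul_one,
        mul_add, mul_add, ih]
      have h3 : n + 1 - n = 1 := by omega
      rw [h3]
      ring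
  exact h1 (d + 1)

/-- the exponent -/
noncomputable def la_mon (d : ℕ) (i : la_I d) : Fin 3 →₀ ℕ :=
  Finsupp.equivFunOnFinite.symm ![d - i.1 - i.2, i.1, i.2]

theorem la_mon_inj {d : ℕ} : Function.Injective (la_mon d) := by
  rintro ⟨a, b⟩ ⟨a', b'⟩ h
  have h1 := DFunLike.congr_fun h 1
  have h2 := DFunLike.congr_fun h 2
  simp only [la_mon, Finsupp.equivFunOnFinite_symm_apply_apply] at h1 h2
  have h3 : (a : ℕ) = a' := h1
  have h4 : (b : ℕ) = b' := h2
  obtain rfl : a = a' := Fin.ext h3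
  obtain rfl : b = b' := Fin.ext h4
  rfl

/-- the polynomial of degree `d` with the coefficients `c` -/
noncomputable def la_poly (d : ℕ) : (la_I d → ℂ) →ₗ[ℂ] MvPolynomial (Fin 3) ℂ where
  toFun c := ∑ i, MvPolynomial.monomial (la_mon d i) (c i)
  map_add' c c' := by
    simp only [Pi.add_apply, map_add, Finset.sum_add_distrib]
  map_smul' r c := by
    simp only [Pi.smul_apply, map_smul, Finset.smul_sum, RingHom.id_apply]

theorem la_hom (d : ℕ) (c : la_I d → ℂ) : (la_poly d c).IsHomogeneous d := by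
  show (∑ i, MvPolynomial.monomial (la_mon d i) (c i)).IsHomogeneous d
  refine MvPolynomial.IsHomogeneous.sum _ _ _ fun i _ => ?_
  apply MvPolynomial.isHomogeneous_monomial
  rw [Finsupp.degree_eq_sum, Fin.sum_univ_three]
  have h1 : (i.1 : ℕ) < d + 1 := i.1.2
  have h2 : (i.2 : ℕ) < d + 1 - i.1 := i.2.2
  show (d - i.1 - i.2) + i.1 + i.2 = d
  omega

theorem la_ker (d : ℕ) : LinearMap.ker (la_poly d) = ⊥ := by
  rw [LinearMap.ker_eq_bot']
  intro c hc
  funext i
  have h1 : (la_poly d c).coeff (la_mon d i) = c i := by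
    show (∑ i, MvPolynomial.monomial (la_mon d i) (c i)).coeff (la_mon d i) = c i
    simp only [MvPolynomial.coeff_sum, MvPolynomial.coeff_monomial]
    rw [Finset.sum_eq_single i]
    · rw [if_pos rfl]
    · intro j _ hj
      rw [if_neg]
      intro h
      exact hj (la_mon_inj h)
    · intro h; exact absurd (Finset.mem_univ i) h
  rw [hc] at h1
  rw [← h1]
  rfl

theorem la_eval (d : ℕ) (c : la_I d → ℂ) (v : Fin 3 → ℂ) :
    MvPolynomial.eval v (la_poly d c) =
      ∑ i, c i * (v 0 ^ (d - i.1 - i.2) * v 1 ^ (i.1 : ℕ) * v 2 ^ (i.2 : ℕ)) := by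
  show MvPolynomial.eval v (∑ i, MvPolynomial.monomial (la_mon d i) (c i)) = _
  rw [map_sum]
  refine Finset.sum_congr rfl fun i _ => ?_
  rw [MvPolynomial.eval_monomial, Finsupp.prod_fintype _ _ (fun i => pow_zero _),
    Fin.prod_univ_three]
  rfl

/-- LA: two independent polynomials with prescribed vanishing -/
theorem exists_pair_pr {J M d : ℕ} (u : Fin J → ℂ → Fin 3 → ℂ) (hu : ∀ j, AnalyticAt ℂ (u j) 0)
    (hd : 2 * (J * M) + 4 ≤ (d + 1) * (d + 2)) :
    ∃ Q₁ Q₂ : MvPolynomial (Fin 3) ℂ, Q₁.IsHomogeneous d ∧ Q₂.IsHomogeneous d ∧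
      LinearIndependent ℂ ![Q₁, Q₂] ∧ ∀ j, ∀ k < M,
        iteratedDeriv k (fun ζ => MvPolynomial.eval (u j ζ) Q₁) 0 = 0 ∧
        iteratedDeriv k (fun ζ => MvPolynomial.eval (u j ζ) Q₂) 0 = 0 := by
  classical
  set mono : la_I d → (Fin 3 → ℂ) → ℂ :=
    fun i v => v 0 ^ (d - i.1 - i.2) * v 1 ^ (i.1 : ℕ) * v 2 ^ (i.2 : ℕ) with hmono
  have han : ∀ j i, AnalyticAt ℂ (fun t => mono i (u j t)) 0 := by
    intro j i
    have hg := fun p => analyticAt_pi_iff.mp (hu j) p
    exact (((hg 0).pow _).mul ((hg 1).pow _)).mul ((hg 2).pow _)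
  have hcard : Fintype.card (Fin J × Fin M) + 2 ≤ Fintype.card (la_I d) := by
    have h1 := la_card d
    have h2 : Fintype.card (Fin J × Fin M) = J * M := by
      rw [Fintype.card_prod, Fintype.card_fin, Fintype.card_fin]
    rw [h2]
    omega
  obtain ⟨c, c', hli, hc, hc'⟩ := la_kernel
    (fun (x : Fin J × Fin M) i => iteratedDeriv (x.2 : ℕ) (fun t => mono i (u x.1 t)) 0) hcard
  have key : ∀ c : la_I d → ℂ, (∀ k : Fin J × Fin M, ∑ a, c a *
      iteratedDeriv (k.2 : ℕ) (fun t => mono a (u k.1 t)) 0 = 0) → ∀ j, ∀ k < M,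
      iteratedDeriv k (fun ζ => MvPolynomial.eval (u j ζ) (la_poly d c)) 0 = 0 := by
    intro c hc j m hm
    have hkey := hc (j, ⟨m, hm⟩)
    have hfun : (fun t => MvPolynomial.eval (u j t) (la_poly d c)) =
        fun t => ∑ a, c a * mono a (u j t) := by
      funext t
      rw [la_eval]
    rw [hfun, iteratedDeriv_fun_sum]
    · refine (Finset.sum_congr rfl fun a _ => ?_).trans hkey
      rw [iteratedDeriv_const_mul_field]
    · intro a _
      exact (analyticAt_const.mul (han j a)).contDiffAt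
  refine ⟨la_poly d c, la_poly d c', la_hom d c, la_hom d c', ?_,
    fun j k hk => ⟨key c hc j k hk, key c' hc' j k hk⟩⟩
  have h4 := hli.map' (la_poly d) (la_ker d)
  have h5 : (⇑(la_poly d) ∘ ![c, c']) = ![la_poly d c, la_poly d c'] := by
    funext i
    fin_cases i <;> rfl
  rw [h5] at h4
  exact h4

end Pool.Agent.KZ

namespace Pool.Agent.KZ

alias exists_pair := exists_pair_pr

end Pool.Agent.KZ
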