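import Pool.Agent.Lib_helper82.KZ.Defs
import Pool.Agent.Lib_helper82.KZ.P.LA
import Pool.Agent.Lib_helper82.KZ.P.SCH

/-! Block CHW of project KZ (helper80): Chow's theorem, three coordinates at a time. -/

set_option autoImplicit false
set_option linter.unusedSectionVars false

open Filter Topology Metric Set
open scoped Manifold ContDiff

namespace Pool.Agent.KZ

open Pool.Agent.BR Pool.Agent.MBS Pool.Agent.SL Pool.Agent.IS

/-- values of a homogeneous polynomial on proportional vectors -/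
theorem chw_smul3 {d : ℕ} {P : MvPolynomial (Fin 3) ℂ} (hP : P.IsHomogeneous d)
    (a : ℂ) (v : Fin 3 → ℂ) :
    MvPolynomial.eval (a • v) P = a ^ d * MvPolynomial.eval v P := by
  rw [MvPolynomial.eval_eq, MvPolynomial.eval_eq, Finset.mul_sum]
  refine Finset.sum_congr rfl fun e he => ?_
  have h1 : (∏ i ∈ e.support, (a • v) i ^ e i) = a ^ d * ∏ i ∈ e.support, v i ^ e i := by
    have h2 : ∀ i ∈ e.support, (a • v) i ^ e i = a ^ e i * v i ^ e i := by
      intro i _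
      simp [mul_pow]
    rw [Finset.prod_congr rfl h2, Finset.prod_mul_distrib, Finset.prod_pow_eq_pow_sum]
    have h3 : ∑ i ∈ e.support, e i = d := (hP.degree_eq_sum_deg_support he).symm
    rw [h3]
  rw [h1]
  ring

theorem chw_smul {d : ℕ} {P : MvPolynomial (Fin 3) ℂ} (hP : P.IsHomogeneous d) {n : ℕ}
    (p q r : Fin (n + 1)) (g : ℂ) (v : Fin (n + 1) → ℂ) :
    MvPolynomial.eval ![(g • v) p, (g • v) q, (g • v) r] P =
      g ^ d * MvPolynomial.eval ![v p, v q, v r] P := by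
  rw [← chw_smul3 hP]
  congr 1
  simp

/-- the polynomial of three coordinates of an analytic vector -/
theorem chw_an {n : ℕ} {u : ℂ → Fin (n + 1) → ℂ} {t : ℂ} (hu : AnalyticAt ℂ u t)
    (P : MvPolynomial (Fin 3) ℂ) (p q r : Fin (n + 1)) :
    AnalyticAt ℂ (fun t => MvPolynomial.eval ![u t p, u t q, u t r] P) t := by
  have h1 : ∀ i, AnalyticAt ℂ (fun t => (![u t p, u t q, u t r] : Fin 3 → ℂ) i) t := by
    intro i
    have h2 := fun p => analyticAt_pi_iff.1 hu p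
    fin_cases i
    · exact h2 p
    · exact h2 q
    · exact h2 r
  simp only [MvPolynomial.eval_eq]
  refine Finset.analyticAt_fun_sum _ fun e _ => ?_
  refine analyticAt_const.fun_mul ?_
  exact Finset.analyticAt_fun_prod _ fun i _ => (h1 i).fun_pow _

theorem chw_max {J : ℕ} (f : Fin J → ℝ) (hf : ∀ j, 0 ≤ f j) :
    ∃ S : ℝ, 0 ≤ S ∧ (∀ j, f j ≤ S) ∧ (S = 0 ∨ ∃ j, f j = S) := by
  rcases Nat.eq_zero_or_pos J with rfl | hJ
  · exact ⟨0, le_rfl, fun j => j.elim0, Or.inl rfl⟩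
  · obtain ⟨j, -, hj⟩ := Finset.exists_max_image (Finset.univ : Finset (Fin J)) f
      ⟨⟨0, hJ⟩, Finset.mem_univ _⟩
    exact ⟨f j, hf j, fun k => hj k (Finset.mem_univ k), Or.inr ⟨j, rfl⟩⟩

/-- the value in the quarter disc (uses SCH) -/
theorem chw_quarter {g : ℂ → ℂ} {B : ℝ} {M : ℕ}
    (hg : ∀ t ∈ closedBall (0 : ℂ) 1, AnalyticAt ℂ g t)
    (hB : ∀ t ∈ closedBall (0 : ℂ) 1, ‖g t‖ ≤ B) (hz : ∀ j < M, iteratedDeriv j g 0 = 0)
    {t : ℂ} (ht : ‖t‖ ≤ 1 / 4) : ‖g t‖ * 4 ^ M ≤ B := by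
  have h1 := schwarz_disc hg hB hz t (by rw [mem_closedBall_zero_iff]; linarith)
  have hB0 : 0 ≤ B := (norm_nonneg _).trans (hB 0 (by simp))
  have h2 : ‖t‖ ^ M ≤ (1 / 4) ^ M := pow_le_pow_left₀ (norm_nonneg t) ht M
  have h3 : ‖g t‖ ≤ B * (1 / 4) ^ M := h1.trans (mul_le_mul_of_nonneg_left h2 hB0)
  rw [one_div, inv_pow] at h3
  rwa [← div_eq_mul_inv, le_div_iff₀ (by positivity)] at h3

section

variable {E X : Type} [NormedAddCommGroup E] [NormedSpace ℂ E] [FiniteDimensional ℂ E]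
  [MetricSpace X] {A : Cha E X} {ρ : X → X → ℝ}

theorem chow_pr {n : ℕ} {a : A.ι → X → Fin (n + 1) → ℂ} (ha : VS A n a) {D : Set X} (hD : DC A D)
    (p q r : Fin (n + 1)) :
    ∃ (d : ℕ) (R : MvPolynomial (Fin 3) ℂ), R ≠ 0 ∧ R.IsHomogeneous d ∧
      ∀ x ∈ D, ∀ i, x ∈ (A.ch i).source →
        MvPolynomial.eval ![a i x p, a i x q, a i x r] R = 0 := by
  classical
  obtain ⟨J, ix, d, hd, hdD, hcov⟩ := hD
  set u : Fin J → ℂ → Fin (n + 1) → ℂ := fun j t => a (ix j) ((A.ch (ix j)).symm (d j t)) with hu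
  have h0m : (0 : ℂ) ∈ closedBall (0 : ℂ) 1 := by simp
  have hsub : closedBall (0 : ℂ) (1 / 4) ⊆ closedBall (0 : ℂ) 1 :=
    closedBall_subset_closedBall (by norm_num)
  have hsrc : ∀ j, ∀ t ∈ closedBall (0 : ℂ) 1,
      (A.ch (ix j)).symm (d j t) ∈ (A.ch (ix j)).source := fun j t ht =>
    (A.ch (ix j)).map_target ((hd j).mem t ht).1
  have huan : ∀ j, ∀ t ∈ closedBall (0 : ℂ) 1, AnalyticAt ℂ (u j) t := by
    intro j t ht
    have h1 := ha.an (ix j) _ (hsrc j t ht)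
    rw [(A.ch (ix j)).right_inv ((hd j).mem t ht).1] at h1
    exact AnalyticAt.comp (g := fun ξ => a (ix j) ((A.ch (ix j)).symm ξ)) (f := d j) h1
      ((hd j).an t ht)
  have hune : ∀ j, ∀ t ∈ closedBall (0 : ℂ) 1, u j t ≠ 0 := fun j t ht =>
    ha.ne (ix j) _ (hsrc j t ht)
  have hbdj : ∀ j, ∃ C : ℝ, 0 ≤ C ∧ ∀ t ∈ closedBall (0 : ℂ) 1, 1 ≤ C * ‖u j t‖ ∧ ‖u j t‖ ≤ C :=
    fun j => s3_bd (isCompact_closedBall (0 : ℂ) 1)
      (fun t ht => (huan j t ht).continuousAt.continuousWithinAt) (hune j)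
  choose C hC0 hC using hbdj
  set B : ℝ := ∑ j, C j with hB
  have hB0 : 0 ≤ B := Finset.sum_nonneg fun j _ => hC0 _
  have hBj : ∀ j, C j ≤ B := fun j =>
    Finset.single_le_sum (f := fun j => C j) (fun j _ => hC0 _) (Finset.mem_univ j)
  have hlo : ∀ j, ∀ t ∈ closedBall (0 : ℂ) 1, 1 ≤ B * ‖u j t‖ := fun j t ht =>
    (hC j t ht).1.trans (mul_le_mul_of_nonneg_right (hBj j) (norm_nonneg _))
  have hup : ∀ j, ∀ t ∈ closedBall (0 : ℂ) 1, ‖u j t‖ ≤ B := fun j t ht =>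
    (hC j t ht).2.trans (hBj j)
  obtain ⟨N, hN⟩ := pow_unbounded_of_one_lt (B ^ 2) (by norm_num : (1 : ℝ) < 4)
  -- the degree
  set m : ℕ := 2 * J * (N + 1) + 1 with hm
  have hmd : 2 * (J * ((N + 1) * m)) + 4 ≤ (m + 1) * (m + 2) := by
    have h1 : 2 * (J * ((N + 1) * m)) = (m - 1) * m := by
      have : m - 1 = 2 * J * (N + 1) := by omega
      rw [this]
      ring
    rw [h1]
    have h2 : 1 ≤ m := by omega
    obtain ⟨k, hk⟩ : ∃ k, m = k + 1 := ⟨m - 1, by omega⟩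
    rw [hk]
    simp only [Nat.add_sub_cancel]
    nlinarith
  obtain ⟨P, P', hPh, -, hli, hPv⟩ := exists_pair (J := J) (M := (N + 1) * m) (d := m)
    (fun j t => ![u j t p, u j t q, u j t r])
    (fun j => by
      rw [analyticAt_pi_iff]
      have h2 := fun p => analyticAt_pi_iff.1 (huan j 0 h0m) p
      intro i
      fin_cases i
      · exact h2 p
      · exact h2 q
      · exact h2 r) hmd
  have hP0 : P ≠ 0 := hli.ne_zero 0
  set Q : Fin J → ℂ → ℂ := fun j t =>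
    MvPolynomial.eval ![u j t p, u j t q, u j t r] P with hQ
  have hQan : ∀ j, ∀ t ∈ closedBall (0 : ℂ) 1, AnalyticAt ℂ (Q j) t := fun j t ht =>
    chw_an (u := u j) (huan j t ht) P p q r
  have hmax : ∀ j, ∃ t ∈ closedBall (0 : ℂ) (1 / 4),
      ∀ t' ∈ closedBall (0 : ℂ) (1 / 4), ‖Q j t'‖ ≤ ‖Q j t‖ := by
    intro j
    have hcont : ContinuousOn (fun t => ‖Q j t‖) (closedBall (0 : ℂ) (1 / 4)) :=
      fun t ht => ((hQan j t (hsub ht)).continuousAt.norm).continuousWithinAt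
    obtain ⟨t, ht, hm⟩ := (isCompact_closedBall (0 : ℂ) (1 / 4)).exists_isMaxOn
      ⟨0, mem_closedBall_self (by norm_num)⟩ hcont
    exact ⟨t, ht, fun t' ht' => hm ht'⟩
  choose tm htm hmm using hmax
  obtain ⟨S, hS0, hSle, hSeq⟩ := chw_max (fun j => ‖Q j (tm j)‖) (fun j => norm_nonneg _)
  -- transition between two charts
  have htr : ∀ x ∈ D, ∀ i, x ∈ (A.ch i).source → ∃ (g : ℂ) (k : Fin J) (t : ℂ),
      t ∈ closedBall (0 : ℂ) (1 / 4) ∧ a i x = g • u k t := by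
    intro x hx i hi
    obtain ⟨k, t, ht, hty⟩ := hcov x hx
    have h1 := hsrc k t (hsub ht)
    rw [hty] at h1
    obtain ⟨g, -, hg⟩ := ha.tr i (ix k) x hi h1
    refine ⟨g, k, t, ht, ?_⟩
    rw [hg, hu]
    simp only
    rw [hty]
  have hbd : ∀ j, ∀ t ∈ closedBall (0 : ℂ) 1, ‖Q j t‖ ≤ (B ^ 2) ^ m * S := by
    intro j t ht
    obtain ⟨g, k, t', ht', hg⟩ := htr _ (hdD j t ht) (ix j) (hsrc j t ht)
    have h1 : u j t = g • u k t' := hg
    have h2 : ‖g‖ ≤ B ^ 2 := by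
      have h3 := hup j t ht
      rw [h1, norm_smul] at h3
      have h4 : ‖g‖ * 1 ≤ ‖g‖ * (B * ‖u k t'‖) :=
        mul_le_mul_of_nonneg_left (hlo k t' (hsub ht')) (norm_nonneg _)
      nlinarith [norm_nonneg g, norm_nonneg (u k t')]
    have h3 : Q j t = g ^ m * Q k t' := by
      show MvPolynomial.eval ![u j t p, u j t q, u j t r] P = _
      rw [h1, chw_smul hPh]
    rw [h3, norm_mul, norm_pow]
    exact mul_le_mul (pow_le_pow_left₀ (norm_nonneg _) h2 _)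
      ((hmm k t' ht').trans (hSle k)) (norm_nonneg _) (by positivity)
  have hsch : ∀ j, ‖Q j (tm j)‖ * 4 ^ ((N + 1) * m) ≤ (B ^ 2) ^ m * S := fun j =>
    chw_quarter (hQan j) (hbd j) (fun i hi => (hPv j i hi).1)
      (by have := htm j; rwa [mem_closedBall_zero_iff] at this)
  have hS1 : S = 0 := by
    rcases hSeq with h | ⟨j, hj⟩
    · exact h
    · have h1 := hsch j
      rw [hj] at h1
      have h2 : (B ^ 2) ^ m ≤ (4 ^ N) ^ m := pow_le_pow_left₀ (by positivity) hN.le m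
      rw [← pow_mul (4 : ℝ)] at h2
      have h3 : S * 4 ^ ((N + 1) * m) ≤ 4 ^ (N * m) * S :=
        h1.trans (mul_le_mul_of_nonneg_right h2 hS0)
      have h4 : (0 : ℝ) < 4 ^ (N * m) := by positivity
      have h5 : (4 : ℝ) ≤ 4 ^ m := by
        calc (4 : ℝ) = 4 ^ 1 := (pow_one _).symm
          _ ≤ 4 ^ m := pow_le_pow_right₀ (by norm_num) (by omega)
      rw [add_mul, one_mul, pow_add] at h3
      by_contra hne
      have h6 : 0 < S := lt_of_le_of_ne hS0 (Ne.symm hne)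
      nlinarith [mul_pos h4 h6]
  refine ⟨m, P, hP0, hPh, fun x hx i hi => ?_⟩
  obtain ⟨g, k, t, ht, hg⟩ := htr x hx i hi
  rw [hg, chw_smul hPh]
  have h1 : ‖Q k t‖ ≤ 0 := by
    rw [← hS1]
    exact (hmm k t ht).trans (hSle k)
  have h2 : MvPolynomial.eval ![u k t p, u k t q, u k t r] P = 0 := norm_le_zero_iff.1 h1
  rw [h2, mul_zero]

end

end Pool.Agent.KZ

namespace Pool.Agent.KZ

alias chow := chow_pr

end Pool.Agent.KZ
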