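import Pool.Agent.Lib_helper82.KZ.Defs

/-! # Project KZ, block RL1 (helper42): relations for the vector `a` give relations for `ι` -/

set_option autoImplicit false
set_option linter.unusedVariables false
set_option linter.unusedSectionVars false

open Filter Topology Metric Set
open scoped Manifold ContDiff

namespace Pool.Agent.KZ

open Pool.Agent.BR Pool.Agent.MBS Pool.Agent.SL Pool.Agent.IS

section charts

variable {E X : Type} [NormedAddCommGroup E] [NormedSpace ℂ E] [FiniteDimensional ℂ E]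
  [MetricSpace X] {A : Cha E X} {h : ℂ → X}

theorem rel3_of_a_pr {n : ℕ} {a : A.ι → X → Fin (n + 1) → ℂ} {ι : X → PP n}
    (hι : ∀ i, ∀ x ∈ (A.ch i).source, ∃ h : a i x ≠ 0, ι x = Projectivization.mk ℂ (a i x) h)
    (hrel : ∀ p q r : Fin (n + 1), ∃ (d : ℕ) (R : MvPolynomial (Fin 3) ℂ), R ≠ 0 ∧
      R.IsHomogeneous d ∧ ∀ z i, h z ∈ (A.ch i).source →
        MvPolynomial.eval ![a i (h z) p, a i (h z) q, a i (h z) r] R = 0) :
    Rel3 (fun z => ι (h z)) := by
  intro p q r
  obtain ⟨d, R, hR0, hRh, hR⟩ := hrel p q r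
  refine ⟨d, R, hR0, hRh, fun z => ?_⟩
  obtain ⟨i, hi⟩ := A.cover (h z)
  have hs : h z ∈ (A.ch i).source := A.W_sub i (subset_closure hi)
  obtain ⟨hne, he⟩ := hι i (h z) hs
  obtain ⟨c, hc, hr⟩ := s5_rep he
  have h1 : (![(ι (h z)).rep p, (ι (h z)).rep q, (ι (h z)).rep r] : Fin 3 → ℂ) =
      c • ![a i (h z) p, a i (h z) q, a i (h z) r] := by
    rw [hr]
    simp
  show MvPolynomial.eval ![(ι (h z)).rep p, (ι (h z)).rep q, (ι (h z)).rep r] R = 0
  rw [h1, s5_eval hRh, hR z i hs, mul_zero]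

end charts

end Pool.Agent.KZ

namespace Pool.Agent.KZ

alias rel3_of_a := rel3_of_a_pr

end Pool.Agent.KZ
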