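import Pool.Agent.Lib_helper82.KZ.Defs
import Pool.Agent.Lib_helper82.BR.GLiou
import Pool.Agent.Lib_helper82.KZ.P.LS2

set_option autoImplicit false

open Filter Topology Metric Set
open scoped Manifold ContDiff

namespace Pool.Agent.KZ

open Pool.Agent.BR Pool.Agent.MBS Pool.Agent.SL Pool.Agent.IS

/-- LS3: Liouville's theorem (uses LS2 and BrodyRigid.usc_liouville of Lib_helper82/BR/GLiou) -/
theorem ls_liou_pr {u : ℂ → ℝ} (h0 : ∀ z, 0 ≤ u z) {B : ℝ} (hB : ∀ z, u z ≤ B)
    (hu : ∀ z, LS u z) (z z' : ℂ) : u z = u z' := by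
  have hc : Continuous u := continuous_iff_continuousAt.2 fun z => (hu z).1
  exact Pool.Agent.BrodyRigid.usc_liouville hc.upperSemicontinuous hB h0
    (fun z r hr => ls_glob hr (lt_add_one r) fun w _ => hu w) z z'

end Pool.Agent.KZ

namespace Pool.Agent.KZ

alias ls_liou := ls_liou_pr

end Pool.Agent.KZ
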