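import Pool.Agent.Lib_helper82.KZ.Defs
import Pool.Agent.Lib_helper82.KZ.P.LS1
import Pool.Agent.Lib_helper82.KZ.P.LS3

set_option autoImplicit false

open Filter Topology Metric Set
open scoped Manifold ContDiff

namespace Pool.Agent.KZ

open Pool.Agent.BR Pool.Agent.MBS Pool.Agent.SL Pool.Agent.IS

/-- removable singularity -/
theorem ls5_ext {m : ℂ → ℂ} {z₀ : ℂ} {B : ℝ} (hm : MeromorphicAt m z₀)
    (hB : ∀ᶠ z in 𝓝[≠] z₀, ‖m z‖ ≤ B) :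
    ∃ g : ℂ → ℂ, AnalyticAt ℂ g z₀ ∧ ∀ᶠ z in 𝓝[≠] z₀, m z = g z := by
  refine hm.meromorphicOrderAt_nonneg_iff.1 ?_
  by_contra hneg
  have h1 := tendsto_cobounded_of_meromorphicOrderAt_neg (lt_of_not_ge hneg)
  have h2 := tendsto_norm_cobounded_atTop.comp h1
  obtain ⟨z, h3, h4⟩ := ((h2.eventually_gt_atTop B).and hB).exists
  exact absurd h4 (not_le.2 h3)

/-- LS5 -/
theorem ls_const_pr {u : ℂ → ℝ} {Z : Set ℂ} {B : ℝ} (hB : ∀ z ∉ Z, u z ≤ B)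
    (hu : ∀ z₀, ∃ m : ℂ → ℂ, MeromorphicAt m z₀ ∧ ∀ᶠ z in 𝓝[≠] z₀, z ∉ Z ∧ u z = ‖m z‖) :
    ∃ c, ∀ z₀, ∀ᶠ z in 𝓝[≠] z₀, u z = c := by
  have h1 : ∀ z₀, ∃ g : ℂ → ℂ, AnalyticAt ℂ g z₀ ∧ ∀ᶠ z in 𝓝[≠] z₀, u z = ‖g z‖ ∧ u z ≤ B := by
    intro z₀
    obtain ⟨m, hm, h⟩ := hu z₀
    obtain ⟨g, hg, h'⟩ := ls5_ext (B := B) hm (h.mono fun z hz => by
      rw [← hz.2]
      exact hB z hz.1)
    refine ⟨g, hg, ?_⟩
    filter_upwards [h, h'] with z hz hz'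
    exact ⟨by rw [hz.2, hz'], hB z hz.1⟩
  choose g hg hug using h1
  have hlim : ∀ z, Tendsto u (𝓝[≠] z) (𝓝 ‖g z z‖) := by
    intro z
    have h2 : Tendsto (fun w => ‖g z w‖) (𝓝[≠] z) (𝓝 ‖g z z‖) :=
      (hg z).continuousAt.norm.tendsto.mono_left nhdsWithin_le_nhds
    exact h2.congr' ((hug z).mono fun w hw => hw.1.symm)
  have hloc : ∀ z, ∀ᶠ w in 𝓝 z, ‖g w w‖ = ‖g z w‖ := by
    intro z
    have h2 := eventually_nhdsWithin_iff.1 (hug z)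
    filter_upwards [h2.eventually_nhds, (hg z).eventually_analyticAt] with w hw hw'
    by_cases hwz : w = z
    · rw [hwz]
    · have h3 : ∀ᶠ x in 𝓝[≠] w, u x = ‖g z x‖ := by
        have h4 : ∀ᶠ x in 𝓝 w, x ≠ z := isOpen_ne.mem_nhds hwz
        filter_upwards [nhdsWithin_le_nhds hw, nhdsWithin_le_nhds h4] with x hx hx'
        exact (hx hx').1
      have h5 : Tendsto (fun x => ‖g z x‖) (𝓝[≠] w) (𝓝 ‖g z w‖) :=
        hw'.continuousAt.norm.tendsto.mono_left nhdsWithin_le_nhds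
      exact tendsto_nhds_unique (hlim w) (h5.congr' (h3.mono fun x hx => hx.symm))
  have hLS : ∀ z, LS (fun w => ‖g w w‖) z := fun z => ls_norm (hg z) (hloc z)
  have hb : ∀ z, ‖g z z‖ ≤ B := fun z =>
    le_of_tendsto (hlim z) ((hug z).mono fun w hw => hw.2)
  refine ⟨‖g 0 0‖, fun z₀ => ?_⟩
  filter_upwards [(hug z₀), nhdsWithin_le_nhds (hloc z₀)] with z hz hz'
  rw [hz.1, ← hz']
  exact ls_liou (fun z => norm_nonneg _) hb hLS z 0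

end Pool.Agent.KZ

namespace Pool.Agent.KZ

alias ls_const := ls_const_pr

end Pool.Agent.KZ
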