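import Pool.Agent.Lib_helper82.KZ.Defs

set_option autoImplicit false

open Filter Topology Metric Set
open scoped Manifold ContDiff

namespace Pool.Agent.KZ

open Pool.Agent.BR Pool.Agent.MBS Pool.Agent.SL Pool.Agent.IS

section charts

variable {E X : Type} [NormedAddCommGroup E] [NormedSpace ℂ E] [FiniteDimensional ℂ E]
  [MetricSpace X] {A : Cha E X} {ρ : X → X → ℝ}

/-- NW1: `nw` is the norm of the derivative of every local model -/
theorem nw_mod_pr {V : Type} [NormedAddCommGroup V] [NormedSpace ℂ V] {O : Set X} {F : X → V}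
    (hF : Mod A ρ O F) {x : X} (hx : x ∈ O) {i : A.ι} (hi : x ∈ (A.ch i).source) (v : E) :
    nw A ρ i x v = ‖fderiv ℂ (fun ξ => F ((A.ch i).symm ξ)) (A.ch i x) v‖ := by
  set f : E → V := fun ξ => F ((A.ch i).symm ξ) with hf
  have h1 : HasFDerivAt f (fderiv ℂ f (A.ch i x)) (A.ch i x) :=
    (hF.an x hx i hi).differentiableAt.hasFDerivAt
  have hl : HasDerivAt (fun t : ℝ => A.ch i x + (t : ℂ) • v) v (0 : ℝ) := by
    have h2 : HasDerivAt (fun t : ℝ => (t : ℂ)) 1 (0 : ℝ) := Complex.ofRealCLM.hasDerivAt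
    have h3 : HasDerivAt (fun t : ℝ => (t : ℂ) • v) ((1 : ℂ) • v) (0 : ℝ) := h2.smul_const v
    rw [one_smul] at h3
    exact h3.const_add _
  have hl0 : A.ch i x + ((0 : ℝ) : ℂ) • v = A.ch i x := by simp
  have h4 : HasDerivAt (fun t : ℝ => f (A.ch i x + (t : ℂ) • v)) (fderiv ℂ f (A.ch i x) v)
      (0 : ℝ) := by
    have h5 : HasFDerivAt f ((fderiv ℂ f (A.ch i x)).restrictScalars ℝ)
        (A.ch i x + ((0 : ℝ) : ℂ) • v) := by
      rw [hl0]; exact h1.restrictScalars ℝ
    exact h5.comp_hasDerivAt (0 : ℝ) hl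
  have h6 := (h4.tendsto_slope_zero_right).norm
  have hcont : Tendsto (fun t : ℝ => (A.ch i).symm (A.ch i x + (t : ℂ) • v)) (𝓝[>] 0) (𝓝 x) := by
    have h7 : ContinuousAt (A.ch i).symm (A.ch i x) :=
      (A.ch i).continuousAt_symm ((A.ch i).map_source hi)
    have h8 : Tendsto (fun t : ℝ => A.ch i x + (t : ℂ) • v) (𝓝 0) (𝓝 (A.ch i x)) := by
      have := hl.continuousAt.tendsto
      rwa [hl0] at this
    have h9 := h7.tendsto.comp h8
    rw [(A.ch i).left_inv hi] at h9
    exact h9.mono_left nhdsWithin_le_nhds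
  refine Tendsto.limsup_eq (h6.congr' ?_)
  filter_upwards [hcont.eventually (hF.op.mem_nhds hx), self_mem_nhdsWithin] with t ht ht0
  rw [hF.eq x hx _ ht, zero_add, hl0]
  have ht1 : (0 : ℝ) < t := ht0
  have h10 : f (A.ch i x) = F x := by rw [hf]; simp only [(A.ch i).left_inv hi]
  rw [norm_smul, norm_inv, Real.norm_of_nonneg ht1.le, h10, norm_sub_rev, div_eq_inv_mul]

end charts

end Pool.Agent.KZ

namespace Pool.Agent.KZ

alias nw_mod := nw_mod_pr

end Pool.Agent.KZ
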