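import Pool.Agent.Lib_helper82.KZ.Defs
import Pool.Agent.Lib_helper82.KZ.P.NW1

set_option autoImplicit false

open Filter Topology Metric Set
open scoped Manifold ContDiff

namespace Pool.Agent.KZ

open Pool.Agent.BR Pool.Agent.MBS Pool.Agent.SL Pool.Agent.IS

section charts

variable {E X : Type} [NormedAddCommGroup E] [NormedSpace ℂ E] [FiniteDimensional ℂ E]
  [MetricSpace X] {A : Cha E X} {ρ : X → X → ℝ}

/-- NW2: change of charts (uses NW1) -/
theorem nw_tr_pr (hρ : FD A ρ) {x : X} {i j : A.ι} (hi : x ∈ (A.ch i).source)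
    (hj : x ∈ (A.ch j).source) (v : E) : nw A ρ i x v = nw A ρ j x (dtr A i j x v) := by
  obtain ⟨V, _, _, _, F, O, hx, hF⟩ := hρ x
  rw [nw_mod hF hx hi, nw_mod hF hx hj]
  have h1 : HasFDerivAt (fun ξ => A.ch j ((A.ch i).symm ξ)) (dtr A i j x) (A.ch i x) :=
    (A.trans i j x hi hj).differentiableAt.hasFDerivAt
  have h2 : HasFDerivAt (fun ξ => F ((A.ch j).symm ξ))
      (fderiv ℂ (fun ξ => F ((A.ch j).symm ξ)) (A.ch j x)) (A.ch j ((A.ch i).symm (A.ch i x))) := by
    rw [(A.ch i).left_inv hi]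
    exact (hF.an x hx j hj).differentiableAt.hasFDerivAt
  have h3 := h2.comp (A.ch i x) h1
  have h4 : (fun ξ => F ((A.ch i).symm ξ)) =ᶠ[𝓝 (A.ch i x)]
      ((fun ξ => F ((A.ch j).symm ξ)) ∘ fun ξ => A.ch j ((A.ch i).symm ξ)) := by
    have h5 : ContinuousAt (A.ch i).symm (A.ch i x) :=
      (A.ch i).continuousAt_symm ((A.ch i).map_source hi)
    have h6 : ∀ᶠ ξ in 𝓝 (A.ch i x), (A.ch i).symm ξ ∈ (A.ch j).source := by
      apply h5.eventually
      rw [(A.ch i).left_inv hi]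
      exact (A.ch j).open_source.mem_nhds hj
    filter_upwards [h6] with ξ hξ
    simp only [Function.comp, (A.ch j).left_inv hξ]
  rw [h4.fderiv_eq, h3.fderiv]
  rfl

end charts

end Pool.Agent.KZ

namespace Pool.Agent.KZ

alias nw_tr := nw_tr_pr

end Pool.Agent.KZ
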