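import Pool.Agent.Lib_helper82.KZ.Defs
import Pool.Agent.Lib_helper82.KZ.P.NW1
import Pool.Agent.Lib_helper82.KZ.P.NW2
set_option autoImplicit false
set_option linter.unusedVariables false
set_option linter.unusedSectionVars false
open Filter Topology Metric Set
open scoped Manifold ContDiff
namespace Pool.Agent.KZ
open Pool.Agent.BR Pool.Agent.MBS Pool.Agent.SL Pool.Agent.IS

section charts

variable {E X : Type} [NormedAddCommGroup E] [NormedSpace ℂ E] [FiniteDimensional ℂ E]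
  [MetricSpace X] {A : Cha E X} {ρ : X → X → ℝ}

/-- membership in the zero set, in one chart -/
theorem as1_mem (hρ : FD A ρ) {V : Type} [NormedAddCommGroup V] [NormedSpace ℂ V] {O : Set X}
    {F : X → V} (hF : Mod A ρ O F) {x : X} (hx : x ∈ O) {i : A.ι} (hi : x ∈ (A.ch i).source) :
    x ∈ ZS A ρ ↔ fderiv ℂ (fun ξ => F ((A.ch i).symm ξ)) (A.ch i x) = 0 := by
  constructor
  · intro h
    ext v
    have h1 := h i hi v
    rw [nw_mod hF hx hi v, norm_eq_zero] at h1
    rw [h1]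
    simp
  · intro h j hj v
    rw [nw_tr hρ hj hi v, nw_mod hF hx hi, h]
    simp

/-- the inverse chart tends to the point -/
theorem as1_symm {x : X} {i : A.ι} (hi : x ∈ (A.ch i).source) :
    Tendsto (A.ch i).symm (𝓝 (A.ch i x)) (𝓝 x) := by
  have h1 := (A.ch i).symm.continuousAt ((A.ch i).map_source hi)
  have h2 := h1.tendsto
  rwa [(A.ch i).left_inv hi] at h2

/-- a ball in the chart on which the derivative of the model is analytic -/
theorem as1_ball {V : Type} [NormedAddCommGroup V] [NormedSpace ℂ V] [CompleteSpace V]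
    {O : Set X} {F : X → V} (hF : Mod A ρ O F) {x : X} (hx : x ∈ O) {i : A.ι}
    (hi : x ∈ (A.ch i).source) :
    ∃ ε > 0, (∀ ξ ∈ ball (A.ch i x) ε, ξ ∈ (A.ch i).target ∧ (A.ch i).symm ξ ∈ O) ∧
      AnalyticOnNhd ℂ (fderiv ℂ (fun ξ => F ((A.ch i).symm ξ))) (ball (A.ch i x) ε) := by
  have h1 : ∀ᶠ ξ in 𝓝 (A.ch i x), ξ ∈ (A.ch i).target ∧ (A.ch i).symm ξ ∈ O :=
    ((A.ch i).open_target.eventually_mem ((A.ch i).map_source hi)).and
      ((as1_symm hi).eventually (hF.op.eventually_mem hx))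
  obtain ⟨ε, hε, hb⟩ := Metric.eventually_nhds_iff_ball.1 h1
  refine ⟨ε, hε, hb, ?_⟩
  intro ξ hξ
  obtain ⟨h2, h3⟩ := hb ξ hξ
  have h4 := hF.an _ h3 i ((A.ch i).map_target h2)
  rw [(A.ch i).right_inv h2] at h4
  exact h4.fderiv

/-- the identity theorem for the zero set -/
theorem as1_ident [ConnectedSpace X] (hρ : FD A ρ) (hne : ∃ x, x ∉ ZS A ρ) (x : X) :
    ¬ ∀ᶠ y in 𝓝 x, y ∈ ZS A ρ := by
  intro hx
  obtain ⟨x₁, hx₁⟩ := hne
  have hclosed : IsClosed (interior (ZS A ρ)) := by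
    refine isClosed_of_closure_subset ?_
    intro y hy
    obtain ⟨V, _, _, _, F, O, hyO, hF⟩ := hρ y
    obtain ⟨i, hi'⟩ := A.cover y
    have hi : y ∈ (A.ch i).source := A.W_sub i (subset_closure hi')
    obtain ⟨ε, hε, hb, han⟩ := as1_ball hF hyO hi
    have hU : ∀ᶠ z in 𝓝 y, z ∈ (A.ch i).source ∧ z ∈ O ∧ A.ch i z ∈ ball (A.ch i y) ε :=
      ((A.ch i).open_source.eventually_mem hi).and ((hF.op.eventually_mem hyO).and
        (((A.ch i).continuousAt hi).eventually (isOpen_ball.eventually_mem (mem_ball_self hε))))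
    obtain ⟨z, hzU, hzI⟩ := mem_closure_iff_nhds.1 hy _ hU
    obtain ⟨hz1, hz2, hz3⟩ := hzU
    have h0 : fderiv ℂ (fun ξ => F ((A.ch i).symm ξ)) =ᶠ[𝓝 (A.ch i z)] 0 := by
      have h1 : ∀ᶠ ξ in 𝓝 (A.ch i z), (A.ch i).symm ξ ∈ ZS A ρ :=
        (as1_symm hz1).eventually (mem_interior_iff_mem_nhds.1 hzI)
      filter_upwards [h1, isOpen_ball.mem_nhds hz3] with ξ h2 h3
      obtain ⟨h4, h5⟩ := hb ξ h3
      have h6 := (as1_mem hρ hF h5 ((A.ch i).map_target h4)).1 h2
      rw [(A.ch i).right_inv h4] at h6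
      exact h6
    have h7 := han.eqOn_zero_of_preconnected_of_eventuallyEq_zero
      (convex_ball (A.ch i y) ε).isPreconnected hz3 h0
    refine mem_interior_iff_mem_nhds.2 ?_
    filter_upwards [hU] with w hw
    exact (as1_mem hρ hF hw.2.1 hw.1).2 (h7 hw.2.2)
  have huniv : interior (ZS A ρ) = univ :=
    IsClopen.eq_univ ⟨hclosed, isOpen_interior⟩ ⟨x, mem_interior_iff_mem_nhds.2 hx⟩
  have h8 : x₁ ∈ interior (ZS A ρ) := by rw [huniv]; exact mem_univ _
  exact hx₁ (interior_subset h8)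

/-- BLOCK AS1. -/
theorem zs_as_pr [ConnectedSpace X] (e : Module.Basis (Fin 2) ℂ E) (hρ : FD A ρ)
    (hne : ∃ x, x ∉ ZS A ρ) : AS A (ZS A ρ) := by
  intro x
  obtain ⟨V, _, _, _, F, O, hxO, hF⟩ := hρ x
  obtain ⟨i, hi'⟩ := A.cover x
  have hi : x ∈ (A.ch i).source := A.W_sub i (subset_closure hi')
  refine ⟨(V →L[ℂ] ℂ) × E,
    fun s y => s.1 (fderiv ℂ (fun ξ => F ((A.ch i).symm ξ)) (A.ch i y) s.2),
    O ∩ (A.ch i).source, hF.op.inter (A.ch i).open_source, ⟨hxO, hi⟩, ?_, ?_, ?_⟩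
  · rintro y ⟨hyO, hyi⟩
    rw [as1_mem hρ hF hyO hyi]
    constructor
    · intro h s
      show s.1 (fderiv ℂ (fun ξ => F ((A.ch i).symm ξ)) (A.ch i y) s.2) = 0
      rw [h]
      simp
    · intro h
      ext v
      refine (SeparatingDual.eq_zero_iff_forall_dual_eq_zero (R := ℂ) _).2 ?_
      intro l
      exact h (l, v)
  · rintro s y ⟨hyO, hyi⟩ j hj
    have h1 : AnalyticAt ℂ (fderiv ℂ (fun ξ => F ((A.ch i).symm ξ))) (A.ch i y) :=
      (hF.an y hyO i hyi).fderiv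
    have h2 : AnalyticAt ℂ (fun ξ => A.ch i ((A.ch j).symm ξ)) (A.ch j y) := A.trans j i y hj hyi
    have h3 : AnalyticAt ℂ (fun ξ => fderiv ℂ (fun ξ => F ((A.ch i).symm ξ))
        (A.ch i ((A.ch j).symm ξ))) (A.ch j y) := by
      refine AnalyticAt.fun_comp ?_ h2
      rw [(A.ch j).left_inv hj]
      exact h1
    exact (s.1.analyticAt _).comp (((ContinuousLinearMap.apply ℂ V s.2).analyticAt _).comp h3)
  · by_contra hcon
    push Not at hcon
    obtain ⟨ε, hε, hb, han⟩ := as1_ball hF hxO hi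
    have h0 : ∀ (l : V →L[ℂ] ℂ) (v : E), ∀ ξ ∈ ball (A.ch i x) ε,
        l (fderiv ℂ (fun ξ => F ((A.ch i).symm ξ)) ξ v) = 0 := by
      intro l v
      have h1 : AnalyticOnNhd ℂ (fun ξ => l (fderiv ℂ (fun ξ => F ((A.ch i).symm ξ)) ξ v))
          (ball (A.ch i x) ε) := by
        intro ξ hξ
        exact (l.analyticAt _).comp
          (((ContinuousLinearMap.apply ℂ V v).analyticAt _).comp (han ξ hξ))
      have h2 : (fun ξ => l (fderiv ℂ (fun ξ => F ((A.ch i).symm ξ)) ξ v))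
          =ᶠ[𝓝 (A.ch i x)] 0 := by
        filter_upwards [(as1_symm hi).eventually (hcon (l, v)), ball_mem_nhds _ hε] with ξ h3 h4
        have h5 := (hb ξ h4).1
        rw [(A.ch i).right_inv h5] at h3
        exact h3
      exact h1.eqOn_zero_of_preconnected_of_eventuallyEq_zero
        (convex_ball (A.ch i x) ε).isPreconnected (mem_ball_self hε) h2
    refine as1_ident hρ hne x ?_
    have hU : ∀ᶠ z in 𝓝 x, z ∈ (A.ch i).source ∧ z ∈ O ∧ A.ch i z ∈ ball (A.ch i x) ε :=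
      ((A.ch i).open_source.eventually_mem hi).and ((hF.op.eventually_mem hxO).and
        (((A.ch i).continuousAt hi).eventually (isOpen_ball.eventually_mem (mem_ball_self hε))))
    filter_upwards [hU] with w hw
    refine (as1_mem hρ hF hw.2.1 hw.1).2 ?_
    ext v
    refine (SeparatingDual.eq_zero_iff_forall_dual_eq_zero (R := ℂ) _).2 ?_
    intro l
    exact h0 l v _ hw.2.2

end charts

end Pool.Agent.KZ

namespace Pool.Agent.KZ

alias zs_as := zs_as_pr

end Pool.Agent.KZ
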