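import Pool.Agent.Lib_helper82.KZ.Defs
import Pool.Agent.Lib_helper82.KZ.P.NW1
import Pool.Agent.Lib_helper82.KZ.P.NW2

/-! # Flat distances on surfaces, block AS2 (helper51) -/

set_option autoImplicit false
set_option linter.unusedVariables false
set_option linter.unusedSectionVars false

open Filter Topology Metric Set
open scoped Manifold ContDiff

namespace Pool.Agent.KZ

open Pool.Agent.BR Pool.Agent.MBS Pool.Agent.SL Pool.Agent.IS

section charts

variable {E X : Type} [NormedAddCommGroup E] [NormedSpace ℂ E] [FiniteDimensional ℂ E]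
  [MetricSpace X] {A : Cha E X} {ρ : X → X → ℝ}

/-- a linear map of the plane is not injective if and only if the minors vanish -/
theorem as2_lin {V : Type} [NormedAddCommGroup V] [NormedSpace ℂ V]
    (e : Module.Basis (Fin 2) ℂ E) (D : E →L[ℂ] V) :
    (∃ v, v ≠ 0 ∧ D v = 0) ↔
      ∀ l l' : V →L[ℂ] ℂ, l (D (e 0)) * l' (D (e 1)) - l (D (e 1)) * l' (D (e 0)) = 0 := by
  constructor
  · rintro ⟨v, hv, hD⟩ l l'
    have hsum : e.repr v 0 • e 0 + e.repr v 1 • e 1 = v := by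
      have h1 := e.sum_repr v
      rwa [Fin.sum_univ_two] at h1
    have h2 : e.repr v 0 • D (e 0) + e.repr v 1 • D (e 1) = 0 := by
      have h0 : D (e.repr v 0 • e 0 + e.repr v 1 • e 1) = 0 := by rw [hsum, hD]
      rwa [map_add, map_smul, map_smul] at h0
    have h3 : e.repr v 0 * l (D (e 0)) + e.repr v 1 * l (D (e 1)) = 0 := by
      have h4 := congrArg l h2
      simpa using h4
    have h3' : e.repr v 0 * l' (D (e 0)) + e.repr v 1 * l' (D (e 1)) = 0 := by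
      have h4 := congrArg l' h2
      simpa using h4
    by_cases ha : e.repr v 0 = 0
    · have hb : e.repr v 1 ≠ 0 := by
        intro hb
        apply hv
        rw [← hsum, ha, hb, zero_smul, zero_smul, add_zero]
      rw [ha, zero_mul, zero_add] at h3 h3'
      have h5 : l (D (e 1)) = 0 := (mul_eq_zero.1 h3).resolve_left hb
      have h6 : l' (D (e 1)) = 0 := (mul_eq_zero.1 h3').resolve_left hb
      rw [h5, h6]
      ring
    · refine (mul_eq_zero.1 (?_ : e.repr v 0 *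
        (l (D (e 0)) * l' (D (e 1)) - l (D (e 1)) * l' (D (e 0))) = 0)).resolve_left ha
      linear_combination l' (D (e 1)) * h3 - l (D (e 1)) * h3'
  · intro h
    by_cases h0 : D (e 0) = 0
    · exact ⟨e 0, e.ne_zero 0, h0⟩
    · obtain ⟨l, hl⟩ := SeparatingDual.exists_ne_zero (R := ℂ) h0
      refine ⟨l (D (e 0)) • e 1 - l (D (e 1)) • e 0, ?_, ?_⟩
      · intro hv
        have h1 := congrArg (fun v => e.repr v 1) hv
        simp at h1
        exact hl h1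
      · rw [map_sub, map_smul, map_smul]
        refine (SeparatingDual.eq_zero_iff_forall_dual_eq_zero (R := ℂ) _).2 ?_
        intro l'
        rw [map_sub, map_smul, map_smul, smul_eq_mul, smul_eq_mul]
        exact h l l'

/-- the changes of charts are inverse to each other -/
theorem as2_comp {i j : A.ι} {x : X} (hi : x ∈ (A.ch i).source)
    (hj : x ∈ (A.ch j).source) :
    (dtr A j i x).comp (dtr A i j x) = ContinuousLinearMap.id ℂ E := by
  have h1 : DifferentiableAt ℂ (fun ξ => A.ch j ((A.ch i).symm ξ)) (A.ch i x) :=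
    (A.trans i j x hi hj).differentiableAt
  have h2 : DifferentiableAt ℂ (fun ξ => A.ch i ((A.ch j).symm ξ)) (A.ch j x) :=
    (A.trans j i x hj hi).differentiableAt
  have h3 : A.ch j ((A.ch i).symm (A.ch i x)) = A.ch j x := by rw [(A.ch i).left_inv hi]
  have h4 : HasFDerivAt ((fun ξ => A.ch i ((A.ch j).symm ξ)) ∘ fun ξ => A.ch j ((A.ch i).symm ξ))
      ((dtr A j i x).comp (dtr A i j x)) (A.ch i x) := by
    refine HasFDerivAt.comp (A.ch i x) ?_ h1.hasFDerivAt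
    rw [h3]
    exact h2.hasFDerivAt
  have h5 : ((fun ξ => A.ch i ((A.ch j).symm ξ)) ∘ fun ξ => A.ch j ((A.ch i).symm ξ))
      =ᶠ[𝓝 (A.ch i x)] id := by
    have ha : ∀ᶠ ξ in 𝓝 (A.ch i x), ξ ∈ (A.ch i).target :=
      (A.ch i).open_target.mem_nhds ((A.ch i).map_source hi)
    have hb : ∀ᶠ ξ in 𝓝 (A.ch i x), (A.ch i).symm ξ ∈ (A.ch j).source := by
      have hc : ContinuousAt (A.ch i).symm (A.ch i x) :=
        (A.ch i).continuousAt_symm ((A.ch i).map_source hi)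
      refine hc.eventually ?_
      rw [(A.ch i).left_inv hi]
      exact (A.ch j).open_source.mem_nhds hj
    filter_upwards [ha, hb] with ξ h6 h7
    show A.ch i ((A.ch j).symm (A.ch j ((A.ch i).symm ξ))) = ξ
    rw [(A.ch j).left_inv h7, (A.ch i).right_inv h6]
  exact (h4.congr_of_eventuallyEq h5.symm).unique (hasFDerivAt_id _)

/-- membership in the set of rank at most one, in one chart -/
theorem as2_mem (hρ : FD A ρ) {V : Type} [NormedAddCommGroup V] [NormedSpace ℂ V] {O : Set X}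
    {F : X → V} (hF : Mod A ρ O F) {x : X} (hx : x ∈ O) {i : A.ι} (hi : x ∈ (A.ch i).source) :
    x ∈ RS A ρ ↔ ∃ v, v ≠ 0 ∧ fderiv ℂ (fun ξ => F ((A.ch i).symm ξ)) (A.ch i x) v = 0 := by
  constructor
  · intro h
    obtain ⟨v, hv, h1⟩ := h i hi
    rw [nw_mod hF hx hi v, norm_eq_zero] at h1
    exact ⟨v, hv, h1⟩
  · rintro ⟨v, hv, h1⟩ j hj
    refine ⟨dtr A i j x v, ?_, ?_⟩
    · intro h2
      apply hv
      have h3 := congrArg (fun L : E →L[ℂ] E => L v) (as2_comp hi hj)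
      simp only [ContinuousLinearMap.comp_apply, ContinuousLinearMap.id_apply] at h3
      rw [← h3, h2, map_zero]
    · rw [← nw_tr hρ hi hj v, nw_mod hF hx hi, h1, norm_zero]

/-- the minors -/
theorem as2_min (e : Module.Basis (Fin 2) ℂ E) (hρ : FD A ρ) {V : Type} [NormedAddCommGroup V]
    [NormedSpace ℂ V] {O : Set X}
    {F : X → V} (hF : Mod A ρ O F) {x : X} (hx : x ∈ O) {i : A.ι} (hi : x ∈ (A.ch i).source) :
    x ∈ RS A ρ ↔ ∀ l l' : V →L[ℂ] ℂ,
      l (fderiv ℂ (fun ξ => F ((A.ch i).symm ξ)) (A.ch i x) (e 0)) *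
        l' (fderiv ℂ (fun ξ => F ((A.ch i).symm ξ)) (A.ch i x) (e 1)) -
      l (fderiv ℂ (fun ξ => F ((A.ch i).symm ξ)) (A.ch i x) (e 1)) *
        l' (fderiv ℂ (fun ξ => F ((A.ch i).symm ξ)) (A.ch i x) (e 0)) = 0 := by
  rw [as2_mem hρ hF hx hi, as2_lin e]

/-- the inverse chart tends to the point -/
theorem as2_symm {x : X} {i : A.ι} (hi : x ∈ (A.ch i).source) :
    Tendsto (A.ch i).symm (𝓝 (A.ch i x)) (𝓝 x) := by
  have h1 := (A.ch i).symm.continuousAt ((A.ch i).map_source hi)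
  have h2 := h1.tendsto
  rwa [(A.ch i).left_inv hi] at h2

/-- a ball in the chart on which the derivative of the model is analytic -/
theorem as2_ball {V : Type} [NormedAddCommGroup V] [NormedSpace ℂ V] [CompleteSpace V]
    {O : Set X} {F : X → V} (hF : Mod A ρ O F) {x : X} (hx : x ∈ O) {i : A.ι}
    (hi : x ∈ (A.ch i).source) :
    ∃ ε > 0, (∀ ξ ∈ ball (A.ch i x) ε, ξ ∈ (A.ch i).target ∧ (A.ch i).symm ξ ∈ O) ∧
      AnalyticOnNhd ℂ (fderiv ℂ (fun ξ => F ((A.ch i).symm ξ))) (ball (A.ch i x) ε) := by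
  have h1 : ∀ᶠ ξ in 𝓝 (A.ch i x), ξ ∈ (A.ch i).target ∧ (A.ch i).symm ξ ∈ O :=
    ((A.ch i).open_target.eventually_mem ((A.ch i).map_source hi)).and
      ((as2_symm hi).eventually (hF.op.eventually_mem hx))
  obtain ⟨ε, hε, hb⟩ := Metric.eventually_nhds_iff_ball.1 h1
  refine ⟨ε, hε, hb, ?_⟩
  intro ξ hξ
  obtain ⟨h2, h3⟩ := hb ξ hξ
  have h4 := hF.an _ h3 i ((A.ch i).map_target h2)
  rw [(A.ch i).right_inv h2] at h4
  exact h4.fderiv

/-- the minors are analytic -/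
theorem as2_an {V : Type} [NormedAddCommGroup V] [NormedSpace ℂ V] {D : E → E →L[ℂ] V} {ξ : E}
    (hD : AnalyticAt ℂ D ξ) (l l' : V →L[ℂ] ℂ) (u v : E) :
    AnalyticAt ℂ (fun ξ => l (D ξ u) * l' (D ξ v) - l (D ξ v) * l' (D ξ u)) ξ := by
  have h1 : ∀ (l : V →L[ℂ] ℂ) (v : E), AnalyticAt ℂ (fun ξ => l (D ξ v)) ξ := fun l v =>
    (l.analyticAt _).comp (((ContinuousLinearMap.apply ℂ V v).analyticAt _).comp hD)
  exact ((h1 l u).mul (h1 l' v)).sub ((h1 l v).mul (h1 l' u))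

/-- the minors are zero on a ball if they are zero near one point of it -/
theorem as2_zero {V : Type} [NormedAddCommGroup V] [NormedSpace ℂ V] {D : E → E →L[ℂ] V} {c : E}
    {ε : ℝ} (hD : AnalyticOnNhd ℂ D (ball c ε)) (u v : E) {ξ₀ : E} (h0 : ξ₀ ∈ ball c ε)
    (h : ∀ᶠ ξ in 𝓝 ξ₀, ∀ l l' : V →L[ℂ] ℂ,
      l (D ξ u) * l' (D ξ v) - l (D ξ v) * l' (D ξ u) = 0) (l l' : V →L[ℂ] ℂ) {ξ : E}
    (hξ : ξ ∈ ball c ε) : l (D ξ u) * l' (D ξ v) - l (D ξ v) * l' (D ξ u) = 0 := by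
  have h1 : AnalyticOnNhd ℂ (fun ξ => l (D ξ u) * l' (D ξ v) - l (D ξ v) * l' (D ξ u))
      (ball c ε) := fun ξ hξ => as2_an (hD ξ hξ) l l' u v
  have h2 : (fun ξ => l (D ξ u) * l' (D ξ v) - l (D ξ v) * l' (D ξ u)) =ᶠ[𝓝 ξ₀] 0 := by
    filter_upwards [h] with ξ h3
    exact h3 l l'
  exact h1.eqOn_zero_of_preconnected_of_eventuallyEq_zero (convex_ball c ε).isPreconnected h0 h2 hξ

/-- the identity theorem for the set of rank at most one -/
theorem as2_ident [ConnectedSpace X] (e : Module.Basis (Fin 2) ℂ E) (hρ : FD A ρ)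
    (hne : ∃ x, x ∉ RS A ρ) (x : X) : ¬ ∀ᶠ y in 𝓝 x, y ∈ RS A ρ := by
  intro hx
  obtain ⟨x₁, hx₁⟩ := hne
  have hclosed : IsClosed (interior (RS A ρ)) := by
    refine isClosed_of_closure_subset ?_
    intro y hy
    obtain ⟨V, _, _, _, F, O, hyO, hF⟩ := hρ y
    obtain ⟨i, hi'⟩ := A.cover y
    have hi : y ∈ (A.ch i).source := A.W_sub i (subset_closure hi')
    obtain ⟨ε, hε, hb, han⟩ := as2_ball hF hyO hi
    have hU : ∀ᶠ z in 𝓝 y, z ∈ (A.ch i).source ∧ z ∈ O ∧ A.ch i z ∈ ball (A.ch i y) ε :=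
      ((A.ch i).open_source.eventually_mem hi).and ((hF.op.eventually_mem hyO).and
        (((A.ch i).continuousAt hi).eventually (isOpen_ball.eventually_mem (mem_ball_self hε))))
    obtain ⟨z, hzU, hzI⟩ := mem_closure_iff_nhds.1 hy _ hU
    obtain ⟨hz1, hz2, hz3⟩ := hzU
    have h0 : ∀ᶠ ξ in 𝓝 (A.ch i z), ∀ l l' : V →L[ℂ] ℂ,
        l (fderiv ℂ (fun ξ => F ((A.ch i).symm ξ)) ξ (e 0)) *
          l' (fderiv ℂ (fun ξ => F ((A.ch i).symm ξ)) ξ (e 1)) -
        l (fderiv ℂ (fun ξ => F ((A.ch i).symm ξ)) ξ (e 1)) *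
          l' (fderiv ℂ (fun ξ => F ((A.ch i).symm ξ)) ξ (e 0)) = 0 := by
      have h1 : ∀ᶠ ξ in 𝓝 (A.ch i z), (A.ch i).symm ξ ∈ RS A ρ :=
        (as2_symm hz1).eventually (mem_interior_iff_mem_nhds.1 hzI)
      filter_upwards [h1, isOpen_ball.mem_nhds hz3] with ξ h2 h3
      obtain ⟨h4, h5⟩ := hb ξ h3
      have h6 := (as2_min e hρ hF h5 ((A.ch i).map_target h4)).1 h2
      rw [(A.ch i).right_inv h4] at h6
      exact h6
    refine mem_interior_iff_mem_nhds.2 ?_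
    filter_upwards [hU] with w hw
    exact (as2_min e hρ hF hw.2.1 hw.1).2 fun l l' => as2_zero han (e 0) (e 1) hz3 h0 l l' hw.2.2
  have huniv : interior (RS A ρ) = univ :=
    IsClopen.eq_univ ⟨hclosed, isOpen_interior⟩ ⟨x, mem_interior_iff_mem_nhds.2 hx⟩
  have h8 : x₁ ∈ interior (RS A ρ) := by rw [huniv]; exact mem_univ _
  exact hx₁ (interior_subset h8)

/-- BLOCK AS2. -/
theorem rs_as_pr [ConnectedSpace X] (e : Module.Basis (Fin 2) ℂ E) (hρ : FD A ρ)
    (hne : ∃ x, x ∉ RS A ρ) : AS A (RS A ρ) := by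
  intro x
  obtain ⟨V, _, _, _, F, O, hxO, hF⟩ := hρ x
  obtain ⟨i, hi'⟩ := A.cover x
  have hi : x ∈ (A.ch i).source := A.W_sub i (subset_closure hi')
  refine ⟨(V →L[ℂ] ℂ) × (V →L[ℂ] ℂ),
    fun s y => s.1 (fderiv ℂ (fun ξ => F ((A.ch i).symm ξ)) (A.ch i y) (e 0)) *
        s.2 (fderiv ℂ (fun ξ => F ((A.ch i).symm ξ)) (A.ch i y) (e 1)) -
      s.1 (fderiv ℂ (fun ξ => F ((A.ch i).symm ξ)) (A.ch i y) (e 1)) *
        s.2 (fderiv ℂ (fun ξ => F ((A.ch i).symm ξ)) (A.ch i y) (e 0)),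
    O ∩ (A.ch i).source, hF.op.inter (A.ch i).open_source, ⟨hxO, hi⟩, ?_, ?_, ?_⟩
  · rintro y ⟨hyO, hyi⟩
    rw [as2_min e hρ hF hyO hyi]
    exact ⟨fun h s => h s.1 s.2, fun h l l' => h (l, l')⟩
  · rintro s y ⟨hyO, hyi⟩ j hj
    have h1 : AnalyticAt ℂ (fderiv ℂ (fun ξ => F ((A.ch i).symm ξ))) (A.ch i y) :=
      (hF.an y hyO i hyi).fderiv
    have h2 : AnalyticAt ℂ (fun ξ => A.ch i ((A.ch j).symm ξ)) (A.ch j y) := A.trans j i y hj hyi
    have h3 : AnalyticAt ℂ (fun ξ => fderiv ℂ (fun ξ => F ((A.ch i).symm ξ))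
        (A.ch i ((A.ch j).symm ξ))) (A.ch j y) := by
      refine AnalyticAt.fun_comp ?_ h2
      rw [(A.ch j).left_inv hj]
      exact h1
    exact as2_an (D := fun ξ => fderiv ℂ (fun ξ => F ((A.ch i).symm ξ))
        (A.ch i ((A.ch j).symm ξ))) h3 s.1 s.2 (e 0) (e 1)
  · by_contra hcon
    push Not at hcon
    obtain ⟨ε, hε, hb, han⟩ := as2_ball hF hxO hi
    have h0 : ∀ (l l' : V →L[ℂ] ℂ), ∀ ξ ∈ ball (A.ch i x) ε,
        l (fderiv ℂ (fun ξ => F ((A.ch i).symm ξ)) ξ (e 0)) *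
          l' (fderiv ℂ (fun ξ => F ((A.ch i).symm ξ)) ξ (e 1)) -
        l (fderiv ℂ (fun ξ => F ((A.ch i).symm ξ)) ξ (e 1)) *
          l' (fderiv ℂ (fun ξ => F ((A.ch i).symm ξ)) ξ (e 0)) = 0 := by
      intro l l'
      have h1 : AnalyticOnNhd ℂ (fun ξ =>
          l (fderiv ℂ (fun ξ => F ((A.ch i).symm ξ)) ξ (e 0)) *
            l' (fderiv ℂ (fun ξ => F ((A.ch i).symm ξ)) ξ (e 1)) -
          l (fderiv ℂ (fun ξ => F ((A.ch i).symm ξ)) ξ (e 1)) *
            l' (fderiv ℂ (fun ξ => F ((A.ch i).symm ξ)) ξ (e 0))) (ball (A.ch i x) ε) :=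
        fun ξ hξ => as2_an (han ξ hξ) l l' (e 0) (e 1)
      have h2 : (fun ξ =>
          l (fderiv ℂ (fun ξ => F ((A.ch i).symm ξ)) ξ (e 0)) *
            l' (fderiv ℂ (fun ξ => F ((A.ch i).symm ξ)) ξ (e 1)) -
          l (fderiv ℂ (fun ξ => F ((A.ch i).symm ξ)) ξ (e 1)) *
            l' (fderiv ℂ (fun ξ => F ((A.ch i).symm ξ)) ξ (e 0))) =ᶠ[𝓝 (A.ch i x)] 0 := by
        filter_upwards [(as2_symm hi).eventually (hcon (l, l')), ball_mem_nhds _ hε] with ξ h3 h4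
        have h5 := (hb ξ h4).1
        rw [(A.ch i).right_inv h5] at h3
        exact h3
      exact h1.eqOn_zero_of_preconnected_of_eventuallyEq_zero
        (convex_ball (A.ch i x) ε).isPreconnected (mem_ball_self hε) h2
    refine as2_ident e hρ hne x ?_
    have hU : ∀ᶠ z in 𝓝 x, z ∈ (A.ch i).source ∧ z ∈ O ∧ A.ch i z ∈ ball (A.ch i x) ε :=
      ((A.ch i).open_source.eventually_mem hi).and ((hF.op.eventually_mem hxO).and
        (((A.ch i).continuousAt hi).eventually (isOpen_ball.eventually_mem (mem_ball_self hε))))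
    filter_upwards [hU] with w hw
    exact (as2_min e hρ hF hw.2.1 hw.1).2 fun l l' => h0 l l' _ hw.2.2

end charts

end Pool.Agent.KZ

namespace Pool.Agent.KZ

alias rs_as := rs_as_pr

end Pool.Agent.KZ
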