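import Pool.Agent.Lib_helper82.KZ.Defs
import Pool.Agent.Lib_helper82.KZ.P.PUI
import Pool.Agent.Lib_helper82.KZ.P.NW1
import Pool.Agent.Lib_helper82.KZ.P.NW2

/-! # Flat distances on surfaces (MP_45e720_ag): block BD1 -/

set_option autoImplicit false
set_option linter.unusedVariables false
set_option linter.unusedSectionVars false

open Filter Topology Metric Set
open scoped Manifold ContDiff

namespace Pool.Agent.KZ

open Pool.Agent.BR Pool.Agent.MBS Pool.Agent.SL Pool.Agent.IS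

/-- an analytic function is zero near `0` or bounded below by a power -/
theorem bd1_low {V : Type} [NormedAddCommGroup V] [NormedSpace ℂ V] {f : ℂ → V}
    (hf : AnalyticAt ℂ f 0) :
    (∀ᶠ ζ in 𝓝 (0 : ℂ), f ζ = 0) ∨
      ∃ (N : ℕ) (c : ℝ), 0 < c ∧ ∀ᶠ ζ in 𝓝 (0 : ℂ), c * ‖ζ‖ ^ N ≤ ‖f ζ‖ := by
  by_cases h : ∀ᶠ ζ in 𝓝 (0 : ℂ), f ζ = 0
  · exact Or.inl h
  · right
    obtain ⟨n, g, hg, hg0, hfg⟩ := (hf.exists_eventuallyEq_pow_smul_nonzero_iff).2 h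
    refine ⟨n, ‖g 0‖ / 2, by positivity, ?_⟩
    have h1 : ∀ᶠ ζ in 𝓝 (0 : ℂ), ‖g 0‖ / 2 < ‖g ζ‖ := by
      have h2 : 0 < ‖g 0‖ := norm_pos_iff.2 hg0
      exact hg.continuousAt.norm.eventually_const_lt (by linarith)
    filter_upwards [hfg, h1] with ζ h2 h3
    rw [h2, sub_zero, norm_smul, norm_pow, mul_comm]
    exact mul_le_mul_of_nonneg_left h3.le (by positivity)

/-- a linear form on `E` with small values on the basis is zero -/
theorem bd1_zero {E V : Type} [NormedAddCommGroup E] [NormedSpace ℂ E] [NormedAddCommGroup V]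
    [NormedSpace ℂ V] (e : Module.Basis (Fin 2) ℂ E) (L : E →L[ℂ] V) (h0 : L (e 0) = 0)
    (h1 : L (e 1) = 0) : L = 0 := by
  have h : (L : E →ₗ[ℂ] V) = 0 := by
    refine e.ext fun i => ?_
    fin_cases i
    · simpa using h0
    · simpa using h1
  ext v
  exact DFunLike.congr_fun h v

section charts

variable {E X : Type} [NormedAddCommGroup E] [NormedSpace ℂ E] [FiniteDimensional ℂ E]
  [MetricSpace X] {A : Cha E X} {ρ : X → X → ℝ}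

/-- if the derivative of a model vanishes at `x`, then `x` is in the zero set -/
theorem bd1_zs (hρ : FD A ρ) {V : Type} [NormedAddCommGroup V] [NormedSpace ℂ V] {O : Set X}
    {F : X → V} (hF : Mod A ρ O F) {x : X} (hx : x ∈ O) {i : A.ι} (hi : x ∈ (A.ch i).source)
    (h0 : fderiv ℂ (fun ξ => F ((A.ch i).symm ξ)) (A.ch i x) = 0) : x ∈ ZS A ρ := by
  intro j hj v
  rw [nw_tr hρ hj hi v, nw_mod hF hx hi, h0]
  simp

/-- a model which is not constant near `p` has a nonconstant component -/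
theorem bd1_comp {V : Type} [NormedAddCommGroup V] [NormedSpace ℂ V] [CompleteSpace V]
    {f : E → V} {ξ₀ : E}
    (hf : AnalyticAt ℂ f ξ₀) (hne : ¬ ∀ᶠ ξ in 𝓝 ξ₀, f ξ = f ξ₀) :
    ∃ l : V →L[ℂ] ℂ, ¬ ∀ᶠ ξ in 𝓝 ξ₀, l (f ξ - f ξ₀) = 0 := by
  obtain ⟨r, hr, hB⟩ := Metric.eventually_nhds_iff_ball.1 hf.eventually_analyticAt
  have hfr : ∃ᶠ ξ in 𝓝 ξ₀, f ξ ≠ f ξ₀ := by
    rw [not_eventually] at hne
    exact hne
  obtain ⟨ξ₁, h1, h2⟩ := (hfr.and_eventually (ball_mem_nhds ξ₀ hr)).exists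
  have h0 : ‖f ξ₁ - f ξ₀‖ ≠ 0 := norm_ne_zero_iff.2 (sub_ne_zero.2 h1)
  obtain ⟨l, -, hl⟩ := exists_dual_vector ℂ (f ξ₁ - f ξ₀) h0
  refine ⟨l, fun hev => ?_⟩
  have h3 : AnalyticOnNhd ℂ (fun ξ => l (f ξ - f ξ₀)) (ball ξ₀ r) := fun ξ hξ =>
    (l.analyticAt _).fun_comp ((hB ξ hξ).sub analyticAt_const)
  have h4 := h3.eqOn_zero_of_preconnected_of_eventuallyEq_zero
    (convex_ball ξ₀ r).isPreconnected (mem_ball_self hr) hev h2
  have h5 : l (f ξ₁ - f ξ₀) = 0 := h4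
  rw [hl] at h5
  exact h0 (Complex.ofReal_eq_zero.1 h5)

/-- BD1 -/
theorem bad_loc_pr (e : Module.Basis (Fin 2) ℂ E) (hρ : FD A ρ) {p : X} {i : A.ι} (hi : p ∈ A.W i)
    (hne : ¬ ∀ᶠ y in 𝓝 p, ρ p y = 0) :
    ∃ (n N : ℕ) (c : ℝ) (d : Fin n → ℂ → E), 0 < c ∧ (∀ j, Dsc A i (d j)) ∧
      ∀ᶠ x in 𝓝 p, ρ x p = 0 → x ∉ ZS A ρ → ∃ j, ∃ ζ ∈ closedBall (0 : ℂ) 1,
        (A.ch i).symm (d j ζ) = x ∧ c * ‖ζ‖ ^ N ≤ nw A ρ i x (e 0) + nw A ρ i x (e 1) := by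
  obtain ⟨V, j1, j2, j3, F, O, hpO, hF⟩ := hρ p
  have hs : p ∈ (A.ch i).source := A.W_sub i (subset_closure hi)
  set f : E → V := fun ξ => F ((A.ch i).symm ξ) with hfdef
  set ξ₀ : E := A.ch i p with hξ₀
  have hf : AnalyticAt ℂ f ξ₀ := hF.an p hpO i hs
  have hsymm : (A.ch i).symm ξ₀ = p := (A.ch i).left_inv hs
  have htgt : ξ₀ ∈ (A.ch i).target := (A.ch i).map_source hs
  have hcs : ContinuousAt (A.ch i).symm ξ₀ := (A.ch i).continuousAt_symm htgt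
  have hcp : ContinuousAt (A.ch i) p := (A.ch i).continuousAt hs
  have hf0 : f ξ₀ = F p := by
    rw [hfdef]
    simp only [hsymm]
  have hne' : ¬ ∀ᶠ ξ in 𝓝 ξ₀, f ξ = f ξ₀ := by
    intro hev
    apply hne
    have h1 : ∀ᶠ y in 𝓝 p, f (A.ch i y) = f ξ₀ := hcp.eventually hev
    filter_upwards [h1, (A.ch i).open_source.mem_nhds hs, hF.op.mem_nhds hpO] with y h2 h3 h4
    rw [hF.eq p hpO y h4]
    have h5 : F y = F p := by
      rw [← hf0, ← h2, hfdef]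
      simp only [(A.ch i).left_inv h3]
    rw [h5, sub_self, norm_zero]
  obtain ⟨l, hl⟩ := bd1_comp hf hne'
  -- a small ball in the chart
  have hsm : ∀ᶠ ξ in 𝓝 ξ₀, ξ ∈ (A.ch i).target ∧ (A.ch i).symm ξ ∈ A.W i ∧ (A.ch i).symm ξ ∈ O ∧
      AnalyticAt ℂ f ξ := by
    have h1 : ∀ᶠ ξ in 𝓝 ξ₀, (A.ch i).symm ξ ∈ A.W i ∩ O := by
      refine hcs.eventually ?_
      rw [hsymm]
      exact ((A.W_open i).inter hF.op).mem_nhds ⟨hi, hpO⟩
    filter_upwards [(A.ch i).open_target.mem_nhds htgt, h1, hf.eventually_analyticAt] with ξ h2 h3 h4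
    exact ⟨h2, h3.1, h3.2, h4⟩
  obtain ⟨ε, hε, hB⟩ := Metric.eventually_nhds_iff_ball.1 hsm
  obtain ⟨n, d, hd, hcov⟩ := puis e (g := fun ξ => l (f ξ - f ξ₀))
    ((l.analyticAt _).fun_comp (hf.sub analyticAt_const)) hl hε
  have hdB : ∀ j, ∀ ζ ∈ closedBall (0 : ℂ) 1, d j ζ ∈ ball ξ₀ ε := fun j ζ hζ =>
    mem_ball.2 (hd j ζ hζ).2.1
  have hDsc : ∀ j, Dsc A i (d j) := fun j =>
    ⟨fun ζ hζ => (hd j ζ hζ).1, fun ζ hζ => ⟨(hB _ (hdB j ζ hζ)).1, (hB _ (hdB j ζ hζ)).2.1⟩⟩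
  have h00 : (0 : ℂ) ∈ closedBall (0 : ℂ) 1 := mem_closedBall_self zero_le_one
  -- local analysis on each disc
  have hloc : ∀ j, ∃ (N : ℕ) (c r : ℝ), 0 < c ∧ 0 < r ∧ ∀ ζ ∈ closedBall (0 : ℂ) 1, ‖ζ‖ < r →
      (A.ch i).symm (d j ζ) ∉ ZS A ρ → c * ‖ζ‖ ^ N ≤
        nw A ρ i ((A.ch i).symm (d j ζ)) (e 0) + nw A ρ i ((A.ch i).symm (d j ζ)) (e 1) := by
    intro j
    have hd0 : d j 0 = ξ₀ := ((hd j 0 h00).2.2.2).2 rfl
    have hnw : ∀ ζ ∈ closedBall (0 : ℂ) 1, ∀ v : E,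
        nw A ρ i ((A.ch i).symm (d j ζ)) v = ‖fderiv ℂ f (d j ζ) v‖ := by
      intro ζ hζ v
      obtain ⟨h1, h2, h3, h4⟩ := hB _ (hdB j ζ hζ)
      rw [nw_mod hF h3 ((A.ch i).map_target h1), (A.ch i).right_inv h1]
    have han : ∀ v : E, AnalyticAt ℂ (fun ζ => fderiv ℂ f (d j ζ) v) 0 := by
      intro v
      have h1 : AnalyticAt ℂ (fderiv ℂ f) (d j 0) := by
        rw [hd0]
        exact hf.fderiv
      have h2 : AnalyticAt ℂ (fun ζ => fderiv ℂ f (d j ζ)) 0 :=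
        h1.fun_comp (hd j 0 h00).1
      exact ((ContinuousLinearMap.apply ℂ V v).analyticAt _).fun_comp h2
    have hcase : (∀ᶠ ζ in 𝓝 (0 : ℂ), fderiv ℂ f (d j ζ) = 0) ∨ ∃ (N : ℕ) (c : ℝ), 0 < c ∧
        ∀ᶠ ζ in 𝓝 (0 : ℂ), c * ‖ζ‖ ^ N ≤ ‖fderiv ℂ f (d j ζ) (e 0)‖ +
          ‖fderiv ℂ f (d j ζ) (e 1)‖ := by
      rcases bd1_low (han (e 0)) with h0 | ⟨N, c, hc, h0⟩
      · rcases bd1_low (han (e 1)) with h1 | ⟨N, c, hc, h1⟩
        · left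
          filter_upwards [h0, h1] with ζ h2 h3
          exact bd1_zero e _ h2 h3
        · right
          refine ⟨N, c, hc, ?_⟩
          filter_upwards [h1] with ζ h2
          linarith [norm_nonneg (fderiv ℂ f (d j ζ) (e 0))]
      · right
        refine ⟨N, c, hc, ?_⟩
        filter_upwards [h0] with ζ h2
        linarith [norm_nonneg (fderiv ℂ f (d j ζ) (e 1))]
    rcases hcase with h0 | ⟨N, c, hc, h0⟩
    · obtain ⟨r, hr, h1⟩ := Metric.eventually_nhds_iff_ball.1 h0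
      refine ⟨0, 1, r, one_pos, hr, fun ζ hζ hζr hZ => absurd ?_ hZ⟩
      obtain ⟨h3, h4, h5, h6⟩ := hB _ (hdB j ζ hζ)
      refine bd1_zs hρ hF h5 ((A.ch i).map_target h3) ?_
      rw [(A.ch i).right_inv h3]
      exact h1 ζ (by rw [mem_ball, dist_zero_right]; exact hζr)
    · obtain ⟨r, hr, h1⟩ := Metric.eventually_nhds_iff_ball.1 h0
      refine ⟨N, c, r, hc, hr, fun ζ hζ hζr hZ => ?_⟩
      rw [hnw ζ hζ, hnw ζ hζ]
      exact h1 ζ (by rw [mem_ball, dist_zero_right]; exact hζr)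
  choose N c r hc hr hlow using hloc
  -- points near `p` have small parameters
  have hsmall : ∀ j, ∃ δ > 0, ∀ ζ ∈ closedBall (0 : ℂ) 1, dist (d j ζ) ξ₀ < δ → ‖ζ‖ < r j := by
    intro j
    by_contra hcon
    push Not at hcon
    have hcomp : IsCompact (closedBall (0 : ℂ) 1 ∩ {ζ | r j ≤ ‖ζ‖}) :=
      (isCompact_closedBall _ _).inter_right (isClosed_le continuous_const continuous_norm)
    obtain ⟨ζ₁, h1, h2⟩ := hcon 1 one_pos
    have hne2 : (closedBall (0 : ℂ) 1 ∩ {ζ | r j ≤ ‖ζ‖}).Nonempty := ⟨ζ₁, h1, h2.2⟩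
    have hcont : ContinuousOn (fun ζ => dist (d j ζ) ξ₀) (closedBall (0 : ℂ) 1 ∩ {ζ | r j ≤ ‖ζ‖}) :=
      fun ζ hζ => ContinuousAt.continuousWithinAt
        ((hd j ζ hζ.1).1.continuousAt.dist (continuousAt_const (y := ξ₀)))
    obtain ⟨ζ₀, h3, h4⟩ := hcomp.exists_isMinOn hne2 hcont
    have h5 : 0 < dist (d j ζ₀) ξ₀ := by
      rw [dist_pos]
      intro h6
      have h7 := ((hd j ζ₀ h3.1).2.2.2).1 h6
      have h8 : r j ≤ ‖ζ₀‖ := h3.2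
      rw [h7, norm_zero] at h8
      exact absurd h8 (not_le.2 (hr j))
    obtain ⟨ζ₂, h6, h7, h8⟩ := hcon _ h5
    exact absurd (h4 (show ζ₂ ∈ closedBall (0 : ℂ) 1 ∩ {ζ | r j ≤ ‖ζ‖} from ⟨h6, h8⟩))
      (not_le.2 h7)
  choose δ hδ hsm2 using hsmall
  -- uniform constants
  obtain ⟨c₀, hc₀, hcle⟩ : ∃ c₀ : ℝ, 0 < c₀ ∧ ∀ j, c₀ ≤ c j := by
    rcases isEmpty_or_nonempty (Fin n) with hE | hE
    · exact ⟨1, one_pos, fun j => (hE.false j).elim⟩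
    · obtain ⟨j₀, hj₀⟩ := Finite.exists_min c
      exact ⟨c j₀, hc j₀, hj₀⟩
  obtain ⟨N₀, hN₀⟩ : ∃ N₀ : ℕ, ∀ j, N j ≤ N₀ := by
    obtain ⟨M, hM⟩ := (Set.finite_range N).bddAbove
    exact ⟨M, fun j => hM (mem_range_self j)⟩
  refine ⟨n, N₀ + 1, c₀, d, hc₀, hDsc, ?_⟩
  have hδall : ∀ᶠ x in 𝓝 p, ∀ j, dist (A.ch i x) ξ₀ < δ j := by
    rw [eventually_all]
    intro j
    have h1 : ContinuousAt (fun x => dist (A.ch i x) ξ₀) p := hcp.dist continuousAt_const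
    refine h1.eventually_lt_const ?_
    simp only [← hξ₀, dist_self]
    exact hδ j
  filter_upwards [hcp.eventually hcov, hδall, (A.ch i).open_source.mem_nhds hs,
    hF.op.mem_nhds hpO] with x h1 h2 h3 h4 h5 h6
  have h7 : F x = F p := by
    rw [hF.eq x h4 p hpO] at h5
    exact sub_eq_zero.1 (norm_eq_zero.1 h5)
  have h8 : f (A.ch i x) = f ξ₀ := by
    rw [hf0, ← h7, hfdef]
    simp only [(A.ch i).left_inv h3]
  obtain ⟨j, ζ, h9, h10⟩ := h1 (by rw [h8, sub_self, map_zero])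
  have h11 : ζ ∈ closedBall (0 : ℂ) 1 :=
    ball_subset_closedBall (ball_subset_ball (by norm_num) h9)
  have h12 : (A.ch i).symm (d j ζ) = x := by rw [h10, (A.ch i).left_inv h3]
  refine ⟨j, ζ, h11, h12, ?_⟩
  have h13 : ‖ζ‖ < r j := hsm2 j ζ h11 (by rw [h10]; exact h2 j)
  have h14 := hlow j ζ h11 h13 (by rw [h12]; exact h6)
  rw [h12] at h14
  refine le_trans ?_ h14
  have h15 : ‖ζ‖ ≤ 1 := by
    rw [mem_closedBall, dist_zero_right] at h11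
    exact h11
  calc c₀ * ‖ζ‖ ^ (N₀ + 1) ≤ c j * ‖ζ‖ ^ (N₀ + 1) :=
        mul_le_mul_of_nonneg_right (hcle j) (by positivity)
    _ ≤ c j * ‖ζ‖ ^ N j := mul_le_mul_of_nonneg_left
        (pow_le_pow_of_le_one (norm_nonneg _) h15 (by have := hN₀ j; omega)) (hc j).le

end charts

end Pool.Agent.KZ

namespace Pool.Agent.KZ

alias bad_loc := bad_loc_pr

end Pool.Agent.KZ
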