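import Pool.Agent.Lib_helper82.KZ.Defs
set_option autoImplicit false
set_option linter.unusedSectionVars false
open Filter Topology Metric Set
open scoped Manifold ContDiff
namespace Pool.Agent.KZ
open Pool.Agent.BR Pool.Agent.MBS Pool.Agent.SL Pool.Agent.IS

section

variable {E X : Type} [NormedAddCommGroup E] [NormedSpace ℂ E] [FiniteDimensional ℂ E]
  [MetricSpace X] {A : Cha E X} {ρ : X → X → ℝ}

/-- local models restrict to open subsets -/
theorem nw4_mono {V : Type} [NormedAddCommGroup V] [NormedSpace ℂ V] {O O' : Set X} {F : X → V}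
    (hF : Mod A ρ O F) (hO' : IsOpen O') (hs : O' ⊆ O) : Mod A ρ O' F :=
  ⟨hO', fun y hy => hF.an y (hs hy), fun u hu u' hu' => hF.eq u (hs hu) u' (hs hu')⟩

/-- NW4: uniform local models -/
theorem fd_leb_pr [CompactSpace X] (hρ : FD A ρ) : ∃ δ > 0, ∀ x : X, ∃ (V : Type)
    (_ : NormedAddCommGroup V) (_ : NormedSpace ℂ V) (_ : CompleteSpace V) (F : X → V),
    Mod A ρ (ball x δ) F := by
  have h0 : ∀ x : X, ∃ O : Set X, x ∈ O ∧ IsOpen O ∧ ∃ (V : Type) (_ : NormedAddCommGroup V)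
      (_ : NormedSpace ℂ V) (_ : CompleteSpace V) (F : X → V), Mod A ρ O F := by
    intro x
    obtain ⟨V, i1, i2, i3, F, O, hx, hF⟩ := hρ x
    exact ⟨O, hx, hF.op, V, i1, i2, i3, F, hF⟩
  choose O hx hO hM using h0
  obtain ⟨δ, hδ, h⟩ := lebesgue_number_lemma_of_metric (isCompact_univ (X := X)) hO
    (fun x _ => mem_iUnion.2 ⟨x, hx x⟩)
  refine ⟨δ, hδ, fun x => ?_⟩
  obtain ⟨y, hy⟩ := h x (mem_univ x)
  obtain ⟨V, i1, i2, i3, F, hF⟩ := hM y
  exact ⟨V, i1, i2, i3, F, nw4_mono hF isOpen_ball hy⟩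

end

end Pool.Agent.KZ

namespace Pool.Agent.KZ

alias fd_leb := fd_leb_pr

end Pool.Agent.KZ
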