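import Pool.Agent.Lib_helper82.KZ.Defs
import Pool.Agent.Lib_helper82.KZ.P.NW1

set_option autoImplicit false

open Filter Topology Metric Set
open scoped Manifold ContDiff

namespace Pool.Agent.KZ

open Pool.Agent.BR Pool.Agent.MBS Pool.Agent.SL Pool.Agent.IS

section charts

variable {E X : Type} [NormedAddCommGroup E] [NormedSpace ℂ E] [FiniteDimensional ℂ E]
  [MetricSpace X] {A : Cha E X} {ρ : X → X → ℝ}

/-- NW3: continuity (uses NW1) -/
theorem nw_cont_pr (hρ : FD A ρ) (i : A.ι) :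
    ContinuousOn (fun p : X × E => nw A ρ i p.1 p.2) ((A.ch i).source ×ˢ univ) := by
  rintro ⟨x, v⟩ ⟨hx, -⟩
  obtain ⟨V, _, _, _, F, O, hxO, hF⟩ := hρ x
  apply ContinuousAt.continuousWithinAt
  have h1 : AnalyticAt ℂ (fun ξ => F ((A.ch i).symm ξ)) (A.ch i x) := hF.an x hxO i hx
  have h2 : ContinuousAt (fderiv ℂ (fun ξ => F ((A.ch i).symm ξ))) (A.ch i x) :=
    h1.fderiv.continuousAt
  have h3 : ContinuousAt (fun p : X × E => A.ch i p.1) (x, v) :=
    ContinuousAt.comp (x := (x, v)) ((A.ch i).continuousAt hx) continuousAt_fst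
  have h4 : ContinuousAt (fun p : X × E => fderiv ℂ (fun ξ => F ((A.ch i).symm ξ)) (A.ch i p.1))
      (x, v) := ContinuousAt.comp (x := (x, v)) (f := fun p : X × E => A.ch i p.1) h2 h3
  have h5 : ContinuousAt (fun p : X × E =>
      ‖fderiv ℂ (fun ξ => F ((A.ch i).symm ξ)) (A.ch i p.1) p.2‖) (x, v) :=
    (h4.clm_apply continuousAt_snd).norm
  refine h5.congr ?_
  have h6 : ∀ᶠ p : X × E in 𝓝 (x, v), p.1 ∈ O ∩ (A.ch i).source :=
    continuousAt_fst.eventually ((hF.op.inter (A.ch i).open_source).mem_nhds ⟨hxO, hx⟩)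
  filter_upwards [h6] with p hp
  exact (nw_mod hF hp.1 hp.2 p.2).symm

end charts

end Pool.Agent.KZ

namespace Pool.Agent.KZ

alias nw_cont := nw_cont_pr

end Pool.Agent.KZ
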