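import Pool.Agent.Lib_helper82.KZ.Defs
import Pool.Agent.Lib_helper82.KZ.P.AD1
import Pool.Agent.Lib_helper82.KZ.P.AS1
import Pool.Agent.Lib_helper82.KZ.P.NW1
import Pool.Agent.Lib_helper82.KZ.P.NW3

/-! # Flat distances on surfaces (MP_45e720_ag): block ZR -/

set_option autoImplicit false
set_option linter.unusedVariables false
set_option linter.unusedSectionVars false

open Filter Topology Metric Set
open scoped Manifold ContDiff

namespace Pool.Agent.KZ

open Pool.Agent.BR Pool.Agent.MBS Pool.Agent.SL Pool.Agent.IS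

section charts

variable {E X : Type} [NormedAddCommGroup E] [NormedSpace ℂ E] [FiniteDimensional ℂ E]
  [MetricSpace X] {A : Cha E X} {ρ : X → X → ℝ}

/-- the zero set is closed -/
theorem zr_closed (hρ : FD A ρ) {x : X} (hx : x ∉ ZS A ρ) : ∀ᶠ y in 𝓝 x, y ∉ ZS A ρ := by
  simp only [ZS, mem_setOf_eq, not_forall] at hx
  obtain ⟨i, hi, v, hv⟩ := hx
  have h1 : ContinuousAt (fun p : X × E => nw A ρ i p.1 p.2) (x, v) :=
    (nw_cont hρ i).continuousAt
      (prod_mem_nhds ((A.ch i).open_source.mem_nhds hi) univ_mem)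
  have h2 : ContinuousAt (fun y : X => nw A ρ i y v) x :=
    ContinuousAt.comp (f := fun y : X => (y, v)) (g := fun p : X × E => nw A ρ i p.1 p.2) h1
      (by fun_prop)
  have h3 : ∀ᶠ y in 𝓝 x, nw A ρ i y v ≠ 0 := h2.eventually_ne hv
  filter_upwards [h3, (A.ch i).open_source.mem_nhds hi] with y hy hyi hyZ
  exact hy (hyZ i hyi v)

/-- a model is constant along a disc in the zero set -/
theorem zr_const {V : Type} [NormedAddCommGroup V] [NormedSpace ℂ V] {O : Set X} {F : X → V}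
    (hF : Mod A ρ O F) {i : A.ι} {d : ℂ → E} (hd : Dsc A i d)
    (hO : ∀ ζ ∈ closedBall (0 : ℂ) 1, (A.ch i).symm (d ζ) ∈ ZS A ρ ∩ O) :
    ∀ ζ ∈ ball (0 : ℂ) 1, F ((A.ch i).symm (d ζ)) = F ((A.ch i).symm (d 0)) := by
  have hder : ∀ ζ ∈ ball (0 : ℂ) 1, HasDerivAt (fun ζ => F ((A.ch i).symm (d ζ))) 0 ζ := by
    intro ζ hζ
    have hζ' := ball_subset_closedBall hζ
    obtain ⟨h1, h2⟩ := hd.mem ζ hζ'
    obtain ⟨h3, h4⟩ := hO ζ hζ'
    have hs : (A.ch i).symm (d ζ) ∈ (A.ch i).source := (A.ch i).map_target h1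
    have h5 := hF.an _ h4 i hs
    rw [(A.ch i).right_inv h1] at h5
    have h6 := h5.differentiableAt.hasFDerivAt
    have h7 := (hd.an ζ hζ').differentiableAt.hasDerivAt
    have h8 := h6.comp_hasDerivAt ζ h7
    have h9 : fderiv ℂ (fun ξ => F ((A.ch i).symm ξ)) (d ζ) (deriv d ζ) = 0 := by
      have h10 := nw_mod hF h4 hs (deriv d ζ)
      rw [h3 i hs, (A.ch i).right_inv h1] at h10
      exact norm_eq_zero.1 h10.symm
    rw [h9] at h8
    exact h8
  intro ζ hζ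
  exact (convex_ball (0 : ℂ) 1).is_const_of_fderivWithin_eq_zero (𝕜 := ℂ)
    (fun z hz => (hder z hz).differentiableAt.differentiableWithinAt)
    (fun z hz => by
      rw [fderivWithin_of_isOpen isOpen_ball hz]
      have := (hder z hz).hasFDerivAt.fderiv
      rw [this]
      ext
      simp) hζ (mem_ball_self one_pos)

/-- ZR -/
theorem zs_rho_pr [CompactSpace X] [ConnectedSpace X] (e : Module.Basis (Fin 2) ℂ E) (hρ : FD A ρ)
    (hne : ∃ x, x ∉ ZS A ρ) :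
    ∃ δ > 0, ∀ p ∈ ZS A ρ, ∀ p' ∈ ZS A ρ, dist p p' < δ → ρ p p' = 0 := by
  have hloc : ∀ p : X, ∃ U : Set X, IsOpen U ∧ p ∈ U ∧ ∀ y ∈ U, ∀ y' ∈ U, y ∈ ZS A ρ →
      y' ∈ ZS A ρ → ρ y y' = 0 := by
    intro p
    by_cases hp : p ∈ ZS A ρ
    · obtain ⟨V, j1, j2, j3, F, O, hpO, hF⟩ := hρ p
      obtain ⟨i, hi⟩ := A.cover p
      obtain ⟨n, d, h1, h2⟩ := as_loc e (zs_as e hρ hne) hp hi hF.op hpO
      have h3 : ∀ᶠ y in 𝓝 p, y ∈ ZS A ρ → F y = F p := by
        filter_upwards [h2] with y hy hyZ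
        obtain ⟨j, ζ, hζ, hy⟩ := hy hyZ
        obtain ⟨h4, h5, h6⟩ := h1 j
        have h7 := zr_const hF h4 h6 ζ (ball_subset_ball (by norm_num) hζ)
        rw [hy, h5, (A.ch i).left_inv (A.W_sub i (subset_closure hi))] at h7
        exact h7
      obtain ⟨U, hU, hUo, hpU⟩ := _root_.eventually_nhds_iff.1
        (h3.and (hF.op.mem_nhds hpO))
      refine ⟨U, hUo, hpU, fun y hy y' hy' hyZ hyZ' => ?_⟩
      rw [hF.eq y (hU y hy).2 y' (hU y' hy').2, (hU y hy).1 hyZ, (hU y' hy').1 hyZ', sub_self,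
        norm_zero]
    · obtain ⟨U, hU, hUo, hpU⟩ := _root_.eventually_nhds_iff.1 (zr_closed hρ hp)
      exact ⟨U, hUo, hpU, fun y hy y' hy' hyZ => absurd hyZ (hU y hy)⟩
  choose U hUo hpU hU using hloc
  obtain ⟨δ, hδ, hδU⟩ := lebesgue_number_lemma_of_metric (isCompact_univ (X := X)) hUo
    (fun x _ => mem_iUnion.2 ⟨x, hpU x⟩)
  refine ⟨δ, hδ, fun p hp p' hp' hpp => ?_⟩
  obtain ⟨q, hq⟩ := hδU p (mem_univ _)
  exact hU q p (hq (mem_ball_self hδ)) p' (hq (by rw [mem_ball, dist_comm]; exact hpp)) hp hp'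

end charts

end Pool.Agent.KZ

namespace Pool.Agent.KZ

alias zs_rho := zs_rho_pr

end Pool.Agent.KZ
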