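import Pool.Agent.Lib_helper82.KZ.Defs
import Pool.Agent.Lib_helper82.KZ.P.NW4
import Pool.Agent.Lib_helper82.KZ.P.ZR
import Pool.Agent.Lib_helper82.KZ.P.BD1
import Pool.Agent.Lib_helper82.KZ.P.AS1
import Pool.Agent.Lib_helper82.KZ.P.NW1

/-! # Flat distances on surfaces (MP_45e720_ag): block BD2 -/

set_option autoImplicit false
set_option linter.unusedVariables false
set_option linter.unusedSectionVars false

open Filter Topology Metric Set
open scoped Manifold ContDiff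

namespace Pool.Agent.KZ

open Pool.Agent.BR Pool.Agent.MBS Pool.Agent.SL Pool.Agent.IS

section charts

variable {E X : Type} [NormedAddCommGroup E] [NormedSpace ℂ E] [FiniteDimensional ℂ E]
  [MetricSpace X] {A : Cha E X} {ρ : X → X → ℝ}

/-- the conclusion for the part `s` of the zero set -/
def BD2P (A : Cha E X) (e : Module.Basis (Fin 2) ℂ E) (ρ : X → X → ℝ) (s : Set X) : Prop :=
  ∃ (η c : ℝ) (N : ℕ) (J : Type) (_ : Finite J) (ix : J → A.ι) (d : J → ℂ → E), 0 < η ∧ 0 < c ∧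
    (∀ j, Dsc A (ix j) (d j)) ∧
    ∀ x, ∀ p ∈ s, p ∈ ZS A ρ → dist x p < η → ρ x p = 0 → x ∉ ZS A ρ →
      ∃ j, ∃ ζ ∈ closedBall (0 : ℂ) 1, (A.ch (ix j)).symm (d j ζ) = x ∧
        c * ‖ζ‖ ^ N ≤ nw A ρ (ix j) x (e 0) + nw A ρ (ix j) x (e 1)

theorem bd2_low {c c' : ℝ} {N N' : ℕ} {ζ : ℂ} {b : ℝ} (hζ : ζ ∈ closedBall (0 : ℂ) 1)
    (hc : 0 < c) (hcc : c ≤ c') (hN : N' ≤ N) (h : c' * ‖ζ‖ ^ N' ≤ b) : c * ‖ζ‖ ^ N ≤ b := by
  have h15 : ‖ζ‖ ≤ 1 := by
    rw [mem_closedBall, dist_zero_right] at hζ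
    exact hζ
  refine le_trans ?_ h
  calc c * ‖ζ‖ ^ N ≤ c' * ‖ζ‖ ^ N := mul_le_mul_of_nonneg_right hcc (by positivity)
    _ ≤ c' * ‖ζ‖ ^ N' := mul_le_mul_of_nonneg_left
        (pow_le_pow_of_le_one (norm_nonneg _) h15 hN) (hc.le.trans hcc)

theorem bd2_union {e : Module.Basis (Fin 2) ℂ E} {s t : Set X} (hs : BD2P A e ρ s)
    (ht : BD2P A e ρ t) : BD2P A e ρ (s ∪ t) := by
  obtain ⟨η, c, N, J, hJ, ix, d, h1, h2, h3, h4⟩ := hs
  obtain ⟨η', c', N', J', hJ', ix', d', h1', h2', h3', h4'⟩ := ht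
  refine ⟨min η η', min c c', max N N', J ⊕ J', inferInstance, Sum.elim ix ix',
    fun j => Sum.rec (motive := fun _ => ℂ → E) d d' j, lt_min h1 h1', lt_min h2 h2', ?_, ?_⟩
  · rintro (j | j)
    · exact h3 j
    · exact h3' j
  · rintro x p (hp | hp) hpZ hd hρ hx
    · obtain ⟨j, ζ, h5, h6, h7⟩ := h4 x p hp hpZ (hd.trans_le (min_le_left _ _)) hρ hx
      exact ⟨Sum.inl j, ζ, h5, h6, bd2_low h5 (lt_min h2 h2') (min_le_left _ _)
        (le_max_left _ _) h7⟩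
    · obtain ⟨j, ζ, h5, h6, h7⟩ := h4' x p hp hpZ (hd.trans_le (min_le_right _ _)) hρ hx
      exact ⟨Sum.inr j, ζ, h5, h6, bd2_low h5 (lt_min h2 h2') (min_le_right _ _)
        (le_max_right _ _) h7⟩

/-- near a point of the zero set the flat distance is not zero -/
theorem bd2_ne {D : Set X} (hD : AS A D) (hDZ : D = ZS A ρ) (hρ : FD A ρ) (p : X) :
    ¬ ∀ᶠ y in 𝓝 p, ρ p y = 0 := by
  intro hev
  obtain ⟨κ, S, O, hO, hpO, h1, h2, s, hs⟩ := hD p
  apply hs
  obtain ⟨V, j1, j2, j3, F, O', hpO', hF⟩ := hρ p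
  have h3 : ∀ᶠ y in 𝓝 p, F y = F p := by
    filter_upwards [hev, hF.op.mem_nhds hpO'] with y h4 h5
    rw [hF.eq p hpO' y h5] at h4
    exact (sub_eq_zero.1 (norm_eq_zero.1 h4)).symm
  filter_upwards [hO.mem_nhds hpO, hF.op.mem_nhds hpO', h3.eventually_nhds] with y h4 h5 h6
  refine (h1 y h4).1 ?_ s
  rw [hDZ]
  intro i hi v
  rw [nw_mod hF h5 hi]
  have h7 : ∀ᶠ ξ in 𝓝 (A.ch i y), F ((A.ch i).symm ξ) = F p := by
    have h8 : ContinuousAt (A.ch i).symm (A.ch i y) :=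
      (A.ch i).continuousAt_symm ((A.ch i).map_source hi)
    refine h8.eventually (p := fun y => F y = F p) ?_
    rw [(A.ch i).left_inv hi]
    exact h6
  have h9 : fderiv ℂ (fun ξ => F ((A.ch i).symm ξ)) (A.ch i y) = 0 := by
    rw [Filter.EventuallyEq.fderiv_eq (f := fun _ => F p) h7]
    simp
  rw [h9]
  simp

/-- BD2 -/
theorem bad_pr [CompactSpace X] [ConnectedSpace X] (e : Module.Basis (Fin 2) ℂ E) (hρ : FD A ρ)
    (hne : ∃ x, x ∉ ZS A ρ) :
    ∃ (η c : ℝ) (J N : ℕ) (ix : Fin J → A.ι) (d : Fin J → ℂ → E), 0 < η ∧ 0 < c ∧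
      (∀ j, Dsc A (ix j) (d j)) ∧
      ∀ x, ∀ p ∈ ZS A ρ, dist x p < η → ρ x p = 0 → x ∉ ZS A ρ →
        ∃ j, ∃ ζ ∈ closedBall (0 : ℂ) 1, (A.ch (ix j)).symm (d j ζ) = x ∧
          c * ‖ζ‖ ^ N ≤ nw A ρ (ix j) x (e 0) + nw A ρ (ix j) x (e 1) := by
  obtain ⟨δ, hδ, hz⟩ := zs_rho e hρ hne
  obtain ⟨δ', hδ', hleb⟩ := fd_leb hρ
  have hAS := zs_as e hρ hne
  have hloc : ∀ p ∈ (univ : Set X), ∃ t ∈ 𝓝[univ] p, BD2P A e ρ t := by
    intro p _
    simp only [nhdsWithin_univ]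
    by_cases hp : p ∈ ZS A ρ
    · obtain ⟨i, hi⟩ := A.cover p
      obtain ⟨n, N, c, d, hc, hd, h1⟩ := bad_loc e hρ hi (bd2_ne hAS rfl hρ p)
      obtain ⟨r, hr, hB⟩ := Metric.eventually_nhds_iff_ball.1 h1
      set r' : ℝ := min r (min δ δ') / 2 with hr'
      have hm : 0 < min r (min δ δ') := lt_min hr (lt_min hδ hδ')
      have hr'0 : 0 < r' := by positivity
      have hle1 : 2 * r' ≤ r := by
        rw [hr']
        linarith [min_le_left r (min δ δ')]
      have hle2 : 2 * r' ≤ δ := by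
        rw [hr']
        linarith [min_le_right r (min δ δ'), min_le_left δ δ']
      have hle3 : 2 * r' ≤ δ' := by
        rw [hr']
        linarith [min_le_right r (min δ δ'), min_le_right δ δ']
      refine ⟨ball p r', ball_mem_nhds p hr'0, r', c, N, Fin n, inferInstance, fun _ => i, d,
        hr'0, hc, hd, ?_⟩
      intro x q hq hqZ hxq hρq hx
      have hqp : dist q p < r' := hq
      have hxp : dist x p < 2 * r' := by
        linarith [dist_triangle x q p]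
      refine hB x (mem_ball.2 (by linarith)) ?_ hx
      obtain ⟨V, j1, j2, j3, F, hF⟩ := hleb p
      have m1 : x ∈ ball p δ' := mem_ball.2 (by linarith)
      have m2 : q ∈ ball p δ' := mem_ball.2 (by linarith)
      have m3 : p ∈ ball p δ' := mem_ball_self hδ'
      have e1 : ρ q p = 0 := hz q hqZ p hp (by linarith)
      rw [hF.eq q m2 p m3] at e1
      rw [hF.eq x m1 q m2] at hρq
      rw [hF.eq x m1 p m3]
      have e2 : F x - F p = (F x - F q) + (F q - F p) := by abel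
      rw [e2, norm_eq_zero.1 e1, norm_eq_zero.1 hρq, add_zero, norm_zero]
    · obtain ⟨i, hi⟩ := A.cover p
      have h2 : ∃ U : Set X, U ∈ 𝓝 p ∧ ∀ y ∈ U, y ∉ ZS A ρ := by
        obtain ⟨κ, S, O, hO, hpO, h1, h2, -⟩ := hAS p
        have h3 : ¬ ∀ s, S s p = 0 := fun h => hp ((h1 p hpO).2 h)
        push Not at h3
        obtain ⟨s, hs⟩ := h3
        have hsrc : p ∈ (A.ch i).source := A.W_sub i (subset_closure hi)
        have h4 : ContinuousAt (S s) p := by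
          have h5 := (h2 s p hpO i hsrc).continuousAt
          have h6 : ContinuousAt (fun y => S s ((A.ch i).symm (A.ch i y))) p :=
            ContinuousAt.comp (f := fun y => A.ch i y) (g := fun ξ => S s ((A.ch i).symm ξ)) h5
              ((A.ch i).continuousAt hsrc)
          refine h6.congr ?_
          filter_upwards [(A.ch i).open_source.mem_nhds hsrc] with y hy
          rw [(A.ch i).left_inv hy]
        refine ⟨_, (h4.eventually_ne hs).and (hO.mem_nhds hpO), fun y hy hyZ => ?_⟩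
        exact hy.1 ((h1 y hy.2).1 hyZ s)
      obtain ⟨U, hU, hUZ⟩ := h2
      exact ⟨U, hU, 1, 1, 0, Fin 0, inferInstance, fun _ => i, fun _ _ => 0, one_pos, one_pos,
        fun j => j.elim0, fun x q hq hqZ => absurd hqZ (hUZ q hq)⟩
  have hall : BD2P A e ρ univ := by
    refine isCompact_univ.induction_on (p := BD2P A e ρ) ?_ ?_ ?_ hloc
    · obtain ⟨x, -⟩ := hne
      obtain ⟨i, hi⟩ := A.cover x
      exact ⟨1, 1, 0, Fin 0, inferInstance, fun _ => i, fun _ _ => 0, one_pos, one_pos,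
        fun j => j.elim0, fun x q hq => absurd hq (notMem_empty q)⟩
    · rintro s t hst ⟨η, c, N, J, hJ, ix, d, h1, h2, h3, h4⟩
      exact ⟨η, c, N, J, hJ, ix, d, h1, h2, h3, fun x p hp => h4 x p (hst hp)⟩
    · intro s t hs ht
      exact bd2_union hs ht
  obtain ⟨η, c, N, J, hJ, ix, d, h1, h2, h3, h4⟩ := hall
  obtain ⟨m, ⟨f⟩⟩ := Finite.exists_equiv_fin J
  refine ⟨η, c, m, N, fun j => ix (f.symm j), fun j => d (f.symm j), h1, h2,
    fun j => h3 (f.symm j), ?_⟩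
  intro x p hp hd hρp hx
  obtain ⟨j, ζ, h5, h6, h7⟩ := h4 x p (mem_univ _) hp hd hρp hx
  refine ⟨f j, ζ, h5, ?_⟩
  simp only [Equiv.symm_apply_apply]
  exact ⟨h6, h7⟩

end charts

end Pool.Agent.KZ

namespace Pool.Agent.KZ

alias bad := bad_pr

end Pool.Agent.KZ
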