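import Pool.Agent.Lib_helper82.KZ.Defs
set_option autoImplicit false
set_option linter.unusedVariables false
set_option linter.unusedSectionVars false
open Filter Topology Metric Set
open scoped Manifold ContDiff
namespace Pool.Agent.KZ
open Pool.Agent.BR Pool.Agent.MBS Pool.Agent.SL Pool.Agent.IS

section pure

variable {E V : Type} [NormedAddCommGroup E] [NormedSpace ℂ E] [FiniteDimensional ℂ E]
  [NormedAddCommGroup V] [NormedSpace ℂ V] [CompleteSpace V]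

/-- the derivative of the rank condition (as in `IS.t2_step`, for a Banach space `V`) -/
theorem dir_step {F : E → V} {ξ : E} {l : V →L[ℂ] ℂ} (hF : AnalyticAt ℂ F ξ)
    (hr : ∀ᶠ ξ in 𝓝 ξ, ∀ u v : E,
      l (fderiv ℂ F ξ u) • fderiv ℂ F ξ v = l (fderiv ℂ F ξ v) • fderiv ℂ F ξ u)
    {v v₀ : E} (hv : fderiv ℂ F ξ v = 0) :
    l (fderiv ℂ F ξ v₀) • fderiv ℂ (fderiv ℂ F) ξ v v₀ =
      l (fderiv ℂ (fderiv ℂ F) ξ v v₀) • fderiv ℂ F ξ v₀ := by
  have hG : HasFDerivAt (fderiv ℂ F) (fderiv ℂ (fderiv ℂ F) ξ) ξ :=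
    hF.fderiv.differentiableAt.hasFDerivAt
  have hsym : fderiv ℂ (fderiv ℂ F) ξ v v₀ = fderiv ℂ (fderiv ℂ F) ξ v₀ v :=
    (ContDiffAt.isSymmSndFDerivAt_of_omega hF.contDiffAt).eq v v₀
  -- the path
  have hpath : HasDerivAt (fun t : ℂ => ξ + t • v₀) v₀ 0 := by
    have h1 : HasDerivAt (fun t : ℂ => t • v₀) ((1 : ℂ) • v₀) 0 :=
      (hasDerivAt_id (0 : ℂ)).smul_const v₀
    rw [one_smul] at h1
    exact h1.const_add ξ
  have h0 : ξ + (0 : ℂ) • v₀ = ξ := by rw [zero_smul, add_zero]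
  have hGp : HasDerivAt (fun t : ℂ => fderiv ℂ F (ξ + t • v₀))
      (fderiv ℂ (fderiv ℂ F) ξ v₀) 0 := by
    have hG' : HasFDerivAt (fderiv ℂ F) (fderiv ℂ (fderiv ℂ F) ξ) (ξ + (0 : ℂ) • v₀) := by
      rw [h0]; exact hG
    exact hG'.comp_hasDerivAt (0 : ℂ) hpath
  have hGu : ∀ u : E, HasDerivAt (fun t : ℂ => fderiv ℂ F (ξ + t • v₀) u)
      (fderiv ℂ (fderiv ℂ F) ξ v₀ u) 0 := by
    intro u
    have h1 := hGp.clm_apply (hasDerivAt_const (0 : ℂ) u)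
    simpa using h1
  have hlu : ∀ u : E, HasDerivAt (fun t : ℂ => l (fderiv ℂ F (ξ + t • v₀) u))
      (l (fderiv ℂ (fderiv ℂ F) ξ v₀ u)) 0 := fun u =>
    l.hasFDerivAt.comp_hasDerivAt (0 : ℂ) (hGu u)
  have hA := (hlu v₀).smul (hGu v)
  have hB := (hlu v).smul (hGu v₀)
  have hcont : ContinuousAt (fun t : ℂ => ξ + t • v₀) 0 := hpath.continuousAt
  have heq : (fun t : ℂ => l (fderiv ℂ F (ξ + t • v₀) v₀) • fderiv ℂ F (ξ + t • v₀) v) =ᶠ[𝓝 0]
      fun t : ℂ => l (fderiv ℂ F (ξ + t • v₀) v) • fderiv ℂ F (ξ + t • v₀) v₀ := by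
    have h1 : Tendsto (fun t : ℂ => ξ + t • v₀) (𝓝 0) (𝓝 ξ) := by
      have := hcont.tendsto
      rwa [h0] at this
    filter_upwards [h1.eventually hr] with t ht
    exact ht v₀ v
  have hu := (hA.congr_of_eventuallyEq heq.symm).unique hB
  simp only [hv, map_zero, zero_smul, smul_zero, add_zero, zero_add] at hu
  rw [hsym]
  exact hu

/-- the quotient `Y / l Y` has derivative zero -/
theorem dir_deriv {F : E → V} {γ : ℂ → E} {z : ℂ} {l : V →L[ℂ] ℂ} {v₀ : E}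
    (h1 : AnalyticAt ℂ F (γ z)) (h2 : AnalyticAt ℂ γ z)
    (h3 : ∀ᶠ ξ in 𝓝 (γ z), ∀ u v : E,
      l (fderiv ℂ F ξ u) • fderiv ℂ F ξ v = l (fderiv ℂ F ξ v) • fderiv ℂ F ξ u)
    (h4 : l (fderiv ℂ F (γ z) v₀) ≠ 0) (h5 : fderiv ℂ F (γ z) (deriv γ z) = 0) :
    HasDerivAt (fun z => (l (fderiv ℂ F (γ z) v₀))⁻¹ • fderiv ℂ F (γ z) v₀) 0 z := by
  have h6 := dir_step (v₀ := v₀) h1 h3 h5
  have hG : HasFDerivAt (fderiv ℂ F) (fderiv ℂ (fderiv ℂ F) (γ z)) (γ z) :=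
    h1.fderiv.differentiableAt.hasFDerivAt
  have hYp : HasDerivAt (fun z => fderiv ℂ F (γ z))
      (fderiv ℂ (fderiv ℂ F) (γ z) (deriv γ z)) z :=
    hG.comp_hasDerivAt z h2.differentiableAt.hasDerivAt
  have hY : HasDerivAt (fun z => fderiv ℂ F (γ z) v₀)
      (fderiv ℂ (fderiv ℂ F) (γ z) (deriv γ z) v₀) z := by
    have h7 := hYp.clm_apply (hasDerivAt_const z v₀)
    simpa using h7
  have hy : HasDerivAt (fun z => l (fderiv ℂ F (γ z) v₀))
      (l (fderiv ℂ (fderiv ℂ F) (γ z) (deriv γ z) v₀)) z :=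
    l.hasFDerivAt.comp_hasDerivAt z hY
  have h8 := (hy.fun_inv h4).fun_smul hY
  refine h8.congr_deriv ?_
  set Y := fderiv ℂ F (γ z) v₀ with hYdef
  set Y' := fderiv ℂ (fderiv ℂ F) (γ z) (deriv γ z) v₀ with hY'def
  have h9 : Y' = (l Y)⁻¹ • (l Y' • Y) := by
    rw [← h6, smul_smul, inv_mul_cancel₀ h4, one_smul]
  have h10 : (l Y)⁻¹ • Y' = ((l Y)⁻¹ * ((l Y)⁻¹ * l Y')) • Y := by
    conv_lhs => rw [h9]
    rw [smul_smul, smul_smul]
    congr 1
    ring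
  rw [h10, ← add_smul]
  have h11 : (l Y)⁻¹ * ((l Y)⁻¹ * l Y') + -l Y' / l Y ^ 2 = 0 := by
    field_simp
    ring
  rw [h11, zero_smul]

/-- a linear map with nonzero kernel on a plane has rank at most one -/
theorem dir_rank (e : Module.Basis (Fin 2) ℂ E) (L : E →L[ℂ] V) (l : V →L[ℂ] ℂ)
    (h : ∃ v, v ≠ 0 ∧ L v = 0) (u v : E) : l (L u) • L v = l (L v) • L u := by
  obtain ⟨w, hw, hLw⟩ := h
  have hexp : ∀ x : E, L x = e.repr x 0 • L (e 0) + e.repr x 1 • L (e 1) := by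
    intro x
    conv_lhs => rw [← e.sum_repr x]
    rw [map_sum, Fin.sum_univ_two, map_smul, map_smul]
  have hw' := hexp w
  rw [hLw] at hw'
  have hne : e.repr w 0 ≠ 0 ∨ e.repr w 1 ≠ 0 := by
    by_contra hcon
    push Not at hcon
    apply hw
    rw [← e.sum_repr w, Fin.sum_univ_two, hcon.1, hcon.2, zero_smul, zero_smul, add_zero]
  -- a common direction
  obtain ⟨y, a, b, ha, hb⟩ : ∃ (y : V) (a b : ℂ), L (e 0) = a • y ∧ L (e 1) = b • y := by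
    rcases hne with h0 | h1
    · refine ⟨L (e 1), -(e.repr w 1 / e.repr w 0), 1, ?_, by rw [one_smul]⟩
      have h2 : e.repr w 0 • L (e 0) = -(e.repr w 1 • L (e 1)) :=
        eq_neg_of_add_eq_zero_left hw'.symm
      have h3 : L (e 0) = (e.repr w 0)⁻¹ • (e.repr w 0 • L (e 0)) := by
        rw [smul_smul, inv_mul_cancel₀ h0, one_smul]
      rw [h3, h2, smul_neg, smul_smul, neg_smul]
      congr 2
      rw [div_eq_mul_inv, mul_comm]
    · refine ⟨L (e 0), 1, -(e.repr w 0 / e.repr w 1), by rw [one_smul], ?_⟩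
      have h2 : e.repr w 1 • L (e 1) = -(e.repr w 0 • L (e 0)) :=
        eq_neg_of_add_eq_zero_right hw'.symm
      have h3 : L (e 1) = (e.repr w 1)⁻¹ • (e.repr w 1 • L (e 1)) := by
        rw [smul_smul, inv_mul_cancel₀ h1, one_smul]
      rw [h3, h2, smul_neg, smul_smul, neg_smul]
      congr 2
      rw [div_eq_mul_inv, mul_comm]
  have hall : ∀ x : E, ∃ t : ℂ, L x = t • y := by
    intro x
    refine ⟨e.repr x 0 * a + e.repr x 1 * b, ?_⟩
    rw [hexp x, ha, hb, smul_smul, smul_smul, ← add_smul]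
  obtain ⟨s, hs⟩ := hall u
  obtain ⟨t, ht⟩ := hall v
  rw [hs, ht, map_smul, map_smul, smul_smul, smul_smul]
  congr 1
  simp only [smul_eq_mul]
  ring

/-- BLOCK DIR. -/
theorem dir_pr (e : Module.Basis (Fin 2) ℂ E) {F : E → V} {γ : ℂ → E} {z₀ : ℂ}
    (hF : AnalyticAt ℂ F (γ z₀)) (hγ : AnalyticAt ℂ γ z₀)
    (hr : ∀ᶠ ξ in 𝓝 (γ z₀), ∃ v, v ≠ 0 ∧ fderiv ℂ F ξ v = 0)
    (hc : ∀ᶠ z in 𝓝 z₀, fderiv ℂ F (γ z) (deriv γ z) = 0) (v : E) :
    ∃ f : ℂ → ℂ, AnalyticAt ℂ f z₀ ∧ ∀ᶠ z in 𝓝 z₀, ‖fderiv ℂ F (γ z) v‖ = ‖f z‖ := by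
  have hDan : AnalyticAt ℂ (fun z => fderiv ℂ F (γ z)) z₀ := hF.fderiv.comp hγ
  have hYan : ∀ w : E, AnalyticAt ℂ (fun z => fderiv ℂ F (γ z) w) z₀ := fun w =>
    ((ContinuousLinearMap.apply ℂ V w).analyticAt _).comp hDan
  by_cases hzero : ∀ w : E, ∀ᶠ z in 𝓝 z₀, fderiv ℂ F (γ z) w = 0
  · refine ⟨fun _ => 0, analyticAt_const, ?_⟩
    filter_upwards [hzero v] with z hz
    rw [hz, norm_zero, norm_zero]
  push Not at hzero
  obtain ⟨v₀, hv₀⟩ := hzero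
  obtain ⟨m, g, hg, hg0, hgeq⟩ :=
    (hYan v₀).exists_eventuallyEq_pow_smul_nonzero_iff.2 (not_eventually.2 hv₀)
  obtain ⟨l, -, hl⟩ := exists_dual_vector ℂ (g z₀) (norm_ne_zero_iff.2 hg0)
  have hlg0 : l (g z₀) ≠ 0 := by
    rw [hl]
    simpa using hg0
  have hlg : ∀ᶠ z in 𝓝 z₀, l (g z) ≠ 0 := by
    have h1 : ContinuousAt (fun z => l (g z)) z₀ :=
      l.continuous.continuousAt.comp hg.continuousAt
    exact h1.eventually_ne hlg0
  have hγc : Tendsto γ (𝓝 z₀) (𝓝 (γ z₀)) := hγ.continuousAt.tendsto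
  have hFe : ∀ᶠ z in 𝓝 z₀, AnalyticAt ℂ F (γ z) := hγc.eventually hF.eventually_analyticAt
  have hγe : ∀ᶠ z in 𝓝 z₀, AnalyticAt ℂ γ z := hγ.eventually_analyticAt
  have hre : ∀ᶠ z in 𝓝 z₀, ∀ᶠ ξ in 𝓝 (γ z), ∀ u v : E,
      l (fderiv ℂ F ξ u) • fderiv ℂ F ξ v = l (fderiv ℂ F ξ v) • fderiv ℂ F ξ u := by
    refine hγc.eventually (eventually_eventually_nhds.2 ?_)
    filter_upwards [hr] with ξ hξ
    exact fun u v => dir_rank e _ l hξ u v
  have hge : ∀ᶠ z in 𝓝 z₀, AnalyticAt ℂ g z := hg.eventually_analyticAt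
  have hkan : ∀ᶠ z in 𝓝 z₀, AnalyticAt ℂ (fun z => (l (g z))⁻¹ • g z) z := by
    filter_upwards [hge, hlg] with z h1 h2
    have h3 : AnalyticAt ℂ (fun z => l (g z)) z := (l.analyticAt _).comp h1
    exact (h3.inv h2).smul h1
  -- the quotient is constant
  have hall := hFe.and (hγe.and (hre.and (hlg.and (hc.and (hkan.and hgeq)))))
  obtain ⟨ε, hε, hball⟩ := Metric.eventually_nhds_iff_ball.1 hall
  have hder0 : ∀ z ∈ ball z₀ ε, z ≠ z₀ → deriv (fun z => (l (g z))⁻¹ • g z) z = 0 := by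
    intro z hz hzz
    obtain ⟨h1, h2, h3, h4, h5, h6, h7⟩ := hball z hz
    have hne : z - z₀ ≠ 0 := sub_ne_zero.2 hzz
    have hpow : (z - z₀) ^ m ≠ 0 := pow_ne_zero _ hne
    have hlY : l (fderiv ℂ F (γ z) v₀) ≠ 0 := by
      rw [h7, map_smul, smul_eq_mul]
      exact mul_ne_zero hpow h4
    have h8 := dir_deriv (v₀ := v₀) h1 h2 h3 hlY h5
    have h9 : (fun z => (l (g z))⁻¹ • g z) =ᶠ[𝓝 z]
        fun z => (l (fderiv ℂ F (γ z) v₀))⁻¹ • fderiv ℂ F (γ z) v₀ := by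
      filter_upwards [isOpen_ball.mem_nhds hz, isOpen_ne.mem_nhds hzz] with w hw hww
      obtain ⟨-, -, -, h4', -, -, h7'⟩ := hball w hw
      have hpow' : (w - z₀) ^ m ≠ 0 := pow_ne_zero _ (sub_ne_zero.2 hww)
      rw [h7', map_smul, smul_eq_mul, smul_smul, mul_inv]
      congr 1
      field_simp
    exact (h8.congr_of_eventuallyEq h9).deriv
  have hder : ∀ z ∈ ball z₀ ε, deriv (fun z => (l (g z))⁻¹ • g z) z = 0 := by
    intro z hz
    by_cases hzz : z = z₀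
    · subst hzz
      obtain ⟨-, -, -, -, -, h6, -⟩ := hball z hz
      have h10 : AnalyticAt ℂ (deriv (fun z => (l (g z))⁻¹ • g z)) z := h6.deriv
      have h11 : ∀ᶠ w in 𝓝[≠] z, deriv (fun z => (l (g z))⁻¹ • g z) w = 0 := by
        filter_upwards [mem_nhdsWithin_of_mem_nhds (isOpen_ball.mem_nhds hz),
          self_mem_nhdsWithin] with w hw hww
        exact hder0 w hw hww
      have h12 := (h10.frequently_zero_iff_eventually_zero).1 h11.frequently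
      exact h12.self_of_nhds
    · exact hder0 z hz hzz
  set c : V := (l (g z₀))⁻¹ • g z₀ with hcdef
  have hconst : ∀ z ∈ ball z₀ ε, (l (g z))⁻¹ • g z = c := by
    intro z hz
    exact isOpen_ball.is_const_of_deriv_eq_zero (convex_ball z₀ ε).isPreconnected
      (fun w hw => ((hball w hw).2.2.2.2.2.1).differentiableAt.differentiableWithinAt)
      (fun w hw => hder w hw) hz (mem_ball_self hε)
  -- away from `z₀`
  have hmain0 : ∀ z ∈ ball z₀ ε, z ≠ z₀ → fderiv ℂ F (γ z) v = l (fderiv ℂ F (γ z) v) • c := by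
    intro z hz hzz
    obtain ⟨h1, h2, h3, h4, h5, h6, h7⟩ := hball z hz
    have hpow : (z - z₀) ^ m ≠ 0 := pow_ne_zero _ (sub_ne_zero.2 hzz)
    have hlY : l (fderiv ℂ F (γ z) v₀) ≠ 0 := by
      rw [h7, map_smul, smul_eq_mul]
      exact mul_ne_zero hpow h4
    have hcY : c = (l (fderiv ℂ F (γ z) v₀))⁻¹ • fderiv ℂ F (γ z) v₀ := by
      rw [← hconst z hz, h7, map_smul, smul_eq_mul, smul_smul, mul_inv]
      congr 1
      field_simp
    have h12 := h3.self_of_nhds v₀ v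
    rw [hcY, smul_smul, mul_comm, ← smul_smul, ← h12, smul_smul, inv_mul_cancel₀ hlY, one_smul]
  have hlv : AnalyticAt ℂ (fun z => l (fderiv ℂ F (γ z) v)) z₀ := (l.analyticAt _).comp (hYan v)
  have hmain : ∀ᶠ z in 𝓝 z₀, fderiv ℂ F (γ z) v = l (fderiv ℂ F (γ z) v) • c := by
    have h13 : ∀ᶠ z in 𝓝[≠] z₀, fderiv ℂ F (γ z) v = l (fderiv ℂ F (γ z) v) • c := by
      filter_upwards [mem_nhdsWithin_of_mem_nhds (ball_mem_nhds z₀ hε),
        self_mem_nhdsWithin] with w hw hww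
      exact hmain0 w hw hww
    exact ((hYan v).frequently_eq_iff_eventually_eq (hlv.smul analyticAt_const)).1
      h13.frequently
  refine ⟨fun z => l (fderiv ℂ F (γ z) v) * (‖c‖ : ℂ), hlv.mul analyticAt_const, ?_⟩
  filter_upwards [hmain] with z hz
  rw [norm_mul, Complex.norm_real, norm_norm]
  conv_lhs => rw [hz]
  rw [norm_smul]

end pure

end Pool.Agent.KZ

namespace Pool.Agent.KZ

alias dir := dir_pr

end Pool.Agent.KZ
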