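import Pool.Agent.Lib_helper82.KZ.Defs
import Pool.Agent.Lib_helper82.KZ.P.NW1

set_option autoImplicit false

open Filter Topology Metric Set
open scoped Manifold ContDiff

namespace Pool.Agent.KZ

open Pool.Agent.BR Pool.Agent.MBS Pool.Agent.SL Pool.Agent.IS

section charts

variable {E X : Type} [NormedAddCommGroup E] [NormedSpace ℂ E] [FiniteDimensional ℂ E]
  [MetricSpace X] {A : Cha E X} {ρ : X → X → ℝ}

variable {h : ℂ → X}

/-- HC1: the velocity is in the kernel (uses NW1) -/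
theorem kills_pr (hρ : FD A ρ) (hh : ∀ z, A.HolAt h z) (hN : NA ρ h) {z : ℂ} {i : A.ι}
    (hi : h z ∈ (A.ch i).source) : nw A ρ i (h z) (deriv (A.loc i h) z) = 0 := by
  obtain ⟨V, _, _, _, F, O, hx, hF⟩ := hρ (h z)
  rw [nw_mod hF hx hi, norm_eq_zero]
  have h1 : HasDerivAt (A.loc i h) (deriv (A.loc i h) z) z :=
    ((hh z).2 i hi).differentiableAt.hasDerivAt
  have h2 : HasFDerivAt (fun ξ => F ((A.ch i).symm ξ))
      (fderiv ℂ (fun ξ => F ((A.ch i).symm ξ)) (A.ch i (h z))) (A.loc i h z) :=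
    (hF.an _ hx i hi).differentiableAt.hasFDerivAt
  have h3 := h2.comp_hasDerivAt z h1
  have h4 : ((fun ξ => F ((A.ch i).symm ξ)) ∘ A.loc i h) =ᶠ[𝓝 z] fun _ => F (h z) := by
    have h5 := (hh z).1.eventually ((hF.op.inter (A.ch i).open_source).mem_nhds ⟨hx, hi⟩)
    filter_upwards [h5, hN z] with w hw hw0
    have h6 : F ((A.ch i).symm (A.ch i (h w))) = F (h w) := by rw [(A.ch i).left_inv hw.2]
    show F ((A.ch i).symm (A.ch i (h w))) = F (h z)
    rw [h6]
    rw [hF.eq _ hx _ hw.1, norm_eq_zero, sub_eq_zero] at hw0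
    exact hw0.symm
  have h5 := h4.deriv_eq
  rw [h3.deriv, deriv_const] at h5
  exact h5

end charts

end Pool.Agent.KZ

namespace Pool.Agent.KZ

alias kills := kills_pr

end Pool.Agent.KZ
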