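import Pool.Agent.Lib_helper82.KZ.Defs
import Pool.Agent.Lib_helper82.KZ.P.NW1
import Pool.Agent.Lib_helper82.KZ.P.HC1

/-! # Flat distances on surfaces, block HC2 (helper25) -/

set_option autoImplicit false
set_option linter.unusedVariables false
set_option linter.unusedSectionVars false

open Filter Topology Metric Set
open scoped Manifold ContDiff

namespace Pool.Agent.KZ

open Pool.Agent.BR Pool.Agent.MBS Pool.Agent.SL Pool.Agent.IS

section charts

variable {E X : Type} [NormedAddCommGroup E] [NormedSpace ℂ E] [FiniteDimensional ℂ E]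
  [MetricSpace X] {A : Cha E X} {ρ : X → X → ℝ}

variable {h : ℂ → X}

/-- a curve which is constant near one point is constant -/
theorem hc2_const (hh : ∀ z, A.HolAt h z) {z₀ : ℂ} {x₀ : X} (h0 : ∀ᶠ z in 𝓝 z₀, h z = x₀) (z : ℂ) :
    h z = x₀ := by
  have hcont : Continuous h := continuous_iff_continuousAt.2 fun z => (hh z).1
  set S : Set ℂ := {z | ∀ᶠ w in 𝓝 z, h w = x₀} with hS
  have hSo : IsOpen S := by
    rw [isOpen_iff_mem_nhds]
    intro z hz
    exact eventually_eventually_nhds.2 hz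
  have hSs : S ⊆ {z | h z = x₀} := fun z hz => Filter.Eventually.self_of_nhds hz
  have hcl : IsClosed {z | h z = x₀} := isClosed_eq hcont continuous_const
  have hSc : IsClosed S := by
    refine isClosed_of_closure_subset fun z hz => ?_
    have hzx : h z = x₀ := closure_minimal hSs hcl hz
    by_contra hzS
    obtain ⟨i, hi⟩ := A.cover (h z)
    have hs : h z ∈ (A.ch i).source := A.W_sub i (subset_closure hi)
    have h5 : ∀ᶠ w in 𝓝 z, h w ∈ (A.ch i).source :=
      (hh z).1.eventually ((A.ch i).open_source.mem_nhds hs)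
    have ha : AnalyticAt ℂ (A.loc i h) z := (hh z).2 i hs
    have hc : AnalyticAt ℂ (fun _ : ℂ => A.ch i x₀) z := analyticAt_const
    rcases ha.eventually_eq_or_eventually_ne hc with h1 | h1
    · apply hzS
      filter_upwards [h1, h5] with w h1 h5
      have h6 : x₀ ∈ (A.ch i).source := by rw [← hzx]; exact hs
      exact (A.ch i).injOn h5 h6 h1
    · obtain ⟨V, hVo, hzV, hV⟩ := mem_nhdsWithin.1 h1
      obtain ⟨w, hwV, hwS⟩ := mem_closure_iff.1 hz V hVo hzV
      have hwz : w ≠ z := by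
        rintro rfl
        exact hzS hwS
      have h7 : h w = x₀ := hSs hwS
      have h8 : A.loc i h w ≠ A.ch i x₀ := hV ⟨hwV, hwz⟩
      exact h8 (by rw [Cha.loc, h7])
  have hu : S = univ := IsClopen.eq_univ ⟨hSc, hSo⟩ ⟨z₀, h0⟩
  have : z ∈ S := by rw [hu]; trivial
  exact hSs this

/-- HC2: the curve is in the set of rank at most one -/
theorem in_rs_pr (hρ : FD A ρ) (e : Module.Basis (Fin 2) ℂ E) (hh : ∀ z, A.HolAt h z) (hN : NA ρ h)
    (hne : ∃ z z', h z ≠ h z') : ∀ z, h z ∈ RS A ρ := by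
  have : CompleteSpace E := FiniteDimensional.complete ℂ E
  intro z i hi
  have ha : AnalyticAt ℂ (A.loc i h) z := (hh z).2 i hi
  have hsrc : ∀ᶠ w in 𝓝 z, h w ∈ (A.ch i).source :=
    (hh z).1.eventually ((A.ch i).open_source.mem_nhds hi)
  -- the derivative is not locally zero
  have hd : ¬ ∀ᶠ w in 𝓝 z, deriv (A.loc i h) w = 0 := by
    intro h0
    obtain ⟨r, hr, hball⟩ := Metric.eventually_nhds_iff_ball.1
      (h0.and (ha.eventually_analyticAt.and hsrc))
    have h1 : ∀ w ∈ ball z r, A.loc i h w = A.loc i h z := by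
      intro w hw
      refine IsOpen.is_const_of_deriv_eq_zero isOpen_ball (convex_ball z r).isPreconnected ?_ ?_
        hw (mem_ball_self hr)
      · exact fun v hv => (hball v hv).2.1.differentiableAt.differentiableWithinAt
      · exact fun v hv => (hball v hv).1
    have h2 : ∀ᶠ w in 𝓝 z, h w = h z := by
      filter_upwards [ball_mem_nhds z hr] with w hw
      exact (A.ch i).injOn (hball w hw).2.2 hi (h1 w hw)
    obtain ⟨a, b, hab⟩ := hne
    exact hab ((hc2_const hh h2 a).trans (hc2_const hh h2 b).symm)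
  obtain ⟨n, g, hg, hg0, hgn⟩ := ha.deriv.exists_eventuallyEq_pow_smul_nonzero_iff.2 hd
  -- the local model
  obtain ⟨V, i1, i2, i3, F, O, hO, hF⟩ := hρ (h z)
  have hOn : ∀ᶠ w in 𝓝 z, h w ∈ O := (hh z).1.eventually (hF.op.mem_nhds hO)
  have hG : AnalyticAt ℂ (fun ξ => F ((A.ch i).symm ξ)) (A.ch i (h z)) := hF.an _ hO i hi
  refine ⟨g z, hg0, ?_⟩
  rw [nw_mod hF hO hi, norm_eq_zero]
  have h1 : ∀ᶠ w in 𝓝[≠] z,
      fderiv ℂ (fun ξ => F ((A.ch i).symm ξ)) (A.loc i h w) (g w) = 0 := by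
    have h2 : ∀ᶠ w in 𝓝[≠] z, w ≠ z := eventually_mem_nhdsWithin
    filter_upwards [h2, hsrc.filter_mono nhdsWithin_le_nhds, hOn.filter_mono nhdsWithin_le_nhds,
      hgn.filter_mono nhdsWithin_le_nhds] with w hwz hws hwO hwg
    have h3 := kills hρ hh hN hws
    rw [nw_mod hF hwO hws, norm_eq_zero, hwg, map_smul, smul_eq_zero] at h3
    rcases h3 with h3 | h3
    · exact absurd h3 (pow_ne_zero _ (sub_ne_zero.2 hwz))
    · exact h3
  have h2 : ContinuousAt (fun w => fderiv ℂ (fun ξ => F ((A.ch i).symm ξ)) (A.loc i h w) (g w)) z := by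
    have h3 : ContinuousAt (fderiv ℂ (fun ξ => F ((A.ch i).symm ξ))) (A.loc i h z) :=
      hG.fderiv.continuousAt
    have h4 : ContinuousAt (fun w => fderiv ℂ (fun ξ => F ((A.ch i).symm ξ)) (A.loc i h w)) z :=
      ContinuousAt.comp (f := A.loc i h) (g := fderiv ℂ (fun ξ => F ((A.ch i).symm ξ))) h3
        ha.continuousAt
    exact h4.clm_apply hg.continuousAt
  have h3 : Tendsto (fun w => fderiv ℂ (fun ξ => F ((A.ch i).symm ξ)) (A.loc i h w) (g w))
      (𝓝[≠] z) (𝓝 (fderiv ℂ (fun ξ => F ((A.ch i).symm ξ)) (A.loc i h z) (g z))) :=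
    h2.tendsto.mono_left nhdsWithin_le_nhds
  have h4 : Tendsto (fun w => fderiv ℂ (fun ξ => F ((A.ch i).symm ξ)) (A.loc i h w) (g w))
      (𝓝[≠] z) (𝓝 0) := by
    refine Tendsto.congr' ?_ tendsto_const_nhds
    filter_upwards [h1] with w hw
    exact hw.symm
  exact tendsto_nhds_unique h3 h4

end charts

end Pool.Agent.KZ

namespace Pool.Agent.KZ

alias in_rs := in_rs_pr

end Pool.Agent.KZ
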