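import Pool.Agent.Lib_helper82.KZ.Defs
import Pool.Agent.Lib_helper82.KZ.P.NW1
import Pool.Agent.Lib_helper82.KZ.P.NW2

/-! # Project KZ, block HC3 (helper42): the curve meets the zero set in isolated points
(uses NW1, NW2) -/

set_option autoImplicit false
set_option linter.unusedVariables false
set_option linter.unusedSectionVars false

open Filter Topology Metric Set
open scoped Manifold ContDiff

namespace Pool.Agent.KZ

open Pool.Agent.BR Pool.Agent.MBS Pool.Agent.SL Pool.Agent.IS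

section charts

variable {E X : Type} [NormedAddCommGroup E] [NormedSpace ℂ E] [FiniteDimensional ℂ E]
  [MetricSpace X] {A : Cha E X} {ρ : X → X → ℝ} {h : ℂ → X}

/-- membership in the zero set, in a local model -/
theorem hc3_mem (hρ : FD A ρ) {V : Type} [NormedAddCommGroup V] [NormedSpace ℂ V] {O : Set X}
    {F : X → V} (hF : Mod A ρ O F) {x : X} (hx : x ∈ O) {i : A.ι}
    (hi : x ∈ (A.ch i).source) :
    x ∈ ZS A ρ ↔ fderiv ℂ (fun ξ => F ((A.ch i).symm ξ)) (A.ch i x) = 0 := by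
  constructor
  · intro h1
    ext v
    have h2 := h1 i hi v
    rw [nw_mod hF hx hi] at h2
    rw [norm_eq_zero.1 h2]
    rfl
  · intro h1 j hj v
    rw [nw_tr hρ hj hi, nw_mod hF hx hi, h1, zero_apply, norm_zero]

theorem zh_disc_pr (hρ : FD A ρ) (hh : ∀ z, A.HolAt h z) (hne : ∃ z, h z ∉ ZS A ρ) (z₀ : ℂ) :
    ∀ᶠ z in 𝓝[≠] z₀, h z ∉ ZS A ρ := by
  -- the local statement
  have key : ∀ z, (∃ᶠ w in 𝓝[≠] z, h w ∈ ZS A ρ) → ∀ᶠ w in 𝓝 z, h w ∈ ZS A ρ := by
    intro z hq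
    obtain ⟨i, hi⟩ := A.cover (h z)
    have hi' : h z ∈ (A.ch i).source := A.W_sub i (subset_closure hi)
    obtain ⟨V, _, _, _, F, O, hzO, hF⟩ := hρ (h z)
    have hs : ∀ᶠ w in 𝓝 z, h w ∈ (A.ch i).source ∧ h w ∈ O :=
      ((hh z).1.eventually ((A.ch i).open_source.mem_nhds hi')).and
        ((hh z).1.eventually (hF.op.mem_nhds hzO))
    have hf : AnalyticAt ℂ
        (fun w => fderiv ℂ (fun ξ => F ((A.ch i).symm ξ)) (A.loc i h w)) z := by
      have h1 : AnalyticAt ℂ (fderiv ℂ (fun ξ => F ((A.ch i).symm ξ))) (A.loc i h z) :=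
        (hF.an (h z) hzO i hi').fderiv
      exact h1.fun_comp ((hh z).2 i hi')
    rcases hf.eventually_eq_zero_or_eventually_ne_zero with h2 | h2
    · filter_upwards [h2, hs] with w hw hw'
      exact (hc3_mem hρ hF hw'.2 hw'.1).2 hw
    · exfalso
      obtain ⟨w, hw1, hw2, hw3⟩ :=
        (hq.and_eventually (h2.and (hs.filter_mono nhdsWithin_le_nhds))).exists
      exact hw2 ((hc3_mem hρ hF hw3.2 hw3.1).1 hw1)
  have hopen : IsOpen {z | ∀ᶠ w in 𝓝 z, h w ∈ ZS A ρ} :=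
    isOpen_setOfPred_eventually_nhds
  have hclosed : IsClosed {z | ∀ᶠ w in 𝓝 z, h w ∈ ZS A ρ} := by
    rw [← closure_subset_iff_isClosed]
    intro z hzc
    by_contra hzn
    apply hzn
    refine key z ?_
    have h3 := mem_closure_iff_frequently.1 hzc
    rw [frequently_nhdsWithin_iff]
    refine h3.mono fun w hw => ⟨?_, ?_⟩
    · exact hw.self_of_nhds
    · rintro rfl
      exact hzn hw
  by_contra hno
  have huniv := IsClopen.eq_univ ⟨hclosed, hopen⟩ ⟨z₀, key z₀ (by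
    rw [Filter.Frequently]
    exact hno)⟩
  obtain ⟨z, hz⟩ := hne
  have h4 : z ∈ {z | ∀ᶠ w in 𝓝 z, h w ∈ ZS A ρ} := by
    rw [huniv]
    exact mem_univ z
  have h5 : ∀ᶠ w in 𝓝 z, h w ∈ ZS A ρ := h4
  exact hz h5.self_of_nhds

end charts

end Pool.Agent.KZ

namespace Pool.Agent.KZ

alias zh_disc := zh_disc_pr

end Pool.Agent.KZ
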