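import Pool.Agent.Lib_helper82.KZ.Defs
import Pool.Agent.Lib_helper82.KZ.P.HC3
import Pool.Agent.Lib_helper82.KZ.P.DIR
import Pool.Agent.Lib_helper82.KZ.P.NW1
import Pool.Agent.Lib_helper82.KZ.P.NW2
import Pool.Agent.Lib_helper82.KZ.P.HC1

/-! # Flat distances on surfaces, block LM1 (helper51) -/

set_option autoImplicit false
set_option linter.unusedVariables false
set_option linter.unusedSectionVars false

open Filter Topology Metric Set
open scoped Manifold ContDiff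

namespace Pool.Agent.KZ

open Pool.Agent.BR Pool.Agent.MBS Pool.Agent.SL Pool.Agent.IS

/-- the quotient of two analytic functions -/
theorem lm1_quot {z₀ : ℂ} {L : ℂ → ℝ} {b f : ℂ → ℂ} (hb : AnalyticAt ℂ b z₀)
    (hf : AnalyticAt ℂ f z₀) (hL : ∀ᶠ z in 𝓝 z₀, f z ≠ 0 → L z = ‖b z‖ / ‖f z‖)
    (hb0 : ∀ᶠ z in 𝓝[≠] z₀, f z ≠ 0 → b z ≠ 0) (hf0 : ∀ᶠ z in 𝓝[≠] z₀, f z ≠ 0) {P : Prop}
    (hP : P → f z₀ ≠ 0) :
    ∃ r : ℂ → ℂ, MeromorphicAt r z₀ ∧ (∀ᶠ z in 𝓝[≠] z₀, r z ≠ 0 ∧ L z = ‖r z‖) ∧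
      (P → AnalyticAt ℂ r z₀ ∧ L z₀ = ‖r z₀‖) := by
  refine ⟨fun z => b z / f z, hb.meromorphicAt.div hf.meromorphicAt, ?_, ?_⟩
  · filter_upwards [hL.filter_mono nhdsWithin_le_nhds, hb0, hf0] with z h1 h2 h3
    exact ⟨div_ne_zero (h2 h3) h3, by rw [norm_div]; exact h1 h3⟩
  · intro h
    refine ⟨hb.fun_div hf (hP h), ?_⟩
    show L z₀ = ‖b z₀ / f z₀‖
    rw [norm_div]
    exact hL.self_of_nhds (hP h)

/-- the algebra of the relation `a w₀ + b w₁ = 0` -/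
theorem lm1_alg {p q s t : ℝ} (hp : 0 ≤ p) (hq : 0 ≤ q) (hs : 0 ≤ s) (ht : 0 ≤ t)
    (h : p * s = q * t) (h0 : s ≠ 0) : (p + q) / (s + t) = q / s := by
  have h1 : 0 < s := lt_of_le_of_ne hs (Ne.symm h0)
  have h2 : s + t ≠ 0 := by positivity
  rw [div_eq_div_iff h2 h0]
  linear_combination h

section charts

variable {E X : Type} [NormedAddCommGroup E] [NormedSpace ℂ E] [FiniteDimensional ℂ E]
  [MetricSpace X] {A : Cha E X} {ρ : X → X → ℝ}

variable {h : ℂ → X}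

/-- a curve which is constant near one point is constant -/
theorem lm1_const (hh : ∀ z, A.HolAt h z) {z₀ : ℂ} {x₀ : X} (h0 : ∀ᶠ z in 𝓝 z₀, h z = x₀) (z : ℂ) :
    h z = x₀ := by
  have hcont : Continuous h := continuous_iff_continuousAt.2 fun z => (hh z).1
  set S : Set ℂ := {z | ∀ᶠ w in 𝓝 z, h w = x₀} with hS
  have hSo : IsOpen S := by
    rw [isOpen_iff_mem_nhds]
    intro z hz
    exact eventually_eventually_nhds.2 hz
  have hSs : S ⊆ {z | h z = x₀} := fun z hz => Filter.Eventually.self_of_nhds hz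
  have hcl : IsClosed {z | h z = x₀} := isClosed_eq hcont continuous_const
  have hSc : IsClosed S := by
    refine isClosed_of_closure_subset fun z hz => ?_
    have hzx : h z = x₀ := closure_minimal hSs hcl hz
    by_contra hzS
    obtain ⟨i, hi⟩ := A.cover (h z)
    have hs : h z ∈ (A.ch i).source := A.W_sub i (subset_closure hi)
    have h5 : ∀ᶠ w in 𝓝 z, h w ∈ (A.ch i).source :=
      (hh z).1.eventually ((A.ch i).open_source.mem_nhds hs)
    have ha : AnalyticAt ℂ (A.loc i h) z := (hh z).2 i hs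
    have hc : AnalyticAt ℂ (fun _ : ℂ => A.ch i x₀) z := analyticAt_const
    rcases ha.eventually_eq_or_eventually_ne hc with h1 | h1
    · apply hzS
      filter_upwards [h1, h5] with w h1 h5
      have h6 : x₀ ∈ (A.ch i).source := by rw [← hzx]; exact hs
      exact (A.ch i).injOn h5 h6 h1
    · obtain ⟨V, hVo, hzV, hV⟩ := mem_nhdsWithin.1 h1
      obtain ⟨w, hwV, hwS⟩ := mem_closure_iff.1 hz V hVo hzV
      have hwz : w ≠ z := by
        rintro rfl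
        exact hzS hwS
      have h7 : h w = x₀ := hSs hwS
      have h8 : A.loc i h w ≠ A.ch i x₀ := hV ⟨hwV, hwz⟩
      exact h8 (by rw [Cha.loc, h7])
  have hu : S = univ := IsClopen.eq_univ ⟨hSc, hSo⟩ ⟨z₀, h0⟩
  have : z ∈ S := by rw [hu]; trivial
  exact hSs this

/-- the velocity of a nonconstant curve has isolated zeros -/
theorem lm1_vel (hh : ∀ z, A.HolAt h z) (hne : ∃ z z', h z ≠ h z') {z : ℂ} {i : A.ι}
    (hi : h z ∈ (A.ch i).source) : ∀ᶠ w in 𝓝[≠] z, deriv (A.loc i h) w ≠ 0 := by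
  have : CompleteSpace E := FiniteDimensional.complete ℂ E
  have ha : AnalyticAt ℂ (A.loc i h) z := (hh z).2 i hi
  have hsrc : ∀ᶠ w in 𝓝 z, h w ∈ (A.ch i).source :=
    (hh z).1.eventually ((A.ch i).open_source.mem_nhds hi)
  refine ha.deriv.eventually_eq_zero_or_eventually_ne_zero.resolve_left ?_
  intro h0
  obtain ⟨r, hr, hball⟩ := Metric.eventually_nhds_iff_ball.1
    (h0.and (ha.eventually_analyticAt.and hsrc))
  have h1 : ∀ w ∈ ball z r, A.loc i h w = A.loc i h z := by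
    intro w hw
    refine IsOpen.is_const_of_deriv_eq_zero isOpen_ball (convex_ball z r).isPreconnected ?_ ?_
      hw (mem_ball_self hr)
    · exact fun v hv => (hball v hv).2.1.differentiableAt.differentiableWithinAt
    · exact fun v hv => (hball v hv).1
  have h2 : ∀ᶠ w in 𝓝 z, h w = h z := by
    filter_upwards [ball_mem_nhds z hr] with w hw
    exact (A.ch i).injOn (hball w hw).2.2 hi (h1 w hw)
  obtain ⟨a, b, hab⟩ := hne
  exact hab ((lm1_const hh h2 a).trans (lm1_const hh h2 b).symm)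

/-- membership in the zero set, in one chart -/
theorem lm1_mem (e : Module.Basis (Fin 2) ℂ E) (hρ : FD A ρ) {V : Type} [NormedAddCommGroup V]
    [NormedSpace ℂ V] {O : Set X} {F : X → V} (hF : Mod A ρ O F) {x : X} (hx : x ∈ O) {i : A.ι}
    (hi : x ∈ (A.ch i).source)
    (h0 : fderiv ℂ (fun ξ => F ((A.ch i).symm ξ)) (A.ch i x) (e 0) = 0)
    (h1 : fderiv ℂ (fun ξ => F ((A.ch i).symm ξ)) (A.ch i x) (e 1) = 0) : x ∈ ZS A ρ := by
  have h2 : ∀ v, fderiv ℂ (fun ξ => F ((A.ch i).symm ξ)) (A.ch i x) v = 0 := by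
    intro v
    have h3 := e.sum_repr v
    rw [Fin.sum_univ_two] at h3
    rw [← h3, map_add, map_smul, map_smul, h0, h1, smul_zero, smul_zero, add_zero]
  intro j hj v
  rw [nw_tr hρ hj hi v, nw_mod hF hx hi, h2, norm_zero]

/-- BLOCK LM1. -/
theorem lam_loc_pr (hρ : FD A ρ) (e : Module.Basis (Fin 2) ℂ E) (hR : ∀ x, x ∈ RS A ρ)
    (hh : ∀ z, A.HolAt h z) (hN : NA ρ h) (hne : ∃ z z', h z ≠ h z') (hz : ∃ z, h z ∉ ZS A ρ)
    {z₀ : ℂ} {i : A.ι} (hi : h z₀ ∈ (A.ch i).source) :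
    ∃ r : ℂ → ℂ, MeromorphicAt r z₀ ∧
      (∀ᶠ z in 𝓝[≠] z₀, r z ≠ 0 ∧ lam A e ρ h i z = ‖r z‖) ∧
      (h z₀ ∉ ZS A ρ → AnalyticAt ℂ r z₀ ∧ lam A e ρ h i z₀ = ‖r z₀‖) := by
  obtain ⟨V, _, _, _, F, O, hxO, hF⟩ := hρ (h z₀)
  set G : E → V := fun ξ => F ((A.ch i).symm ξ) with hGdef
  set γ : ℂ → E := A.loc i h with hγdef
  have hG : AnalyticAt ℂ G (γ z₀) := hF.an _ hxO i hi
  have hγ : AnalyticAt ℂ γ z₀ := (hh z₀).2 i hi
  have hsrc : ∀ᶠ z in 𝓝 z₀, h z ∈ (A.ch i).source :=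
    (hh z₀).1.eventually ((A.ch i).open_source.mem_nhds hi)
  have hOn : ∀ᶠ z in 𝓝 z₀, h z ∈ O := (hh z₀).1.eventually (hF.op.mem_nhds hxO)
  have hnw : ∀ᶠ z in 𝓝 z₀, ∀ v, nw A ρ i (h z) v = ‖fderiv ℂ G (γ z) v‖ := by
    filter_upwards [hsrc, hOn] with z h1 h2 v
    exact nw_mod hF h2 h1 v
  -- the rank
  have hr : ∀ᶠ ξ in 𝓝 (γ z₀), ∃ v, v ≠ 0 ∧ fderiv ℂ G ξ v = 0 := by
    have h1 : ContinuousAt (A.ch i).symm (A.ch i (h z₀)) :=
      (A.ch i).continuousAt_symm ((A.ch i).map_source hi)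
    have h2 : ∀ᶠ ξ in 𝓝 (A.ch i (h z₀)), (A.ch i).symm ξ ∈ O := by
      refine h1.eventually ?_
      rw [(A.ch i).left_inv hi]
      exact hF.op.mem_nhds hxO
    have h3 : ∀ᶠ ξ in 𝓝 (A.ch i (h z₀)), ξ ∈ (A.ch i).target :=
      (A.ch i).open_target.mem_nhds ((A.ch i).map_source hi)
    filter_upwards [h2, h3] with ξ h4 h5
    obtain ⟨v, hv, h6⟩ := hR ((A.ch i).symm ξ) i ((A.ch i).map_target h5)
    rw [nw_mod hF h4 ((A.ch i).map_target h5), norm_eq_zero, (A.ch i).right_inv h5] at h6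
    exact ⟨v, hv, h6⟩
  have hc : ∀ᶠ z in 𝓝 z₀, fderiv ℂ G (γ z) (deriv γ z) = 0 := by
    filter_upwards [hsrc, hnw] with z h1 h2
    have h3 := kills hρ hh hN h1
    rw [h2, norm_eq_zero] at h3
    exact h3
  obtain ⟨f₀, hf₀, hf₀'⟩ := dir e hG hγ hr hc (e 0)
  obtain ⟨f₁, hf₁, hf₁'⟩ := dir e hG hγ hr hc (e 1)
  -- the coordinates of the velocity
  have hcoord : ∀ k : Fin 2, AnalyticAt ℂ (fun z => e.repr (deriv γ z) k) z₀ := by
    intro k
    have h1 : AnalyticAt ℂ (deriv γ) z₀ := by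
      have : CompleteSpace E := FiniteDimensional.complete ℂ E
      exact hγ.deriv
    exact ((LinearMap.toContinuousLinearMap (e.coord k)).analyticAt _).comp h1
  have hrel : ∀ᶠ z in 𝓝 z₀, e.repr (deriv γ z) 0 • fderiv ℂ G (γ z) (e 0) +
      e.repr (deriv γ z) 1 • fderiv ℂ G (γ z) (e 1) = 0 := by
    filter_upwards [hc] with z h1
    have h2 := e.sum_repr (deriv γ z)
    rw [Fin.sum_univ_two] at h2
    rw [← h2, map_add, map_smul, map_smul] at h1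
    exact h1
  have hnorm : ∀ᶠ z in 𝓝 z₀, ‖e.repr (deriv γ z) 0‖ * ‖f₀ z‖ = ‖e.repr (deriv γ z) 1‖ * ‖f₁ z‖ := by
    filter_upwards [hrel, hf₀', hf₁'] with z h1 h2 h3
    rw [← h2, ← h3, ← norm_smul, ← norm_smul, eq_neg_of_add_eq_zero_left h1, norm_neg]
  have hlam : ∀ᶠ z in 𝓝 z₀, lam A e ρ h i z =
      (‖e.repr (deriv γ z) 0‖ + ‖e.repr (deriv γ z) 1‖) / (‖f₀ z‖ + ‖f₁ z‖) := by
    filter_upwards [hnw, hf₀', hf₁'] with z h1 h2 h3
    show (‖e.repr (deriv (A.loc i h) z) 0‖ + ‖e.repr (deriv (A.loc i h) z) 1‖) /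
      (nw A ρ i (h z) (e 0) + nw A ρ i (h z) (e 1)) = _
    rw [h1, h1, h2, h3]
  have hvel : ∀ᶠ z in 𝓝[≠] z₀, e.repr (deriv γ z) 0 = 0 → e.repr (deriv γ z) 1 ≠ 0 := by
    filter_upwards [lm1_vel hh hne hi] with z h1 h2 h3
    apply h1
    have h4 := e.sum_repr (deriv γ z)
    rw [Fin.sum_univ_two, h2, h3, zero_smul, zero_smul, add_zero] at h4
    exact h4.symm
  -- the zero set
  have hZ : ∀ᶠ z in 𝓝 z₀, f₀ z = 0 → f₁ z = 0 → h z ∈ ZS A ρ := by
    filter_upwards [hsrc, hOn, hf₀', hf₁'] with z h1 h2 h3 h4 h5 h6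
    rw [h5, norm_zero, norm_eq_zero] at h3
    rw [h6, norm_zero, norm_eq_zero] at h4
    exact lm1_mem e hρ hF h2 h1 h3 h4
  -- the two cases
  have case0 : (∀ᶠ z in 𝓝[≠] z₀, f₀ z ≠ 0) → (h z₀ ∉ ZS A ρ → f₀ z₀ ≠ 0) →
      ∃ r : ℂ → ℂ, MeromorphicAt r z₀ ∧
        (∀ᶠ z in 𝓝[≠] z₀, r z ≠ 0 ∧ lam A e ρ h i z = ‖r z‖) ∧
        (h z₀ ∉ ZS A ρ → AnalyticAt ℂ r z₀ ∧ lam A e ρ h i z₀ = ‖r z₀‖) := by
    intro h1 h2
    refine lm1_quot (hcoord 1) hf₀ ?_ ?_ h1 h2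
    · filter_upwards [hlam, hnorm] with z h3 h4 h5
      rw [h3]
      exact lm1_alg (norm_nonneg _) (norm_nonneg _) (norm_nonneg _) (norm_nonneg _) h4
        (norm_ne_zero_iff.2 h5)
    · filter_upwards [hnorm.filter_mono nhdsWithin_le_nhds, hvel] with z h3 h4 h5 h6
      rw [h6, norm_zero, zero_mul, mul_eq_zero, norm_eq_zero, norm_eq_zero] at h3
      rcases h3 with h3 | h3
      · exact h4 h3 h6
      · exact h5 h3
  have case1 : (∀ᶠ z in 𝓝[≠] z₀, f₁ z ≠ 0) → (h z₀ ∉ ZS A ρ → f₁ z₀ ≠ 0) →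
      ∃ r : ℂ → ℂ, MeromorphicAt r z₀ ∧
        (∀ᶠ z in 𝓝[≠] z₀, r z ≠ 0 ∧ lam A e ρ h i z = ‖r z‖) ∧
        (h z₀ ∉ ZS A ρ → AnalyticAt ℂ r z₀ ∧ lam A e ρ h i z₀ = ‖r z₀‖) := by
    intro h1 h2
    refine lm1_quot (hcoord 0) hf₁ ?_ ?_ h1 h2
    · filter_upwards [hlam, hnorm] with z h3 h4 h5
      rw [h3, add_comm (‖e.repr (deriv γ z) 0‖), add_comm (‖f₀ z‖)]
      exact lm1_alg (norm_nonneg _) (norm_nonneg _) (norm_nonneg _) (norm_nonneg _) h4.symm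
        (norm_ne_zero_iff.2 h5)
    · filter_upwards [hnorm.filter_mono nhdsWithin_le_nhds, hvel] with z h3 h4 h5 h6
      rw [h6, norm_zero, zero_mul, eq_comm, mul_eq_zero, norm_eq_zero, norm_eq_zero] at h3
      rcases h3 with h3 | h3
      · exact h4 h6 h3
      · exact h5 h3
  by_cases hc0 : f₀ z₀ = 0
  · by_cases hc1 : f₁ z₀ = 0
    · have hz0 : h z₀ ∈ ZS A ρ := hZ.self_of_nhds hc0 hc1
      rcases hf₀.eventually_eq_zero_or_eventually_ne_zero with h0 | h0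
      · rcases hf₁.eventually_eq_zero_or_eventually_ne_zero with h1 | h1
        · exfalso
          have h2 : ∀ᶠ z in 𝓝[≠] z₀, False := by
            filter_upwards [zh_disc hρ hh hz z₀, hZ.filter_mono nhdsWithin_le_nhds,
              h0.filter_mono nhdsWithin_le_nhds, h1.filter_mono nhdsWithin_le_nhds] with z h3 h4 h5 h6
            exact h3 (h4 h5 h6)
          rw [eventually_const] at h2
          exact h2
        · exact case1 h1 (fun h2 => absurd hz0 h2)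
      · exact case0 h0 (fun h2 => absurd hz0 h2)
    · exact case1 ((hf₁.continuousAt.eventually_ne hc1).filter_mono nhdsWithin_le_nhds)
        (fun _ => hc1)
  · exact case0 ((hf₀.continuousAt.eventually_ne hc0).filter_mono nhdsWithin_le_nhds)
      (fun _ => hc0)

end charts

end Pool.Agent.KZ

namespace Pool.Agent.KZ

alias lam_loc := lam_loc_pr

end Pool.Agent.KZ
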