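import Pool.Agent.Lib_helper82.KZ.Defs
import Pool.Agent.Lib_helper82.KZ.P.NW1
import Pool.Agent.Lib_helper82.KZ.P.NW2
import Pool.Agent.Lib_helper82.KZ.P.HC1

/-! # Project KZ, block LM2 (helper42): change of charts for `lam` (uses NW1, NW2, HC1) -/

set_option autoImplicit false
set_option linter.unusedVariables false
set_option linter.unusedSectionVars false

open Filter Topology Metric Set
open scoped Manifold ContDiff

namespace Pool.Agent.KZ

open Pool.Agent.BR Pool.Agent.MBS Pool.Agent.SL Pool.Agent.IS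

section pure

variable {E : Type} [NormedAddCommGroup E] [NormedSpace ℂ E]

/-- the determinant of two vectors in the basis `e` -/
noncomputable def lm2_om (e : Module.Basis (Fin 2) ℂ E) (v u : E) : ℂ :=
  e.repr v 0 * e.repr u 1 - e.repr v 1 * e.repr u 0

theorem lm2_cramer (e : Module.Basis (Fin 2) ℂ E) (v u u₀ : E) :
    lm2_om e v u₀ • u = lm2_om e v u • u₀ + lm2_om e u u₀ • v := by
  apply e.repr.injective
  ext k
  fin_cases k
  · simp [lm2_om]
    ring
  · simp [lm2_om]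
    ring

theorem lm2_det (e : Module.Basis (Fin 2) ℂ E) (D : E →ₗ[ℂ] E) (v u : E) :
    lm2_om e (D v) (D u) = LinearMap.det D * lm2_om e v u := by
  have h1 : ∀ v u : E, lm2_om e v u = e.det ![v, u] := by
    intro v u
    rw [Module.Basis.det_apply, Matrix.det_fin_two, Module.Basis.toMatrix_apply,
      Module.Basis.toMatrix_apply, Module.Basis.toMatrix_apply, Module.Basis.toMatrix_apply]
    simp only [lm2_om, Matrix.cons_val_zero, Matrix.cons_val_one]
    ring
  have h2 := Module.Basis.det_comp e D ![v, u]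
  have h3 : (⇑D ∘ ![v, u]) = ![D v, D u] := by
    ext l
    fin_cases l <;> rfl
  rw [h3] at h2
  rw [h1, h1, h2]

/-- a linear map of the plane with a kernel -/
theorem lm2_norm (e : Module.Basis (Fin 2) ℂ E) {V : Type} [NormedAddCommGroup V]
    [NormedSpace ℂ V] (L : E →L[ℂ] V) {v u₀ : E} (h0 : lm2_om e v u₀ ≠ 0) (hv : L v = 0) :
    ∀ u, ‖L u‖ = ‖lm2_om e v u‖ * (‖L u₀‖ / ‖lm2_om e v u₀‖) := by
  intro u
  have h1 : lm2_om e v u₀ • L u = lm2_om e v u • L u₀ := by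
    rw [← map_smul, lm2_cramer e v u u₀, map_add, map_smul, map_smul, hv, smul_zero, add_zero]
  have h2 := congrArg (fun x => ‖x‖) h1
  simp only [norm_smul] at h2
  have h3 : ‖lm2_om e v u₀‖ ≠ 0 := norm_ne_zero_iff.2 h0
  field_simp
  linarith

theorem lm2_ex (e : Module.Basis (Fin 2) ℂ E) {v : E} (hv : v ≠ 0) :
    ∃ u₀, lm2_om e v u₀ ≠ 0 := by
  by_contra hno
  push Not at hno
  apply hv
  apply e.repr.injective
  ext k
  have h0 := hno (e 0)
  have h1 := hno (e 1)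
  simp [lm2_om] at h0 h1
  fin_cases k
  · simpa using h1
  · simpa using h0

theorem lm2_e0 (e : Module.Basis (Fin 2) ℂ E) (v : E) : ‖lm2_om e v (e 0)‖ = ‖e.repr v 1‖ := by
  simp [lm2_om]

theorem lm2_e1 (e : Module.Basis (Fin 2) ℂ E) (v : E) : ‖lm2_om e v (e 1)‖ = ‖e.repr v 0‖ := by
  simp [lm2_om]

end pure

section charts

variable {E X : Type} [NormedAddCommGroup E] [NormedSpace ℂ E] [FiniteDimensional ℂ E]
  [MetricSpace X] {A : Cha E X} {ρ : X → X → ℝ} {h : ℂ → X}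

/-- chain rule for the velocity -/
theorem lm2_chain (hh : ∀ z, A.HolAt h z) {z : ℂ} {i j : A.ι} (hi : h z ∈ (A.ch i).source)
    (hj : h z ∈ (A.ch j).source) :
    deriv (A.loc j h) z = dtr A i j (h z) (deriv (A.loc i h) z) := by
  have h1 : HasFDerivAt (fun ξ => A.ch j ((A.ch i).symm ξ)) (dtr A i j (h z))
      (A.loc i h z) := (A.trans i j (h z) hi hj).differentiableAt.hasFDerivAt
  have h2 : HasDerivAt (A.loc i h) (deriv (A.loc i h) z) z :=
    ((hh z).2 i hi).differentiableAt.hasDerivAt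
  have h3 := h1.comp_hasDerivAt z h2
  have h4 : A.loc j h =ᶠ[𝓝 z] (fun ξ => A.ch j ((A.ch i).symm ξ)) ∘ A.loc i h := by
    filter_upwards [(hh z).1.eventually ((A.ch i).open_source.mem_nhds hi)] with w hw
    show A.ch j (h w) = A.ch j ((A.ch i).symm (A.ch i (h w)))
    rw [(A.ch i).left_inv hw]
  exact (h3.congr_of_eventuallyEq h4).deriv

theorem lam_tr_pr (hρ : FD A ρ) (e : Module.Basis (Fin 2) ℂ E) (hh : ∀ z, A.HolAt h z)
    (hN : NA ρ h) {z : ℂ} {i j : A.ι} (hi : h z ∈ (A.ch i).source) (hj : h z ∈ (A.ch j).source)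
    (hz : h z ∉ ZS A ρ) : lam A e ρ h j z = ‖jac A i j (h z)‖ * lam A e ρ h i z := by
  have hc := lm2_chain hh hi hj
  by_cases hv : deriv (A.loc i h) z = 0
  · have hw : deriv (A.loc j h) z = 0 := by rw [hc, hv, map_zero]
    simp [lam, hv, hw]
  obtain ⟨V, _, _, _, F, O, hzO, hF⟩ := hρ (h z)
  -- the norms in the two charts
  have hNi := fun u => nw_mod hF hzO hi u
  have hNj := fun u => nw_mod hF hzO hj u
  obtain ⟨u₀, hu₀⟩ := lm2_ex e hv
  have hJ : jac A i j (h z) ≠ 0 := jac_ne hi hj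
  have hdet : ∀ u, lm2_om e (deriv (A.loc j h) z) (dtr A i j (h z) u) =
      jac A i j (h z) * lm2_om e (deriv (A.loc i h) z) u := by
    intro u
    rw [hc]
    exact lm2_det e (dtr A i j (h z) : E →ₗ[ℂ] E) _ _
  have hu₀' : lm2_om e (deriv (A.loc j h) z) (dtr A i j (h z) u₀) ≠ 0 := by
    rw [hdet]
    exact mul_ne_zero hJ hu₀
  have hki : fderiv ℂ (fun ξ => F ((A.ch i).symm ξ)) (A.ch i (h z)) (deriv (A.loc i h) z) = 0 := by
    have h1 := kills hρ hh hN hi
    rw [hNi] at h1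
    exact norm_eq_zero.1 h1
  have hkj : fderiv ℂ (fun ξ => F ((A.ch j).symm ξ)) (A.ch j (h z)) (deriv (A.loc j h) z) = 0 := by
    have h1 := kills hρ hh hN hj
    rw [hNj] at h1
    exact norm_eq_zero.1 h1
  have hi2 := lm2_norm e _ hu₀ hki
  have hj2 := lm2_norm e _ hu₀' hkj
  -- the two constants
  set c : ℝ := ‖fderiv ℂ (fun ξ => F ((A.ch i).symm ξ)) (A.ch i (h z)) u₀‖ /
    ‖lm2_om e (deriv (A.loc i h) z) u₀‖ with hcdef
  set c' : ℝ := ‖fderiv ℂ (fun ξ => F ((A.ch j).symm ξ)) (A.ch j (h z)) (dtr A i j (h z) u₀)‖ /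
    ‖lm2_om e (deriv (A.loc j h) z) (dtr A i j (h z) u₀)‖ with hcdef'
  have hcc : c = ‖jac A i j (h z)‖ * c' := by
    have h1 : ‖fderiv ℂ (fun ξ => F ((A.ch i).symm ξ)) (A.ch i (h z)) u₀‖ =
        ‖fderiv ℂ (fun ξ => F ((A.ch j).symm ξ)) (A.ch j (h z)) (dtr A i j (h z) u₀)‖ := by
      rw [← hNi, ← hNj]
      exact nw_tr hρ hi hj u₀
    have h2 : ‖lm2_om e (deriv (A.loc i h) z) u₀‖ ≠ 0 := norm_ne_zero_iff.2 hu₀
    have h3 : ‖jac A i j (h z)‖ ≠ 0 := norm_ne_zero_iff.2 hJ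
    rw [hcdef, hcdef', h1, hdet, norm_mul]
    field_simp
  -- the formula for `lam`
  have form : ∀ (l : A.ι) (κ : ℝ) (w : E), w ≠ 0 → deriv (A.loc l h) z = w →
      (∀ u, nw A ρ l (h z) u = ‖lm2_om e w u‖ * κ) → lam A e ρ h l z = κ⁻¹ := by
    intro l κ w hw0 hw hl
    have h1 : ‖e.repr w 0‖ + ‖e.repr w 1‖ ≠ 0 := by
      intro h2
      have h3 : ‖e.repr w 0‖ = 0 := by
        have := norm_nonneg (e.repr w 0)
        have := norm_nonneg (e.repr w 1)
        linarith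
      have h4 : ‖e.repr w 1‖ = 0 := by
        have := norm_nonneg (e.repr w 0)
        have := norm_nonneg (e.repr w 1)
        linarith
      apply hw0
      apply e.repr.injective
      ext k
      fin_cases k
      · simpa using norm_eq_zero.1 h3
      · simpa using norm_eq_zero.1 h4
    unfold lam
    rw [hw, hl, hl, lm2_e0, lm2_e1]
    have h2 : ‖e.repr w 1‖ * κ + ‖e.repr w 0‖ * κ = (‖e.repr w 0‖ + ‖e.repr w 1‖) * κ := by
      ring
    rw [h2]
    exact div_mul_cancel_left₀ h1 κ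
  have hw0 : deriv (A.loc j h) z ≠ 0 := by
    intro h1
    apply hu₀'
    rw [h1]
    simp [lm2_om]
  have h1 := form i c _ hv rfl (fun u => by rw [hNi]; exact hi2 u)
  have h2 := form j c' _ hw0 rfl (fun u => by rw [hNj]; exact hj2 u)
  have h3 : ‖jac A i j (h z)‖ ≠ 0 := norm_ne_zero_iff.2 hJ
  rw [h1, h2, hcc, mul_inv, ← mul_assoc, mul_inv_cancel₀ h3, one_mul]

end charts

end Pool.Agent.KZ

namespace Pool.Agent.KZ

alias lam_tr := lam_tr_pr

end Pool.Agent.KZ
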