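import Pool.Agent.Lib_helper82.KZ.Defs
import Pool.Agent.Lib_helper82.KZ.P.NW1
import Pool.Agent.Lib_helper82.KZ.P.NW2
import Pool.Agent.Lib_helper82.KZ.P.NW3

set_option autoImplicit false

open Filter Topology Metric Set
open scoped Manifold ContDiff

namespace Pool.Agent.KZ

open Pool.Agent.BR Pool.Agent.MBS Pool.Agent.SL Pool.Agent.IS

section charts

variable {E X : Type} [NormedAddCommGroup E] [NormedSpace ℂ E] [FiniteDimensional ℂ E]
  [MetricSpace X] {A : Cha E X} {ρ : X → X → ℝ}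

variable {h : ℂ → X}

theorem lm3_nonneg (hρ : FD A ρ) {x : X} {i : A.ι} (hi : x ∈ (A.ch i).source) (v : E) :
    0 ≤ nw A ρ i x v := by
  obtain ⟨V, _, _, _, F, O, hx, hF⟩ := hρ x
  rw [nw_mod hF hx hi]
  exact norm_nonneg _

theorem lm3_zs (hρ : FD A ρ) (e : Module.Basis (Fin 2) ℂ E) {x : X} {i : A.ι}
    (hi : x ∈ (A.ch i).source) (h0 : nw A ρ i x (e 0) + nw A ρ i x (e 1) = 0) : x ∈ ZS A ρ := by
  have h1 := lm3_nonneg hρ hi (e 0)
  have h2 := lm3_nonneg hρ hi (e 1)
  have h3 : nw A ρ i x (e 0) = 0 := by linarith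
  have h4 : nw A ρ i x (e 1) = 0 := by linarith
  have h5 : ∀ v, nw A ρ i x v = 0 := by
    intro v
    obtain ⟨V, _, _, _, F, O, hx, hF⟩ := hρ x
    rw [nw_mod hF hx hi, norm_eq_zero] at h3 h4 ⊢
    rw [← e.sum_repr v, Fin.sum_univ_two, map_add, map_smul, map_smul, h3, h4, smul_zero,
      smul_zero, add_zero]
  intro j hj v
  rw [nw_tr hρ hj hi]
  exact h5 _

/-- LM3: `lam` is bounded away from the zero set (uses NW3; compactness of `closure (A.W i)`) -/
theorem lam_bd_pr [CompactSpace X] (hρ : FD A ρ) (e : Module.Basis (Fin 2) ℂ E)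
    (hh : ∀ z, A.HolAt h z) {C₀ : ℝ} (hC : ∀ z i, h z ∈ A.W i → ‖deriv (A.loc i h) z‖ ≤ C₀)
    {η : ℝ} (hη : 0 < η) : ∃ C : ℝ, ∀ z i, h z ∈ A.W i → (∀ p ∈ ZS A ρ, η ≤ dist (h z) p) →
      lam A e ρ h i z ≤ C := by
  have := A.fin
  have hCi : ∀ i : A.ι, ∃ C : ℝ, ∀ z, h z ∈ A.W i → (∀ p ∈ ZS A ρ, η ≤ dist (h z) p) →
      lam A e ρ h i z ≤ C := by
    intro i
    -- the numerator
    have hn : ∀ k : Fin 2, ∃ M : ℝ, ∀ v : E, ‖e.repr v k‖ ≤ M * ‖v‖ := by
      intro k
      have h1 : Continuous (e.coord k) := LinearMap.continuous_of_finiteDimensional _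
      refine ⟨‖(⟨e.coord k, h1⟩ : E →L[ℂ] ℂ)‖, fun v => ?_⟩
      exact (⟨e.coord k, h1⟩ : E →L[ℂ] ℂ).le_opNorm v
    obtain ⟨M₀, hM₀⟩ := hn 0
    obtain ⟨M₁, hM₁⟩ := hn 1
    -- the denominator
    set K : Set X := closure (A.W i) ∩ {x | ∀ p ∈ ZS A ρ, η ≤ dist x p} with hK
    have hKc : IsCompact K := by
      refine (isClosed_closure.inter ?_).isCompact
      have : {x : X | ∀ p ∈ ZS A ρ, η ≤ dist x p} = ⋂ p ∈ ZS A ρ, {x | η ≤ dist x p} := by
        ext x; simp
      rw [this]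
      exact isClosed_biInter fun p _ => isClosed_le continuous_const
        (continuous_id.dist continuous_const)
    have hcont : ContinuousOn (fun x => nw A ρ i x (e 0) + nw A ρ i x (e 1)) K := by
      have h1 : ∀ v : E, ContinuousOn (fun x => nw A ρ i x v) K := by
        intro v
        have h2 : Continuous (fun x : X => (x, v)) := continuous_id.prodMk continuous_const
        have h3 : ContinuousOn (fun q : X × E => nw A ρ i q.1 q.2)
            ((A.ch i).source ×ˢ univ) := nw_cont hρ i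
        intro x hx
        have h4 : (x, v) ∈ (A.ch i).source ×ˢ (univ : Set E) := ⟨A.W_sub i hx.1, mem_univ _⟩
        have h5 : ((A.ch i).source ×ˢ (univ : Set E)) ∈ 𝓝 (x, v) :=
          ((A.ch i).open_source.prod isOpen_univ).mem_nhds h4
        have h6 : ContinuousAt (fun q : X × E => nw A ρ i q.1 q.2) (x, v) := (h3 _ h4).continuousAt h5
        exact (ContinuousAt.comp (f := fun x : X => (x, v)) h6 h2.continuousAt).continuousWithinAt
      exact (h1 _).add (h1 _)
    rcases K.eq_empty_or_nonempty with he | hne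
    · refine ⟨0, fun z hz hp => ?_⟩
      have : h z ∈ K := ⟨subset_closure hz, hp⟩
      rw [he] at this
      exact absurd this (notMem_empty _)
    · obtain ⟨x₀, hx₀, hmin⟩ := hKc.exists_isMinOn hne hcont
      set m := nw A ρ i x₀ (e 0) + nw A ρ i x₀ (e 1) with hm
      have hm0 : 0 < m := by
        have h1 := lm3_nonneg hρ (A.W_sub i hx₀.1) (e 0)
        have h2 := lm3_nonneg hρ (A.W_sub i hx₀.1) (e 1)
        rcases (add_nonneg h1 h2).eq_or_lt with h3 | h3
        · have h4 := lm3_zs hρ e (A.W_sub i hx₀.1) h3.symm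
          have h5 := hx₀.2 x₀ h4
          rw [dist_self] at h5
          exact absurd h5 (not_le.mpr hη)
        · exact h3
      refine ⟨(|M₀| * |C₀| + |M₁| * |C₀|) / m, fun z hz hp => ?_⟩
      have hzK : h z ∈ K := ⟨subset_closure hz, hp⟩
      have h1 : m ≤ nw A ρ i (h z) (e 0) + nw A ρ i (h z) (e 1) := hmin hzK
      have h2 : ‖deriv (A.loc i h) z‖ ≤ |C₀| := (hC z i hz).trans (le_abs_self _)
      have h3 : ‖e.repr (deriv (A.loc i h) z) 0‖ ≤ |M₀| * |C₀| :=
        (hM₀ _).trans (mul_le_mul (le_abs_self _) h2 (norm_nonneg _) (abs_nonneg _))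
      have h4 : ‖e.repr (deriv (A.loc i h) z) 1‖ ≤ |M₁| * |C₀| :=
        (hM₁ _).trans (mul_le_mul (le_abs_self _) h2 (norm_nonneg _) (abs_nonneg _))
      exact div_le_div₀ (by positivity) (add_le_add h3 h4) hm0 h1
  choose C hCC using hCi
  obtain ⟨B, hB⟩ := (Set.finite_range C).bddAbove
  exact ⟨B, fun z i hz hp => (hCC i z hz hp).trans (hB ⟨i, rfl⟩)⟩

end charts

end Pool.Agent.KZ

namespace Pool.Agent.KZ

alias lam_bd := lam_bd_pr

end Pool.Agent.KZ
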