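import Pool.Agent.Lib_helper82.KZ.Defs
import Pool.Agent.Lib_helper82.KZ.P.LS3

set_option autoImplicit false

open Filter Topology Metric Set
open scoped Manifold ContDiff

namespace Pool.Agent.KZ

open Pool.Agent.BR Pool.Agent.MBS Pool.Agent.SL Pool.Agent.IS

/-- circles inside a ball on which `u` is continuous are circle integrable -/
theorem ls4_int {u : ℂ → ℝ} {z : ℂ} (hu : ∀ᶠ w in 𝓝 z, ContinuousAt u w) :
    ∀ᶠ r in 𝓝[>] (0 : ℝ), CircleIntegrable u z r := by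
  obtain ⟨ε, hε, h⟩ := Metric.eventually_nhds_iff.1 hu
  filter_upwards [Ioo_mem_nhdsGT hε] with r hr
  refine ContinuousOn.circleIntegrable hr.1.le (fun w hw => ?_)
  refine (h ?_).continuousWithinAt
  rw [Metric.mem_sphere] at hw
  rw [hw]
  exact hr.2

theorem ls4_const (B : ℝ) (z : ℂ) (r : ℝ) : Real.circleAverage (fun _ => B) z r = B := by
  simp [Real.circleAverage_const]

theorem ls4_le {v : ℂ → ℝ} {z : ℂ} {r B : ℝ} (hi : CircleIntegrable v z r)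
    (h : ∀ w, B ≤ v w) : B ≤ Real.circleAverage v z r := by
  have h1 := Real.circleAverage_mono (f₁ := fun _ => B) (f₂ := v) (c := z) (R := r)
    (circleIntegrable_const B z r) hi (fun w _ => h w)
  rwa [ls4_const] at h1

theorem ls4_step {u κ : ℂ → ℝ} {S Z : Set ℂ} {B : ℝ} (hB0 : 0 ≤ B) (h0 : ∀ z, 0 ≤ u z)
    (hu : ∀ z ∉ Z, LS u z) (hZ : Z ⊆ S) (hκ : ∀ z ∈ S, ∀ᶠ z' in 𝓝 z, z' ∈ S ∧ κ z' = κ z)
    (h1 : ∀ z ∉ S, u z ≤ B)
    (h3 : ∀ κ₀, κ₀ ≠ 0 → ∃ B', ∀ z ∈ S, κ z = κ₀ → z ∉ Z ∧ u z ≤ B')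
    {κ₀ : ℝ} (hk : κ₀ ≠ 0) (hex : ∃ w, ¬ (w ∈ S ∧ κ w = κ₀)) :
    ∀ z ∈ S, κ z = κ₀ → u z ≤ B := by
  classical
  obtain ⟨B', hB'⟩ := h3 κ₀ hk
  obtain ⟨v, hv⟩ : ∃ v : ℂ → ℝ, v = fun w => if w ∈ S ∧ κ w = κ₀ then max (u w) B else B :=
    ⟨_, rfl⟩
  have hvi : ∀ w, w ∈ S ∧ κ w = κ₀ → v w = max (u w) B := fun w hw => by
    rw [hv]
    exact if_pos hw
  have hvo : ∀ w, ¬ (w ∈ S ∧ κ w = κ₀) → v w = B := fun w hw => by
    rw [hv]
    exact if_neg hw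
  have hop : ∀ w, w ∈ S ∧ κ w = κ₀ → ∀ᶠ w' in 𝓝 w, w' ∈ S ∧ κ w' = κ₀ := by
    intro w hw
    filter_upwards [hκ w hw.1] with w' hw'
    exact ⟨hw'.1, hw'.2.trans hw.2⟩
  have hvB : ∀ w, B ≤ v w := by
    intro w
    by_cases hw : w ∈ S ∧ κ w = κ₀
    · rw [hvi w hw]
      exact le_max_right _ _
    · rw [hvo w hw]
  have hvle : ∀ w, v w ≤ max (u w) B := by
    intro w
    by_cases hw : w ∈ S ∧ κ w = κ₀
    · rw [hvi w hw]
    · rw [hvo w hw]
      exact le_max_right _ _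
  have hcont : ∀ w, ContinuousAt v w := by
    intro w
    by_cases hw : w ∈ S ∧ κ w = κ₀
    · have h2 : ContinuousAt (fun w => max (u w) B) w :=
        (hu w (hB' w hw.1 hw.2).1).1.max continuousAt_const
      refine h2.congr ?_
      filter_upwards [hop w hw] with w' hw'
      exact (hvi w' hw').symm
    · by_cases hS : w ∈ S
      · have h2 : ∀ᶠ w' in 𝓝 w, v w' = B := by
          filter_upwards [hκ w hS] with w' hw'
          refine hvo w' (fun h => hw ⟨hS, ?_⟩)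
          rw [← hw'.2]
          exact h.2
        exact (continuousAt_const (y := B)).congr (h2.mono fun _ h => h.symm)
      · have h2 : ContinuousAt u w := (hu w (fun h => hS (hZ h))).1
        have h4 : Tendsto (fun w => max (u w) B) (𝓝 w) (𝓝 B) := by
          have h5 : ContinuousAt (fun w => max (u w) B) w := h2.max continuousAt_const
          have h6 : max (u w) B = B := max_eq_right (h1 w hS)
          have h7 : Tendsto (fun w => max (u w) B) (𝓝 w) (𝓝 (max (u w) B)) := h5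
          rwa [h6] at h7
        have h8 : Tendsto v (𝓝 w) (𝓝 B) :=
          tendsto_of_tendsto_of_tendsto_of_le_of_le tendsto_const_nhds h4 hvB hvle
        rw [ContinuousAt, hvo w hw]
        exact h8
  have hint : ∀ w r, CircleIntegrable v w r := fun w r =>
    ContinuousOn.circleIntegrable' (continuous_iff_continuousAt.2 hcont).continuousOn
  have hLS : ∀ w, LS v w := by
    intro w
    refine ⟨hcont w, ?_⟩
    by_cases hw : w ∈ S ∧ κ w = κ₀
    · have hc : ∀ᶠ w' in 𝓝 w, ContinuousAt u w' := by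
        filter_upwards [hop w hw] with w' hw'
        exact (hu w' (hB' w' hw'.1 hw'.2).1).1
      have hin : ∀ᶠ r in 𝓝[>] (0 : ℝ), ∀ w' ∈ sphere w |r|, w' ∈ S ∧ κ w' = κ₀ := by
        obtain ⟨ε, hε, h⟩ := Metric.eventually_nhds_iff.1 (hop w hw)
        filter_upwards [Ioo_mem_nhdsGT hε] with r hr w' hw'
        refine h ?_
        rw [Metric.mem_sphere, abs_of_pos hr.1] at hw'
        rw [hw']
        exact hr.2
      filter_upwards [ls4_int hc, (hu w (hB' w hw.1 hw.2).1).2, hin] with r hr1 hr2 hr3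
      rw [hvi w hw]
      refine max_le (hr2.trans ?_) (ls4_le (hint w r) hvB)
      refine Real.circleAverage_mono hr1 (hint w r) (fun w' hw' => ?_)
      rw [hvi w' (hr3 w' hw')]
      exact le_max_left _ _
    · rw [hvo w hw]
      exact Eventually.of_forall fun r => ls4_le (hint w r) hvB
  have hv0 : ∀ w, 0 ≤ v w := fun w => hB0.trans (hvB w)
  have hvb : ∀ w, v w ≤ max B' B := by
    intro w
    by_cases hw : w ∈ S ∧ κ w = κ₀
    · rw [hvi w hw]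
      exact max_le_max (hB' w hw.1 hw.2).2 le_rfl
    · rw [hvo w hw]
      exact le_max_right _ _
  intro z hz hzk
  obtain ⟨w, hw⟩ := hex
  have h5 := ls_liou hv0 hvb hLS z w
  rw [hvi z ⟨hz, hzk⟩, hvo w hw] at h5
  exact (le_max_left _ _).trans h5.le

/-- LS4 -/
theorem ls_bounded_pr {u κ : ℂ → ℝ} {S Z : Set ℂ} {B : ℝ} (h0 : ∀ z, 0 ≤ u z)
    (hu : ∀ z ∉ Z, LS u z) (hZ : Z ⊆ S) (hκ : ∀ z ∈ S, ∀ᶠ z' in 𝓝 z, z' ∈ S ∧ κ z' = κ z)
    (h1 : ∀ z ∉ S, u z ≤ B) (h2 : ∀ z ∈ S, z ∉ Z → κ z = 0 → u z ≤ B)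
    (h3 : ∀ κ₀, κ₀ ≠ 0 → ∃ B', ∀ z ∈ S, κ z = κ₀ → z ∉ Z ∧ u z ≤ B') :
    ∃ B', ∀ z ∉ Z, u z ≤ B' := by
  by_cases hall : ∃ κ₀ : ℝ, κ₀ ≠ 0 ∧ ∀ w, w ∈ S ∧ κ w = κ₀
  · obtain ⟨κ₀, hk, hw⟩ := hall
    obtain ⟨B', hB'⟩ := h3 κ₀ hk
    exact ⟨B', fun z _ => (hB' z (hw z).1 (hw z).2).2⟩
  · push Not at hall
    refine ⟨max B 0, fun z hz => ?_⟩
    by_cases hS : z ∈ S
    · by_cases hk : κ z = 0
      · exact (h2 z hS hz hk).trans (le_max_left _ _)
      · obtain ⟨w, hw⟩ := hall (κ z) hk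
        exact ls4_step (le_max_right _ _) h0 hu hZ hκ (fun z hz => (h1 z hz).trans (le_max_left _ _))
          h3 hk ⟨w, fun h => hw h.1 h.2⟩ z hS rfl
    · exact (h1 z hS).trans (le_max_left _ _)

end Pool.Agent.KZ

namespace Pool.Agent.KZ

alias ls_bounded := ls_bounded_pr

end Pool.Agent.KZ
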