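import Pool.Agent.Lib_helper82.KZ.Defs

/-! # Project KZ, block PS1 (helper42): polynomials in the coordinates are sections -/

set_option autoImplicit false
set_option linter.unusedVariables false
set_option linter.unusedSectionVars false

open Filter Topology Metric Set
open scoped Manifold ContDiff

namespace Pool.Agent.KZ

open Pool.Agent.BR Pool.Agent.MBS Pool.Agent.SL Pool.Agent.IS

section charts

variable {E X : Type} [NormedAddCommGroup E] [NormedSpace ℂ E] [FiniteDimensional ℂ E]
  [MetricSpace X] {A : Cha E X}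

theorem ps_poly_pr {n k : ℕ} {a : A.ι → X → Fin (n + 1) → ℂ} (ha : AF A n k a) {d : ℕ}
    {Q : MvPolynomial (Fin 3) ℂ} (hQ : Q.IsHomogeneous d) (p q r : Fin (n + 1)) :
    PS A (k * d) (fun i x => MvPolynomial.eval ![a i x p, a i x q, a i x r] Q) where
  an := by
    intro i x hx
    have h1 : ∀ s : Fin (n + 1), AnalyticAt ℂ (fun ξ => a i ((A.ch i).symm ξ) s) (A.ch i x) :=
      fun s => (analyticAt_pi_iff.1 (ha.an i x hx)) s
    have h2 := AnalyticAt.aeval_mvPolynomial (𝕜 := ℂ) (A := ℂ) (B := ℂ)
      (f := fun ξ => (![a i ((A.ch i).symm ξ) p, a i ((A.ch i).symm ξ) q,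
        a i ((A.ch i).symm ξ) r] : Fin 3 → ℂ)) (z := A.ch i x) (by
          intro l
          fin_cases l
          · exact h1 p
          · exact h1 q
          · exact h1 r) Q
    simpa only [MvPolynomial.aeval_eq_eval] using h2
  tr := by
    intro i j x hi hj
    have h1 := ha.tr i j x hi hj
    have h2 : (![a i x p, a i x q, a i x r] : Fin 3 → ℂ) =
        (jac A i j x ^ k) • ![a j x p, a j x q, a j x r] := by
      rw [h1]
      simp
    show MvPolynomial.eval ![a i x p, a i x q, a i x r] Q = _
    rw [h2, s5_eval hQ, pow_mul]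

end charts

end Pool.Agent.KZ

namespace Pool.Agent.KZ

alias ps_poly := ps_poly_pr

end Pool.Agent.KZ
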