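import Pool.Agent.Lib_helper82.KZ.Defs

/-! # Flat distances on surfaces, block NW5 (helper25) -/

set_option autoImplicit false
set_option linter.unusedVariables false
set_option linter.unusedSectionVars false

open Filter Topology Metric Set
open scoped Manifold ContDiff

namespace Pool.Agent.KZ

open Pool.Agent.BR Pool.Agent.MBS Pool.Agent.SL Pool.Agent.IS

section charts

variable {E X : Type} [NormedAddCommGroup E] [NormedSpace ℂ E] [FiniteDimensional ℂ E]
  [MetricSpace X] {A : Cha E X} {ρ : X → X → ℝ}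

/-- a local model is continuous -/
theorem nw5_cont {V : Type} [NormedAddCommGroup V] [NormedSpace ℂ V] {O : Set X} {F : X → V}
    (hF : Mod A ρ O F) {x : X} (hx : x ∈ O) : ContinuousAt F x := by
  obtain ⟨i, hi⟩ := A.cover x
  have hs : x ∈ (A.ch i).source := A.W_sub i (subset_closure hi)
  have h1 : ContinuousAt (fun ξ => F ((A.ch i).symm ξ)) (A.ch i x) :=
    (hF.an x hx i hs).continuousAt
  have h2 : ContinuousAt (A.ch i) x := (A.ch i).continuousAt hs
  have h3 : ContinuousAt (fun y => F ((A.ch i).symm (A.ch i y))) x :=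
    ContinuousAt.comp (f := A.ch i) (g := fun ξ => F ((A.ch i).symm ξ)) h1 h2
  refine h3.congr ?_
  filter_upwards [(A.ch i).open_source.mem_nhds hs] with y hy
  rw [(A.ch i).left_inv hy]

/-- NW5: uniform continuity at the diagonal -/
theorem fd_uc_pr [CompactSpace X] (hρ : FD A ρ) {κ : ℝ} (hκ : 0 < κ) :
    ∃ η > 0, ∀ x y : X, dist x y < η → ρ x y < κ := by
  have h1 : ∀ x : X, ∃ U : Set X, IsOpen U ∧ x ∈ U ∧ ∀ u ∈ U, ∀ u' ∈ U, ρ u u' < κ := by
    intro x
    obtain ⟨V, i1, i2, i3, F, O, hO, hF⟩ := hρ x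
    have hc := nw5_cont hF hO
    have h2 : ∀ᶠ y in 𝓝 x, dist (F y) (F x) < κ / 2 := Metric.tendsto_nhds.1 hc _ (by linarith)
    obtain ⟨U, hU, hUo, hxU⟩ := _root_.mem_nhds_iff.1 (h2.and (hF.op.mem_nhds hO))
    refine ⟨U, hUo, hxU, fun u hu u' hu' => ?_⟩
    rw [hF.eq u (hU hu).2 u' (hU hu').2, ← dist_eq_norm]
    calc dist (F u) (F u') ≤ dist (F u) (F x) + dist (F u') (F x) := dist_triangle_right _ _ _
      _ < κ / 2 + κ / 2 := add_lt_add (hU hu).1 (hU hu').1
      _ = κ := by ring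
  choose U hUo hxU hU using h1
  obtain ⟨δ, hδ, hb⟩ := lebesgue_number_lemma_of_metric (isCompact_univ (X := X)) hUo
    (fun x _ => mem_iUnion.2 ⟨x, hxU x⟩)
  refine ⟨δ, hδ, fun x y hxy => ?_⟩
  obtain ⟨i, hi⟩ := hb x (mem_univ _)
  exact hU i x (hi (mem_ball_self hδ)) y (hi (by rw [mem_ball, dist_comm]; exact hxy))

end charts

end Pool.Agent.KZ

namespace Pool.Agent.KZ

alias fd_uc := fd_uc_pr

end Pool.Agent.KZ
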