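import Pool.Agent.Lib_helper82.KZ.Defs
import Pool.Agent.Lib_helper82.KZ.P.NW5
import Pool.Agent.Lib_helper82.KZ.P.LM1
import Pool.Agent.Lib_helper82.KZ.P.HC3
import Pool.Agent.Lib_helper82.KZ.P.NW4
import Pool.Agent.Lib_helper82.KZ.P.LM2
import Pool.Agent.Lib_helper82.KZ.P.LS1
import Pool.Agent.Lib_helper82.KZ.P.ZR
import Pool.Agent.Lib_helper82.KZ.P.SCH
import Pool.Agent.Lib_helper82.KZ.P.LS4
import Pool.Agent.Lib_helper82.KZ.P.NW1
import Pool.Agent.Lib_helper82.KZ.P.LM3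

set_option autoImplicit false
set_option linter.unusedVariables false
set_option linter.unusedSectionVars false

open Filter Topology Metric Set
open scoped Manifold ContDiff

namespace Pool.Agent.KZ

open Pool.Agent.BR Pool.Agent.MBS Pool.Agent.SL Pool.Agent.IS

section charts

variable {E X : Type} [NormedAddCommGroup E] [NormedSpace ℂ E] [FiniteDimensional ℂ E]
  [MetricSpace X] {A : Cha E X} {ρ : X → X → ℝ}

/-- replace a point by a point at flat distance zero -/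
theorem ps2_sub {V : Type} [NormedAddCommGroup V] [NormedSpace ℂ V] {O : Set X} {F : X → V}
    (hF : Mod A ρ O F) {x y y' : X} (hx : x ∈ O) (hy : y ∈ O) (hy' : y' ∈ O) (h : ρ y y' = 0) :
    ρ x y = ρ x y' ∧ ρ y x = ρ y' x := by
  have h1 : F y = F y' := by
    rw [hF.eq y hy y' hy', norm_eq_zero, sub_eq_zero] at h
    exact h
  rw [hF.eq x hx y hy, hF.eq x hx y' hy', hF.eq y hy x hx, hF.eq y' hy' x hx, h1]
  exact ⟨rfl, rfl⟩

theorem ps2_nw (hρ : FD A ρ) {x : X} {i : A.ι} (hi : x ∈ (A.ch i).source) (v : E) :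
    0 ≤ nw A ρ i x v := by
  obtain ⟨V, _, _, _, F, O, hx, hF⟩ := hρ x
  rw [nw_mod hF hx hi v]
  exact norm_nonneg _

variable {h : ℂ → X}

theorem ps2_lam (hρ : FD A ρ) (e : Module.Basis (Fin 2) ℂ E) {z : ℂ} {i : A.ι}
    (hi : h z ∈ (A.ch i).source) : 0 ≤ lam A e ρ h i z := by
  rw [lam]
  have h0 := ps2_nw hρ hi (e 0)
  have h1 := ps2_nw hρ hi (e 1)
  positivity

/-- the coordinates of a vector are bounded by its norm -/
theorem ps2_coord (e : Module.Basis (Fin 2) ℂ E) :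
    ∃ K : ℝ, 0 ≤ K ∧ ∀ v : E, ‖e.repr v 0‖ + ‖e.repr v 1‖ ≤ K * ‖v‖ := by
  refine ⟨‖LinearMap.toContinuousLinearMap (e.coord 0)‖ +
    ‖LinearMap.toContinuousLinearMap (e.coord 1)‖, by positivity, fun v => ?_⟩
  rw [add_mul]
  exact add_le_add ((LinearMap.toContinuousLinearMap (e.coord 0)).le_opNorm v)
    ((LinearMap.toContinuousLinearMap (e.coord 1)).le_opNorm v)

/-- `lam` times the denominator -/
theorem ps2_lam_mul (hρ : FD A ρ) (e : Module.Basis (Fin 2) ℂ E) {z : ℂ} {i : A.ι}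
    (hi : h z ∈ (A.ch i).source) {a : ℝ} (ha : a ≤ nw A ρ i (h z) (e 0) + nw A ρ i (h z) (e 1)) :
    a * lam A e ρ h i z ≤
      ‖e.repr (deriv (A.loc i h) z) 0‖ + ‖e.repr (deriv (A.loc i h) z) 1‖ := by
  refine (mul_le_mul_of_nonneg_right ha (ps2_lam hρ e hi)).trans ?_
  rw [lam]
  rcases eq_or_ne (nw A ρ i (h z) (e 0) + nw A ρ i (h z) (e 1)) 0 with h0 | h0
  · rw [h0, zero_mul]
    positivity
  · rw [mul_div_cancel₀ _ h0]

/-- the section on a core is bounded -/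
theorem ps2_bdd [CompactSpace X] {w : ℕ} {t : A.ι → X → ℂ} (ht : PS A w t) :
    ∃ T : ℝ, 0 ≤ T ∧ ∀ i, ∀ x ∈ A.W i, ‖t i x‖ ≤ T := by
  have hfin := A.fin
  have h1 : ∀ i, ∃ T : ℝ, ∀ x ∈ A.W i, ‖t i x‖ ≤ T := by
    intro i
    have hc : ContinuousOn (t i) (A.ch i).source := by
      intro x hx
      have h2 : ContinuousAt (fun y => (fun ξ => t i ((A.ch i).symm ξ)) (A.ch i y)) x :=
        ContinuousAt.comp (f := A.ch i) (g := fun ξ => t i ((A.ch i).symm ξ))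
          (ht.an i x hx).continuousAt ((A.ch i).continuousAt hx)
      refine (h2.congr ?_).continuousWithinAt
      filter_upwards [(A.ch i).open_source.mem_nhds hx] with y hy
      show t i ((A.ch i).symm (A.ch i y)) = t i y
      rw [(A.ch i).left_inv hy]
    obtain ⟨T, hT⟩ := (isClosed_closure (s := A.W i)).isCompact.exists_bound_of_continuousOn
      (hc.mono (A.W_sub i))
    exact ⟨T, fun x hx => hT x (subset_closure hx)⟩
  choose T hT using h1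
  obtain ⟨T', hT'⟩ := (Set.finite_range T).bddAbove
  refine ⟨max T' 0, le_max_right _ _, fun i x hx => ?_⟩
  exact (hT i x hx).trans ((hT' ⟨i, rfl⟩).trans (le_max_left _ _))

theorem ps2_an {w : ℕ} {t : A.ι → X → ℂ} (ht : PS A w t) {z : ℂ} (hh : A.HolAt h z) {i : A.ι}
    (hi : h z ∈ (A.ch i).source) : AnalyticAt ℂ (fun z' => t i (h z')) z := by
  have h1 : AnalyticAt ℂ (fun z' => (fun ξ => t i ((A.ch i).symm ξ)) (A.loc i h z')) z :=
    AnalyticAt.comp (g := fun ξ => t i ((A.ch i).symm ξ)) (f := A.loc i h)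
      (ht.an i _ hi) (hh.2 i hi)
  refine h1.congr ?_
  filter_upwards [hh.1.eventually ((A.ch i).open_source.mem_nhds hi)] with z' hz'
  show t i ((A.ch i).symm (A.ch i (h z'))) = t i (h z')
  rw [(A.ch i).left_inv hz']

/-- independence of the chart -/
theorem ps2_indep (hρ : FD A ρ) (e : Module.Basis (Fin 2) ℂ E) (hh : ∀ z, A.HolAt h z)
    (hN : NA ρ h) {w : ℕ} {t : A.ι → X → ℂ} (ht : PS A w t) {z : ℂ} {i j : A.ι}
    (hi : h z ∈ (A.ch i).source) (hj : h z ∈ (A.ch j).source) (hz : h z ∉ ZS A ρ) :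
    ‖t i (h z)‖ * lam A e ρ h i z ^ w = ‖t j (h z)‖ * lam A e ρ h j z ^ w := by
  rw [lam_tr hρ e hh hN hi hj hz, ht.tr i j _ hi hj, norm_mul, norm_pow, mul_pow]
  ring

/-- PS2: the main bound -/
theorem sec_bd_pr [CompactSpace X] [ConnectedSpace X] (hρ : FD A ρ) (e : Module.Basis (Fin 2) ℂ E)
    (hR : ∀ x, x ∈ RS A ρ) (hh : ∀ z, A.HolAt h z) (hN : NA ρ h) (hne : ∃ z z', h z ≠ h z')
    (hz : ∃ z, h z ∉ ZS A ρ) {C₀ : ℝ} (hC : ∀ z i, h z ∈ A.W i → ‖deriv (A.loc i h) z‖ ≤ C₀)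
    {η c : ℝ} {J N : ℕ} {ix : Fin J → A.ι} {d : Fin J → ℂ → E} (hη : 0 < η) (hc : 0 < c)
    (hd : ∀ j, Dsc A (ix j) (d j))
    (hb : ∀ x, ∀ p ∈ ZS A ρ, dist x p < η → ρ x p = 0 → x ∉ ZS A ρ →
        ∃ j, ∃ ζ ∈ closedBall (0 : ℂ) 1, (A.ch (ix j)).symm (d j ζ) = x ∧
          c * ‖ζ‖ ^ N ≤ nw A ρ (ix j) x (e 0) + nw A ρ (ix j) x (e 1))
    {w : ℕ} {t : A.ι → X → ℂ} (ht : PS A w t)
    (h0 : ∀ j, ∀ k < N * w, iteratedDeriv k (fun ζ => t (ix j) ((A.ch (ix j)).symm (d j ζ))) 0 = 0) :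
    ∃ B : ℝ, ∀ z i, h z ∈ (A.ch i).source → h z ∉ ZS A ρ →
      ‖t i (h z)‖ * lam A e ρ h i z ^ w ≤ B := by
  classical
  -- constants
  obtain ⟨δ₁, hδ₁, hmod⟩ := fd_leb (A := A) hρ
  obtain ⟨δ₂, hδ₂, hzr⟩ := zs_rho e hρ (hz.imp' h fun z hz => hz)
  obtain ⟨T, hT0, hT⟩ := ps2_bdd ht
  obtain ⟨K, hK0, hK⟩ := ps2_coord e
  obtain ⟨η', hη', h1η, h1δ₁, h1δ₂⟩ : ∃ η' > 0, η' ≤ η ∧ η' ≤ δ₁ ∧ 2 * η' ≤ δ₂ := by
    refine ⟨min η (min δ₁ (δ₂ / 2)), by positivity, min_le_left _ _,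
      (min_le_right _ _).trans (min_le_left _ _), ?_⟩
    have := (min_le_right η (min δ₁ (δ₂ / 2))).trans (min_le_right _ _)
    linarith
  -- the function
  choose ii hii using fun z => A.cover (h z)
  have his : ∀ z, h z ∈ (A.ch (ii z)).source := fun z => A.W_sub _ (subset_closure (hii z))
  set u : ℂ → ℝ := fun z => ‖t (ii z) (h z)‖ * lam A e ρ h (ii z) z ^ w with hu
  have hu' : ∀ z i, h z ∈ (A.ch i).source → h z ∉ ZS A ρ →
      u z = ‖t i (h z)‖ * lam A e ρ h i z ^ w := fun z i hi hz =>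
    ps2_indep hρ e hh hN ht (his z) hi hz
  have hself : ∀ x, ρ x x = 0 := by
    intro x
    obtain ⟨V, _, _, _, F, O, hx, hF⟩ := hρ x
    rw [hF.eq x hx x hx, sub_self, norm_zero]
  -- the flat distance to the zero set
  set S : Set ℂ := {z | ∃ p ∈ ZS A ρ, dist (h z) p < η'} with hS
  set κ : ℂ → ℝ := fun z => if hzS : ∃ p ∈ ZS A ρ, dist (h z) p < η' then
    ρ (h z) hzS.choose else 0 with hκ
  have hκ' : ∀ z, ∀ p ∈ ZS A ρ, dist (h z) p < η' → κ z = ρ (h z) p := by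
    intro z p hp hd
    have hzS : ∃ p ∈ ZS A ρ, dist (h z) p < η' := ⟨p, hp, hd⟩
    simp only [hκ]
    rw [dif_pos hzS]
    obtain ⟨hq, hdq⟩ := hzS.choose_spec
    have h2 : dist hzS.choose p < δ₂ := by
      have := dist_triangle_left hzS.choose p (h z)
      linarith
    have h3 := hzr _ hq _ hp h2
    obtain ⟨V, _, _, _, F, hF⟩ := hmod (h z)
    refine (ps2_sub hF (mem_ball_self hδ₁) ?_ ?_ h3).1
    · rw [mem_ball, dist_comm]; linarith
    · rw [mem_ball, dist_comm]; linarith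
  have hκ0 : ∀ z ∈ S, 0 ≤ κ z := by
    rintro z ⟨p, hp, hd⟩
    rw [hκ' z p hp hd]
    obtain ⟨V, _, _, _, F, hF⟩ := hmod (h z)
    rw [hF.eq _ (mem_ball_self hδ₁) p (by rw [mem_ball, dist_comm]; linarith)]
    exact norm_nonneg _
  -- the bound away from the zero set
  have hbd : ∀ η₃ : ℝ, 0 < η₃ → ∃ B' : ℝ, ∀ z, (∀ p ∈ ZS A ρ, η₃ ≤ dist (h z) p) → u z ≤ B' := by
    intro η₃ hη₃
    obtain ⟨C, hC'⟩ := lam_bd hρ e hh hC hη₃
    refine ⟨T * C ^ w, fun z hz => ?_⟩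
    have h2 := hC' z (ii z) (hii z) hz
    have h3 := hT (ii z) (h z) (hii z)
    have h4 : 0 ≤ lam A e ρ h (ii z) z := ps2_lam hρ e (his z)
    simp only [hu]
    gcongr
  obtain ⟨B₁, hB₁⟩ := hbd η' hη'
  have key := ls_bounded (u := u) (κ := κ) (S := S) (Z := {z | h z ∈ ZS A ρ})
    (B := max B₁ (T * (K * C₀ / c) ^ w)) ?_ ?_ ?_ ?_ ?_ ?_ ?_
  · obtain ⟨B', hB'⟩ := key
    refine ⟨B', fun z i hi hz => ?_⟩
    rw [← hu' z i hi hz]
    exact hB' z hz
  · intro z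
    have h4 : 0 ≤ lam A e ρ h (ii z) z := ps2_lam hρ e (his z)
    simp only [hu]
    positivity
  · intro z hzZ
    obtain ⟨r, hr, hr1, hr2⟩ := lam_loc hρ e hR hh hN hne hz (his z)
    obtain ⟨hra, hrz⟩ := hr2 hzZ
    refine ls_norm (f := fun z' => t (ii z) (h z') * r z' ^ w)
      ((ps2_an ht (hh z) (his z)).mul (hra.pow w)) ?_
    have h2 := zh_disc hρ hh hz z
    have h3 : ∀ᶠ z' in 𝓝[≠] z, u z' = ‖t (ii z) (h z') * r z' ^ w‖ := by
      filter_upwards [h2, hr1, ((hh z).1.eventually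
        ((A.ch (ii z)).open_source.mem_nhds (his z))).filter_mono nhdsWithin_le_nhds]
        with z' h2 hr1 h5
      rw [hu' z' (ii z) h5 h2, norm_mul, norm_pow, hr1.2]
    rw [eventually_nhdsWithin_iff] at h3
    filter_upwards [h3] with z' h3
    by_cases hzz : z' = z
    · rw [hzz, norm_mul, norm_pow, ← hrz]
    · exact h3 hzz
  · intro z hz
    exact ⟨h z, hz, by rw [dist_self]; exact hη'⟩
  · rintro z ⟨p, hp, hd⟩
    have h2 : ∀ᶠ z' in 𝓝 z, dist (h z') p < η' :=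
      ((hh z).1.tendsto.dist tendsto_const_nhds).eventually (gt_mem_nhds hd)
    have h3 : ∀ᶠ z' in 𝓝 z, h z' ∈ ball (h z) δ₁ :=
      (hh z).1.eventually (ball_mem_nhds _ hδ₁)
    filter_upwards [h2, h3, hN z] with z' h2 h3 h4
    refine ⟨⟨p, hp, h2⟩, ?_⟩
    rw [hκ' z' p hp h2, hκ' z p hp hd]
    obtain ⟨V, _, _, _, F, hF⟩ := hmod (h z)
    refine ((ps2_sub hF ?_ (mem_ball_self hδ₁) h3 h4).2).symm
    rw [mem_ball, dist_comm]; linarith
  · intro z hzS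
    refine (hB₁ z fun p hp => ?_).trans (le_max_left _ _)
    by_contra hcon
    exact hzS ⟨p, hp, not_le.1 hcon⟩
  · rintro z ⟨p, hp, hd'⟩ hzZ hκz
    refine le_trans ?_ (le_max_right _ _)
    rw [hκ' z p hp hd'] at hκz
    obtain ⟨j, ζ, hζ, hx, hlow⟩ := hb (h z) p hp (hd'.trans_le h1η) hκz hzZ
    have hW : h z ∈ A.W (ix j) := by
      rw [← hx]
      exact ((hd j).mem ζ hζ).2
    have hs : h z ∈ (A.ch (ix j)).source := A.W_sub _ (subset_closure hW)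
    rw [hu' z (ix j) hs hzZ]
    have h2 := schwarz_disc (f := fun ζ => t (ix j) ((A.ch (ix j)).symm (d j ζ))) (B := T)
      (M := N * w) (fun ζ hζ => by
        have hm := ((hd j).mem ζ hζ).1
        have h3 := ht.an (ix j) ((A.ch (ix j)).symm (d j ζ)) ((A.ch (ix j)).map_target hm)
        rw [(A.ch (ix j)).right_inv hm] at h3
        exact AnalyticAt.comp (g := fun ξ => t (ix j) ((A.ch (ix j)).symm ξ)) (f := d j) h3
          ((hd j).an ζ hζ))
      (fun ζ hζ => hT _ _ ((hd j).mem ζ hζ).2) (h0 j) ζ hζ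
    rw [hx] at h2
    have h4 : 0 ≤ lam A e ρ h (ix j) z := ps2_lam hρ e hs
    have h5 : ‖ζ‖ ^ N * lam A e ρ h (ix j) z ≤ K * C₀ / c := by
      rw [le_div_iff₀ hc]
      have h6 := ps2_lam_mul hρ e hs hlow
      have h7 := hK (deriv (A.loc (ix j) h) z)
      have h8 := hC z (ix j) hW
      nlinarith [mul_le_mul_of_nonneg_left h8 hK0]
    calc ‖t (ix j) (h z)‖ * lam A e ρ h (ix j) z ^ w
        ≤ T * ‖ζ‖ ^ (N * w) * lam A e ρ h (ix j) z ^ w := by gcongr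
      _ = T * (‖ζ‖ ^ N * lam A e ρ h (ix j) z) ^ w := by rw [mul_pow, pow_mul]; ring
      _ ≤ T * (K * C₀ / c) ^ w := by gcongr
  · intro κ₀ hκ₀
    rcases lt_or_gt_of_ne hκ₀ with hneg | hpos
    · refine ⟨0, fun z hz hk => ?_⟩
      have := hκ0 z hz
      linarith
    · obtain ⟨η₂, hη₂, huc⟩ := fd_uc (A := A) hρ hpos
      obtain ⟨B', hB'⟩ := hbd (min η₂ η') (lt_min hη₂ hη')
      refine ⟨B', fun z hz hk => ⟨fun hzZ => ?_, hB' z fun p hp => ?_⟩⟩
      · have h2 := hκ' z (h z) hzZ (by rw [dist_self]; exact hη')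
        rw [hself] at h2
        exact hκ₀ (hk.symm.trans h2)
      · by_contra hcon
        rw [not_le, lt_min_iff] at hcon
        have h2 := hκ' z p hp hcon.2
        have h3 := huc (h z) p hcon.1
        linarith

end charts

end Pool.Agent.KZ

namespace Pool.Agent.KZ

alias sec_bd := sec_bd_pr

end Pool.Agent.KZ
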