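import Pool.Agent.Lib_helper82.KZ.Defs
import Pool.Agent.Lib_helper82.KZ.P.LM1
import Pool.Agent.Lib_helper82.KZ.P.HC3
import Pool.Agent.Lib_helper82.KZ.P.LM2
import Pool.Agent.Lib_helper82.KZ.P.LS5
import Pool.Agent.Lib_helper82.KZ.P.NW1

set_option autoImplicit false
set_option linter.unusedVariables false
set_option linter.unusedSectionVars false

open Filter Topology Metric Set
open scoped Manifold ContDiff

namespace Pool.Agent.KZ

open Pool.Agent.BR Pool.Agent.MBS Pool.Agent.SL Pool.Agent.IS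

section charts

variable {E X : Type} [NormedAddCommGroup E] [NormedSpace ℂ E] [FiniteDimensional ℂ E]
  [MetricSpace X] {A : Cha E X} {ρ : X → X → ℝ}

variable {h : ℂ → X}

theorem ps3_an {t : A.ι → X → ℂ}
    (ht : ∀ i, ∀ x ∈ (A.ch i).source, AnalyticAt ℂ (fun ξ => t i ((A.ch i).symm ξ)) (A.ch i x))
    {z : ℂ} (hh : A.HolAt h z) {i : A.ι}
    (hi : h z ∈ (A.ch i).source) : AnalyticAt ℂ (fun z' => t i (h z')) z := by
  have h1 : AnalyticAt ℂ (fun z' => (fun ξ => t i ((A.ch i).symm ξ)) (A.loc i h z')) z :=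
    AnalyticAt.comp (g := fun ξ => t i ((A.ch i).symm ξ)) (f := A.loc i h)
      (ht i _ hi) (hh.2 i hi)
  refine h1.congr ?_
  filter_upwards [hh.1.eventually ((A.ch i).open_source.mem_nhds hi)] with z' hz'
  show t i ((A.ch i).symm (A.ch i (h z'))) = t i (h z')
  rw [(A.ch i).left_inv hz']

/-- independence of the chart -/
theorem ps3_indep (hρ : FD A ρ) (e : Module.Basis (Fin 2) ℂ E) (hh : ∀ z, A.HolAt h z)
    (hN : NA ρ h) {w : ℕ} {t : A.ι → X → ℂ} (ht : ∀ i j x, x ∈ (A.ch i).source →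
      x ∈ (A.ch j).source → t i x = jac A i j x ^ w * t j x) {z : ℂ} {i j : A.ι}
    (hi : h z ∈ (A.ch i).source) (hj : h z ∈ (A.ch j).source) (hz : h z ∉ ZS A ρ) :
    ‖t i (h z)‖ * lam A e ρ h i z ^ w = ‖t j (h z)‖ * lam A e ρ h j z ^ w := by
  rw [lam_tr hρ e hh hN hi hj hz, ht i j _ hi hj, norm_mul, norm_pow, mul_pow]
  ring

theorem ps3_lam (hρ : FD A ρ) (e : Module.Basis (Fin 2) ℂ E) {z : ℂ} {i : A.ι}
    (hi : h z ∈ (A.ch i).source) : 0 ≤ lam A e ρ h i z := by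
  obtain ⟨V, _, _, _, F, O, hx, hF⟩ := hρ (h z)
  rw [lam, nw_mod hF hx hi, nw_mod hF hx hi]
  positivity

/-- a section which is bounded along the curve, and vanishes at one point of the curve outside the
zero set, vanishes along the curve -/
theorem ps3_zero (hρ : FD A ρ) (e : Module.Basis (Fin 2) ℂ E)
    (hR : ∀ x, x ∈ RS A ρ) (hh : ∀ z, A.HolAt h z) (hN : NA ρ h) (hne : ∃ z z', h z ≠ h z')
    (hz : ∃ z, h z ∉ ZS A ρ) {w : ℕ} {t : A.ι → X → ℂ} (ht : PS A w t) {B : ℝ}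
    (h1 : ∀ z i, h z ∈ (A.ch i).source → h z ∉ ZS A ρ →
      ‖t i (h z)‖ * lam A e ρ h i z ^ w ≤ B)
    {z₁ : ℂ} (hz₁ : h z₁ ∉ ZS A ρ) {i₁ : A.ι} (hi₁ : h z₁ ∈ (A.ch i₁).source)
    (h0 : t i₁ (h z₁) = 0) : ∀ z i, h z ∈ (A.ch i).source → t i (h z) = 0 := by
  choose ii hii using fun z => A.cover (h z)
  have his : ∀ z, h z ∈ (A.ch (ii z)).source := fun z => A.W_sub _ (subset_closure (hii z))
  set u : ℂ → ℝ := fun z => ‖t (ii z) (h z)‖ * lam A e ρ h (ii z) z ^ w with hu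
  have hu' : ∀ z i, h z ∈ (A.ch i).source → h z ∉ ZS A ρ →
      u z = ‖t i (h z)‖ * lam A e ρ h i z ^ w := fun z i hi hz =>
    ps3_indep hρ e hh hN ht.tr (his z) hi hz
  -- local expression
  have hloc : ∀ z₀ i, h z₀ ∈ (A.ch i).source → ∃ r : ℂ → ℂ, MeromorphicAt r z₀ ∧
      (∀ᶠ z in 𝓝[≠] z₀, h z ∉ ZS A ρ ∧ r z ≠ 0 ∧ u z = ‖t i (h z) * r z ^ w‖) ∧
      (h z₀ ∉ ZS A ρ → AnalyticAt ℂ r z₀) := by
    intro z₀ i hi
    obtain ⟨r, hr, hr1, hr2⟩ := lam_loc hρ e hR hh hN hne hz hi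
    refine ⟨r, hr, ?_, fun hz₀ => (hr2 hz₀).1⟩
    filter_upwards [zh_disc hρ hh hz z₀, hr1, ((hh z₀).1.eventually
      ((A.ch i).open_source.mem_nhds hi)).filter_mono nhdsWithin_le_nhds] with z' h2 hr1 h5
    refine ⟨h2, hr1.1, ?_⟩
    rw [hu' z' i h5 h2, norm_mul, norm_pow, hr1.2]
  obtain ⟨c, hc⟩ := ls_const (u := u) (Z := {z | h z ∈ ZS A ρ}) (B := B)
    (fun z hz => h1 z (ii z) (his z) hz) (by
      intro z₀
      obtain ⟨r, hr, hr1, -⟩ := hloc z₀ (ii z₀) (his z₀)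
      refine ⟨fun z => t (ii z₀) (h z) * r z ^ w,
        (ps3_an ht.an (hh z₀) (his z₀)).meromorphicAt.mul (hr.pow w), ?_⟩
      filter_upwards [hr1] with z hz
      exact ⟨hz.1, hz.2.2⟩)
  obtain ⟨r, -, hr1, hr2⟩ := hloc z₁ i₁ hi₁
  have hra := hr2 hz₁
  have hfa : AnalyticAt ℂ (fun z => t i₁ (h z) * r z ^ w) z₁ :=
    (ps3_an ht.an (hh z₁) hi₁).mul (hra.pow w)
  -- the constant is zero
  have hc0 : c = 0 := by
    have h2 : Tendsto (fun z => ‖t i₁ (h z) * r z ^ w‖) (𝓝[≠] z₁) (𝓝 0) := by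
      have h3 := hfa.continuousAt.norm.tendsto
      simp only [h0, zero_mul, norm_zero] at h3
      exact h3.mono_left nhdsWithin_le_nhds
    have h3 : Tendsto (fun _ : ℂ => c) (𝓝[≠] z₁) (𝓝 0) := by
      refine h2.congr' ?_
      filter_upwards [hc z₁, hr1] with z h4 h5
      rw [← h5.2.2, h4]
    exact tendsto_nhds_unique tendsto_const_nhds h3
  refine va_ident (z₁ := z₁) ht.an (fun i j x hi hj h0 => ?_) hh ?_
  · rw [ht.tr i j x hi hj, h0, mul_zero]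
  · refine Filter.Eventually.frequently ?_
    filter_upwards [hc z₁, hr1, ((hh z₁).1.eventually
      ((A.ch i₁).open_source.mem_nhds hi₁)).filter_mono nhdsWithin_le_nhds] with z h4 h5 h6 i hi
    have h7 : ‖t i₁ (h z) * r z ^ w‖ = 0 := by rw [← h5.2.2, h4, hc0]
    rw [norm_eq_zero, mul_eq_zero] at h7
    have h8 : t i₁ (h z) = 0 := h7.resolve_right (pow_ne_zero _ h5.2.1)
    rw [ht.tr i i₁ _ hi h6, h8, mul_zero]

/-- PS3: two bounded sections have a linear relation along `h` -/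
theorem sec_comb_pr (hρ : FD A ρ) (e : Module.Basis (Fin 2) ℂ E)
    (hR : ∀ x, x ∈ RS A ρ) (hh : ∀ z, A.HolAt h z) (hN : NA ρ h) (hne : ∃ z z', h z ≠ h z')
    (hz : ∃ z, h z ∉ ZS A ρ) {w : ℕ} {t₁ t₂ : A.ι → X → ℂ} (ht₁ : PS A w t₁) (ht₂ : PS A w t₂)
    {B : ℝ} (h1 : ∀ z i, h z ∈ (A.ch i).source → h z ∉ ZS A ρ →
      ‖t₁ i (h z)‖ * lam A e ρ h i z ^ w ≤ B)
    (h2 : ∀ z i, h z ∈ (A.ch i).source → h z ∉ ZS A ρ →
      ‖t₂ i (h z)‖ * lam A e ρ h i z ^ w ≤ B) :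
    ∃ α β : ℂ, (α ≠ 0 ∨ β ≠ 0) ∧
      ∀ z i, h z ∈ (A.ch i).source → α * t₁ i (h z) + β * t₂ i (h z) = 0 := by
  obtain ⟨z₁, hz₁⟩ := id hz
  obtain ⟨i₁, hi₁'⟩ := A.cover (h z₁)
  have hi₁ : h z₁ ∈ (A.ch i₁).source := A.W_sub _ (subset_closure hi₁')
  obtain ⟨α, β, hαβ, h0⟩ : ∃ α β : ℂ, (α ≠ 0 ∨ β ≠ 0) ∧
      α * t₁ i₁ (h z₁) + β * t₂ i₁ (h z₁) = 0 := by
    by_cases h3 : t₁ i₁ (h z₁) = 0
    · exact ⟨1, 0, Or.inl one_ne_zero, by rw [h3]; ring⟩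
    · exact ⟨t₂ i₁ (h z₁), -t₁ i₁ (h z₁), Or.inr (neg_ne_zero.2 h3), by ring⟩
  refine ⟨α, β, hαβ, ?_⟩
  refine ps3_zero (t := fun i x => α * t₁ i x + β * t₂ i x) (w := w) hρ e hR hh hN hne hz ?_
    (B := ‖α‖ * B + ‖β‖ * B) ?_ hz₁ hi₁ h0
  · constructor
    · intro i x hx
      exact (analyticAt_const.mul (ht₁.an i x hx)).add (analyticAt_const.mul (ht₂.an i x hx))
    · intro i j x hi hj
      rw [ht₁.tr i j x hi hj, ht₂.tr i j x hi hj]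
      ring
  · intro z i hi hzz
    have h3 := h1 z i hi hzz
    have h4 := h2 z i hi hzz
    have h5 : 0 ≤ lam A e ρ h i z := ps3_lam hρ e hi
    calc ‖α * t₁ i (h z) + β * t₂ i (h z)‖ * lam A e ρ h i z ^ w
        ≤ (‖α‖ * ‖t₁ i (h z)‖ + ‖β‖ * ‖t₂ i (h z)‖) * lam A e ρ h i z ^ w := by
          gcongr
          refine (norm_add_le _ _).trans ?_
          rw [norm_mul, norm_mul]
      _ = ‖α‖ * (‖t₁ i (h z)‖ * lam A e ρ h i z ^ w) +
          ‖β‖ * (‖t₂ i (h z)‖ * lam A e ρ h i z ^ w) := by ring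
      _ ≤ ‖α‖ * B + ‖β‖ * B := by gcongr

end charts

end Pool.Agent.KZ

namespace Pool.Agent.KZ

alias sec_comb := sec_comb_pr

end Pool.Agent.KZ
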