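import Pool.Agent.Lib_helper82.KZ.Defs
import Pool.Agent.Lib_helper82.KZ.P.HC2
import Pool.Agent.Lib_helper82.KZ.P.PS1
import Pool.Agent.Lib_helper82.KZ.P.RL1
import Pool.Agent.Lib_helper82.KZ.P.LA
import Pool.Agent.Lib_helper82.KZ.P.CHW
import Pool.Agent.Lib_helper82.KZ.P.BD2
import Pool.Agent.Lib_helper82.KZ.P.AS1
import Pool.Agent.Lib_helper82.KZ.P.PS2
import Pool.Agent.Lib_helper82.KZ.P.AD2
import Pool.Agent.Lib_helper82.KZ.P.PS3
import Pool.Agent.Lib_helper82.KZ.P.NW6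
import Pool.Agent.Lib_helper82.KZ.P.AS2

/-! # Project KZ, block MAIN -/

set_option autoImplicit false
set_option linter.unusedVariables false
set_option linter.unusedSectionVars false

open Filter Topology Metric Set
open scoped Manifold ContDiff

namespace Pool.Agent.KZ

open Pool.Agent.BR Pool.Agent.MBS Pool.Agent.SL Pool.Agent.IS

section charts

variable {E X : Type} [NormedAddCommGroup E] [NormedSpace ℂ E] [FiniteDimensional ℂ E]
  [MetricSpace X] {A : Cha E X} {ρ : X → X → ℝ} {h : ℂ → X}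

/-- the coordinates along an analytic disc are analytic -/
theorem main_an {n k : ℕ} {a : A.ι → X → Fin (n + 1) → ℂ} (ha : AF A n k a) {i : A.ι}
    {d : ℂ → E} (hd : Dsc A i d) (p q r : Fin (n + 1)) :
    AnalyticAt ℂ (fun ζ => (![a i ((A.ch i).symm (d ζ)) p, a i ((A.ch i).symm (d ζ)) q,
      a i ((A.ch i).symm (d ζ)) r] : Fin 3 → ℂ)) 0 := by
  have h0 : (0 : ℂ) ∈ closedBall (0 : ℂ) 1 := by simp
  obtain ⟨h1, h2⟩ := hd.mem 0 h0
  have h3 : AnalyticAt ℂ (fun ξ => a i ((A.ch i).symm ξ)) (d 0) := by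
    have h4 := ha.an i ((A.ch i).symm (d 0)) ((A.ch i).map_target h1)
    rwa [(A.ch i).right_inv h1] at h4
  have h5 : AnalyticAt ℂ (fun ζ => a i ((A.ch i).symm (d ζ))) 0 :=
    h3.fun_comp (hd.an 0 h0)
  have h6 : ∀ s : Fin (n + 1), AnalyticAt ℂ (fun ζ => a i ((A.ch i).symm (d ζ)) s) 0 :=
    fun s => (analyticAt_pi_iff.1 h5) s
  rw [analyticAt_pi_iff]
  intro l
  fin_cases l
  · exact h6 p
  · exact h6 q
  · exact h6 r

theorem rel3_flat_pr [CompactSpace X] [ConnectedSpace X] (hρ : FD A ρ)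
    (e : Module.Basis (Fin 2) ℂ E) (hne : ∃ x, ¬ ∀ᶠ y in 𝓝 x, ρ x y = 0)
    (hh : ∀ z, A.HolAt h z) (hN : NA ρ h) (hnc : ∃ z z', h z ≠ h z') {C₀ : ℝ}
    (hC : ∀ z i, h z ∈ A.W i → ‖deriv (A.loc i h) z‖ ≤ C₀) {n k : ℕ} (hk : 0 < k)
    {a : A.ι → X → Fin (n + 1) → ℂ} (ha : AF A n k a) {ι : X → PP n}
    (hι : ∀ i, ∀ x ∈ (A.ch i).source, ∃ h : a i x ≠ 0, ι x = Projectivization.mk ℂ (a i x) h) :
    Rel3 (fun z => ι (h z)) := by
  have hz0 : ∃ x, x ∉ ZS A ρ := by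
    by_contra hno
    push Not at hno
    obtain ⟨x, hx⟩ := hne
    exact hx (fd_triv hρ (Eventually.of_forall hno))
  refine rel3_of_a hι fun p q r => ?_
  by_cases hR : ∀ x, x ∈ RS A ρ
  · by_cases hz : ∃ z, h z ∉ ZS A ρ
    · obtain ⟨η, c, J, N, ix, d, hη, hc, hd, hb⟩ := bad e hρ hz0
      obtain ⟨D, hD⟩ : ∃ D, 2 * (J * (N * (k * D))) + 4 ≤ (D + 1) * (D + 2) := by
        refine ⟨2 * (J * (N * k)) + 1, ?_⟩
        have h1 : J * (N * (k * (2 * (J * (N * k)) + 1))) =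
            (J * (N * k)) * (2 * (J * (N * k)) + 1) := by ring
        rw [h1]
        generalize J * (N * k) = m
        nlinarith [Nat.zero_le m, Nat.zero_le (m * m)]
      obtain ⟨Q₁, Q₂, h1, h2, h3, h4⟩ := exists_pair
        (fun j ζ => (![a (ix j) ((A.ch (ix j)).symm (d j ζ)) p,
          a (ix j) ((A.ch (ix j)).symm (d j ζ)) q,
          a (ix j) ((A.ch (ix j)).symm (d j ζ)) r] : Fin 3 → ℂ))
        (fun j => main_an ha (hd j) p q r) hD
      obtain ⟨B₁, hB₁⟩ := sec_bd hρ e hR hh hN hnc hz hC hη hc hd hb (ps_poly ha h1 p q r)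
        (fun j l hl => (h4 j l hl).1)
      obtain ⟨B₂, hB₂⟩ := sec_bd hρ e hR hh hN hnc hz hC hη hc hd hb (ps_poly ha h2 p q r)
        (fun j l hl => (h4 j l hl).2)
      obtain ⟨α, β, hαβ, hrel⟩ := sec_comb hρ e hR hh hN hnc hz (ps_poly ha h1 p q r)
        (ps_poly ha h2 p q r) (B := max B₁ B₂)
        (fun z i hi hz => (hB₁ z i hi hz).trans (le_max_left _ _))
        (fun z i hi hz => (hB₂ z i hi hz).trans (le_max_right _ _))
      refine ⟨D, MvPolynomial.C α * Q₁ + MvPolynomial.C β * Q₂, ?_, ?_, fun z i hi => ?_⟩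
      · intro h5
        have h6 := LinearIndependent.pair_iff.1 h3 α β (by
          rw [MvPolynomial.smul_eq_C_mul, MvPolynomial.smul_eq_C_mul]
          exact h5)
        rcases hαβ with h7 | h7
        · exact h7 h6.1
        · exact h7 h6.2
      · refine MvPolynomial.IsHomogeneous.add ?_ ?_
        · exact h1.C_mul α
        · exact h2.C_mul β
      · rw [map_add, map_mul, map_mul, MvPolynomial.eval_C, MvPolynomial.eval_C]
        exact hrel z i hi
    · push Not at hz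
      obtain ⟨d, R, hR0, hRh, hRD⟩ := chow (af_vs ha) (dc_of_as e (zs_as e hρ hz0)) p q r
      exact ⟨d, R, hR0, hRh, fun z i hi => hRD (h z) (hz z) i hi⟩
  · push Not at hR
    obtain ⟨d, R, hR0, hRh, hRD⟩ := chow (af_vs ha) (dc_of_as e (rs_as e hρ hR)) p q r
    exact ⟨d, R, hR0, hRh, fun z i hi => hRD (h z) (in_rs hρ e hh hN hnc z) i hi⟩

end charts

end Pool.Agent.KZ

namespace Pool.Agent.KZ

alias rel3_flat := rel3_flat_pr

end Pool.Agent.KZ
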