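import Pool.Agent.Lib_helper82.KZ.Defs
import Pool.Agent.Lib_helper82.KZ.P.NW1

set_option autoImplicit false

open Filter Topology Metric Set
open scoped Manifold ContDiff

namespace Pool.Agent.KZ

open Pool.Agent.BR Pool.Agent.MBS Pool.Agent.SL Pool.Agent.IS

section charts

variable {E X : Type} [NormedAddCommGroup E] [NormedSpace ℂ E] [FiniteDimensional ℂ E]
  [MetricSpace X] {A : Cha E X} {ρ : X → X → ℝ}

/-- NW6: locally constant models (uses NW1): if the derivative vanishes near `x`, then `ρ x y = 0`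
for `y` near `x` -/
theorem fd_triv_pr (hρ : FD A ρ) {x : X} (hx : ∀ᶠ y in 𝓝 x, y ∈ ZS A ρ) :
    ∀ᶠ y in 𝓝 x, ρ x y = 0 := by
  obtain ⟨V, _, _, _, F, O, hxO, hF⟩ := hρ x
  obtain ⟨i, hi⟩ := A.cover x
  have hi : x ∈ (A.ch i).source := A.W_sub i (subset_closure hi)
  have hc : ContinuousAt (A.ch i).symm (A.ch i x) :=
    (A.ch i).continuousAt_symm ((A.ch i).map_source hi)
  have h1 : ∀ᶠ y in 𝓝 x, y ∈ ZS A ρ ∧ y ∈ O ∩ (A.ch i).source :=
    hx.and ((hF.op.inter (A.ch i).open_source).mem_nhds ⟨hxO, hi⟩)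
  have h2 : ∀ᶠ ξ in 𝓝 (A.ch i x), ((A.ch i).symm ξ ∈ ZS A ρ ∧
      (A.ch i).symm ξ ∈ O ∩ (A.ch i).source) ∧ ξ ∈ (A.ch i).target := by
    refine Eventually.and ?_ ((A.ch i).open_target.mem_nhds ((A.ch i).map_source hi))
    have hc' : Tendsto (A.ch i).symm (𝓝 (A.ch i x)) (𝓝 x) := by
      have h0 := hc.tendsto
      rwa [(A.ch i).left_inv hi] at h0
    exact hc'.eventually h1
  obtain ⟨ε, hε, hb⟩ := Metric.eventually_nhds_iff_ball.mp h2
  have h3 : ∀ ξ ∈ ball (A.ch i x) ε, DifferentiableAt ℂ (fun ξ => F ((A.ch i).symm ξ)) ξ ∧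
      ‖fderiv ℂ (fun ξ => F ((A.ch i).symm ξ)) ξ‖ ≤ 0 := by
    intro ξ hξ
    obtain ⟨⟨h4, h5⟩, h6⟩ := hb ξ hξ
    have h7 : A.ch i ((A.ch i).symm ξ) = ξ := (A.ch i).right_inv h6
    have h8 := hF.an _ h5.1 i h5.2
    rw [h7] at h8
    refine ⟨h8.differentiableAt, ?_⟩
    have h9 : fderiv ℂ (fun ξ => F ((A.ch i).symm ξ)) ξ = 0 := by
      ext v
      have h10 := nw_mod hF h5.1 h5.2 v
      rw [h4 i h5.2 v, h7] at h10
      exact norm_eq_zero.mp h10.symm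
    rw [h9, norm_zero]
  have h4 : ∀ᶠ y in 𝓝 x, A.ch i y ∈ ball (A.ch i x) ε :=
    ((A.ch i).continuousAt hi).eventually (ball_mem_nhds _ hε)
  filter_upwards [h4, h1] with y hy hy1
  have h5 := (convex_ball (A.ch i x) ε).norm_image_sub_le_of_norm_fderiv_le
    (fun ξ hξ => (h3 ξ hξ).1) (fun ξ hξ => (h3 ξ hξ).2) hy (mem_ball_self hε)
  simp only [zero_mul] at h5
  rw [(A.ch i).left_inv hi, (A.ch i).left_inv hy1.2.2] at h5
  rw [hF.eq x hxO y hy1.2.1]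
  exact le_antisymm h5 (norm_nonneg _)

end charts

end Pool.Agent.KZ

namespace Pool.Agent.KZ

alias fd_triv := fd_triv_pr

end Pool.Agent.KZ
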